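import Mathlib

set_option autoImplicit false

/-!
# Patterns with coefficients `-1, 0, 1` whose first moments vanish
-/

namespace Pool.Agent.W610

open Finset

/-- By the pigeonhole principle there is a nonzero pattern of length `k ^ 2 * m` with coefficients
`-1, 0, 1` whose moments of order less than `k` vanish. -/
theorem exists_pte (k m : ℕ) (hk : 0 < k) (hm : k ^ 2 * m + 1 < 2 ^ m) :
    ∃ F : ℕ → ℤ, (∀ w, |F w| ≤ 1) ∧ F 0 ≠ 0 ∧
      ∀ j < k, ∑ w ∈ range (k ^ 2 * m), F w * (w : ℤ) ^ j = 0 := by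
  classical
  obtain ⟨L, hL⟩ : ∃ L, L = k ^ 2 * m := ⟨_, rfl⟩
  rw [← hL] at hm ⊢
  -- the moment map
  have hmom : ∀ S ∈ (range L).powerset, ∀ j : Fin k, ∑ w ∈ S, w ^ (j : ℕ) < L ^ k + 1 := by
    intro S hS j
    rw [mem_powerset] at hS
    have h1 : ∑ w ∈ S, w ^ (j : ℕ) ≤ ∑ w ∈ range L, w ^ (j : ℕ) :=
      sum_le_sum_of_subset hS
    have h2 : ∑ w ∈ range L, w ^ (j : ℕ) ≤ ∑ w ∈ range L, L ^ (j : ℕ) :=
      sum_le_sum fun w hw => Nat.pow_le_pow_left (mem_range.1 hw).le _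
    rw [sum_const, card_range, smul_eq_mul] at h2
    rcases Nat.eq_zero_or_pos L with h0 | h0
    · have h3 : L * L ^ (j : ℕ) = 0 := by rw [h0, Nat.zero_mul]
      omega
    · have h3 : L * L ^ (j : ℕ) ≤ L ^ k := by
        rw [← pow_succ']
        exact Nat.pow_le_pow_right h0 j.2
      omega
  let g : Finset ℕ → (Fin k → Fin (L ^ k + 1)) := fun S j =>
    Fin.ofNat (L ^ k + 1) (∑ w ∈ S, w ^ (j : ℕ))
  have hcard : (univ : Finset (Fin k → Fin (L ^ k + 1))).card < ((range L).powerset).card := by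
    rw [card_univ, Fintype.card_pi, prod_const, Fintype.card_fin, card_univ, Fintype.card_fin,
      card_powerset, card_range]
    have h1 : L ^ k + 1 ≤ (L + 1) ^ k := by
      have h2 : L ^ k + 1 ^ k ≤ (L + 1) ^ k := by
        refine pow_add_pow_le ?_ ?_ ?_ <;> omega
      rwa [one_pow] at h2
    calc (L ^ k + 1) ^ k ≤ ((L + 1) ^ k) ^ k := Nat.pow_le_pow_left h1 k
      _ = (L + 1) ^ (k ^ 2) := by rw [← pow_mul, pow_two]
      _ < (2 ^ m) ^ (k ^ 2) := Nat.pow_lt_pow_left hm (by positivity)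
      _ = 2 ^ L := by rw [← pow_mul, hL, Nat.mul_comm]
  obtain ⟨S, hS, S', hS', hne, hg⟩ := exists_ne_map_eq_of_card_lt_of_maps_to hcard
    (f := g) (fun S _ => mem_univ _)
  have hmomeq : ∀ j < k, ∑ w ∈ S, w ^ j = ∑ w ∈ S', w ^ j := by
    intro j hj
    have h1 := congrArg Fin.val (congrFun hg ⟨j, hj⟩)
    simp only [g, Fin.ofNat] at h1
    rwa [Nat.mod_eq_of_lt (hmom S hS ⟨j, hj⟩), Nat.mod_eq_of_lt (hmom S' hS' ⟨j, hj⟩)] at h1
  rw [mem_powerset] at hS hS'
  obtain ⟨f, hf⟩ : ∃ f : ℕ → ℤ, ∀ w, f w = (if w ∈ S then 1 else 0) - (if w ∈ S' then 1 else 0) :=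
    ⟨_, fun _ => rfl⟩
  have hfabs : ∀ w, |f w| ≤ 1 := by
    intro w
    rw [hf]
    split_ifs <;> simp
  have hfL : ∀ w, L ≤ w → f w = 0 := by
    intro w hw
    rw [hf, if_neg (fun h => by have := mem_range.1 (hS h); omega),
      if_neg (fun h => by have := mem_range.1 (hS' h); omega), sub_zero]
  have hfsum : ∀ j < k, ∑ w ∈ range L, f w * (w : ℤ) ^ j = 0 := by
    intro j hj
    have h1 := hmomeq j hj
    have h2 : ∑ w ∈ range L, f w * (w : ℤ) ^ j =
        (∑ w ∈ S, (w : ℤ) ^ j) - ∑ w ∈ S', (w : ℤ) ^ j := by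
      have e : ∀ A : Finset ℕ, A ⊆ range L → ∑ w ∈ A, (w : ℤ) ^ j =
          ∑ w ∈ range L, (if w ∈ A then (w : ℤ) ^ j else 0) := by
        intro A hA
        rw [← sum_filter]
        congr 1
        ext w
        rw [mem_filter]
        exact ⟨fun h => ⟨hA h, h⟩, fun h => h.2⟩
      rw [e S hS, e S' hS', ← sum_sub_distrib]
      refine sum_congr rfl fun w _ => ?_
      rw [hf]
      split_ifs <;> ring
    rw [h2, sub_eq_zero]
    exact_mod_cast h1
  have hex : ∃ w, f w ≠ 0 := by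
    by_contra hcon
    push Not at hcon
    refine hne (Finset.ext fun w => ?_)
    have h1 := hcon w
    rw [hf] at h1
    by_cases h2 : w ∈ S <;> by_cases h3 : w ∈ S' <;> simp [h2, h3] at h1 ⊢
  obtain ⟨w0, hw0, hmin⟩ : ∃ w0, f w0 ≠ 0 ∧ ∀ w < w0, f w = 0 := by
    refine ⟨Nat.find hex, Nat.find_spec hex, fun w hw => ?_⟩
    by_contra h
    exact Nat.find_min hex hw h
  have hw0L : w0 < L := by
    by_contra h
    exact hw0 (hfL w0 (by omega))
  refine ⟨fun w => f (w + w0), fun w => hfabs _, by simpa using hw0, fun j hj => ?_⟩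
  have h1 : ∑ w ∈ range L, f (w + w0) * (w : ℤ) ^ j =
      ∑ w ∈ range L, f w * ((w : ℤ) - w0) ^ j := by
    have h2 : ∑ w ∈ range L, f (w + w0) * (w : ℤ) ^ j =
        ∑ w ∈ range (L - w0), f (w + w0) * (w : ℤ) ^ j := by
      symm
      refine sum_subset (range_subset_range.2 (by omega)) fun w hw hw' => ?_
      rw [mem_range] at hw hw'
      rw [hfL _ (by omega), zero_mul]
    have h3 : ∑ w ∈ range L, f w * ((w : ℤ) - w0) ^ j =
        ∑ w ∈ Ico w0 L, f w * ((w : ℤ) - w0) ^ j := by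
      symm
      refine sum_subset (fun w hw => ?_) fun w hw hw' => ?_
      · rw [mem_Ico] at hw
        exact mem_range.2 hw.2
      · rw [mem_range] at hw
        rw [mem_Ico] at hw'
        rw [hmin w (by omega), zero_mul]
    rw [h2, h3, sum_Ico_eq_sum_range]
    refine sum_congr rfl fun w _ => ?_
    rw [Nat.add_comm w0 w]
    congr 2
    push_cast
    ring
  rw [h1]
  have h2 : ∀ w : ℕ, f w * ((w : ℤ) - w0) ^ j =
      ∑ i ∈ range (j + 1), ((-(w0 : ℤ)) ^ (j - i) * (j.choose i : ℤ)) * (f w * (w : ℤ) ^ i) := by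
    intro w
    rw [sub_eq_add_neg, add_pow, mul_sum]
    exact sum_congr rfl fun i _ => by ring
  simp only [h2]
  rw [sum_comm]
  refine sum_eq_zero fun i hi => ?_
  rw [← mul_sum, hfsum i (by have := mem_range.1 hi; omega), mul_zero]

end Pool.Agent.W610
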