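import Mathlib
import Pool.Agent.H932R3.Diff

set_option autoImplicit false

/-!
# Moment-free patterns applied to smooth functions
-/

namespace Pool.Agent.W610

open Finset Pool.Agent.H932R3

/-- The geometric expansion with remainder. -/
theorem geo_expand {z c : ℝ} (hz : 0 < z) (hc : 0 ≤ c) (k : ℕ) :
    1 / (z + c) = (∑ j ∈ range k, (-c) ^ j / z ^ (j + 1)) + (-c) ^ k / (z ^ k * (z + c)) := by
  have hzc : 0 < z + c := by linarith
  induction k with
  | zero => simp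
  | succ k ih =>
    rw [sum_range_succ, ih, add_assoc]
    congr 1
    rw [pow_succ (-c) k, pow_succ z k]
    field_simp
    ring

/-- A pattern `F` with coefficients of absolute value at most `1` whose moments of order less than
`k` vanish is small on the function `1 / (z + b w)`. -/
theorem pattern_inv {F : ℕ → ℤ} {L k : ℕ} (hF : ∀ w, |F w| ≤ 1)
    (hmom : ∀ j < k, ∑ w ∈ range L, F w * (w : ℤ) ^ j = 0) {z b : ℝ} (hz : 0 < z) (hb : 0 ≤ b) :
    |∑ w ∈ range L, (F w : ℝ) * (1 / (z + b * w))| ≤ L * ((b * L) ^ k / z ^ (k + 1)) := by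
  have hFR : ∀ w, |(F w : ℝ)| ≤ 1 := fun w => by
    have := hF w
    exact_mod_cast this
  have h1 : ∑ w ∈ range L, (F w : ℝ) * (1 / (z + b * w)) =
      ∑ w ∈ range L, (F w : ℝ) * ((-(b * w)) ^ k / (z ^ k * (z + b * w))) := by
    have h2 : ∀ w : ℕ, (F w : ℝ) * (1 / (z + b * w)) =
        (∑ j ∈ range k, ((-b) ^ j / z ^ (j + 1)) * ((F w : ℝ) * (w : ℝ) ^ j)) +
          (F w : ℝ) * ((-(b * w)) ^ k / (z ^ k * (z + b * w))) := by
      intro w
      rw [geo_expand hz (by positivity) k, mul_add, mul_sum]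
      congr 1
      refine sum_congr rfl fun j _ => ?_
      rw [← neg_mul, mul_pow]
      ring
    rw [sum_congr rfl fun w _ => h2 w, sum_add_distrib, sum_comm]
    have h3 : ∑ j ∈ range k, ∑ w ∈ range L, ((-b) ^ j / z ^ (j + 1)) * ((F w : ℝ) * (w : ℝ) ^ j) =
        0 := by
      refine sum_eq_zero fun j hj => ?_
      rw [← mul_sum]
      have h4 : ∑ w ∈ range L, (F w : ℝ) * (w : ℝ) ^ j = 0 := by
        have h5 := hmom j (mem_range.1 hj)
        have h6 : ((∑ w ∈ range L, F w * (w : ℤ) ^ j : ℤ) : ℝ) = 0 := by rw [h5]; simp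
        push_cast at h6
        exact h6
      rw [h4, mul_zero]
    rw [h3, zero_add]
  rw [h1]
  refine (abs_sum_le_sum_abs _ _).trans ?_
  have h2 : ∀ w ∈ range L, |(F w : ℝ) * ((-(b * w)) ^ k / (z ^ k * (z + b * w)))| ≤
      (b * L) ^ k / z ^ (k + 1) := by
    intro w hw
    have hwL : (w : ℝ) ≤ L := by exact_mod_cast (mem_range.1 hw).le
    have hbw : 0 ≤ b * w := by positivity
    rw [abs_mul, abs_div, abs_pow, abs_neg, abs_of_nonneg hbw,
      abs_of_pos (show 0 < z ^ k * (z + b * w) by positivity)]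
    have h3 : (b * w) ^ k / (z ^ k * (z + b * w)) ≤ (b * L) ^ k / z ^ (k + 1) := by
      refine div_le_div₀ (by positivity) ?_ (by positivity) ?_
      · exact pow_le_pow_left₀ hbw (mul_le_mul_of_nonneg_left hwL hb) k
      · rw [pow_succ]
        exact mul_le_mul_of_nonneg_left (by linarith) (by positivity)
    calc |(F w : ℝ)| * ((b * w) ^ k / (z ^ k * (z + b * w)))
        ≤ 1 * ((b * w) ^ k / (z ^ k * (z + b * w))) :=
          mul_le_mul_of_nonneg_right (hFR w) (by positivity)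
      _ ≤ (b * L) ^ k / z ^ (k + 1) := by rw [one_mul]; exact h3
  refine (sum_le_sum h2).trans ?_
  rw [sum_const, card_range, nsmul_eq_mul]

/-- The difference of the values of the two windows at `x`. -/
noncomputable def hh (x : ℝ) : ℝ := Gk 0 (x + 1) + Gk 0 (x + 3)

theorem hh_eq (x : ℝ) : hh x = (Real.log (x + 3) - Real.log (x + 1)) -
    (Real.log (x + 7) - Real.log (x + 5)) := by
  unfold hh
  rw [Gk_zero, Gk_zero]
  have e1 : x + 1 + 2 = x + 3 := by ring
  have e2 : x + 1 + 4 = x + 5 := by ring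
  have e3 : x + 3 + 2 = x + 5 := by ring
  have e4 : x + 3 + 4 = x + 7 := by ring
  rw [e1, e2, e3, e4]
  ring

/-- The value of a pattern with step `b` at `x`. -/
noncomputable def DD (F : ℕ → ℤ) (L : ℕ) (b x : ℝ) : ℝ :=
  ∑ w ∈ range L, (F w : ℝ) * hh (x + b * w)

/-- A moment-free pattern has a small value. -/
theorem DD_small {F : ℕ → ℤ} {L k : ℕ} (hF : ∀ w, |F w| ≤ 1)
    (hmom : ∀ j < k, ∑ w ∈ range L, F w * (w : ℤ) ^ j = 0) {x b : ℝ} (hx : 0 < x) (hb : 0 ≤ b) :
    |DD F L b x| ≤ 4 * (L * ((b * L) ^ k / x ^ (k + 1))) := by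
  obtain ⟨φ, hφ⟩ : ∃ φ : ℝ → ℝ, ∀ y, φ y = ∑ w ∈ range L, (F w : ℝ) * Real.log (y + b * w) :=
    ⟨_, fun _ => rfl⟩
  obtain ⟨B, hB⟩ : ∃ B : ℝ, B = L * ((b * L) ^ k / x ^ (k + 1)) := ⟨_, rfl⟩
  have hφd : ∀ y, 0 < y → HasDerivAt φ (∑ w ∈ range L, (F w : ℝ) * (1 / (y + b * w))) y := by
    intro y hy
    have h1 : HasDerivAt (fun y => ∑ w ∈ range L, (F w : ℝ) * Real.log (y + b * w))
        (∑ w ∈ range L, (F w : ℝ) * (1 / (y + b * w))) y := by
      refine HasDerivAt.fun_sum fun w _ => ?_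
      refine HasDerivAt.const_mul _ ?_
      have h2 : HasDerivAt (fun y : ℝ => y + b * w) 1 y := (hasDerivAt_id y).add_const _
      exact h2.log (by positivity)
    have h2 : φ = fun y => ∑ w ∈ range L, (F w : ℝ) * Real.log (y + b * w) := funext hφ
    rw [h2]
    exact h1
  have hstep : ∀ y, x ≤ y → |φ (y + 2) - φ y| ≤ 2 * B := by
    intro y hy
    have hy0 : 0 < y := by linarith
    obtain ⟨ξ, hξ, hξ'⟩ := exists_hasDerivAt_eq_slope φ
      (fun z => ∑ w ∈ range L, (F w : ℝ) * (1 / (z + b * w))) (show y < y + 2 by linarith)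
      (fun z hz => (hφd z (by linarith [hz.1])).continuousAt.continuousWithinAt)
      (fun z hz => hφd z (by linarith [hz.1]))
    have hξ0 : 0 < ξ := by linarith [hξ.1]
    have h1 := pattern_inv (z := ξ) hF hmom hξ0 hb
    have h2 : (b * L) ^ k / ξ ^ (k + 1) ≤ (b * L) ^ k / x ^ (k + 1) := by
      refine div_le_div_of_nonneg_left (by positivity) (by positivity) ?_
      exact pow_le_pow_left₀ hx.le (by linarith [hξ.1]) _
    have h3 : |∑ w ∈ range L, (F w : ℝ) * (1 / (ξ + b * w))| ≤ B := by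
      rw [hB]
      exact h1.trans (mul_le_mul_of_nonneg_left h2 (Nat.cast_nonneg L))
    have h4 : φ (y + 2) - φ y = 2 * ∑ w ∈ range L, (F w : ℝ) * (1 / (ξ + b * w)) := by
      have e : y + 2 - y = 2 := by ring
      rw [hξ', e]
      ring
    rw [h4, abs_mul, abs_two]
    linarith
  have hD : DD F L b x = (φ (x + 1 + 2) - φ (x + 1)) - (φ (x + 5 + 2) - φ (x + 5)) := by
    unfold DD
    simp only [hφ]
    rw [← sum_sub_distrib, ← sum_sub_distrib, ← sum_sub_distrib]
    refine sum_congr rfl fun w _ => ?_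
    rw [hh_eq]
    have e1 : x + b * w + 3 = x + 1 + 2 + b * w := by ring
    have e2 : x + b * w + 1 = x + 1 + b * w := by ring
    have e3 : x + b * w + 7 = x + 5 + 2 + b * w := by ring
    have e4 : x + b * w + 5 = x + 5 + b * w := by ring
    rw [e1, e2, e3, e4]
    ring
  have h1 := hstep (x + 1) (by linarith)
  have h2 := hstep (x + 5) (by linarith)
  rw [← hB, hD]
  rw [abs_le] at h1 h2 ⊢
  constructor <;> linarith [h1.1, h1.2, h2.1, h2.2]

theorem hh_eq_log {x : ℝ} (hx : 0 < x) : hh x = Real.log (1 + 8 / ((x + 1) * (x + 7))) := by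
  have h1 : 1 + 8 / ((x + 1) * (x + 7)) = ((x + 3) * (x + 5)) / ((x + 1) * (x + 7)) := by
    field_simp
    ring
  rw [h1, Real.log_div (by positivity) (by positivity), Real.log_mul (by positivity)
    (by positivity), Real.log_mul (by positivity) (by positivity), hh_eq]
  ring

theorem hh_le {x : ℝ} (hx : 0 < x) : hh x ≤ 8 / x ^ 2 := by
  rw [hh_eq_log hx]
  have h1 : 0 < 1 + 8 / ((x + 1) * (x + 7)) := by positivity
  have h2 := Real.log_le_sub_one_of_pos h1
  have h3 : 8 / ((x + 1) * (x + 7)) ≤ 8 / x ^ 2 := by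
    refine div_le_div_of_nonneg_left (by norm_num) (by positivity) ?_
    nlinarith
  linarith

theorem hh_nonneg {x : ℝ} (hx : 0 < x) : 0 ≤ hh x := by
  rw [hh_eq_log hx]
  refine Real.log_nonneg ?_
  have : 0 ≤ 8 / ((x + 1) * (x + 7)) := by positivity
  linarith

theorem hh_ge {x : ℝ} (hx : 20 ≤ x) : 5 / x ^ 2 ≤ hh x := by
  rw [hh_eq_log (by linarith)]
  have hx0 : 0 < x := by linarith
  have h1 : 0 < 1 + 8 / ((x + 1) * (x + 7)) := by positivity
  have h2 := Real.one_sub_inv_le_log_of_pos h1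
  have h3 : 1 - (1 + 8 / ((x + 1) * (x + 7)))⁻¹ = 8 / ((x + 3) * (x + 5)) := by
    have e : 1 + 8 / ((x + 1) * (x + 7)) = ((x + 3) * (x + 5)) / ((x + 1) * (x + 7)) := by
      field_simp
      ring
    rw [e, inv_div]
    field_simp
    ring
  rw [h3] at h2
  refine le_trans ?_ h2
  rw [div_le_div_iff₀ (by positivity) (by positivity)]
  nlinarith

/-- At a position small in comparison with the step, the first window dominates. -/
theorem DD_large {F : ℕ → ℤ} {L : ℕ} (hL : 0 < L) (hF : ∀ w, |F w| ≤ 1) (hF0 : F 0 ≠ 0) {x b : ℝ}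
    (hx : 20 ≤ x) (hb : 3 * x ≤ b) : 1 / x ^ 2 ≤ |DD F L b x| := by
  have hx0 : 0 < x := by linarith
  have hb0 : 0 < b := by linarith
  have hFR : ∀ w, |(F w : ℝ)| ≤ 1 := fun w => by
    have := hF w
    exact_mod_cast this
  have hF01 : |(F 0 : ℝ)| = 1 := by
    have h1 : |F 0| = 1 := by
      have h2 : 0 < |F 0| := abs_pos.2 hF0
      have h3 := hF 0
      omega
    exact_mod_cast h1
  obtain ⟨M, rfl⟩ : ∃ M, L = M + 1 := ⟨L - 1, by omega⟩
  have h1 : DD F (M + 1) b x = (∑ w ∈ range M, (F (w + 1) : ℝ) * hh (x + b * ((w + 1 : ℕ) : ℝ))) +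
      (F 0 : ℝ) * hh x := by
    unfold DD
    rw [sum_range_succ']
    simp
  have h2 : |∑ w ∈ range M, (F (w + 1) : ℝ) * hh (x + b * ((w + 1 : ℕ) : ℝ))| ≤ 16 / b ^ 2 := by
    refine (abs_sum_le_sum_abs _ _).trans ?_
    have h3 : ∀ w ∈ range M, |(F (w + 1) : ℝ) * hh (x + b * ((w + 1 : ℕ) : ℝ))| ≤
        16 / b ^ 2 * (1 / ((w : ℝ) + 1) - 1 / ((w : ℝ) + 1 + 1)) := by
      intro w _
      have hw0 : (0 : ℝ) ≤ w := Nat.cast_nonneg w
      have hpos : 0 < x + b * ((w + 1 : ℕ) : ℝ) := by positivity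
      rw [abs_mul, abs_of_nonneg (hh_nonneg hpos)]
      have h4 : hh (x + b * ((w + 1 : ℕ) : ℝ)) ≤ 8 / (b * ((w : ℝ) + 1)) ^ 2 := by
        refine (hh_le hpos).trans ?_
        refine div_le_div_of_nonneg_left (by norm_num) (by positivity) ?_
        push_cast
        exact pow_le_pow_left₀ (by positivity) (by linarith) 2
      calc |(F (w + 1) : ℝ)| * hh (x + b * ((w + 1 : ℕ) : ℝ)) ≤
            1 * hh (x + b * ((w + 1 : ℕ) : ℝ)) :=
            mul_le_mul_of_nonneg_right (hFR _) (hh_nonneg hpos)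
        _ ≤ 8 / (b * ((w : ℝ) + 1)) ^ 2 := by rw [one_mul]; exact h4
        _ ≤ 16 / b ^ 2 * (1 / ((w : ℝ) + 1) - 1 / ((w : ℝ) + 1 + 1)) := by
            have h5 : 1 / ((w : ℝ) + 1) - 1 / ((w : ℝ) + 1 + 1) =
                1 / (((w : ℝ) + 1) * ((w : ℝ) + 1 + 1)) := by
              field_simp
              ring
            rw [h5, div_mul_div_comm, mul_one, div_le_div_iff₀ (by positivity) (by positivity)]
            have h6 : (0 : ℝ) ≤ b ^ 2 * ((w : ℝ) + 1) := by positivity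
            nlinarith
    refine (sum_le_sum h3).trans ?_
    rw [← mul_sum]
    have h4 : ∑ w ∈ range M, (1 / ((w : ℝ) + 1) - 1 / ((w : ℝ) + 1 + 1)) ≤ 1 := by
      have h5 : ∑ w ∈ range M, (1 / ((w : ℝ) + 1) - 1 / ((w : ℝ) + 1 + 1)) =
          1 - 1 / ((M : ℝ) + 1) := by
        have h6 := sum_range_sub' (fun w : ℕ => 1 / ((w : ℝ) + 1)) M
        simp only [Nat.cast_add, Nat.cast_one, Nat.cast_zero, zero_add] at h6
        rw [h6]
        norm_num
      rw [h5]
      have : 0 ≤ 1 / ((M : ℝ) + 1) := by positivity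
      linarith
    calc 16 / b ^ 2 * ∑ w ∈ range M, (1 / ((w : ℝ) + 1) - 1 / ((w : ℝ) + 1 + 1)) ≤
          16 / b ^ 2 * 1 := mul_le_mul_of_nonneg_left h4 (by positivity)
      _ = 16 / b ^ 2 := mul_one _
  have h3 : 16 / b ^ 2 ≤ 2 / x ^ 2 := by
    have h4 : 9 * x ^ 2 ≤ b ^ 2 := by nlinarith
    rw [div_le_div_iff₀ (by positivity) (by positivity)]
    nlinarith
  have h4 := hh_ge hx
  have h5 : |(F 0 : ℝ) * hh x| = hh x := by
    rw [abs_mul, hF01, one_mul, abs_of_nonneg (hh_nonneg hx0)]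
  have h6 : |(F 0 : ℝ) * hh x| ≤ |DD F (M + 1) b x| +
      |∑ w ∈ range M, (F (w + 1) : ℝ) * hh (x + b * ((w + 1 : ℕ) : ℝ))| := by
    have e : (F 0 : ℝ) * hh x = DD F (M + 1) b x -
        ∑ w ∈ range M, (F (w + 1) : ℝ) * hh (x + b * ((w + 1 : ℕ) : ℝ)) := by
      rw [h1]
      ring
    rw [e]
    exact abs_sub _ _
  rw [h5] at h6
  have h7 : (5 : ℝ) / x ^ 2 = 1 / x ^ 2 + 2 / x ^ 2 + 2 / x ^ 2 := by ring
  have h8 : 0 < 2 / x ^ 2 := by positivity
  linarith

end Pool.Agent.W610
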