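import Mathlib
import Pool.Agent.W610.Smooth

set_option autoImplicit false

/-!
# Values of moment-free patterns on a prescribed scale
-/

namespace Pool.Agent.W610

open Finset Pool.Agent.H932R3

/-- Two moment-free patterns, one inside the other. -/
theorem DD_extrap {F : ℕ → ℤ} {L k : ℕ} (hF : ∀ w, |F w| ≤ 1)
    (hmom : ∀ j < k, ∑ w ∈ range L, F w * (w : ℤ) ^ j = 0) {x b s : ℝ} (hx : 0 < x) (hb : 0 ≤ b)
    (hs : 0 ≤ s) :
    |∑ i ∈ range L, (F i : ℝ) * DD F L b (x + s * i)| ≤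
      L * (4 * (L * ((s * L) ^ k / x ^ (k + 1)))) := by
  have hFR : ∀ w, |(F w : ℝ)| ≤ 1 := fun w => by
    have := hF w
    exact_mod_cast this
  have h1 : ∑ i ∈ range L, (F i : ℝ) * DD F L b (x + s * i) =
      ∑ w ∈ range L, (F w : ℝ) * DD F L s (x + b * w) := by
    unfold DD
    simp only [mul_sum]
    rw [sum_comm]
    refine sum_congr rfl fun w _ => sum_congr rfl fun i _ => ?_
    have e : x + s * i + b * w = x + b * w + s * i := by ring
    rw [e]
    ring
  rw [h1]
  refine (abs_sum_le_sum_abs _ _).trans ?_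
  have h2 : ∀ w ∈ range L, |(F w : ℝ) * DD F L s (x + b * w)| ≤
      4 * (L * ((s * L) ^ k / x ^ (k + 1))) := by
    intro w _
    have hbw : 0 ≤ b * w := by positivity
    have h3 := DD_small hF hmom (x := x + b * w) (b := s) (by linarith) hs
    have h4 : (s * L) ^ k / (x + b * w) ^ (k + 1) ≤ (s * L) ^ k / x ^ (k + 1) := by
      refine div_le_div_of_nonneg_left (by positivity) (by positivity) ?_
      exact pow_le_pow_left₀ hx.le (by linarith) _
    rw [abs_mul]
    calc |(F w : ℝ)| * |DD F L s (x + b * w)| ≤ 1 * |DD F L s (x + b * w)| :=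
          mul_le_mul_of_nonneg_right (hFR w) (abs_nonneg _)
      _ = |DD F L s (x + b * w)| := one_mul _
      _ ≤ 4 * (L * ((s * L) ^ k / (x + b * w) ^ (k + 1))) := h3
      _ ≤ 4 * (L * ((s * L) ^ k / x ^ (k + 1))) := by
          refine mul_le_mul_of_nonneg_left ?_ (by norm_num)
          exact mul_le_mul_of_nonneg_left h4 (Nat.cast_nonneg L)
  refine (sum_le_sum h2).trans ?_
  rw [sum_const, card_range, nsmul_eq_mul]

theorem ratio_pow {a x : ℝ} {k : ℕ} (ha : 0 ≤ a) (hx : 0 < x) (h : 2 * a ≤ x) :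
    a ^ k / x ^ (k + 1) ≤ 1 / (2 ^ k * x) := by
  rw [div_le_div_iff₀ (by positivity) (by positivity), one_mul, pow_succ, ← mul_assoc, ← mul_pow]
  refine mul_le_mul_of_nonneg_right ?_ hx.le
  refine pow_le_pow_left₀ (by positivity) ?_ k
  linarith

/-- There is a position at which the value of the pattern is on a prescribed scale, up to the
length of the pattern. -/
theorem scale {F : ℕ → ℤ} {L k : ℕ} (hL : 0 < L) (hF : ∀ w, |F w| ≤ 1) (hF0 : F 0 ≠ 0)
    (hmom : ∀ j < k, ∑ w ∈ range L, F w * (w : ℤ) ^ j = 0) {x0 s b P Y ε : ℝ}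
    (hP : 20 ≤ P) (hx0 : P ≤ x0) (hx0' : x0 ≤ 2 * P) (hs0 : 0 < s) (hs : 2 * (s * L) ≤ P)
    (hb : 6 * P ≤ b) (hbY : 2 * (b * L) ≤ Y)
    (hε : 4 * (L : ℝ) ^ 2 / (2 ^ k * P) < ε) (hε' : ε ≤ 1 / (4 * P ^ 2)) :
    ∃ t : ℕ, x0 + s * t ≤ Y ∧ ε ≤ |DD F L b (x0 + s * t)| ∧
      |DD F L b (x0 + s * t)| ≤ L * ε := by
  classical
  have hP0 : 0 < P := by linarith
  have hb0 : 0 < b := by linarith
  have hLR : (1 : ℝ) ≤ L := by exact_mod_cast hL
  have hLR0 : (0 : ℝ) < L := by linarith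
  have hxt : ∀ t : ℕ, 0 < x0 + s * t := fun t => by
    have : 0 ≤ s * (t : ℝ) := by positivity
    linarith
  have hxt' : ∀ t : ℕ, P ≤ x0 + s * t := fun t => by
    have : 0 ≤ s * (t : ℝ) := by positivity
    linarith
  have hε0 : 0 < ε :=
    lt_trans (div_pos (mul_pos (by norm_num) (pow_pos hLR0 2)) (by positivity)) hε
  -- the far range
  have hfar : ∀ t : ℕ, Y < x0 + s * t → |DD F L b (x0 + s * t)| < ε := by
    intro t ht
    refine lt_of_le_of_lt (DD_small hF hmom (hxt t) hb0.le) (lt_of_le_of_lt ?_ hε)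
    have h1 := ratio_pow (a := b * L) (x := x0 + s * t) (k := k) (by positivity) (hxt t)
      (by linarith)
    have h2 : 1 / (2 ^ k * (x0 + s * t)) ≤ 1 / (2 ^ k * P) := by
      refine one_div_le_one_div_of_le (by positivity) ?_
      exact mul_le_mul_of_nonneg_left (hxt' t) (by positivity)
    calc 4 * ((L : ℝ) * ((b * L) ^ k / (x0 + s * t) ^ (k + 1)))
        ≤ 4 * ((L : ℝ) * (1 / (2 ^ k * P))) := by
          refine mul_le_mul_of_nonneg_left ?_ (by norm_num)
          exact mul_le_mul_of_nonneg_left (h1.trans h2) (by positivity)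
      _ = 4 * (L : ℝ) / (2 ^ k * P) := by ring
      _ ≤ 4 * (L : ℝ) ^ 2 / (2 ^ k * P) := by
          refine div_le_div_of_nonneg_right ?_ (by positivity)
          nlinarith
  have hgood0 : ε ≤ |DD F L b (x0 + s * (0 : ℕ))| := by
    have h1 := DD_large (F := F) (L := L) hL hF hF0 (x := x0) (b := b) (by linarith) (by linarith)
    have e : x0 + s * ((0 : ℕ) : ℝ) = x0 := by simp
    rw [e]
    refine hε'.trans (le_trans ?_ h1)
    refine one_div_le_one_div_of_le (pow_pos (by linarith) 2) ?_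
    have : x0 ^ 2 ≤ (2 * P) ^ 2 := pow_le_pow_left₀ (by linarith) hx0' 2
    linarith
  obtain ⟨N, hN⟩ : ∃ N : ℕ, Y / s < N := exists_nat_gt _
  have hbd : ∀ t : ℕ, ε ≤ |DD F L b (x0 + s * t)| → t ≤ N := by
    intro t ht
    by_contra hcon
    have h1 : N ≤ t := by omega
    have h2 : (N : ℝ) ≤ t := by exact_mod_cast h1
    have h3 : Y < s * t := by
      rw [div_lt_iff₀ hs0] at hN
      have := mul_le_mul_of_nonneg_left h2 hs0.le
      linarith
    have := hfar t (by linarith)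
    linarith
  obtain ⟨t, ht⟩ : ∃ t, t = Nat.findGreatest (fun t : ℕ => ε ≤ |DD F L b (x0 + s * t)|) N :=
    ⟨_, rfl⟩
  have ht1 : ε ≤ |DD F L b (x0 + s * t)| := by
    rw [ht]
    exact Nat.findGreatest_spec (P := fun t : ℕ => ε ≤ |DD F L b (x0 + s * t)|) (Nat.zero_le N)
      hgood0
  have ht2 : ∀ t' : ℕ, t < t' → |DD F L b (x0 + s * t')| < ε := by
    intro t' htt
    by_contra hcon
    rw [not_lt] at hcon
    have h1 := hbd t' hcon
    rw [ht] at htt
    exact Nat.findGreatest_is_greatest htt h1 hcon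
  refine ⟨t, ?_, ht1, ?_⟩
  · by_contra hcon
    rw [not_le] at hcon
    have := hfar t hcon
    linarith
  · have h1 := DD_extrap hF hmom (x := x0 + s * t) (b := b) (s := s) (hxt t) hb0.le hs0.le
    have h2 : (L : ℝ) * (4 * (L * ((s * L) ^ k / (x0 + s * t) ^ (k + 1)))) ≤ ε := by
      refine le_trans ?_ hε.le
      have h3 := ratio_pow (a := s * L) (x := x0 + s * t) (k := k) (by positivity) (hxt t)
        (by linarith [hxt' t])
      have h4 : 1 / (2 ^ k * (x0 + s * t)) ≤ 1 / (2 ^ k * P) := by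
        refine one_div_le_one_div_of_le (by positivity) ?_
        exact mul_le_mul_of_nonneg_left (hxt' t) (by positivity)
      calc (L : ℝ) * (4 * (L * ((s * L) ^ k / (x0 + s * t) ^ (k + 1))))
          ≤ (L : ℝ) * (4 * (L * (1 / (2 ^ k * P)))) := by
            refine mul_le_mul_of_nonneg_left ?_ (by positivity)
            refine mul_le_mul_of_nonneg_left ?_ (by norm_num)
            exact mul_le_mul_of_nonneg_left (h3.trans h4) (by positivity)
        _ = 4 * (L : ℝ) ^ 2 / (2 ^ k * P) := by ring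
    obtain ⟨M, rfl⟩ : ∃ M, L = M + 1 := ⟨L - 1, by omega⟩
    rw [sum_range_succ'] at h1
    have h5 : |∑ i ∈ range M, (F (i + 1) : ℝ) * DD F (M + 1) b (x0 + s * t + s * ((i + 1 : ℕ) : ℝ))|
        ≤ M * ε := by
      refine (abs_sum_le_sum_abs _ _).trans ?_
      have h6 : ∀ i ∈ range M,
          |(F (i + 1) : ℝ) * DD F (M + 1) b (x0 + s * t + s * ((i + 1 : ℕ) : ℝ))| ≤ ε := by
        intro i _
        have h7 := ht2 (t + (i + 1)) (by omega)
        have e : x0 + s * ((t + (i + 1) : ℕ) : ℝ) = x0 + s * t + s * ((i + 1 : ℕ) : ℝ) := by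
          push_cast
          ring
        rw [e] at h7
        have h8 : |(F (i + 1) : ℝ)| ≤ 1 := by
          have := hF (i + 1)
          exact_mod_cast this
        rw [abs_mul]
        calc |(F (i + 1) : ℝ)| * |DD F (M + 1) b (x0 + s * t + s * ((i + 1 : ℕ) : ℝ))| ≤
              1 * |DD F (M + 1) b (x0 + s * t + s * ((i + 1 : ℕ) : ℝ))| :=
              mul_le_mul_of_nonneg_right h8 (abs_nonneg _)
          _ ≤ ε := by rw [one_mul]; exact h7.le
      refine (sum_le_sum h6).trans ?_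
      rw [sum_const, card_range, nsmul_eq_mul]
    have h6 : |(F 0 : ℝ)| = 1 := by
      have h7 : |F 0| = 1 := by
        have h2 : 0 < |F 0| := abs_pos.2 hF0
        have h3 := hF 0
        omega
      exact_mod_cast h7
    have h7 : |(F 0 : ℝ) * DD F (M + 1) b (x0 + s * t + s * ((0 : ℕ) : ℝ))| =
        |DD F (M + 1) b (x0 + s * t)| := by
      rw [abs_mul, h6, one_mul]
      simp
    rw [← h7]
    obtain ⟨A, hA⟩ : ∃ A, A = ∑ i ∈ range M,
      (F (i + 1) : ℝ) * DD F (M + 1) b (x0 + s * t + s * ((i + 1 : ℕ) : ℝ)) := ⟨_, rfl⟩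
    obtain ⟨B, hB⟩ : ∃ B, B = (F 0 : ℝ) * DD F (M + 1) b (x0 + s * t + s * ((0 : ℕ) : ℝ)) :=
      ⟨_, rfl⟩
    rw [← hA, ← hB] at h1
    rw [← hA] at h5
    rw [← hB]
    have h8 : |B| ≤ |A + B| + |A| := by
      have e : B = (A + B) - A := by ring
      rw [e]
      have := abs_sub (A + B) A
      have e2 : A + (A + B - A) = A + B := by ring
      rw [e2]
      exact this
    push_cast at h1 h2 ⊢
    linarith

end Pool.Agent.W610
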