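import Mathlib
import Pool.Agent.W610.Scale

set_option autoImplicit false

/-!
# Choosing signs, and walking with interleaved patterns
-/

namespace Pool.Agent.W610

open Finset Pool.Agent.H932R3

/-- One stage of the choice of signs. -/
theorem stage_signs {M : ℝ} {L : ℕ} (hL : 0 < L) (a : ℕ → ℝ)
    (ha : ∀ i < L, M / (2 * L) ≤ |a i| ∧ |a i| ≤ M / 2) {ζ : ℝ} (hζ : |ζ| ≤ M) :
    ∃ e : ℕ → ℤ, (∀ i, |e i| = 1) ∧ |ζ - ∑ i ∈ range L, (e i : ℝ) * a i| ≤ M / 2 := by
  have hLR : (0 : ℝ) < L := by exact_mod_cast hL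
  have key : ∀ n ≤ L, ∃ e : ℕ → ℤ, (∀ i, |e i| = 1) ∧
      |ζ - ∑ i ∈ range n, (e i : ℝ) * a i| ≤ max (M - n * (M / (2 * L))) (M / 2) := by
    intro n
    induction n with
    | zero =>
      intro _
      refine ⟨fun _ => 1, fun _ => by simp, ?_⟩
      simp only [range_zero, sum_empty, sub_zero, Nat.cast_zero, zero_mul]
      exact hζ.trans (le_max_left _ _)
    | succ n ih =>
      intro hn
      obtain ⟨e, he, hz⟩ := ih (by omega)
      obtain ⟨z, hzdef⟩ : ∃ z, z = ζ - ∑ i ∈ range n, (e i : ℝ) * a i := ⟨_, rfl⟩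
      rw [← hzdef] at hz
      obtain ⟨ha1, ha2⟩ := ha n (by omega)
      obtain ⟨ε, hε, hε2⟩ : ∃ ε : ℤ, |ε| = 1 ∧ |z - (ε : ℝ) * a n| = |(|z| - |a n|)| := by
        rcases le_total 0 z with h1 | h1 <;> rcases le_total 0 (a n) with h2 | h2
        · refine ⟨1, by norm_num, ?_⟩
          rw [abs_of_nonneg h1, abs_of_nonneg h2]
          norm_num
        · refine ⟨-1, by norm_num, ?_⟩
          rw [abs_of_nonneg h1, abs_of_nonpos h2]
          norm_num
        · refine ⟨-1, by norm_num, ?_⟩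
          rw [abs_of_nonpos h1, abs_of_nonneg h2]
          have e1 : z - ((-1 : ℤ) : ℝ) * a n = -(-z - a n) := by
            push_cast
            ring
          rw [e1, abs_neg]
        · refine ⟨1, by norm_num, ?_⟩
          rw [abs_of_nonpos h1, abs_of_nonpos h2]
          have e1 : z - ((1 : ℤ) : ℝ) * a n = -(-z - -a n) := by
            push_cast
            ring
          rw [e1, abs_neg]
      refine ⟨fun i => if i = n then ε else e i, fun i => ?_, ?_⟩
      · show |if i = n then ε else e i| = 1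
        split_ifs
        · exact hε
        · exact he i
      · rw [sum_range_succ]
        have h3 : ∑ i ∈ range n, (((if i = n then ε else e i : ℤ)) : ℝ) * a i =
            ∑ i ∈ range n, (e i : ℝ) * a i := by
          refine sum_congr rfl fun i hi => ?_
          have : i ≠ n := (mem_range.1 hi).ne
          rw [if_neg this]
        have h3' : (((fun i => if i = n then ε else e i) n : ℤ) : ℝ) = ε := by simp
        rw [h3', h3, ← sub_sub, ← hzdef, hε2]
        have h4 : 0 ≤ |z| := abs_nonneg z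
        have h5 : 0 ≤ |a n| := abs_nonneg _
        rw [abs_le]
        constructor
        · have h6 : M / 2 ≤ max (M - ((n + 1 : ℕ) : ℝ) * (M / (2 * L))) (M / 2) := le_max_right _ _
          linarith
        · rcases le_max_iff.1 hz with h6 | h6
          · refine le_trans ?_ (le_max_left _ _)
            push_cast
            linarith
          · refine le_trans ?_ (le_max_right _ _)
            linarith
  obtain ⟨e, he, hz⟩ := key L le_rfl
  refine ⟨e, he, hz.trans ?_⟩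
  have h1 : (L : ℝ) * (M / (2 * L)) = M / 2 := by
    field_simp
  rw [h1]
  exact max_le (by linarith) le_rfl

/-- The choice of signs over all stages. -/
theorem all_signs {M : ℝ} {L : ℕ} (hL : 0 < L) (a : ℕ → ℝ) {ζ : ℝ} (hζ : |ζ| ≤ M)
    (J : ℕ) (ha : ∀ j < J, ∀ i < L, M / 2 ^ j / (2 * L) ≤ |a (j * L + i)| ∧
      |a (j * L + i)| ≤ M / 2 ^ j / 2) :
    ∃ e : ℕ → ℤ, (∀ i, |e i| = 1) ∧ |ζ - ∑ i ∈ range (J * L), (e i : ℝ) * a i| ≤ M / 2 ^ J := by
  induction J with
  | zero =>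
    refine ⟨fun _ => 1, fun _ => by simp, ?_⟩
    simpa using hζ
  | succ J ih =>
    obtain ⟨e, he, hz⟩ := ih (fun j hj => ha j (by omega))
    obtain ⟨z, hzdef⟩ : ∃ z, z = ζ - ∑ i ∈ range (J * L), (e i : ℝ) * a i := ⟨_, rfl⟩
    rw [← hzdef] at hz
    obtain ⟨e', he', hz'⟩ := stage_signs (M := M / 2 ^ J) hL
      (fun i => a (J * L + i)) (fun i hi => ha J (by omega) i hi) hz
    refine ⟨fun i => if i < J * L then e i else e' (i - J * L), fun i => ?_, ?_⟩
    · show |if i < J * L then e i else e' (i - J * L)| = 1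
      split_ifs
      · exact he i
      · exact he' _
    · have e1 : (J + 1) * L = J * L + L := by ring
      rw [e1, sum_range_add]
      have h3 : ∑ i ∈ range (J * L), (((if i < J * L then e i else e' (i - J * L) : ℤ)) : ℝ) * a i =
          ∑ i ∈ range (J * L), (e i : ℝ) * a i := by
        refine sum_congr rfl fun i hi => ?_
        rw [if_pos (mem_range.1 hi)]
      have h4 : ∑ i ∈ range L, (((if J * L + i < J * L then e (J * L + i)
          else e' (J * L + i - J * L) : ℤ)) : ℝ) * a (J * L + i) =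
          ∑ i ∈ range L, (e' i : ℝ) * a (J * L + i) := by
        refine sum_congr rfl fun i _ => ?_
        rw [if_neg (by omega), Nat.add_sub_cancel_left]
      rw [h3, h4, ← sub_sub, ← hzdef]
      refine hz'.trans (le_of_eq ?_)
      rw [pow_succ]
      field_simp

/-- Patterns placed in different residue classes can be superposed. -/
theorem sum_reorg {R L V β : ℕ} {t : ℕ → ℕ} (hβ : 0 < β)
    (hV : ∀ ρ < R, ∀ w < L, ρ + R * (t ρ + β * w) < V) {e F : ℕ → ℤ} (he : ∀ i, |e i| ≤ 1)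
    (hF : ∀ i, |F i| ≤ 1) :
    ∃ c : ℕ → ℤ, (∀ v, |c v| ≤ 1) ∧ ∀ g : ℤ → ℕ → ℝ, (∀ v, g 0 v = 0) →
      ∑ v ∈ range V, g (c v) v =
        ∑ ρ ∈ range R, ∑ w ∈ range L, g (e ρ * F w) (ρ + R * (t ρ + β * w)) := by
  classical
  obtain ⟨φ, hφ⟩ : ∃ φ : ℕ × ℕ → ℕ, ∀ x, φ x = x.1 + R * (t x.1 + β * x.2) := ⟨_, fun _ => rfl⟩
  have hinj : ∀ x ∈ range R ×ˢ range L, ∀ y ∈ range R ×ˢ range L, φ x = φ y → x = y := by
    intro x hx y hy hxy
    rw [mem_product, mem_range, mem_range] at hx hy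
    rw [hφ, hφ] at hxy
    have hR : 0 < R := by omega
    have h1 : x.1 = y.1 := by
      have h2 := congrArg (· % R) hxy
      simp only [Nat.add_mul_mod_self_left] at h2
      rwa [Nat.mod_eq_of_lt hx.1, Nat.mod_eq_of_lt hy.1] at h2
    rw [h1] at hxy
    have h2 : R * (t y.1 + β * x.2) = R * (t y.1 + β * y.2) := by omega
    have h3 := Nat.eq_of_mul_eq_mul_left hR h2
    have h4 : β * x.2 = β * y.2 := by omega
    have h5 := Nat.eq_of_mul_eq_mul_left hβ h4
    exact Prod.ext h1 h5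
  obtain ⟨c, hc⟩ : ∃ c : ℕ → ℤ, ∀ v, c v =
      ∑ x ∈ range R ×ˢ range L, if φ x = v then e x.1 * F x.2 else 0 := ⟨_, fun _ => rfl⟩
  have hcφ : ∀ x ∈ range R ×ˢ range L, c (φ x) = e x.1 * F x.2 := by
    intro x hx
    rw [hc, sum_eq_single x]
    · rw [if_pos rfl]
    · intro y hy hyx
      rw [if_neg]
      intro h
      exact hyx (hinj y hy x hx h)
    · intro h
      exact absurd hx h
  have hc0 : ∀ v, v ∉ (range R ×ˢ range L).image φ → c v = 0 := by
    intro v hv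
    rw [hc]
    refine sum_eq_zero fun x hx => ?_
    rw [if_neg]
    intro h
    exact hv (mem_image.2 ⟨x, hx, h⟩)
  refine ⟨c, fun v => ?_, fun g hg => ?_⟩
  · by_cases hv : v ∈ (range R ×ˢ range L).image φ
    · obtain ⟨x, hx, rfl⟩ := mem_image.1 hv
      rw [hcφ x hx, abs_mul]
      have h1 := he x.1
      have h2 := hF x.2
      have h3 := abs_nonneg (e x.1)
      have h4 := abs_nonneg (F x.2)
      nlinarith
    · rw [hc0 v hv]
      norm_num
  · have h1 : (range R ×ˢ range L).image φ ⊆ range V := by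
      intro v hv
      obtain ⟨x, hx, rfl⟩ := mem_image.1 hv
      rw [mem_product, mem_range, mem_range] at hx
      rw [mem_range, hφ]
      exact hV x.1 hx.1 x.2 hx.2
    rw [← sum_subset h1 (fun v _ hv => by rw [hc0 v hv, hg]), sum_image hinj, sum_product]
    refine sum_congr rfl fun ρ hρ => sum_congr rfl fun w hw => ?_
    rw [hcφ (ρ, w) (mem_product.2 ⟨hρ, hw⟩), hφ]

/-- The difference of the two values. -/
noncomputable def gg (x : ℝ) : ℝ := Gk 0 (x + 1) - Gk 0 (x + 3)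

theorem gg_nonneg {x : ℝ} (hx : 0 < x) : 0 ≤ gg x := by
  unfold gg
  have := Gk_anti 0 (show 0 < x + 1 by linarith) (show 0 < (2 : ℝ) by norm_num)
  have e : x + 1 + 2 = x + 3 := by ring
  rw [e] at this
  linarith

theorem gg_le {x : ℝ} (hx : 0 < x) : gg x ≤ 16 / x ^ 3 := by
  obtain ⟨h1, h2⟩ := Dk_good 0
  have hlt : x + 1 < x + 3 := by linarith
  obtain ⟨η, hη, hη'⟩ := exists_hasDerivAt_eq_slope (Dk 0 0) (fun y => -Dk 0 1 y) hlt
    (fun y hy => (h1 0 y (by linarith [hy.1])).continuousAt.continuousWithinAt)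
    (fun y hy => h1 0 y (by linarith [hy.1]))
  obtain ⟨ξ, hξ1, _, hξ3⟩ := h2 1 η (by linarith [hη.1])
  have hξ0 : 0 < ξ := by linarith [hη.1]
  have h3 : x + 3 - (x + 1) = 2 := by ring
  have h4 : gg x = 2 * Dk 0 1 η := by
    unfold gg Gk
    rw [h3, eq_div_iff (by norm_num)] at hη'
    linarith
  have h5 : Dk 0 1 η = 8 / ξ ^ 3 := by
    rw [hξ3]
    have e : (1 : ℕ) + (0 + 2) = 2 + 1 := rfl
    rw [e, Bf_succ]
    have e2 : ((shQ 0 : ℕ) : ℝ) = 4 := by norm_num [shQ]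
    rw [e2]
    have e3 : ((Nat.factorial 2 : ℕ) : ℝ) = 2 := by norm_num [Nat.factorial]
    rw [e3]
    ring
  have h6 : 8 / ξ ^ 3 ≤ 8 / x ^ 3 := by
    refine div_le_div_of_nonneg_left (by norm_num) (by positivity) ?_
    exact pow_le_pow_left₀ hx.le (by linarith [hη.1]) 3
  rw [h4, h5]
  have e : (16 : ℝ) / x ^ 3 = 2 * (8 / x ^ 3) := by ring
  rw [e]
  linarith

/-- The change of the deviation in one window. -/
noncomputable def tau (c : ℤ) (x : ℝ) : ℝ := -(c * hh x) / 2 + (|c| : ℤ) * gg x / 2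

theorem tau_zero (x : ℝ) : tau 0 x = 0 := by simp [tau]

theorem tau_one (x : ℝ) : tau 1 x = -Gk 0 (x + 3) := by
  unfold tau hh gg
  norm_num
  ring

theorem tau_neg_one (x : ℝ) : tau (-1) x = Gk 0 (x + 1) := by
  unfold tau hh gg
  norm_num
  ring

theorem G0_le {y : ℝ} (hy : 0 < y) : Gk 0 y ≤ 4 / y ^ 2 := by
  obtain ⟨_, h2⟩ := Dk_good 0
  obtain ⟨ξ, hξ1, _, hξ3⟩ := h2 0 y hy
  unfold Gk
  rw [hξ3]
  have e : (0 : ℕ) + (0 + 2) = 1 + 1 := rfl
  rw [e, Bf_succ]
  have e2 : ((shQ 0 : ℕ) : ℝ) = 4 := by norm_num [shQ]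
  rw [e2]
  have e3 : ((Nat.factorial 1 : ℕ) : ℝ) = 1 := by norm_num [Nat.factorial]
  rw [e3]
  have h6 : 1 / ξ ^ 2 ≤ 1 / y ^ 2 :=
    one_div_le_one_div_of_le (by positivity) (pow_le_pow_left₀ hy.le hξ1 2)
  have e4 : (4 : ℝ) / y ^ 2 = 4 * (1 / y ^ 2) := by ring
  rw [e4]
  have e5 : (1 + 1 : ℕ) = 2 := rfl
  rw [e5]
  linarith

theorem int_cases {c : ℤ} (hc : |c| ≤ 1) : c = 0 ∨ c = 1 ∨ c = -1 := by
  rw [abs_le] at hc
  omega

theorem tau_abs {c : ℤ} (hc : |c| ≤ 1) {x P : ℝ} (hP : 0 < P) (hx : P ≤ x) :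
    |tau c x| ≤ (|c| : ℤ) * (4 / P ^ 2) := by
  have hx0 : 0 < x := by linarith
  have key : ∀ y, P ≤ y → Gk 0 y ≤ 4 / P ^ 2 := by
    intro y hy
    refine (G0_le (by linarith)).trans ?_
    exact div_le_div_of_nonneg_left (by norm_num) (by positivity) (pow_le_pow_left₀ hP.le hy 2)
  rcases int_cases hc with rfl | rfl | rfl
  · rw [tau_zero]
    simp
  · rw [tau_one, abs_neg, abs_of_pos (Gk_pos 0 (by linarith))]
    norm_num
    exact key _ (by linarith)
  · rw [tau_neg_one, abs_of_pos (Gk_pos 0 (by linarith))]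
    norm_num
    exact key _ (by linarith)

/-- The moves which are allowed. -/
def Walkable (S : ℕ → ℝ → Prop) (r P : ℕ) : Prop :=
  ∀ (p : ℕ) (T : ℝ), P ≤ p → p ≤ r → p % 4 = r % 4 → |T| ≤ 1 / (32 * (r : ℝ)) → S p T →
    S (p + 4) T ∧ S (p + 8) (T - Gk 0 ((p : ℝ) + 3)) ∧ S (p + 8) (T + Gk 0 ((p : ℝ) + 1))

theorem walk {S : ℕ → ℝ → Prop} {r P : ℕ} (hW : Walkable S r P) (hmod : P % 4 = r % 4)
    {c : ℕ → ℤ} (hc : ∀ v, |c v| ≤ 1) {T0 : ℝ} (h0 : S P T0) (V : ℕ) (hV : P + 8 * V ≤ r)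
    (hT : ∀ v ≤ V, |T0 + ∑ i ∈ range v, tau (c i) ((P : ℝ) + 8 * i)| ≤ 1 / (32 * (r : ℝ))) :
    S (P + 8 * V) (T0 + ∑ i ∈ range V, tau (c i) ((P : ℝ) + 8 * i)) := by
  induction V with
  | zero => simpa using h0
  | succ V ih =>
    have h1 := ih (by omega) (fun v hv => hT v (by omega))
    have h2 := hT V (by omega)
    rw [sum_range_succ, ← add_assoc]
    obtain ⟨T, hTdef⟩ : ∃ T, T = T0 + ∑ i ∈ range V, tau (c i) ((P : ℝ) + 8 * i) := ⟨_, rfl⟩
    rw [← hTdef] at h1 h2 ⊢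
    obtain ⟨h3, h4, h5⟩ := hW (P + 8 * V) T (by omega) (by omega) (by omega) h2 h1
    have e : P + 8 * (V + 1) = P + 8 * V + 8 := by ring
    have e2 : ((P + 8 * V : ℕ) : ℝ) = (P : ℝ) + 8 * V := by push_cast; ring
    rw [e]
    rw [e2] at h4 h5
    rcases int_cases (hc V) with hcv | hcv | hcv
    · rw [hcv, tau_zero, add_zero]
      exact (hW (P + 8 * V + 4) T (by omega) (by omega) (by omega) h2 h3).1
    · rw [hcv, tau_one, ← sub_eq_add_neg]
      exact h4
    · rw [hcv, tau_neg_one]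
      exact h5

theorem walk_to {S : ℕ → ℝ → Prop} {r P : ℕ} (hW : Walkable S r P) {p : ℕ} (hp : P ≤ p)
    (hmod : p % 4 = r % 4) {T : ℝ} (hT : |T| ≤ 1 / (32 * (r : ℝ))) (h : S p T) (hpr : p ≤ r) :
    S r T := by
  obtain ⟨n, hn⟩ : ∃ n, r = p + 4 * n := ⟨(r - p) / 4, by omega⟩
  have key : ∀ i ≤ n, S (p + 4 * i) T := by
    intro i
    induction i with
    | zero => intro _; exact h
    | succ i ih =>
      intro hi
      exact (hW (p + 4 * i) T (by omega) (by omega) (by omega) hT (ih (by omega))).1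
  rw [hn]
  exact key n le_rfl

end Pool.Agent.W610
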