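import Mathlib
import Pool.Agent.W610.Pte
import Pool.Agent.W610.Slots

set_option autoImplicit false

/-!
# The deviation can be made exponentially small
-/

namespace Pool.Agent.W610

open Finset Pool.Agent.H932R3

theorem core {S : ℕ → ℝ → Prop} {r P J m k L : ℕ} (hW : Walkable S r P) (hmod : P % 4 = r % 4)
    (hJ : 1 ≤ J) (hk : k = J + 2 * m) (hL : L = k ^ 2 * m) (hm : 6 ≤ m) (hr : r < 2 ^ m)
    (h1 : 112 * (L * P) ≤ r) (h2 : 16 * (J * L ^ 2) ≤ P) (h3 : 160 * (r * (J * L ^ 2)) ≤ P ^ 2)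
    {T0 : ℝ} (hT0 : 0 ≤ T0) (hT0' : T0 ≤ 4 / (P : ℝ) ^ 2) (h0 : S P T0) :
    ∃ T, S r T ∧ 0 ≤ T ∧ T ≤ L / (2 * P ^ 2 * 2 ^ J) := by
  classical
  have hk13 : 13 ≤ k := by omega
  have hL1000 : 1000 ≤ L := by
    rw [hL]
    have h4 : 13 ^ 2 ≤ k ^ 2 := Nat.pow_le_pow_left hk13 2
    calc 1000 ≤ 13 ^ 2 * 6 := by norm_num
      _ ≤ k ^ 2 * m := Nat.mul_le_mul h4 hm
  have hJL : L ≤ J * L ^ 2 := by
    have h4 : L * 1 ≤ L ^ 2 := by
      rw [pow_two]
      exact Nat.mul_le_mul_left L (by omega)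
    have h5 : 1 * L ^ 2 ≤ J * L ^ 2 := Nat.mul_le_mul_right _ hJ
    omega
  have hP1000 : 16000 ≤ P := by omega
  have hPL : P ≤ L * P := Nat.le_mul_of_pos_left P (by omega)
  have hLLP : L ≤ L * P := Nat.le_mul_of_pos_right L (by omega)
  have hLr : L + 1 ≤ r := by omega
  obtain ⟨F, hF, hF0, hmom⟩ := exists_pte k m (by omega) (by rw [← hL]; omega)
  rw [← hL] at hmom
  obtain ⟨R, hR⟩ : ∃ R, R = J * L := ⟨_, rfl⟩
  have hRL : R * L = J * L ^ 2 := by rw [hR]; ring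
  rw [← hRL] at h2 h3 hJL
  have hR1 : 1 ≤ R := by
    rw [hR]
    exact Nat.mul_pos (by omega) (by omega)
  have hRRL : R ≤ R * L := Nat.le_mul_of_pos_right R (by omega)
  -- the step of the pattern
  obtain ⟨β, hβ0, hβ1, hβ2⟩ : ∃ β : ℕ, 0 < β ∧ 6 * P ≤ 8 * R * β ∧ 8 * R * β ≤ 7 * P := by
    refine ⟨6 * P / (8 * R) + 1, Nat.succ_pos _, ?_, ?_⟩
    · have h4 := Nat.lt_mul_div_succ (6 * P) (show 0 < 8 * R by omega)
      exact h4.le
    · have h4 := Nat.mul_div_le (6 * P) (8 * R)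
      rw [Nat.mul_add, Nat.mul_one]
      omega
  -- casts
  have hPR : (16000 : ℝ) ≤ P := by exact_mod_cast hP1000
  have hP0 : (0 : ℝ) < P := by linarith
  have hLR : (1000 : ℝ) ≤ L := by exact_mod_cast hL1000
  have hL0 : (0 : ℝ) < L := by linarith
  have hrR : ((L : ℝ) + 1) ≤ r := by exact_mod_cast hLr
  have hr0 : (0 : ℝ) < r := by linarith
  have h1R : 112 * ((L : ℝ) * P) ≤ r := by exact_mod_cast h1
  have h2R : 16 * ((R : ℝ) * L) ≤ P := by exact_mod_cast h2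
  have h3R : 160 * ((r : ℝ) * (R * L)) ≤ (P : ℝ) ^ 2 := by exact_mod_cast h3
  have hRR : (1 : ℝ) ≤ R := by exact_mod_cast hR1
  have hR0 : (0 : ℝ) < R := by linarith
  have hβ1R : 6 * (P : ℝ) ≤ 8 * R * β := by exact_mod_cast hβ1
  have hβ2R : 8 * (R : ℝ) * β ≤ 7 * P := by exact_mod_cast hβ2
  have h2J : (0 : ℝ) < 2 ^ J := by positivity
  -- the positions
  have hpos : ∀ ρ : ℕ, ∃ t : ℕ, ρ < R →
      ((P : ℝ) + 8 * ρ) + 8 * R * t ≤ r / 8 ∧
      1 / (4 * (P : ℝ) ^ 2) / 2 ^ (ρ / L) ≤ |DD F L (8 * R * β) (((P : ℝ) + 8 * ρ) + 8 * R * t)| ∧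
      |DD F L (8 * R * β) (((P : ℝ) + 8 * ρ) + 8 * R * t)| ≤
        L * (1 / (4 * (P : ℝ) ^ 2) / 2 ^ (ρ / L)) := by
    intro ρ
    by_cases hρ : ρ < R
    · have hρR : (ρ : ℝ) ≤ R := by exact_mod_cast hρ.le
      have hRP : 8 * (R : ℝ) ≤ P := by
        have : (R : ℝ) * 1 ≤ R * L := mul_le_mul_of_nonneg_left (by linarith) hR0.le
        linarith
      have hj : ρ / L < J := by
        rw [Nat.div_lt_iff_lt_mul (by omega)]
        omega
      have hjp : (2 : ℝ) ^ (ρ / L) ≤ 2 ^ J := pow_le_pow_right₀ (by norm_num) hj.le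
      have h2j : (0 : ℝ) < 2 ^ (ρ / L) := by positivity
      obtain ⟨t, ht1, ht2, ht3⟩ := scale (F := F) (L := L) (k := k) (by omega) hF hF0 hmom
        (x0 := (P : ℝ) + 8 * ρ) (s := 8 * R) (b := 8 * R * β) (P := P) (Y := r / 8)
        (ε := 1 / (4 * (P : ℝ) ^ 2) / 2 ^ (ρ / L)) (by linarith)
        (by
          have : (0 : ℝ) ≤ ρ := Nat.cast_nonneg ρ
          linarith)
        (by linarith) (by linarith) (by linarith) hβ1R
        (by
          have h4 : 8 * (R : ℝ) * β * L ≤ 7 * P * L := mul_le_mul_of_nonneg_right hβ2R hL0.le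
          linarith)
        (by
          rw [div_div, div_lt_div_iff₀ (by positivity) (by positivity)]
          have h5 : (2 : ℝ) ^ k = 2 ^ J * (2 ^ m * 2 ^ m) := by
            rw [hk, pow_add, two_mul, pow_add]
          have h6 : (r : ℝ) < 2 ^ m := by exact_mod_cast hr
          have h7 : (r : ℝ) * r < 2 ^ m * 2 ^ m := mul_lt_mul'' h6 h6 hr0.le hr0.le
          have h8 : 16 * ((L : ℝ) ^ 2 * P) ≤ r * r := by
            have h9 : (L : ℝ) * (112 * (L * P)) ≤ r * r :=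
              mul_le_mul (by linarith) h1R (by positivity) hr0.le
            have h10 : 0 < (L : ℝ) ^ 2 * P := by positivity
            linarith [h9, h10, show (L : ℝ) * (112 * (L * P)) = 112 * ((L : ℝ) ^ 2 * P) by ring]
          calc 4 * (L : ℝ) ^ 2 * (4 * (P : ℝ) ^ 2 * 2 ^ (ρ / L))
              = 16 * ((L : ℝ) ^ 2 * (P : ℝ)) * 2 ^ (ρ / L) * (P : ℝ) := by ring
            _ ≤ ((r : ℝ) * r) * 2 ^ (ρ / L) * (P : ℝ) := by
                refine mul_le_mul_of_nonneg_right ?_ hP0.le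
                exact mul_le_mul_of_nonneg_right h8 h2j.le
            _ ≤ ((r : ℝ) * r) * 2 ^ J * (P : ℝ) := by
                refine mul_le_mul_of_nonneg_right ?_ hP0.le
                exact mul_le_mul_of_nonneg_left hjp (by positivity)
            _ < ((2 : ℝ) ^ m * 2 ^ m) * 2 ^ J * (P : ℝ) := by
                refine mul_lt_mul_of_pos_right ?_ hP0
                exact mul_lt_mul_of_pos_right h7 h2J
            _ = 1 * ((2 : ℝ) ^ k * (P : ℝ)) := by rw [h5]; ring)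
        (by
          refine div_le_self (by positivity) ?_
          exact one_le_pow₀ (by norm_num))
      exact ⟨t, fun _ => ⟨ht1, ht2, ht3⟩⟩
    · exact ⟨0, fun h => absurd h hρ⟩
  choose t ht using hpos
  obtain ⟨V, hV⟩ : ∃ V, V = (r - P) / 8 := ⟨_, rfl⟩
  have hPr : P ≤ r := by omega
  have hV1 : P + 8 * V ≤ r := by omega
  have hV2 : r < P + 8 * V + 8 := by omega
  have hV2R : (r : ℝ) < P + 8 * V + 8 := by exact_mod_cast hV2
  have hVlt : ∀ ρ < R, ∀ w < L, ρ + R * (t ρ + β * w) < V := by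
    intro ρ hρ w hw
    obtain ⟨h4, _, _⟩ := ht ρ hρ
    have hwR : (w : ℝ) ≤ L := by exact_mod_cast hw.le
    have h5 : 8 * (R : ℝ) * β * w ≤ 7 * P * L :=
      mul_le_mul hβ2R hwR (Nat.cast_nonneg w) (by positivity)
    have h6 : ((ρ + R * (t ρ + β * w) : ℕ) : ℝ) < V := by
      push_cast
      have h7 : (112000 : ℝ) ≤ r := by
        have : (1000 : ℝ) * 16000 ≤ L * P := mul_le_mul hLR hPR (by norm_num) hL0.le
        linarith
      have e : (P : ℝ) + 8 * (ρ + R * (t ρ + β * w)) =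
        P + 8 * ρ + 8 * R * (t ρ) + 8 * R * β * w := by ring
      linarith
    exact_mod_cast h6
  -- the values
  obtain ⟨D, hD⟩ : ∃ D : ℕ → ℝ, ∀ ρ, D ρ =
    DD F L (8 * R * β) (((P : ℝ) + 8 * ρ) + 8 * R * (t ρ)) := ⟨_, fun _ => rfl⟩
  obtain ⟨E, hE⟩ : ∃ E : ℕ → ℝ, ∀ ρ, E ρ = ∑ w ∈ range L,
    ((|F w| : ℤ) : ℝ) * gg (((P : ℝ) + 8 * ρ) + 8 * R * (t ρ) + 8 * R * β * w) / 2 :=
    ⟨_, fun _ => rfl⟩
  obtain ⟨M, hM⟩ : ∃ M : ℝ, M = L / (4 * (P : ℝ) ^ 2) := ⟨_, rfl⟩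
  have hM0 : 0 < M := by rw [hM]; positivity
  have hxpos : ∀ ρ w : ℕ, (P : ℝ) ≤ ((P : ℝ) + 8 * ρ) + 8 * R * (t ρ) + 8 * R * β * w := by
    intro ρ w
    have h4 : (0 : ℝ) ≤ 8 * ρ := by positivity
    have h5 : (0 : ℝ) ≤ 8 * R * (t ρ) := by positivity
    have h6 : (0 : ℝ) ≤ 8 * R * β * w := by positivity
    linarith
  have hE0 : ∀ ρ, 0 ≤ E ρ := by
    intro ρ
    rw [hE]
    refine sum_nonneg fun w _ => ?_
    have h4 : 0 ≤ gg (((P : ℝ) + 8 * ρ) + 8 * R * (t ρ) + 8 * R * β * w) :=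
      gg_nonneg (lt_of_lt_of_le hP0 (hxpos ρ w))
    have h5 : (0 : ℝ) ≤ ((|F w| : ℤ) : ℝ) := by exact_mod_cast abs_nonneg (F w)
    positivity
  have hE1 : ∀ ρ, E ρ ≤ L * (8 / (P : ℝ) ^ 3) := by
    intro ρ
    rw [hE]
    have h4 : ∀ w ∈ range L,
        ((|F w| : ℤ) : ℝ) * gg (((P : ℝ) + 8 * ρ) + 8 * R * (t ρ) + 8 * R * β * w) / 2 ≤
        8 / (P : ℝ) ^ 3 := by
      intro w _
      have h5 : ((|F w| : ℤ) : ℝ) ≤ 1 := by exact_mod_cast hF w
      have h6 := gg_le (lt_of_lt_of_le hP0 (hxpos ρ w))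
      have h7 := gg_nonneg (lt_of_lt_of_le hP0 (hxpos ρ w))
      have h8 : 16 / (((P : ℝ) + 8 * ρ) + 8 * R * (t ρ) + 8 * R * β * w) ^ 3 ≤
          16 / (P : ℝ) ^ 3 :=
        div_le_div_of_nonneg_left (by norm_num) (by positivity)
          (pow_le_pow_left₀ hP0.le (hxpos ρ w) 3)
      have h9 := mul_le_mul_of_nonneg_right h5 h7
      have e : (8 : ℝ) / (P : ℝ) ^ 3 = 16 / (P : ℝ) ^ 3 / 2 := by ring
      rw [e]
      linarith
    refine (sum_le_sum h4).trans ?_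
    rw [sum_const, card_range, nsmul_eq_mul]
  have hEs0 : 0 ≤ ∑ ρ ∈ range R, E ρ := sum_nonneg fun ρ _ => hE0 ρ
  have hEs1 : ∑ ρ ∈ range R, E ρ ≤ 1 / (2 * (P : ℝ) ^ 2) := by
    refine (sum_le_sum fun ρ _ => hE1 ρ).trans ?_
    rw [sum_const, card_range, nsmul_eq_mul]
    have e : (R : ℝ) * (L * (8 / (P : ℝ) ^ 3)) = (16 * (R * L)) / (2 * (P : ℝ) ^ 3) := by
      field_simp
      ring
    rw [e, div_le_div_iff₀ (by positivity) (by positivity)]
    calc 16 * ((R : ℝ) * L) * (2 * (P : ℝ) ^ 2) ≤ P * (2 * (P : ℝ) ^ 2) :=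
          mul_le_mul_of_nonneg_right h2R (by positivity)
      _ = 1 * (2 * (P : ℝ) ^ 3) := by ring
  obtain ⟨η, hη⟩ : ∃ η : ℝ, η = M / 2 ^ J := ⟨_, rfl⟩
  have hη0 : 0 ≤ η := by rw [hη]; positivity
  have hη1 : η ≤ M := by
    rw [hη]
    exact div_le_self hM0.le (one_le_pow₀ (by norm_num))
  have hMbig : 5 / (P : ℝ) ^ 2 ≤ M := by
    rw [hM, div_le_div_iff₀ (by positivity) (by positivity)]
    have : (0 : ℝ) < (P : ℝ) ^ 2 := by positivity
    nlinarith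
  have hP2 : (0 : ℝ) < 1 / (P : ℝ) ^ 2 := by positivity
  -- the signs
  obtain ⟨e, he, hsum⟩ := all_signs (M := M) (L := L) (by omega) (fun ρ => D ρ / 2)
    (ζ := T0 + ∑ ρ ∈ range R, E ρ - η) (by
      rw [abs_le]
      have e1 : (4 : ℝ) / (P : ℝ) ^ 2 = 4 * (1 / (P : ℝ) ^ 2) := by ring
      have e2 : (5 : ℝ) / (P : ℝ) ^ 2 = 5 * (1 / (P : ℝ) ^ 2) := by ring
      have e3 : 1 / (2 * (P : ℝ) ^ 2) = 1 / 2 * (1 / (P : ℝ) ^ 2) := by
        field_simp
      rw [e1] at hT0'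
      rw [e2] at hMbig
      rw [e3] at hEs1
      constructor <;> linarith) J (by
      intro j hj i hi
      have h4 : j * L + i < R := by
        have h5 : (j + 1) * L ≤ J * L := Nat.mul_le_mul_right L (by omega)
        rw [Nat.add_mul, Nat.one_mul] at h5
        omega
      have h5 : (j * L + i) / L = j := by
        rw [Nat.div_eq_iff (by omega)]
        constructor
        · omega
        · have : j * L + L = (j + 1) * L := by ring
          omega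
      obtain ⟨_, h6, h7⟩ := ht (j * L + i) h4
      rw [h5, ← hD] at h6 h7
      have h8 : |D (j * L + i) / 2| = |D (j * L + i)| / 2 := by
        rw [abs_div, abs_two]
      show M / 2 ^ j / (2 * L) ≤ |D (j * L + i) / 2| ∧ |D (j * L + i) / 2| ≤ M / 2 ^ j / 2
      rw [h8, hM]
      have h2j : (0 : ℝ) < 2 ^ j := by positivity
      have e1 : (L : ℝ) / (4 * (P : ℝ) ^ 2) / 2 ^ j / (2 * L) =
          (1 / (4 * (P : ℝ) ^ 2) / 2 ^ j) / 2 := by
        field_simp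
      have e2 : (L : ℝ) / (4 * (P : ℝ) ^ 2) / 2 ^ j / 2 =
          (L * (1 / (4 * (P : ℝ) ^ 2) / 2 ^ j)) / 2 := by
        field_simp
      rw [e1, e2]
      constructor <;> linarith)
  rw [← hR] at hsum
  -- the superposition
  obtain ⟨c, hc, hcs⟩ := sum_reorg (V := V) hβ0 hVlt (e := e) (F := F) (fun i => (he i).le) hF
  have habs : ∑ v ∈ range V, ((|c v| : ℤ) : ℝ) ≤ R * L := by
    rw [hcs (fun z _ => ((|z| : ℤ) : ℝ)) (fun v => by simp)]
    have h4 : ∀ ρ ∈ range R, ∑ w ∈ range L, ((|e ρ * F w| : ℤ) : ℝ) ≤ L := by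
      intro ρ _
      have h5 : ∀ w ∈ range L, ((|e ρ * F w| : ℤ) : ℝ) ≤ 1 := by
        intro w _
        rw [abs_mul, he, one_mul]
        exact_mod_cast hF w
      refine (sum_le_sum h5).trans ?_
      rw [sum_const, card_range, nsmul_eq_mul, mul_one]
    refine (sum_le_sum h4).trans ?_
    rw [sum_const, card_range, nsmul_eq_mul]
  have htot : ∑ v ∈ range V, tau (c v) ((P : ℝ) + 8 * v) =
      ∑ ρ ∈ range R, (-((e ρ : ℝ) * (D ρ / 2)) + E ρ) := by
    rw [hcs (fun z v => tau z ((P : ℝ) + 8 * v)) (fun v => tau_zero _)]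
    refine sum_congr rfl fun ρ _ => ?_
    rw [hD, hE]
    unfold DD
    rw [sum_div, mul_sum, ← sum_neg_distrib, ← sum_add_distrib]
    refine sum_congr rfl fun w _ => ?_
    have e1 : (P : ℝ) + 8 * ((ρ + R * (t ρ + β * w) : ℕ) : ℝ) =
        P + 8 * ρ + 8 * R * (t ρ) + 8 * R * β * w := by
      push_cast
      ring
    rw [e1]
    unfold tau
    rw [abs_mul, he, one_mul]
    push_cast
    ring
  have hbound : ∀ v ≤ V, |T0 + ∑ i ∈ range v, tau (c i) ((P : ℝ) + 8 * i)| ≤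
      1 / (32 * (r : ℝ)) := by
    intro v hv
    have h4 : |∑ i ∈ range v, tau (c i) ((P : ℝ) + 8 * i)| ≤ (R * L) * (4 / (P : ℝ) ^ 2) := by
      refine (abs_sum_le_sum_abs _ _).trans ?_
      have h5 : ∀ i ∈ range v, |tau (c i) ((P : ℝ) + 8 * i)| ≤
          ((|c i| : ℤ) : ℝ) * (4 / (P : ℝ) ^ 2) := by
        intro i _
        refine tau_abs (hc i) hP0 ?_
        have : (0 : ℝ) ≤ 8 * i := by positivity
        linarith
      refine (sum_le_sum h5).trans ?_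
      rw [← sum_mul]
      refine mul_le_mul_of_nonneg_right ?_ (by positivity)
      refine le_trans ?_ habs
      refine sum_le_sum_of_subset_of_nonneg ?_ ?_
      · intro x hx
        rw [mem_range] at hx ⊢
        omega
      · intro i _ _
        exact_mod_cast abs_nonneg (c i)
    refine (abs_add_le _ _).trans ?_
    rw [abs_of_nonneg hT0]
    have h6 : (4 : ℝ) / (P : ℝ) ^ 2 + (R * L) * (4 / (P : ℝ) ^ 2) ≤ (5 * (R * L)) / (P : ℝ) ^ 2 := by
      have h7 : (4 : ℝ) ≤ R * L := by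
        have : (1 : ℝ) * 1000 ≤ R * L := mul_le_mul hRR hLR (by norm_num) hR0.le
        linarith
      have e1 : (4 : ℝ) / (P : ℝ) ^ 2 + (R * L) * (4 / (P : ℝ) ^ 2) =
          (4 + 4 * (R * L)) / (P : ℝ) ^ 2 := by ring
      rw [e1]
      refine div_le_div_of_nonneg_right ?_ (by positivity)
      linarith
    have h8 : (5 * ((R : ℝ) * L)) / (P : ℝ) ^ 2 ≤ 1 / (32 * (r : ℝ)) := by
      rw [div_le_div_iff₀ (by positivity) (by positivity)]
      calc 5 * ((R : ℝ) * L) * (32 * r) = 160 * ((r : ℝ) * (R * L)) := by ring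
        _ ≤ (P : ℝ) ^ 2 := h3R
        _ = 1 * (P : ℝ) ^ 2 := (one_mul _).symm
    linarith
  have hwalk := walk hW hmod hc h0 V hV1 hbound
  obtain ⟨T, hTdef⟩ : ∃ T, T = T0 + ∑ i ∈ range V, tau (c i) ((P : ℝ) + 8 * i) := ⟨_, rfl⟩
  have hTb := hbound V le_rfl
  rw [← hTdef] at hwalk hTb
  have hfin := walk_to hW (p := P + 8 * V) (by omega) (by omega) hTb hwalk hV1
  have hTval : T = η + (T0 + ∑ ρ ∈ range R, E ρ - η - ∑ ρ ∈ range R, (e ρ : ℝ) * (D ρ / 2)) := by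
    rw [hTdef, htot, sum_add_distrib, sum_neg_distrib]
    ring
  rw [← hη] at hsum
  rw [abs_le] at hsum
  refine ⟨T, hfin, ?_, ?_⟩
  · rw [hTval]
    linarith [hsum.1]
  · have h4 : (L : ℝ) / (2 * P ^ 2 * 2 ^ J) = 2 * η := by
      rw [hη, hM]
      field_simp
      ring
    rw [h4, hTval]
    linarith [hsum.2]

end Pool.Agent.W610
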