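import Mathlib
import Pool.Agent.H932R5.Reach
import Pool.Agent.W610.Core

set_option autoImplicit false

/-!
# Ratios reachable from `s0` exponentially close to every large real number
-/

namespace Pool.Agent.W610

open Pool.Agent.H932R3 Pool.Agent.H932R5

theorem RV_walkable {r P : ℕ} {s0 u κ : ℝ} (hs : 0 < s0) (ht : Tgt r u κ) (hP : 100 ≤ P)
    (hsm : Small r P) : Walkable (RV s0 κ) r P := fun _ _ hp hpr hmod hT h =>
  ⟨RV.stepU hs ht hP hsm hp hpr hmod hT h, RV.stepA hs ht hP hsm hp hpr hmod hT h,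
    RV.stepB hs ht hP hsm hp hpr hmod hT h⟩

/-- The arithmetic of the parameters. -/
theorem param {r J L q P : ℕ} (hL1 : 1 ≤ L) (hbig : 2 ^ 53 * (J * L ^ 4) ≤ r)
    (hrq : r ≤ 13 * (112 * L * q ^ 2)) (hP1 : q ^ 2 ≤ P) (hP2 : P ≤ 12 * q ^ 2)
    (hAq : q ^ 2 * (12 * (112 * L)) ≤ r) :
    112 * (L * P) ≤ r ∧ 16 * (J * L ^ 2) ≤ P ∧ 160 * (r * (J * L ^ 2)) ≤ P ^ 2 := by
  have h0 : r ≤ 1456 * L * P := by
    have h1 : 13 * (112 * L * q ^ 2) = 1456 * L * q ^ 2 := by ring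
    have h2 : 1456 * L * q ^ 2 ≤ 1456 * L * P := Nat.mul_le_mul_left _ hP1
    omega
  have hL34 : J * L ^ 3 ≤ J * L ^ 4 :=
    Nat.mul_le_mul_left J (Nat.pow_le_pow_right hL1 (by norm_num))
  refine ⟨?_, ?_, ?_⟩
  · have h1 : 112 * (L * P) ≤ 112 * (L * (12 * q ^ 2)) :=
      Nat.mul_le_mul_left _ (Nat.mul_le_mul_left _ hP2)
    have h2 : 112 * (L * (12 * q ^ 2)) = q ^ 2 * (12 * (112 * L)) := by ring
    omega
  · have h1 : 1456 * L * (16 * (J * L ^ 2)) ≤ 1456 * L * P := by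
      refine le_trans ?_ h0
      have e : 1456 * L * (16 * (J * L ^ 2)) = 23296 * (J * L ^ 3) := by ring
      rw [e]
      omega
    exact Nat.le_of_mul_le_mul_left h1 (by omega)
  · have h1 : (1456 * L) ^ 2 * (160 * (r * (J * L ^ 2))) ≤ (1456 * L) ^ 2 * P ^ 2 := by
      have h2 : r * r ≤ (1456 * L * P) * (1456 * L * P) := Nat.mul_le_mul h0 h0
      have h3 : r * (2 ^ 53 * (J * L ^ 4)) ≤ r * r := Nat.mul_le_mul_left r hbig
      have e1 : (1456 * L) ^ 2 * (160 * (r * (J * L ^ 2))) = 339189760 * (r * (J * L ^ 4)) := by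
        ring
      have e2 : r * (2 ^ 53 * (J * L ^ 4)) = 2 ^ 53 * (r * (J * L ^ 4)) := by ring
      have e3 : (1456 * L * P) * (1456 * L * P) = (1456 * L) ^ 2 * P ^ 2 := by ring
      rw [e1]
      rw [e3] at h2
      rw [e2] at h3
      omega
    exact Nat.le_of_mul_le_mul_left h1 (by positivity)

/-- The deviation at the target, with parameters. -/
theorem up_param {r J m k L : ℕ} {s0 u : ℝ} (hs : 1 ≤ s0) (hJ : 1 ≤ J) (hk : k = J + 2 * m)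
    (hL : L = k ^ 2 * m) (hm : 6 ≤ m) (hr : r < 2 ^ m) (hbig : 2 ^ 53 * (J * L ^ 4) ≤ r)
    (hs0 : 1456 * (L : ℝ) * s0 ≤ r) (hur : |u - r| ≤ 1 / 2) :
    ∃ σ, Up s0 σ ∧ σ ≤ u ∧ u - σ ≤ 1 / 2 ^ J := by
  have hL1 : 1 ≤ L := by
    rw [hL]
    have : 0 < k := by omega
    exact Nat.mul_pos (by positivity) (by omega)
  have hL14 : 1 ≤ J * L ^ 4 := Nat.mul_pos (by omega) (by positivity)
  have hL34 : L ^ 3 ≤ J * L ^ 4 := by
    calc L ^ 3 ≤ L ^ 4 := Nat.pow_le_pow_right hL1 (by norm_num)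
      _ ≤ J * L ^ 4 := Nat.le_mul_of_pos_left _ (by omega)
  have hr1 : 2 ^ 53 ≤ r := by omega
  obtain ⟨κ, hκ⟩ : ∃ κ, κ = bet r - Real.log u / 2 := ⟨_, rfl⟩
  have ht : Tgt r u κ := ⟨hκ, hur⟩
  obtain ⟨q, hqQ, hAq, hrq⟩ := exists_q (r := r) (A := 112 * L) (Q0 := 22048 * (112 * L))
    (by omega) (by omega) (by
      have e : 22048 * (112 * L) * (22048 * (112 * L)) * (12 * (112 * L)) =
        8195467162681344 * L ^ 3 := by ring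
      rw [e]
      omega)
  have h12 : 12 * q ^ 2 ≤ r := by
    have : q ^ 2 * 12 ≤ q ^ 2 * (12 * (112 * L)) := Nat.mul_le_mul_left _ (by omega)
    omega
  have hLR : (0 : ℝ) < L := by exact_mod_cast hL1
  have hrR : (2 : ℝ) ^ 53 ≤ r := by exact_mod_cast hr1
  have hr0 : (0 : ℝ) < r := by
    have : (0 : ℝ) < 2 ^ 53 := by positivity
    linarith
  have hsq : s0 ≤ (q : ℝ) ^ 2 := by
    have h1 : (r : ℝ) ≤ 13 * (112 * L * (q : ℝ) ^ 2) := by exact_mod_cast hrq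
    have h2 : 1456 * (L : ℝ) * s0 ≤ 1456 * L * (q : ℝ) ^ 2 := by linarith
    exact le_of_mul_le_mul_left h2 (by positivity)
  have hs00 : 0 < s0 := by linarith
  obtain ⟨P, T0, hP1, hP2, hPm, hT, hT1, hT2, _⟩ := reach_window hs ht (by omega) (by omega)
    (by omega) hrq h12 hsq
  have hq2 : q ≤ q ^ 2 := by
    rw [pow_two]
    exact Nat.le_mul_of_pos_left q (by omega)
  have hsm' : Small r P := fun p hp =>
    small_of (q := q) (A := 112 * L) (by omega) (by omega) (by omega) hrq (by omega) p (by omega)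
  obtain ⟨g1, g2, g3⟩ := param hL1 hbig hrq hP1 hP2 hAq
  have hP0 : (0 : ℝ) < P := by exact_mod_cast (show 0 < P by omega)
  have hP20 : (0 : ℝ) < 1 / (P : ℝ) ^ 2 := by positivity
  obtain ⟨T, hTr, hTn, hTle⟩ := core (RV_walkable hs00 ht (by omega) hsm') hPm hJ hk hL hm hr g1 g2
    g3 (T0 := T0) (by
      have e : (2 : ℝ) / (P : ℝ) ^ 2 = 2 * (1 / (P : ℝ) ^ 2) := by ring
      rw [e] at hT1
      linarith) (by
      have e : (18 : ℝ) / (5 * (P : ℝ) ^ 2) = 18 / 5 * (1 / (P : ℝ) ^ 2) := by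
        field_simp
      have e2 : (4 : ℝ) / (P : ℝ) ^ 2 = 4 * (1 / (P : ℝ) ^ 2) := by ring
      rw [e] at hT2
      rw [e2]
      linarith) hT
  obtain ⟨σ, hσ, hlog⟩ := hTr
  have hσ0 : 0 < σ := hσ.pos hs00
  rw [abs_le] at hur
  have h253 : (1 : ℝ) ≤ 2 ^ 53 := one_le_pow₀ (by norm_num)
  have hu0 : 0 < u := by linarith [hur.1]
  have hlog' : Real.log σ = Real.log u - 2 * T := by
    rw [hlog, hκ]
    ring
  have hσe : σ = u * Real.exp (-(2 * T)) := by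
    rw [← Real.exp_log hσ0, hlog', sub_eq_add_neg, Real.exp_add, Real.exp_log hu0]
  have hexp1 : Real.exp (-(2 * T)) ≤ 1 := by
    rw [Real.exp_le_one_iff]
    linarith
  have hexp2 : 1 - 2 * T ≤ Real.exp (-(2 * T)) := by
    have := Real.add_one_le_exp (-(2 * T))
    linarith
  refine ⟨σ, hσ, ?_, ?_⟩
  · rw [hσe]
    exact mul_le_of_le_one_right hu0.le hexp1
  · have h1 : u - σ ≤ 2 * u * T := by
      rw [hσe]
      have := mul_le_mul_of_nonneg_left hexp2 hu0.le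
      linarith
    refine h1.trans ?_
    have h2 : 2 * u * T ≤ 2 * u * (L / (2 * P ^ 2 * 2 ^ J)) :=
      mul_le_mul_of_nonneg_left hTle (by linarith)
    refine h2.trans ?_
    have h3 : 2 * u * (L / (2 * (P : ℝ) ^ 2 * 2 ^ J)) = (u * L / (P : ℝ) ^ 2) * (1 / 2 ^ J) := by
      field_simp
    rw [h3]
    refine mul_le_of_le_one_left (by positivity) ?_
    rw [div_le_one (by positivity)]
    have h4 : 160 * ((r : ℝ) * (J * (L : ℝ) ^ 2)) ≤ (P : ℝ) ^ 2 := by exact_mod_cast g3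
    have h5 : (L : ℝ) ≤ J * (L : ℝ) ^ 2 := by
      have h6 : L ≤ J * L ^ 2 := by
        calc L = 1 * L ^ 1 := by ring
          _ ≤ J * L ^ 2 := Nat.mul_le_mul hJ (Nat.pow_le_pow_right hL1 (by norm_num))
      exact_mod_cast h6
    have h6 : (r : ℝ) * L ≤ r * (J * (L : ℝ) ^ 2) := mul_le_mul_of_nonneg_left h5 hr0.le
    have h7 : u * L ≤ (2 * r) * L := mul_le_mul_of_nonneg_right (by linarith [hur.2]) hLR.le
    have h8 : (0 : ℝ) < r * L := by positivity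
    linarith

theorem pow_cmp (m : ℕ) (hm : 1001 ≤ m) : 2 ^ 602 * m ^ 40 ≤ 2 ^ m := by
  induction m, hm using Nat.le_induction with
  | base =>
    have h1 : 1001 ^ 40 ≤ 2 ^ 200 * 2 ^ 199 := by norm_num
    calc 2 ^ 602 * 1001 ^ 40 ≤ 2 ^ 602 * (2 ^ 200 * 2 ^ 199) := Nat.mul_le_mul_left _ h1
      _ = 2 ^ 1001 := by rw [← pow_add, ← pow_add]
  | succ m hm ih =>
    have h1 : (1001 * (m + 1)) ^ 40 ≤ (1002 * m) ^ 40 := Nat.pow_le_pow_left (by omega) 40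
    rw [mul_pow, mul_pow] at h1
    have h2 : 1002 ^ 40 ≤ 2 * 1001 ^ 40 := by norm_num
    have h3 : 1001 ^ 40 * (m + 1) ^ 40 ≤ 1001 ^ 40 * (2 * m ^ 40) := by
      calc 1001 ^ 40 * (m + 1) ^ 40 ≤ 1002 ^ 40 * m ^ 40 := h1
        _ ≤ (2 * 1001 ^ 40) * m ^ 40 := Nat.mul_le_mul_right _ h2
        _ = 1001 ^ 40 * (2 * m ^ 40) := by ring
    have h4 : (m + 1) ^ 40 ≤ 2 * m ^ 40 := Nat.le_of_mul_le_mul_left h3 (by positivity)
    calc 2 ^ 602 * (m + 1) ^ 40 ≤ 2 ^ 602 * (2 * m ^ 40) := Nat.mul_le_mul_left _ h4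
      _ = 2 * (2 ^ 602 * m ^ 40) := Nat.mul_left_comm _ _ _
      _ ≤ 2 * 2 ^ m := Nat.mul_le_mul_left _ ih
      _ = 2 ^ (m + 1) := by ring

/-- **Ratios reachable from `s0` within `exp (-X)` of a real number `u`**, where `X` is at most
the tenth root of `u` and much larger than the fourth power of the logarithm of `u`. -/
theorem up_gen {s0 u X : ℝ} {m : ℕ} (hs : 1 ≤ s0) (hm : 6 ≤ m) (hum : u + 1 ≤ 2 ^ m)
    (hX : 2 ^ 60 * (m : ℝ) ^ 4 ≤ X) (hX10 : X ^ 10 ≤ u)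
    (hsX : 2 ^ 12 * (X ^ 2 * m * s0) ≤ u) :
    ∃ σ, Up s0 σ ∧ σ ≤ u ∧ u - σ ≤ Real.exp (-X) := by
  have hmR : (6 : ℝ) ≤ m := by exact_mod_cast hm
  have hm4 : (m : ℝ) ≤ (m : ℝ) ^ 4 := le_self_pow₀ (by linarith) (by norm_num)
  have hXm : 2 ^ 60 * (m : ℝ) ≤ X := by linarith
  have hX1 : 2 ^ 60 ≤ X := by linarith
  have hX0 : 0 < X := by linarith
  have hu1 : X ≤ u := (le_self_pow₀ (by linarith) (by norm_num)).trans hX10
  obtain ⟨r, hr⟩ : ∃ r : ℕ, r = ⌊u + 1 / 2⌋₊ := ⟨_, rfl⟩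
  have hr1 : (r : ℝ) ≤ u + 1 / 2 := by
    rw [hr]
    exact Nat.floor_le (by linarith)
  have hr2 : u + 1 / 2 < r + 1 := by
    rw [hr]
    exact Nat.lt_floor_add_one _
  have hur : |u - r| ≤ 1 / 2 := by
    rw [abs_le]
    constructor <;> linarith
  have hrm : r < 2 ^ m := by
    have : (r : ℝ) < 2 ^ m := by linarith
    exact_mod_cast this
  obtain ⟨J, hJ⟩ : ∃ J : ℕ, J = ⌈3 / 2 * X⌉₊ := ⟨_, rfl⟩
  have hJ1 : 3 / 2 * X ≤ J := by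
    rw [hJ]
    exact Nat.le_ceil _
  have hJ2 : (J : ℝ) < 3 / 2 * X + 1 := by
    rw [hJ]
    exact Nat.ceil_lt_add_one (by linarith)
  have hJ0 : 1 ≤ J := by
    have : (1 : ℝ) ≤ J := by linarith
    exact_mod_cast this
  obtain ⟨k, hk⟩ : ∃ k, k = J + 2 * m := ⟨_, rfl⟩
  obtain ⟨L, hL⟩ : ∃ L, L = k ^ 2 * m := ⟨_, rfl⟩
  have hk1 : (k : ℝ) ≤ 8 / 5 * X := by
    rw [hk]
    push_cast
    linarith
  have hJ3 : (J : ℝ) ≤ 8 / 5 * X := by linarith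
  have hk2 : (k : ℝ) ^ 2 ≤ (8 / 5 * X) ^ 2 := pow_le_pow_left₀ (Nat.cast_nonneg k) hk1 2
  have hL1 : (L : ℝ) ≤ (8 / 5 * X) ^ 2 * m := by
    rw [hL]
    push_cast
    exact mul_le_mul_of_nonneg_right hk2 (by linarith)
  have hL4 : (L : ℝ) ^ 4 ≤ ((8 / 5 * X) ^ 2 * m) ^ 4 :=
    pow_le_pow_left₀ (Nat.cast_nonneg L) hL1 4
  have hbig : 2 ^ 53 * (J * L ^ 4) ≤ r := by
    have h1 : (J : ℝ) * (L : ℝ) ^ 4 ≤ (8 / 5 * X) * ((8 / 5 * X) ^ 2 * m) ^ 4 :=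
      mul_le_mul hJ3 hL4 (by positivity) (by positivity)
    have h2 : (8 / 5 * X) * ((8 / 5 * X) ^ 2 * m) ^ 4 = (8 / 5) ^ 9 * X ^ 9 * (m : ℝ) ^ 4 := by
      ring
    have h3 : 2 ^ 53 * ((8 / 5) ^ 9 * X ^ 9 * (m : ℝ) ^ 4) =
        (8 / 5) ^ 9 / 2 ^ 7 * X ^ 9 * (2 ^ 60 * (m : ℝ) ^ 4) := by
      ring
    have h4 : (8 / 5) ^ 9 / 2 ^ 7 * X ^ 9 * (2 ^ 60 * (m : ℝ) ^ 4) ≤
        (8 / 5) ^ 9 / 2 ^ 7 * X ^ 9 * X := mul_le_mul_of_nonneg_left hX (by positivity)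
    have h5 : (8 / 5) ^ 9 / 2 ^ 7 * X ^ 9 * X = (8 / 5) ^ 9 / 2 ^ 7 * X ^ 10 := by ring
    have h6 : ((8 : ℝ) / 5) ^ 9 / 2 ^ 7 ≤ 3 / 5 := by norm_num
    have h7 : ((8 : ℝ) / 5) ^ 9 / 2 ^ 7 * X ^ 10 ≤ 3 / 5 * u :=
      mul_le_mul h6 hX10 (by positivity) (by norm_num)
    have h8 : (2 : ℝ) ^ 53 * ((J : ℝ) * (L : ℝ) ^ 4) ≤ r := by
      have h9 : (2 : ℝ) ^ 53 * ((J : ℝ) * (L : ℝ) ^ 4) ≤
          2 ^ 53 * ((8 / 5 * X) * ((8 / 5 * X) ^ 2 * m) ^ 4) :=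
        mul_le_mul_of_nonneg_left h1 (by positivity)
      rw [h2, h3] at h9
      rw [h5] at h4
      linarith
    exact_mod_cast h8
  have hs0' : 1456 * (L : ℝ) * s0 ≤ r := by
    have h1 : 1456 * (L : ℝ) * s0 ≤ 1456 * ((8 / 5 * X) ^ 2 * m) * s0 := by
      refine mul_le_mul_of_nonneg_right ?_ (by linarith)
      linarith
    have h2 : 1456 * ((8 / 5 * X) ^ 2 * m) * s0 = 1456 * (8 / 5) ^ 2 / 2 ^ 12 *
        (2 ^ 12 * (X ^ 2 * m * s0)) := by ring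
    rw [h2] at h1
    have h3 : (1456 : ℝ) * (8 / 5) ^ 2 / 2 ^ 12 * (2 ^ 12 * (X ^ 2 * m * s0)) ≤
        92 / 100 * u := by
      refine mul_le_mul (by norm_num) hsX (by positivity) (by norm_num)
    linarith
  obtain ⟨σ, hσ, hσ1, hσ2⟩ := up_param hs hJ0 hk hL hm hrm hbig hs0' hur
  refine ⟨σ, hσ, hσ1, hσ2.trans ?_⟩
  rw [Real.exp_neg, ← one_div]
  refine one_div_le_one_div_of_le (Real.exp_pos X) ?_
  have h1 : (2 : ℝ) ^ J = Real.exp (J * Real.log 2) := by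
    rw [mul_comm, Real.exp_mul, Real.exp_log (by norm_num), Real.rpow_natCast]
  rw [h1, Real.exp_le_exp]
  have h2 := Real.log_two_gt_d9
  have h3 : 3 / 2 * X * Real.log 2 ≤ J * Real.log 2 :=
    mul_le_mul_of_nonneg_right hJ1 (by linarith)
  have h4 : 3 / 2 * X * 0.6931471803 ≤ 3 / 2 * X * Real.log 2 :=
    mul_le_mul_of_nonneg_left h2.le (by positivity)
  linarith

/-- The parameters for the tenth root. -/
theorem tenth {u : ℝ} (hu : 2 ^ 1000 ≤ u) : ∃ m : ℕ, 6 ≤ m ∧ u + 1 ≤ 2 ^ m ∧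
    2 ^ 60 * (m : ℝ) ^ 4 ≤ u ^ (1 / 10 : ℝ) ∧ (u ^ (1 / 10 : ℝ)) ^ 10 = u := by
  have hu1 : (1 : ℝ) ≤ u := le_trans (one_le_pow₀ (by norm_num)) hu
  obtain ⟨B, hB⟩ : ∃ B : ℝ, B = 2 ^ 1000 := ⟨_, rfl⟩
  rw [← hB] at hu
  have hBm : ∀ m ≤ 1000, (2 : ℝ) ^ m ≤ B := fun m hm => by
    rw [hB]
    exact pow_le_pow_right₀ (by norm_num) hm
  clear hB
  have hu0 : 0 < u := by linarith
  obtain ⟨m, hm⟩ : ∃ m, m = Nat.log 2 ⌊u + 1⌋₊ + 1 := ⟨_, rfl⟩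
  have h1 : (⌊u + 1⌋₊ : ℝ) ≤ u + 1 := Nat.floor_le (by linarith)
  have h2 : u + 1 < (⌊u + 1⌋₊ : ℝ) + 1 := Nat.lt_floor_add_one _
  have h3 : ⌊u + 1⌋₊ < 2 ^ m := by
    rw [hm]
    exact Nat.lt_pow_succ_log_self (by norm_num) _
  have h4 : 2 ^ (m - 1) ≤ ⌊u + 1⌋₊ := by
    rw [hm, Nat.add_sub_cancel]
    refine Nat.pow_log_le_self 2 ?_
    have : 0 < ⌊u + 1⌋₊ := Nat.floor_pos.2 (by linarith)
    omega
  have h5 : u + 1 ≤ 2 ^ m := by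
    have h6 : ((⌊u + 1⌋₊ + 1 : ℕ) : ℝ) ≤ ((2 ^ m : ℕ) : ℝ) := by exact_mod_cast h3
    push_cast at h6
    linarith
  have h6 : 1001 ≤ m := by
    by_contra hcon
    have h7 : m ≤ 1000 := by omega
    have h8 := hBm m h7
    linarith
  have h7 : (2 : ℝ) ^ m ≤ 4 * u := by
    have h8 : ((2 ^ (m - 1) : ℕ) : ℝ) ≤ (⌊u + 1⌋₊ : ℝ) := by exact_mod_cast h4
    push_cast at h8
    have h9 : (2 : ℝ) ^ m = 2 * 2 ^ (m - 1) := by
      rw [← pow_succ']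
      congr 1
      omega
    linarith
  have h10 : (u ^ (1 / 10 : ℝ)) ^ 10 = u := by
    rw [← Real.rpow_natCast, ← Real.rpow_mul hu0.le]
    norm_num
  refine ⟨m, by omega, h5, ?_, h10⟩
  have hX0 : 0 ≤ u ^ (1 / 10 : ℝ) := Real.rpow_nonneg hu0.le _
  have h11 : (2 ^ 60 * (m : ℝ) ^ 4) ^ 10 ≤ (u ^ (1 / 10 : ℝ)) ^ 10 := by
    rw [h10]
    have h12 : ((2 ^ 602 * m ^ 40 : ℕ) : ℝ) ≤ ((2 ^ m : ℕ) : ℝ) := by
      exact_mod_cast pow_cmp m h6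
    push_cast at h12
    have h13 : (2 ^ 60 * (m : ℝ) ^ 4) ^ 10 = 2 ^ 600 * (m : ℝ) ^ 40 := by
      rw [mul_pow, ← pow_mul, ← pow_mul]
    have h14 : (2 : ℝ) ^ 602 = 4 * 2 ^ 600 := by
      rw [show (4 : ℝ) = 2 ^ 2 by norm_num, ← pow_add]
    rw [h13]
    rw [h14, mul_assoc] at h12
    linarith
  exact le_of_pow_le_pow_left₀ (by norm_num) hX0 h11

/-- **Ratios reachable from `s0` exponentially close to every large real `u`.** -/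
theorem exists_up_exp {s0 u : ℝ} (hs : 1 ≤ s0) (hu : 2 ^ 1000 ≤ u) (hsu : s0 ^ 4 ≤ u ^ 3) :
    ∃ σ, Up s0 σ ∧ σ ≤ u ∧ u - σ ≤ Real.exp (-(u ^ (1 / 10 : ℝ))) := by
  obtain ⟨m, hm6, hum, hX, hX10⟩ := tenth hu
  have hu1 : (1 : ℝ) ≤ u := le_trans (one_le_pow₀ (by norm_num)) hu
  clear hu
  have hu0 : 0 < u := by linarith
  obtain ⟨X, hXdef⟩ : ∃ X, X = u ^ (1 / 10 : ℝ) := ⟨_, rfl⟩
  rw [← hXdef] at hX hX10 ⊢
  have hmR : (6 : ℝ) ≤ m := by exact_mod_cast hm6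
  have hX0 : 0 < X := lt_of_lt_of_le (by positivity) hX
  have hX1 : 1 ≤ X := by
    have : (1 : ℝ) ≤ 2 ^ 60 * (m : ℝ) ^ 4 := by
      have h1 : (1 : ℝ) ≤ (m : ℝ) ^ 4 := one_le_pow₀ (by linarith)
      linarith
    linarith
  refine up_gen hs hm6 hum hX hX10.le ?_
  have h1 : (2 ^ 12 * (X ^ 2 * m * s0)) ^ 4 ≤ u ^ 4 := by
    have h2 : (2 ^ 12 * (X ^ 2 * m * s0)) ^ 4 = (2 ^ 60 * (m : ℝ) ^ 4) * (s0 ^ 4) * X ^ 8 / 2 ^ 12 := by
      ring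
    rw [h2]
    have h3 : (2 ^ 60 * (m : ℝ) ^ 4) * (s0 ^ 4) ≤ X * u ^ 3 :=
      mul_le_mul hX hsu (by positivity) hX0.le
    have h4 : (2 ^ 60 * (m : ℝ) ^ 4) * (s0 ^ 4) * X ^ 8 ≤ X * u ^ 3 * X ^ 8 :=
      mul_le_mul_of_nonneg_right h3 (by positivity)
    have h5 : X * u ^ 3 * X ^ 8 ≤ X ^ 10 * u ^ 3 := by
      have h6 : X ^ 9 ≤ X ^ 10 := pow_le_pow_right₀ hX1 (by norm_num)
      have h7 : X ^ 9 * u ^ 3 ≤ X ^ 10 * u ^ 3 := mul_le_mul_of_nonneg_right h6 (by positivity)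
      linarith [show X * u ^ 3 * X ^ 8 = X ^ 9 * u ^ 3 by ring]
    rw [hX10] at h5
    have h8 : u * u ^ 3 = u ^ 4 := by ring
    rw [div_le_iff₀ (by positivity)]
    have h9 : 0 ≤ u ^ 4 := by positivity
    linarith
  exact le_of_pow_le_pow_left₀ (by norm_num) hu0.le h1

end Pool.Agent.W610
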