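import Mathlib
import Pool.Agent.H519R3.AC.Wald
import Pool.Agent.W610.Phases
import Pool.Agent.W610.UpExp

set_option autoImplicit false

/-!
# Generic points of the plane in every characteristic: exponential precision
-/

namespace Pool.Agent.W610

open MvPolynomial Pool.Agent.H932R5 Pool.Agent.H519R3.AC

universe u

/-- The square root of the ratio. -/
theorem sqrt_ratio {u σ x : ℝ} (hu : 2 ≤ u) (hσu : σ ≤ u) (h : u - σ ≤ x) (hx1 : x ≤ 1) :
    Real.sqrt (u / σ) ≤ 1 + x / u := by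
  have hσ1 : 1 ≤ σ := by linarith
  have hσ0 : 0 < σ := by linarith
  have hx0 : 0 ≤ x := by linarith
  have hu0 : 0 < u := by linarith
  rw [Real.sqrt_le_left (by positivity), div_le_iff₀ hσ0]
  have h1 : (1 + x / u) ^ 2 * σ ≥ (1 + 2 * (x / u)) * (u - x) := by
    have h2 : (1 + x / u) ^ 2 ≥ 1 + 2 * (x / u) := by
      have : 0 ≤ (x / u) ^ 2 := sq_nonneg _
      linarith [show (1 + x / u) ^ 2 = 1 + 2 * (x / u) + (x / u) ^ 2 by ring]
    calc (1 + 2 * (x / u)) * (u - x) ≤ (1 + 2 * (x / u)) * σ :=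
          mul_le_mul_of_nonneg_left (by linarith) (by positivity)
      _ ≤ (1 + x / u) ^ 2 * σ := mul_le_mul_of_nonneg_right h2 hσ0.le
  have h3 : (1 + 2 * (x / u)) * (u - x) = u + x * (1 - 2 * (x / u)) := by
    field_simp
    ring
  have h4 : 0 ≤ 1 - 2 * (x / u) := by
    have : x / u ≤ 1 / 2 := by
      rw [div_le_iff₀ hu0]
      linarith
    linarith
  have h5 : 0 ≤ x * (1 - 2 * (x / u)) := mul_nonneg hx0 h4
  linarith

theorem two_le_of_big {u : ℝ} (hu : 2 ^ 1000 ≤ u) : 2 ^ 200 ≤ u :=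
  le_trans (pow_le_pow_right₀ (by norm_num) (by norm_num)) hu

/-- Emptiness at generic points of the plane, all multiplicities, every characteristic. -/
theorem emptyE {k : Type u} [Field k] [IsAlgClosed k] {r : ℕ} (hr : (2 : ℝ) ^ 1000 ≤ r)
    {P : Fin r → Fin 2 → k}
    (hP : AlgebraicIndependent (⊥ : Subfield k) (fun ij : Fin r × Fin 2 => P ij.1 ij.2))
    {w : Fin r → ℕ} {d : ℕ}
    (hd : (1 + Real.exp (-((r : ℝ) ^ (1 / 10 : ℝ))) / r) * (Real.sqrt r * d) <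
      ((∑ i, w i : ℕ) : ℝ)) :
    EmptyAt (E := 1) w P d := by
  have hr2 := two_le_of_big hr
  have hr1 : (1 : ℝ) ≤ r := le_trans (one_le_pow₀ (by norm_num)) hr
  obtain ⟨σ, hσ, hσ1, hσ2⟩ := exists_up_exp (s0 := 1) le_rfl hr (by
    rw [one_pow]
    exact one_le_pow₀ hr1)
  clear hr
  have hrR : (0 : ℝ) < r := by linarith
  have hss : Real.sqrt r ^ 2 = r := Real.sq_sqrt hrR.le
  have hL1 : 1 ≤ Real.sqrt r := by
    rw [Real.one_le_sqrt]
    exact hr1
  obtain ⟨x, hx⟩ : ∃ x, x = Real.exp (-((r : ℝ) ^ (1 / 10 : ℝ))) := ⟨_, rfl⟩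
  rw [← hx] at hσ2 hd
  have hx0 : 0 < x := by rw [hx]; exact Real.exp_pos _
  have hx1 : x ≤ 1 := by
    rw [hx, Real.exp_le_one_iff]
    have : 0 ≤ (r : ℝ) ^ (1 / 10 : ℝ) := Real.rpow_nonneg hrR.le _
    linarith
  refine emptyAt_fix (E := 1) (w := w) hP (L := Real.sqrt r) (μ := 1 + x / r)
    (fun t ht => ?_) hL1 ?_ ?_ ?_
  · have ht0 : t = 0 := by omega
    subst ht0
    refine ⟨σ, ?_, ?_, ?_⟩
    · show Up (Real.sqrt r ^ 0) σ
      rw [pow_zero]
      exact hσ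
    · show σ ≤ Real.sqrt r ^ 2
      rw [hss]
      exact hσ1
    · show Real.sqrt (Real.sqrt r ^ 2 / σ) ≤ 1 + x / r
      rw [hss]
      exact sqrt_ratio (by linarith) hσ1 hσ2 hx1
  · have : 0 < x / r := by positivity
    linarith
  · exact hss
  · rw [pow_one, pow_one, mul_assoc]
    exact hd

theorem wald_lowE {k : Type u} [Field k] [IsAlgClosed k] {r : ℕ} (hr : (2 : ℝ) ^ 1000 ≤ r)
    {P : Fin r → Fin 2 → k}
    (hP : AlgebraicIndependent (⊥ : Subfield k) (fun ij : Fin r × Fin 2 => P ij.1 ij.2)) (m : ℕ) :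
    (m : ℝ) * Real.sqrt r ≤ (1 + Real.exp (-((r : ℝ) ^ (1 / 10 : ℝ))) / r) * alp P m := by
  have hrR : (0 : ℝ) < r :=
    lt_of_lt_of_le one_pos (le_trans (one_le_pow₀ (by norm_num)) hr)
  have hs0 : 0 < Real.sqrt r := Real.sqrt_pos.2 hrR
  have hss : Real.sqrt r * Real.sqrt r = r := Real.mul_self_sqrt hrR.le
  by_contra hcon
  push Not at hcon
  have hsum : ((∑ _i : Fin r, m : ℕ) : ℝ) = r * m := by
    rw [Finset.sum_const, Finset.card_univ, Fintype.card_fin, smul_eq_mul]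
    push_cast
    ring
  have h1 : EmptyAt (E := 1) (fun _ : Fin r => m) P (alp P m) := by
    refine emptyE hr hP ?_
    rw [hsum]
    have h2 := mul_lt_mul_of_pos_left hcon hs0
    calc (1 + Real.exp (-((r : ℝ) ^ (1 / 10 : ℝ))) / r) * (Real.sqrt r * (alp P m : ℝ)) =
        Real.sqrt r * ((1 + Real.exp (-((r : ℝ) ^ (1 / 10 : ℝ))) / r) * alp P m) := by ring
      _ < Real.sqrt r * ((m : ℝ) * Real.sqrt r) := h2
      _ = (Real.sqrt r * Real.sqrt r) * m := by ring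
      _ = r * m := by rw [hss]
  exact (hasForm_iff P m _).1 (hasForm_alp P m) h1.bot

/-- The arithmetic of the integrality argument. -/
theorem exact_num {r m d x y : ℝ} (hr : 1 ≤ r) (hm0 : 0 ≤ m) (hx0 : 0 < x)
    (hx1 : x ≤ 1) (hy : y = x / r) (hm : 3 * x * m ^ 2 < 1)
    (h0 : m * Real.sqrt r ≤ (1 + y) * d) (hint : d ^ 2 ≤ r * m ^ 2 - 1) : False := by
  have hr0 : 0 < r := by linarith
  have hy0 : 0 < y := by rw [hy]; positivity
  have hyr : y * r = x := by rw [hy]; field_simp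
  have hy1 : y ≤ 1 := by
    rw [hy, div_le_one hr0]
    linarith
  have h1 : (m * Real.sqrt r) ^ 2 ≤ ((1 + y) * d) ^ 2 :=
    pow_le_pow_left₀ (by positivity) h0 2
  have h2 : (m * Real.sqrt r) ^ 2 = r * m ^ 2 := by
    rw [mul_pow, Real.sq_sqrt hr0.le]
    ring
  rw [h2, mul_pow] at h1
  obtain ⟨z, hz⟩ : ∃ z : ℝ, z = r * m ^ 2 := ⟨_, rfl⟩
  have hyz : 3 * y * z < 1 := by
    rw [hz]
    calc 3 * y * (r * m ^ 2) = 3 * (y * r) * m ^ 2 := by ring
      _ = 3 * x * m ^ 2 := by rw [hyr]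
      _ < 1 := hm
  rw [← hz] at h1 hint
  have h3 : (1 + y) ^ 2 * d ^ 2 ≤ (1 + y) ^ 2 * (z - 1) :=
    mul_le_mul_of_nonneg_left hint (by positivity)
  have hz0 : 0 ≤ z := by rw [hz]; positivity
  have h4 : y * y * z ≤ y * 1 * z := by gcongr
  nlinarith

/-- Nagata's inequality itself for exponentially large multiplicities. -/
theorem wald_exactE {k : Type u} [Field k] [IsAlgClosed k] {r : ℕ}
    (hr : (2 : ℝ) ^ 1000 ≤ r) {P : Fin r → Fin 2 → k}
    (hP : AlgebraicIndependent (⊥ : Subfield k) (fun ij : Fin r × Fin 2 => P ij.1 ij.2)) (m : ℕ)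
    (hm : (m : ℝ) ≤ Real.exp ((r : ℝ) ^ (1 / 10 : ℝ) / 2) / 2) :
    (m : ℝ) * Real.sqrt r ≤ alp P m := by
  have h0 := wald_lowE hr hP m
  have hr2 := two_le_of_big hr
  clear hr
  have hrR0 : (0 : ℝ) < r := by linarith
  have hss : Real.sqrt r * Real.sqrt r = r := Real.mul_self_sqrt hrR0.le
  by_contra hcon
  push Not at hcon
  obtain ⟨d, hd⟩ : ∃ d, d = alp P m := ⟨_, rfl⟩
  rw [← hd] at hcon h0
  obtain ⟨X, hX⟩ : ∃ X : ℝ, X = (r : ℝ) ^ (1 / 10 : ℝ) := ⟨_, rfl⟩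
  rw [← hX] at hm h0
  have hX0 : 0 ≤ X := by rw [hX]; exact Real.rpow_nonneg hrR0.le _
  have hm0 : (0 : ℝ) ≤ m := Nat.cast_nonneg m
  have hd0 : (0 : ℝ) ≤ d := Nat.cast_nonneg d
  -- integrality
  have hint : (d : ℝ) ^ 2 ≤ r * (m : ℝ) ^ 2 - 1 := by
    have h1 := mul_self_lt_mul_self hd0 hcon
    have h2 : (m : ℝ) * Real.sqrt r * (m * Real.sqrt r) = r * (m : ℝ) ^ 2 := by
      calc (m : ℝ) * Real.sqrt r * (m * Real.sqrt r) =
          (Real.sqrt r * Real.sqrt r) * (m : ℝ) ^ 2 := by ring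
        _ = _ := by rw [hss]
    rw [h2] at h1
    have h3 : d * d < r * m ^ 2 := by exact_mod_cast h1
    have h4 : d * d + 1 ≤ r * m ^ 2 := h3
    have h5 : ((d * d + 1 : ℕ) : ℝ) ≤ ((r * m ^ 2 : ℕ) : ℝ) := by exact_mod_cast h4
    push_cast at h5
    nlinarith
  refine exact_num (r := r) (m := m) (d := d) (x := Real.exp (-X)) (by linarith) hm0
    (Real.exp_pos _) (by
      rw [Real.exp_le_one_iff]
      linarith) rfl ?_ h0 hint
  have h1 : (m : ℝ) ^ 2 ≤ (Real.exp (X / 2) / 2) ^ 2 := pow_le_pow_left₀ hm0 hm 2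
  have h2 : (Real.exp (X / 2) / 2) ^ 2 = Real.exp X / 4 := by
    rw [div_pow, ← Real.exp_nat_mul]
    have e : ((2 : ℕ) : ℝ) * (X / 2) = X := by push_cast; ring
    rw [e]
    norm_num
  rw [h2] at h1
  have h3 : Real.exp (-X) * Real.exp X = 1 := by
    rw [← Real.exp_add]
    simp
  have h4 : 3 * Real.exp (-X) * (m : ℝ) ^ 2 ≤ 3 * Real.exp (-X) * (Real.exp X / 4) :=
    mul_le_mul_of_nonneg_left h1 (by positivity)
  have h5 : 3 * Real.exp (-X) * (Real.exp X / 4) = 3 / 4 * (Real.exp (-X) * Real.exp X) := by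
    ring
  rw [h5, h3] at h4
  linarith

end Pool.Agent.W610
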