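import Mathlib
import Pool.Agent.H932R6.InitialR
import Pool.Agent.W610.Slots

set_option autoImplicit false

/-!
# Walking with the allowed moves of an abstract relation
-/

namespace Pool.Agent.W610

open Pool.Agent.H932R3 Pool.Agent.H932R4

open Pool.Agent.H932R6

/-- The allowed moves. -/
structure Mv (r P : ℕ) (bd : ℝ) (S : ℕ → ℝ → Prop) : Prop where
  U : ∀ (p : ℕ) (T : ℝ), P ≤ p → p ≤ r → p % 4 = r % 4 → |T| ≤ bd → S p T → S (p + 4) T
  A : ∀ (p : ℕ) (T : ℝ), P ≤ p → p ≤ r → p % 4 = r % 4 → |T| ≤ bd → S p T →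
    S (p + 8) (T - Gk 0 ((p : ℝ) + 3))
  B : ∀ (p : ℕ) (T : ℝ), P ≤ p → p ≤ r → p % 4 = r % 4 → |T| ≤ bd → S p T →
    S (p + 8) (T + Gk 0 ((p : ℝ) + 1))
  E : ∀ (p : ℕ) (T : ℝ) (β : ℕ), P ≤ p → p ≤ r → p % 4 = r % 4 → |T| ≤ bd → 1 ≤ β →
    4 * β ≤ p → S p T → S (p + 8 * β) (T + Eb β p)

section

variable {S : ℕ → ℝ → Prop} {bd : ℝ} {r P : ℕ}

theorem Mv.steps (hS : Mv r P bd S) (hP : 15 ≤ P) {p : ℕ} (hp : P ≤ p)
    (hmod : p % 4 = r % 4) {T : ℝ} (hT : |T| ≤ bd)
    (h : S p T) (n : ℕ) (hn : p + 4 * n ≤ r) : S (p + 4 * n) T := by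
  induction n with
  | zero => exact h
  | succ n ih =>
    have h1 := ih (by omega)
    exact hS.U (p + 4 * n) T (by omega) (by omega) (by omega) hT h1

theorem Mv.to (hS : Mv r P bd S) (hP : 15 ≤ P) {p q : ℕ} (hp : P ≤ p)
    (hmod : p % 4 = r % 4) (hmod' : q % 4 = r % 4) {T : ℝ} (hT : |T| ≤ bd)
    (h : S p T) (hpq : p ≤ q) (hq : q ≤ r) : S q T := by
  obtain ⟨n, rfl⟩ : ∃ n, q = p + 4 * n := ⟨(q - p) / 4, by omega⟩
  exact hS.steps hP hp hmod hT h n hq

/-- Gadgets of both signs. -/
theorem Mv.gad (hS : Mv r P bd S) (hP : 15 ≤ P) (k : ℕ) :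
    (∀ p y q : ℕ, ∀ T : ℝ, P ≤ p → p % 4 = r % 4 → q % 4 = r % 4 → p + 3 ≤ y →
      y % 4 = (r + 3) % 4 → y + shS k + 7 ≤ q → q ≤ r →
      |T| + (k + 1) * Gk 0 P ≤ bd → S p T → S q (T - Gk k y)) ∧
    (∀ p y q : ℕ, ∀ T : ℝ, P ≤ p → p % 4 = r % 4 → q % 4 = r % 4 → p + 1 ≤ y →
      y % 4 = (r + 1) % 4 → y + shS k + 7 ≤ q → q ≤ r →
      |T| + (k + 1) * Gk 0 P ≤ bd → S p T → S q (T + Gk k y)) := by
  have hPR : (0 : ℝ) < P := by exact_mod_cast (show 0 < P by omega)
  have hG : ∀ (k y : ℕ), P ≤ y → |Gk k (y : ℝ)| ≤ Gk 0 P := by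
    intro k y hy
    have hy0 : (0 : ℝ) < y := by exact_mod_cast (show 0 < y by omega)
    rw [abs_of_pos (Gk_pos k hy0)]
    refine (Gk_le_zero k hy0).trans ?_
    rcases Nat.eq_or_lt_of_le hy with h | h
    · rw [h]
    · have h1 : (y : ℝ) = P + (y - P : ℝ) := by ring
      rw [h1]
      refine Gk_anti 0 hPR ?_
      have : (P : ℝ) < y := by exact_mod_cast h
      linarith
  have hG0 : 0 < Gk 0 P := Gk_pos 0 hPR
  induction k with
  | zero =>
    have h7 : shS 0 = 4 := rfl
    constructor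
    · intro p y q T hp hmp hmq hpy hy hyq hq hT h
      rw [h7] at hyq
      have hT1 : |T| ≤ bd := by
        push_cast at hT
        linarith
      have h1 := hS.to hP hp hmp (q := y - 3) (by omega) hT1 h (by omega) (by omega)
      have h2 := hS.A (y - 3) T (by omega) (by omega) (by omega) hT1 h1
      have h3 : ((y - 3 : ℕ) : ℝ) + 3 = y := by
        rw [Nat.cast_sub (by omega)]
        push_cast
        ring
      rw [h3] at h2
      have hT2 : |T - Gk 0 y| ≤ bd := by
        refine (abs_sub _ _).trans ?_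
        have := hG 0 y (by omega)
        push_cast at hT
        linarith
      exact hS.to hP (p := y - 3 + 8) (by omega) (by omega) hmq hT2 h2 (by omega) hq
    · intro p y q T hp hmp hmq hpy hy hyq hq hT h
      rw [h7] at hyq
      have hT1 : |T| ≤ bd := by
        push_cast at hT
        linarith
      have h1 := hS.to hP hp hmp (q := y - 1) (by omega) hT1 h (by omega) (by omega)
      have h2 := hS.B (y - 1) T (by omega) (by omega) (by omega) hT1 h1
      have h3 : ((y - 1 : ℕ) : ℝ) + 1 = y := by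
        rw [Nat.cast_sub (by omega)]
        push_cast
        ring
      rw [h3] at h2
      have hT2 : |T + Gk 0 y| ≤ bd := by
        refine (abs_add_le _ _).trans ?_
        have := hG 0 y (by omega)
        push_cast at hT
        linarith
      exact hS.to hP (p := y - 1 + 8) (by omega) (by omega) hmq hT2 h2 (by omega) hq
  | succ k ih =>
    have hs1 := shS_le k
    have hs2 := shi_mod k
    obtain ⟨s, hs⟩ : ∃ s, s = shi k := ⟨_, rfl⟩
    have hS1 : shS (k + 1) = shS k + shi k := rfl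
    rw [← hs] at hs1 hs2 hS1
    constructor
    · intro p y q T hp hmp hmq hpy hy hyq hq hT h
      rw [hS1] at hyq
      push_cast at hT
      have hT1 : |T| + (k + 1) * Gk 0 P ≤ bd := by
        linarith
      have h1 := ih.1 p y (y + s - 1) T hp hmp (by omega) hpy hy (by omega) (by omega) hT1 h
      have hT2 : |T - Gk k y| + (k + 1) * Gk 0 P ≤ bd := by
        have h2 := (abs_sub T (Gk k y))
        have := hG k y (by omega)
        linarith
      have h2 := ih.2 (y + s - 1) (y + s) q (T - Gk k y) (by omega) (by omega) hmq (by omega)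
        (by omega) (by omega) hq hT2 h1
      rw [Gk_succ, ← hs]
      have h3 : T - (Gk k y - Gk k ((y : ℝ) + (s : ℝ))) = T - Gk k y + Gk k ((y + s : ℕ) : ℝ) := by
        push_cast
        ring
      rw [h3]
      exact h2
    · intro p y q T hp hmp hmq hpy hy hyq hq hT h
      rw [hS1] at hyq
      push_cast at hT
      have hT1 : |T| + (k + 1) * Gk 0 P ≤ bd := by
        linarith
      have h1 := ih.2 p y (y + s - 3) T hp hmp (by omega) hpy hy (by omega) (by omega) hT1 h
      have hT2 : |T + Gk k y| + (k + 1) * Gk 0 P ≤ bd := by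
        have h2 := (abs_add_le T (Gk k y))
        have := hG k y (by omega)
        linarith
      have h2 := ih.1 (y + s - 3) (y + s) q (T + Gk k y) (by omega) (by omega) hmq (by omega)
        (by omega) (by omega) hq hT2 h1
      rw [Gk_succ, ← hs]
      have h3 : T + (Gk k y - Gk k ((y : ℝ) + (s : ℝ))) = T + Gk k y - Gk k ((y + s : ℕ) : ℝ) := by
        push_cast
        ring
      rw [h3]
      exact h2

end


/-- Gadgets of both signs. -/
theorem Mv.gadL {S : ℕ → ℝ → Prop} {bd : ℝ} {r P : ℕ} (hS : Mv r P bd S) (hP : 15 ≤ P) {M : List ℕ}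
    (hM : Adm M) :
    (∀ p y q : ℕ, ∀ T : ℝ, P ≤ p → p % 4 = r % 4 → q % 4 = r % 4 → p + 3 ≤ y →
      y % 4 = (r + 3) % 4 → y + (4 + M.sum) + 7 ≤ q → q ≤ r →
      |T| + (M.length + 1) * Gk 0 P ≤ bd → S p T →
        S q (T - Gd M y)) ∧
    (∀ p y q : ℕ, ∀ T : ℝ, P ≤ p → p % 4 = r % 4 → q % 4 = r % 4 → p + 1 ≤ y →
      y % 4 = (r + 1) % 4 → y + (4 + M.sum) + 7 ≤ q → q ≤ r →
      |T| + (M.length + 1) * Gk 0 P ≤ bd → S p T →
        S q (T + Gd M y)) := by
  have hPR : (0 : ℝ) < P := by exact_mod_cast (show 0 < P by omega)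
  have hG : ∀ (M : List ℕ), Adm M → ∀ (y : ℕ), P ≤ y → |Gd M (y : ℝ)| ≤ Gk 0 P := by
    intro M hM y hy
    have hy0 : (0 : ℝ) < y := by exact_mod_cast (show 0 < y by omega)
    rw [abs_of_pos (Gd_pos hM hM.prod_pos hy0)]
    refine (Gd_le_zero hM hy0).trans ?_
    rcases Nat.eq_or_lt_of_le hy with h | h
    · rw [h]
    · have h1 : (y : ℝ) = P + (y - P : ℝ) := by ring
      rw [h1]
      refine Gk_anti 0 hPR ?_
      have : (P : ℝ) < y := by exact_mod_cast h
      linarith
  induction M with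
  | nil =>
    obtain ⟨hA, hB⟩ := hS.gad hP 0
    have h7 : shS 0 = 4 := rfl
    rw [h7] at hA hB
    constructor
    · intro p y q T hp hmp hmq hpy hy hyq hq hT h
      rw [List.sum_nil] at hyq
      rw [List.length_nil] at hT
      exact hA p y q T hp hmp hmq hpy hy (by omega) hq hT h
    · intro p y q T hp hmp hmq hpy hy hyq hq hT h
      rw [List.sum_nil] at hyq
      rw [List.length_nil] at hT
      exact hB p y q T hp hmp hmq hpy hy (by omega) hq hT h
  | cons s M ih =>
    obtain ⟨hs2, hs1, hM'⟩ := hM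
    have ih' := ih hM'
    have hG0 : 0 < Gk 0 P := Gk_pos 0 hPR
    constructor
    · intro p y q T hp hmp hmq hpy hy hyq hq hT h
      rw [List.sum_cons] at hyq
      rw [List.length_cons] at hT
      push_cast at hT
      have hT1 : |T| + (M.length + 1) * Gk 0 P ≤ bd := by
        linarith
      have h1 := ih'.1 p y (y + s - 1) T hp hmp (by omega) hpy hy (by omega) (by omega) hT1 h
      have hT2 : |T - Gd M y| + (M.length + 1) * Gk 0 P ≤ bd := by
        have h2 := (abs_sub T (Gd M y))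
        have := hG M hM' y (by omega)
        linarith
      have h2 := ih'.2 (y + s - 1) (y + s) q (T - Gd M y) (by omega) (by omega) hmq (by omega)
        (by omega) (by omega) hq hT2 h1
      rw [Gd_cons]
      have h3 : T - (Gd M y - Gd M ((y : ℝ) + (s : ℝ))) = T - Gd M y + Gd M ((y + s : ℕ) : ℝ) := by
        push_cast
        ring
      rw [h3]
      exact h2
    · intro p y q T hp hmp hmq hpy hy hyq hq hT h
      rw [List.sum_cons] at hyq
      rw [List.length_cons] at hT
      push_cast at hT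
      have hT1 : |T| + (M.length + 1) * Gk 0 P ≤ bd := by
        linarith
      have h1 := ih'.2 p y (y + s - 3) T hp hmp (by omega) hpy hy (by omega) (by omega) hT1 h
      have hT2 : |T + Gd M y| + (M.length + 1) * Gk 0 P ≤ bd := by
        have h2 := (abs_add_le T (Gd M y))
        have := hG M hM' y (by omega)
        linarith
      have h2 := ih'.1 (y + s - 3) (y + s) q (T + Gd M y) (by omega) (by omega) hmq (by omega)
        (by omega) (by omega) hq hT2 h1
      rw [Gd_cons]
      have h3 : T + (Gd M y - Gd M ((y : ℝ) + (s : ℝ))) = T + Gd M y - Gd M ((y + s : ℕ) : ℝ) := by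
        push_cast
        ring
      rw [h3]
      exact h2

end Pool.Agent.W610
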