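import Mathlib
import Pool.Agent.W610.AbsA

set_option autoImplicit false

/-!
# Stages and levels of the correction for an abstract relation
-/

namespace Pool.Agent.W610

open Pool.Agent.H932R3 Pool.Agent.H932R4

open Pool.Agent.H932R6


/-- The standing assumptions. -/
structure CtxS (S : ℕ → ℝ → Prop) (bd : ℝ) (r P E : ℕ) : Prop where
  mv : Mv r P bd S
  hP : 15 ≤ P
  pr : P ≤ r
  pow : ∀ e ≤ E, (r : ℝ) ^ e ≤ 2 * (P : ℝ) ^ e
  bud : (5 + 4 * ((E : ℝ) + 1)) / (P : ℝ) ^ 2 ≤ bd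

section

variable {S : ℕ → ℝ → Prop} {bd : ℝ} {r P E : ℕ}

theorem CtxS.P0 (C : CtxS S bd r P E) : (0 : ℝ) < P := by
  exact_mod_cast (show 0 < P by have := C.hP; omega)

theorem CtxS.r0 (C : CtxS S bd r P E) : (0 : ℝ) < r :=
  lt_of_lt_of_le C.P0 (by exact_mod_cast C.pr)

theorem CtxS.Gle (C : CtxS S bd r P E) : Gk 0 P ≤ 4 / (P : ℝ) ^ 2 := by
  have h := (Gk_bounds 0 C.P0).2
  have h1 : ck 0 = 4 := by
    unfold ck
    norm_num [shQ]
  rwa [h1] at h

theorem CtxS.tbound (C : CtxS S bd r P E) {T : ℝ} (hT : |T| ≤ 5 / (P : ℝ) ^ 2) {k : ℕ} (hk : k ≤ E) :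
    |T| + (k + 1) * Gk 0 P ≤ bd := by
  refine le_trans ?_ C.bud
  have h1 := C.Gle
  have h2 : (k : ℝ) ≤ E := by exact_mod_cast hk
  have h0 := C.P0
  have h3 : ((k : ℝ) + 1) * Gk 0 P ≤ (E + 1) * (4 / (P : ℝ) ^ 2) :=
    mul_le_mul (by linarith) h1 (Gk_pos 0 h0).le (by positivity)
  have h4 : (5 + 4 * ((E : ℝ) + 1)) / (P : ℝ) ^ 2 =
      5 / (P : ℝ) ^ 2 + (E + 1) * (4 / (P : ℝ) ^ 2) := by ring
  rw [h4]
  linarith

theorem CtxS.tbound' (C : CtxS S bd r P E) {T : ℝ} (hT : |T| ≤ 5 / (P : ℝ) ^ 2) :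
    |T| ≤ bd := by
  have h := C.tbound hT (Nat.zero_le E)
  have := Gk_pos 0 C.P0
  push_cast at h
  linarith

/-- One stage. -/
theorem stageLS (C : CtxS S bd r P E) {M : List ℕ} (hM : Adm M) (hE : M.length + 1 ≤ E)
    {s0 I p q : ℕ} (hs0 : s0 % 4 = 2) (hs1 : M.sum + 14 ≤ s0) (hp : P ≤ p)
    (hmp : p % 4 = r % 4) (hmq : q % 4 = r % 4) (hpq : p + 14 + M.sum + s0 + 4 * I ≤ q)
    (hq : q ≤ r) {A B : ℝ} (hA : (nL M : ℝ) * (s0 + 8) / (P : ℝ) ^ (M.length + 3) ≤ A)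
    (hB : B ≤ (nL M : ℝ) * (s0 + 4 * I) / (r : ℝ) ^ (M.length + 3)) (hB5 : B ≤ 5 / (P : ℝ) ^ 2)
    {T : ℝ} (hAT : A ≤ T) (hTB : T ≤ B) (h : S p T) :
    ∃ T', S q T' ∧ qL P M ≤ T' ∧ T' ≤ 2 * qL P M := by
  have hP0 := C.P0
  have hr0 := C.r0
  have hN := nL_pos hM
  have hNR : (0 : ℝ) < nL M := by exact_mod_cast hN
  have hq0 : 0 < qL P M := by
    unfold qL
    positivity
  have hs00 : (0 : ℝ) < s0 := by exact_mod_cast (show 0 < s0 by omega)
  have hpR : (P : ℝ) ≤ p := by exact_mod_cast hp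
  obtain ⟨y, hy⟩ : ∃ y : ℝ, y = ((p + 3 : ℕ) : ℝ) := ⟨_, rfl⟩
  have hyP : (P : ℝ) ≤ y := by rw [hy]; push_cast; linarith
  have hy0 : 0 < y := by linarith
  have hA' : (nL M : ℝ) * s0 / (P : ℝ) ^ (M.length + 3) + 2 * qL P M ≤ A := by
    refine le_trans (le_of_eq ?_) hA
    unfold qL
    ring
  obtain ⟨i, hi, h1, h2⟩ := greedy_le (f := fun i : ℕ => Gd M y - Gd M (y + ((s0 : ℝ) + 4 * i)))
    (q := qL P M) (L := T - qL P M) hq0.le I (by
      obtain ⟨ξ, h1, h2, h3⟩ := Gd_diff hM hy0 hs00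
      have h4 : (s0 : ℝ) * nL M / ξ ^ (M.length + 3) ≤ nL M * s0 / (P : ℝ) ^ (M.length + 3) := by
        rw [mul_comm (s0 : ℝ)]
        exact div_le_div_of_nonneg_left (by positivity) (by positivity)
          (pow_le_pow_left₀ hP0.le (by linarith) _)
      have e : y + ((s0 : ℝ) + 4 * ((0 : ℕ) : ℝ)) = y + s0 := by push_cast; ring
      show Gd M y - Gd M (y + ((s0 : ℝ) + 4 * ((0 : ℕ) : ℝ))) ≤ _
      rw [e, h3]
      linarith) (by
      have hs : (0 : ℝ) < (s0 : ℝ) + 4 * (I : ℝ) := by positivity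
      obtain ⟨ξ, h1, h2, h3⟩ := Gd_diff hM hy0 hs
      have hξ : 0 < ξ := by linarith
      have h4 : (nL M : ℝ) * (s0 + 4 * I) / (r : ℝ) ^ (M.length + 3) ≤
          ((s0 : ℝ) + 4 * I) * nL M / ξ ^ (M.length + 3) := by
        rw [mul_comm ((s0 : ℝ) + 4 * I)]
        refine div_le_div_of_nonneg_left (by positivity) (by positivity)
          (pow_le_pow_left₀ hξ.le ?_ _)
        have h5 : y + (4 + M.sum : ℕ) + ((s0 : ℝ) + 4 * I) ≤ r := by
          rw [hy]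
          have : p + 3 + (4 + M.sum) + (s0 + 4 * I) ≤ r := by omega
          exact_mod_cast this
        linarith
      show _ ≤ Gd M y - Gd M (y + ((s0 : ℝ) + 4 * (I : ℝ)))
      rw [h3]
      linarith) (by
      intro i _
      have hyi : 0 < y + ((s0 : ℝ) + 4 * (i : ℝ)) := by positivity
      obtain ⟨ξ, h1, h2, h3⟩ := Gd_diff hM hyi (s := 4) (by norm_num)
      have e : y + ((s0 : ℝ) + 4 * ((i + 1 : ℕ) : ℝ)) = y + ((s0 : ℝ) + 4 * (i : ℝ)) + 4 := by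
        push_cast
        ring
      have hi0 : (0 : ℝ) ≤ i := Nat.cast_nonneg i
      have h4 : (4 : ℝ) * nL M / ξ ^ (M.length + 3) ≤ qL P M := by
        unfold qL
        exact div_le_div_of_nonneg_left (by positivity) (by positivity)
          (pow_le_pow_left₀ hP0.le (by linarith) _)
      show (Gd M y - Gd M (y + ((s0 : ℝ) + 4 * ((i + 1 : ℕ) : ℝ)))) -
        (Gd M y - Gd M (y + ((s0 : ℝ) + 4 * (i : ℝ)))) ≤ _
      rw [e]
      linarith)
  have hadm : Adm ((s0 + 4 * i) :: M) := ⟨by omega, by omega, hM⟩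
  have hT0 : 0 < T := by
    have : 0 < (nL M : ℝ) * (s0 + 8) / (P : ℝ) ^ (M.length + 3) := by positivity
    linarith
  have h3 := (C.mv.gadL C.hP hadm).1 p (p + 3) q T hp hmp hmq le_rfl (by omega)
    (by rw [List.sum_cons]; omega) hq (by
      rw [List.length_cons]
      exact C.tbound (k := M.length + 1) (by
        rw [abs_of_pos hT0]
        linarith) hE) h
  refine ⟨_, h3, ?_, ?_⟩
  · rw [Gd_cons, ← hy]
    push_cast
    have h2' : Gd M y - Gd M (y + ((s0 : ℝ) + 4 * i)) ≤ T - qL P M := h2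
    linarith
  · rw [Gd_cons, ← hy]
    push_cast
    have h1' : T - qL P M - qL P M ≤ Gd M y - Gd M (y + ((s0 : ℝ) + 4 * i)) := h1
    linarith

/-- A stage after another one of the same order. -/
theorem stage_sameS (C : CtxS S bd r P E) {M M' : List ℕ} (hM : Adm M')
    (hlen : M'.length = M.length) (hE : M'.length + 3 ≤ E) (hq5 : 2 * qL P M ≤ 5 / (P : ℝ) ^ 2)
    {s0 I p q : ℕ} (hs0 : s0 % 4 = 2) (hs1 : M'.sum + 14 ≤ s0) (hp : P ≤ p)
    (hmp : p % 4 = r % 4) (hmq : q % 4 = r % 4) (hpq : p + 14 + M'.sum + s0 + 4 * I ≤ q)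
    (hq : q ≤ r) (h1 : nL M' * (s0 + 8) ≤ 4 * nL M) (h2 : 16 * nL M ≤ nL M' * (s0 + 4 * I))
    (h : ∃ T, S p T ∧ qL P M ≤ T ∧ T ≤ 2 * qL P M) :
    ∃ T', S q T' ∧ qL P M' ≤ T' ∧ T' ≤ 2 * qL P M' := by
  obtain ⟨T, hT, hT1, hT2⟩ := h
  have hP0 := C.P0
  have hr0 := C.r0
  refine stageLS C hM (by omega) hs0 hs1 hp hmp hmq hpq hq (A := qL P M) (B := 2 * qL P M) ?_ ?_
    hq5 hT1 hT2 hT
  · unfold qL
    rw [hlen]
    refine div_le_div_of_nonneg_right ?_ (by positivity)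
    exact_mod_cast h1
  · unfold qL
    rw [hlen, mul_div_assoc', div_le_div_iff₀ (by positivity) (by positivity)]
    have h3 := C.pow (M.length + 3) (by omega)
    have h4 : (16 * (nL M : ℝ)) ≤ (nL M' : ℝ) * (s0 + 4 * I) := by exact_mod_cast h2
    calc 2 * (4 * (nL M : ℝ)) * (r : ℝ) ^ (M.length + 3)
        ≤ 2 * (4 * (nL M : ℝ)) * (2 * (P : ℝ) ^ (M.length + 3)) :=
          mul_le_mul_of_nonneg_left h3 (by positivity)
      _ = 16 * (nL M : ℝ) * (P : ℝ) ^ (M.length + 3) := by ring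
      _ ≤ (nL M' : ℝ) * (s0 + 4 * I) * (P : ℝ) ^ (M.length + 3) :=
          mul_le_mul_of_nonneg_right h4 (by positivity)

/-- A stage of the next order. -/
theorem stage_nextS (C : CtxS S bd r P E) {M M' : List ℕ} (hM : Adm M')
    (hlen : M'.length = M.length + 1) (hE : M'.length + 3 ≤ E)
    (hq5 : 2 * qL P M ≤ 5 / (P : ℝ) ^ 2)
    {s0 I p q : ℕ} (hs0 : s0 % 4 = 2) (hs1 : M'.sum + 14 ≤ s0) (hp : P ≤ p)
    (hmp : p % 4 = r % 4) (hmq : q % 4 = r % 4) (hpq : p + 14 + M'.sum + s0 + 4 * I ≤ q)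
    (hq : q ≤ r) (h1 : nL M' * (s0 + 8) ≤ 4 * nL M * P)
    (h2 : 16 * nL M * P ≤ nL M' * (s0 + 4 * I))
    (h : ∃ T, S p T ∧ qL P M ≤ T ∧ T ≤ 2 * qL P M) :
    ∃ T', S q T' ∧ qL P M' ≤ T' ∧ T' ≤ 2 * qL P M' := by
  obtain ⟨T, hT, hT1, hT2⟩ := h
  have hP0 := C.P0
  have hr0 := C.r0
  have e4 : M.length + 1 + 3 = M.length + 3 + 1 := by ring
  refine stageLS C hM (by omega) hs0 hs1 hp hmp hmq hpq hq (A := qL P M) (B := 2 * qL P M) ?_ ?_
    hq5 hT1 hT2 hT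
  · unfold qL
    rw [hlen, e4, div_le_div_iff₀ (by positivity) (by positivity), pow_succ (P : ℝ)]
    have h3 : (nL M' : ℝ) * (s0 + 8) ≤ 4 * nL M * P := by exact_mod_cast h1
    calc (nL M' : ℝ) * (s0 + 8) * (P : ℝ) ^ (M.length + 3)
        ≤ 4 * nL M * P * (P : ℝ) ^ (M.length + 3) := mul_le_mul_of_nonneg_right h3 (by positivity)
      _ = 4 * (nL M : ℝ) * ((P : ℝ) ^ (M.length + 3) * P) := by ring
  · unfold qL
    rw [hlen, e4, mul_div_assoc', div_le_div_iff₀ (by positivity) (by positivity)]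
    have h3 := C.pow (M.length + 3 + 1) (by omega)
    have h4 : (16 * (nL M : ℝ) * P) ≤ (nL M' : ℝ) * (s0 + 4 * I) := by exact_mod_cast h2
    calc 2 * (4 * (nL M : ℝ)) * (r : ℝ) ^ (M.length + 3 + 1)
        ≤ 2 * (4 * (nL M : ℝ)) * (2 * (P : ℝ) ^ (M.length + 3 + 1)) :=
          mul_le_mul_of_nonneg_left h3 (by positivity)
      _ = 16 * (nL M : ℝ) * P * (P : ℝ) ^ (M.length + 3) := by rw [pow_succ]; ring
      _ ≤ (nL M' : ℝ) * (s0 + 4 * I) * (P : ℝ) ^ (M.length + 3) :=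
          mul_le_mul_of_nonneg_right h4 (by positivity)

end


/-- The state after a stage. -/
def StS (S : ℕ → ℝ → Prop) (P : ℕ) (M : List ℕ) (p : ℕ) : Prop :=
  2 * qL P M ≤ 5 / (P : ℝ) ^ 2 ∧ ∃ T, S p T ∧ qL P M ≤ T ∧ T ≤ 2 * qL P M

section

variable {S : ℕ → ℝ → Prop} {bd : ℝ} {r P E : ℕ}

theorem StS.same (C : CtxS S bd r P E) {M M' : List ℕ} (hM : Adm M')
    (hlen : M'.length = M.length) (hE : M'.length + 3 ≤ E)
    {s0 I p q : ℕ} (hs0 : s0 % 4 = 2) (hs1 : M'.sum + 14 ≤ s0) (hp : P ≤ p)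
    (hmp : p % 4 = r % 4) (hmq : q % 4 = r % 4) (hpq : p + 14 + M'.sum + s0 + 4 * I ≤ q)
    (hq : q ≤ r) (h1 : nL M' * (s0 + 8) ≤ 4 * nL M) (h2 : 16 * nL M ≤ nL M' * (s0 + 4 * I))
    (h : StS S P M p) : StS S P M' q := by
  obtain ⟨h3, h4⟩ := h
  refine ⟨le_trans ?_ h3, stage_sameS C hM hlen hE h3 hs0 hs1 hp hmp hmq hpq hq h1 h2 h4⟩
  have hP0 := C.P0
  unfold qL
  rw [hlen]
  have h5 : nL M' ≤ nL M := by
    have : nL M' * 8 ≤ nL M' * (s0 + 8) := Nat.mul_le_mul_left _ (by omega)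
    omega
  have h6 : (nL M' : ℝ) ≤ nL M := by exact_mod_cast h5
  have h7 : 4 * (nL M' : ℝ) / (P : ℝ) ^ (M.length + 3) ≤ 4 * (nL M : ℝ) / (P : ℝ) ^ (M.length + 3) :=
    div_le_div_of_nonneg_right (by linarith) (by positivity)
  linarith

theorem StS.next (C : CtxS S bd r P E) {M M' : List ℕ} (hM : Adm M')
    (hlen : M'.length = M.length + 1) (hE : M'.length + 3 ≤ E)
    {s0 I p q : ℕ} (hs0 : s0 % 4 = 2) (hs1 : M'.sum + 14 ≤ s0) (hp : P ≤ p)
    (hmp : p % 4 = r % 4) (hmq : q % 4 = r % 4) (hpq : p + 14 + M'.sum + s0 + 4 * I ≤ q)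
    (hq : q ≤ r) (h1 : nL M' * (s0 + 8) ≤ 4 * nL M * P)
    (h2 : 16 * nL M * P ≤ nL M' * (s0 + 4 * I))
    (h : StS S P M p) : StS S P M' q := by
  obtain ⟨h3, h4⟩ := h
  refine ⟨le_trans ?_ h3, stage_nextS C hM hlen hE h3 hs0 hs1 hp hmp hmq hpq hq h1 h2 h4⟩
  have hP0 := C.P0
  unfold qL
  have e4 : M.length + 1 + 3 = M.length + 3 + 1 := by ring
  rw [hlen, e4]
  have h5 : nL M' ≤ nL M * P := by
    have : nL M' * 8 ≤ nL M' * (s0 + 8) := Nat.mul_le_mul_left _ (by omega)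
    have e : 4 * nL M * P = 4 * (nL M * P) := by ring
    omega
  have h6 : (nL M' : ℝ) ≤ nL M * P := by exact_mod_cast h5
  have h7 : 4 * (nL M' : ℝ) / (P : ℝ) ^ (M.length + 3 + 1) ≤
      4 * (nL M : ℝ) / (P : ℝ) ^ (M.length + 3) := by
    rw [div_le_div_iff₀ (by positivity) (by positivity), pow_succ (P : ℝ)]
    calc 4 * (nL M' : ℝ) * (P : ℝ) ^ (M.length + 3) ≤ 4 * (nL M * P) * (P : ℝ) ^ (M.length + 3) :=
          mul_le_mul_of_nonneg_right (by linarith) (by positivity)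
      _ = 4 * (nL M : ℝ) * ((P : ℝ) ^ (M.length + 3) * P) := by ring
  linarith

/-- From the secondR type to the third. -/
theorem StS.lvl23 (C : CtxS S bd r P E) {k B p q : ℕ} (hE : k + 4 ≤ E) (hB : shi (k + 1) + 10 ≤ B)
    (hp : P ≤ p) (hmp : p % 4 = r % 4) (hmq : q % 4 = r % 4) (hq : p + 8 * B ^ 8 ≤ q) (hqr : q ≤ r)
    (h : StS S P ((4 * B ^ 4 + 2) :: CL k) p) : StS S P (CL (k + 1)) q := by
  have hs1 := shi_ge k
  have hs2 := shi_ge (k + 1)
  have hs3 := shi_mono (show k ≤ k + 1 by omega)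
  have hlen := CL_length k
  have hsum := CL_sum14 (k + 1)
  have hB1 : 1260 ≤ B := by omega
  have hB4 : B * B ≤ B ^ 4 := by
    have : B ^ 4 = B * B * (B * B) := by ring
    rw [this]
    exact Nat.le_mul_of_pos_right _ (by positivity)
  have hB8 : B ^ 4 ≤ B ^ 8 := Nat.pow_le_pow_right (by omega) (by norm_num)
  have hBB : B ≤ B * B := Nat.le_mul_self B
  refine StS.same C (CL_adm (k + 1)) (M := (4 * B ^ 4 + 2) :: CL k) (s0 := shi (k + 1)) (I := B ^ 4)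
    (by rw [CL, List.length_cons, List.length_cons]) (by rw [CL_length]; omega)
    (shi_mod (k + 1)) hsum hp hmp hmq (by omega) hqr ?_ ?_ h
  · rw [CL, nL_cons, nL_cons]
    have h1 : shi k * (shi (k + 1) + 8) ≤ 4 * (4 * B ^ 4 + 2) := by
      have : shi k * (shi (k + 1) + 8) ≤ B * B := Nat.mul_le_mul (by omega) (by omega)
      omega
    calc shi k * (4 * (CL k).prod * ((CL k).length + 3).factorial) * (shi (k + 1) + 8)
        = shi k * (shi (k + 1) + 8) * (4 * (CL k).prod * ((CL k).length + 3).factorial) := by ring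
      _ ≤ 4 * (4 * B ^ 4 + 2) * (4 * (CL k).prod * ((CL k).length + 3).factorial) :=
          Nat.mul_le_mul_right _ h1
      _ = _ := by ring
  · rw [CL, nL_cons, nL_cons]
    have h1 : 16 * (4 * B ^ 4 + 2) ≤ shi k * (shi (k + 1) + 4 * B ^ 4) := by
      have : 1250 * (shi (k + 1) + 4 * B ^ 4) ≤ shi k * (shi (k + 1) + 4 * B ^ 4) :=
        Nat.mul_le_mul_right _ hs1
      omega
    calc 16 * ((4 * B ^ 4 + 2) * (4 * (CL k).prod * ((CL k).length + 3).factorial))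
        = 16 * (4 * B ^ 4 + 2) * (4 * (CL k).prod * ((CL k).length + 3).factorial) := by ring
      _ ≤ shi k * (shi (k + 1) + 4 * B ^ 4) *
          (4 * (CL k).prod * ((CL k).length + 3).factorial) := Nat.mul_le_mul_right _ h1
      _ = _ := by ring

/-- From the first type to the secondR. -/
theorem StS.lvl12 (C : CtxS S bd r P E) {k B p q : ℕ} (hE : k + 5 ≤ E) (hB : shi (k + 1) + 10 ≤ B)
    (hp : P ≤ p) (hmp : p % 4 = r % 4) (hmq : q % 4 = r % 4) (hq : p + 8 * B ^ 8 ≤ q) (hqr : q ≤ r)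
    (h : StS S P ((8 * B ^ 5 + 2) :: (4 * B ^ 5 + 2) :: CL k) p) :
    StS S P ((4 * B ^ 4 + 2) :: CL (k + 1)) q := by
  have hs1 := shi_ge k
  have hs2 := shi_ge (k + 1)
  have hs3 := shi_mono (show k ≤ k + 1 by omega)
  have hlen := CL_length k
  have hsum := CL_sum14 (k + 1)
  have hB1 : 1260 ≤ B := by omega
  have hB4 : B ≤ B ^ 4 := by
    calc B = B ^ 1 := (pow_one B).symm
      _ ≤ B ^ 4 := Nat.pow_le_pow_right (by omega) (by norm_num)
  have hB46 : 20 * B ^ 4 ≤ B ^ 6 := by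
    have e : B ^ 6 = B * B * B ^ 4 := by ring
    rw [e]
    refine Nat.mul_le_mul_right _ ?_
    exact (by omega : 20 ≤ B).trans (Nat.le_mul_self B)
  have hB5 : B ^ 4 ≤ B ^ 5 := Nat.pow_le_pow_right (by omega) (by norm_num)
  have hB8 : B ^ 6 ≤ B ^ 8 := Nat.pow_le_pow_right (by omega) (by norm_num)
  have hlen1 : (CL (k + 1)).length = k + 1 := CL_length _
  refine StS.same C (M' := (4 * B ^ 4 + 2) :: CL (k + 1))
    (M := (8 * B ^ 5 + 2) :: (4 * B ^ 5 + 2) :: CL k) (s0 := 8 * B ^ 4 + 2) (I := B ^ 6)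
    ⟨by omega, by omega, CL_adm _⟩
    (by rw [List.length_cons, List.length_cons, List.length_cons, hlen, hlen1])
    (by rw [List.length_cons, hlen1]; omega)
    (by omega) (by rw [List.sum_cons]; omega) hp hmp hmq
    (by rw [List.sum_cons]; omega) hqr ?_ ?_ h
  · rw [nL_cons, nL_cons]
    have h1 : (4 * B ^ 4 + 2) * shi k * (8 * B ^ 4 + 2 + 8) ≤
        4 * ((8 * B ^ 5 + 2) * (4 * B ^ 5 + 2)) := by
      calc (4 * B ^ 4 + 2) * shi k * (8 * B ^ 4 + 2 + 8) ≤ (5 * B ^ 4) * B * (9 * B ^ 4) :=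
            Nat.mul_le_mul (Nat.mul_le_mul (by omega) (by omega)) (by omega)
        _ = 45 * (B ^ 4 * B ^ 5) := by ring
        _ ≤ 45 * (B ^ 5 * B ^ 5) := Nat.mul_le_mul_left _ (Nat.mul_le_mul_right _ hB5)
        _ ≤ 128 * (B ^ 5 * B ^ 5) := Nat.mul_le_mul_right _ (by norm_num)
        _ = 4 * ((8 * B ^ 5) * (4 * B ^ 5)) := by ring
        _ ≤ 4 * ((8 * B ^ 5 + 2) * (4 * B ^ 5 + 2)) :=
            Nat.mul_le_mul_left _ (Nat.mul_le_mul (by omega) (by omega))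
    have e1 : (CL (k + 1)).prod = shi k * (CL k).prod := by rw [CL, List.prod_cons]
    have e2 : ((4 * B ^ 5 + 2) :: CL k).prod = (4 * B ^ 5 + 2) * (CL k).prod := List.prod_cons
    have e3 : ((4 * B ^ 5 + 2) :: CL k).length = k + 1 := by rw [List.length_cons, hlen]
    rw [e1, e2, e3, hlen1]
    calc (4 * B ^ 4 + 2) * (4 * (shi k * (CL k).prod) * (k + 1 + 3).factorial) *
          (8 * B ^ 4 + 2 + 8)
        = (4 * B ^ 4 + 2) * shi k * (8 * B ^ 4 + 2 + 8) *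
          (4 * (CL k).prod * (k + 1 + 3).factorial) := by ring
      _ ≤ 4 * ((8 * B ^ 5 + 2) * (4 * B ^ 5 + 2)) *
          (4 * (CL k).prod * (k + 1 + 3).factorial) := Nat.mul_le_mul_right _ h1
      _ = _ := by ring
  · rw [nL_cons, nL_cons]
    have h1 : 16 * ((8 * B ^ 5 + 2) * (4 * B ^ 5 + 2)) ≤
        (4 * B ^ 4 + 2) * shi k * (8 * B ^ 4 + 2 + 4 * B ^ 6) := by
      calc 16 * ((8 * B ^ 5 + 2) * (4 * B ^ 5 + 2)) ≤ 16 * ((9 * B ^ 5) * (5 * B ^ 5)) :=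
            Nat.mul_le_mul_left _ (Nat.mul_le_mul (by omega) (by omega))
        _ = 720 * (B ^ 4 * B ^ 6) := by ring
        _ ≤ 20000 * (B ^ 4 * B ^ 6) := Nat.mul_le_mul_right _ (by norm_num)
        _ = (4 * B ^ 4) * 1250 * (4 * B ^ 6) := by ring
        _ ≤ (4 * B ^ 4 + 2) * shi k * (8 * B ^ 4 + 2 + 4 * B ^ 6) :=
            Nat.mul_le_mul (Nat.mul_le_mul (by omega) hs1) (by omega)
    have e1 : (CL (k + 1)).prod = shi k * (CL k).prod := by rw [CL, List.prod_cons]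
    have e2 : ((4 * B ^ 5 + 2) :: CL k).prod = (4 * B ^ 5 + 2) * (CL k).prod := List.prod_cons
    have e3 : ((4 * B ^ 5 + 2) :: CL k).length = k + 1 := by rw [List.length_cons, hlen]
    rw [e1, e2, e3, hlen1]
    calc 16 * ((8 * B ^ 5 + 2) * (4 * ((4 * B ^ 5 + 2) * (CL k).prod) * (k + 1 + 3).factorial))
        = 16 * ((8 * B ^ 5 + 2) * (4 * B ^ 5 + 2)) *
          (4 * (CL k).prod * (k + 1 + 3).factorial) := by ring
      _ ≤ (4 * B ^ 4 + 2) * shi k * (8 * B ^ 4 + 2 + 4 * B ^ 6) *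
          (4 * (CL k).prod * (k + 1 + 3).factorial) := Nat.mul_le_mul_right _ h1
      _ = _ := by ring

/-- From the third type to the first type of the next order. -/
theorem StS.lvl31 (C : CtxS S bd r P E) {k B p q : ℕ} (hE : k + 5 ≤ E) (hB : shi (k + 1) + 10 ≤ B)
    (hkB : k + 4 ≤ B)
    (hBP : B ^ 18 ≤ 2 * P) (hPB : P ≤ 2 * B ^ 18)
    (hp : P ≤ p) (hmp : p % 4 = r % 4) (hq : q = p + 8 * shi k * B ^ 8) (hqr : q ≤ r)
    (h : StS S P (CL (k + 1)) p) :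
    StS S P ((8 * B ^ 5 + 2) :: (4 * B ^ 5 + 2) :: CL k) q := by
  have hs1 := shi_ge k
  have hs3 := shi_mono (show k ≤ k + 1 by omega)
  have hlen := CL_length k
  have hsum := CL_sum14 k
  have hB1 : 1260 ≤ B := by omega
  have hB5 : B ≤ B ^ 5 := by
    calc B = B ^ 1 := (pow_one B).symm
      _ ≤ B ^ 5 := Nat.pow_le_pow_right (by omega) (by norm_num)
  have hB8 : B ^ 5 ≤ B ^ 8 := Nat.pow_le_pow_right (by omega) (by norm_num)
  have hmul : 1250 * B ^ 8 ≤ shi k * B ^ 8 := Nat.mul_le_mul_right _ hs1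
  have e8 : 8 * shi k * B ^ 8 = 8 * (shi k * B ^ 8) := by ring
  refine StS.next C (M := CL (k + 1)) (M' := (8 * B ^ 5 + 2) :: (4 * B ^ 5 + 2) :: CL k)
    (s0 := 16 * B ^ 5 + 2) (I := shi k * B ^ 8)
    ⟨by omega, by rw [List.sum_cons]; omega, by omega, by omega, CL_adm _⟩
    (by rw [List.length_cons, List.length_cons, hlen, CL_length])
    (by rw [List.length_cons, List.length_cons, hlen]; omega)
    (by omega) (by rw [List.sum_cons, List.sum_cons]; omega) hp hmp (by rw [hq, e8]; omega)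
    (by rw [List.sum_cons, List.sum_cons, hq, e8]; omega) hqr ?_ ?_ h
  · have h1 : (8 * B ^ 5 + 2) * (4 * B ^ 5 + 2) * (k + 4) * (16 * B ^ 5 + 2 + 8) ≤
        4 * shi k * P := by
      calc (8 * B ^ 5 + 2) * (4 * B ^ 5 + 2) * (k + 4) * (16 * B ^ 5 + 2 + 8)
          ≤ (9 * B ^ 5) * (5 * B ^ 5) * B * (17 * B ^ 5) :=
            Nat.mul_le_mul (Nat.mul_le_mul (Nat.mul_le_mul (by omega) (by omega)) hkB) (by omega)
        _ = 765 * B ^ 16 := by ring
        _ ≤ 2500 * B ^ 18 := Nat.mul_le_mul (by norm_num)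
            (Nat.pow_le_pow_right (by omega) (by norm_num))
        _ ≤ 2500 * (2 * P) := Nat.mul_le_mul_left _ hBP
        _ = 4 * 1250 * P := by ring
        _ ≤ 4 * shi k * P := Nat.mul_le_mul_right _ (Nat.mul_le_mul_left _ hs1)
    rw [CL, nL_cons, nL_cons, List.prod_cons, List.length_cons, hlen]
    have e5 : (k + 1 + 3).factorial = (k + 4) * (k + 3).factorial := Nat.factorial_succ (k + 3)
    rw [e5]
    calc (8 * B ^ 5 + 2) * (4 * ((4 * B ^ 5 + 2) * (CL k).prod) * ((k + 4) * (k + 3).factorial)) *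
          (16 * B ^ 5 + 2 + 8)
        = (8 * B ^ 5 + 2) * (4 * B ^ 5 + 2) * (k + 4) * (16 * B ^ 5 + 2 + 8) *
          (4 * (CL k).prod * (k + 3).factorial) := by ring
      _ ≤ 4 * shi k * P * (4 * (CL k).prod * (k + 3).factorial) := Nat.mul_le_mul_right _ h1
      _ = _ := by ring
  · have h1 : 16 * shi k * P ≤
        (8 * B ^ 5 + 2) * (4 * B ^ 5 + 2) * (k + 4) * (16 * B ^ 5 + 2 + 4 * (shi k * B ^ 8)) := by
      calc 16 * shi k * P ≤ 16 * shi k * (2 * B ^ 18) := Nat.mul_le_mul_left _ hPB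
        _ = 32 * (shi k * B ^ 18) := by ring
        _ ≤ 512 * (shi k * B ^ 18) := Nat.mul_le_mul_right _ (by norm_num)
        _ = (8 * B ^ 5) * (4 * B ^ 5) * 4 * (4 * (shi k * B ^ 8)) := by ring
        _ ≤ _ := Nat.mul_le_mul (Nat.mul_le_mul (Nat.mul_le_mul (by omega) (by omega))
            (by omega)) (by omega)
    rw [CL, nL_cons, nL_cons, List.prod_cons, List.length_cons, hlen]
    have e5 : (k + 1 + 3).factorial = (k + 4) * (k + 3).factorial := Nat.factorial_succ (k + 3)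
    rw [e5]
    calc 16 * (shi k * (4 * (CL k).prod * (k + 3).factorial)) * P
        = 16 * shi k * P * (4 * (CL k).prod * (k + 3).factorial) := by ring
      _ ≤ (8 * B ^ 5 + 2) * (4 * B ^ 5 + 2) * (k + 4) * (16 * B ^ 5 + 2 + 4 * (shi k * B ^ 8)) *
          (4 * (CL k).prod * (k + 3).factorial) := Nat.mul_le_mul_right _ h1
      _ = _ := by ring

theorem StS.levels (C : CtxS S bd r P E) {B : ℕ} (hBP : B ^ 18 ≤ 2 * P) (hPB : P ≤ 2 * B ^ 18)
    {p : ℕ} (hp : P ≤ p) (hmp : p % 4 = r % 4) (h : StS S P (CL 1) p) :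
    ∀ K : ℕ, K + 5 ≤ E → shi (K + 1) + 10 ≤ B → K + 4 ≤ B → p + lenL K * B ^ 8 ≤ r →
      StS S P (CL (K + 1)) (p + lenL K * B ^ 8) := by
  intro K
  induction K with
  | zero =>
    intro _ _ _ _
    rw [lenL, zero_mul, add_zero]
    exact h
  | succ K ih =>
    intro h1 h2 h3 h4
    have h5 := shi_mono (show K + 1 ≤ K + 1 + 1 by omega)
    have e1 : lenL (K + 1) * B ^ 8 = lenL K * B ^ 8 + 3 * (8 * shi K * B ^ 8) := by
      rw [lenL]
      ring
    rw [e1] at h4 ⊢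
    have h6 := ih (by omega) (by omega) (by omega) (by omega)
    have e8 : 8 * shi K * B ^ 8 = 8 * (shi K * B ^ 8) := by ring
    have hmul : 1 * B ^ 8 ≤ shi K * B ^ 8 :=
      Nat.mul_le_mul_right _ (by have := shi_ge K; omega)
    have hmod : (lenL K * B ^ 8) % 4 = 0 := by
      have : ∀ K, lenL K % 4 = 0 := by
        intro K
        induction K with
        | zero => rfl
        | succ K ih =>
          rw [lenL]
          omega
      rw [Nat.mul_mod, this K]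
      simp
    obtain ⟨a, ha⟩ : ∃ a, a = p + lenL K * B ^ 8 := ⟨_, rfl⟩
    obtain ⟨b, hb⟩ : ∃ b, b = shi K * B ^ 8 := ⟨_, rfl⟩
    rw [e8] at h4 ⊢
    rw [← hb] at h4 hmul ⊢
    rw [← ha] at h6
    have h7 := StS.lvl31 C (k := K) (B := B) (by omega) (by omega) (by omega) hBP hPB
      (p := a) (q := a + 8 * b) (by omega) (by omega) (by rw [e8, ← hb]) (by omega) h6
    have h8 := StS.lvl12 C (k := K) (B := B) (by omega) (by omega)
      (p := a + 8 * b) (q := a + 16 * b) (by omega) (by omega) (by omega) (by omega) (by omega) h7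
    have h9 := StS.lvl23 C (k := K + 1) (B := B) (by omega) (by omega)
      (p := a + 16 * b) (q := a + 24 * b) (by omega) (by omega) (by omega) (by omega) (by omega) h8
    have e9 : p + (lenL K * B ^ 8 + 3 * (8 * b)) = a + 24 * b := by
      rw [ha]
      ring
    rw [e9]
    exact h9

end

end Pool.Agent.W610
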