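import Mathlib
import Pool.Agent.W610.AbsB

set_option autoImplicit false

/-!
# The initial phase of the correction for an abstract relation
-/

namespace Pool.Agent.W610

open Pool.Agent.H932R3 Pool.Agent.H932R4

open Pool.Agent.H932R6


/-- The initialR phase. -/
theorem initialS {S : ℕ → ℝ → Prop} {bd : ℝ} {r P E B : ℕ} (C : CtxS S bd r P E) (hB : 1000 ≤ B) (hBr : B ^ 18 ≤ r)
    (hrB : r ≤ 2 * B ^ 18) (hPr : 100 * (r : ℝ) ^ 4 ≤ 101 * (P : ℝ) ^ 4) {p1 : ℕ} (hp1 : P ≤ p1)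
    (hm : p1 % 4 = r % 4) (hr : p1 + 32 * B ^ 8 ≤ r) {T0 : ℝ}
    (hT1 : -(4.7 / (r : ℝ) ^ 2) ≤ T0) (hT2 : T0 ≤ -(3.9 / (r : ℝ) ^ 2)) (h : S p1 T0) :
    ∃ T, S (p1 + 32 * B ^ 8) T ∧ (B : ℝ) ^ 12 / (r : ℝ) ^ 4 ≤ T ∧
      T ≤ 851 * (B : ℝ) ^ 12 / (r : ℝ) ^ 4 := by
  have hP0 := C.P0
  have hr0 := C.r0
  have hBR : (1000 : ℝ) ≤ B := by exact_mod_cast hB
  have H := num_of (x := (B : ℝ)) (R := (r : ℝ)) (Q := (P : ℝ)) hBR (by exact_mod_cast hBr)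
    (by exact_mod_cast hrB) hP0 (by exact_mod_cast C.pr) hPr
  have hR2 : ∀ c : ℝ, c / (r : ℝ) ^ 2 = c * (r * (1 / (r : ℝ) ^ 3)) := by
    intro c
    field_simp
  obtain ⟨p2, hp2⟩ : ∃ p2, p2 = p1 + 28 * B ^ 8 := ⟨_, rfl⟩
  obtain ⟨β1, i1, β2, i2, b1, b1', b2, b3, b3', b4, b5, b6, b7⟩ := num_all (p1 := (p1 : ℝ))
    (p2 := (p2 : ℝ)) (T0 := T0) H rfl (by exact_mod_cast hp1)
    (by rw [hp2]; push_cast; ring) (by exact_mod_cast hr) (by rw [← hR2]; exact hT1)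
    (by rw [← hR2]; exact hT2)
  have n6 : B ^ 4 ≤ B ^ 6 := Nat.pow_le_pow_right (by omega) (by norm_num)
  have n8 : 5 * B ^ 6 ≤ B ^ 8 := by
    have e : B ^ 8 = B * B * B ^ 6 := by ring
    rw [e]
    refine Nat.mul_le_mul_right _ ?_
    exact (by omega : 5 ≤ B).trans (Nat.le_mul_self B)
  have n18 : 4 * B ^ 6 ≤ P := by
    have h1 := H.QR2
    have h2 : (4 * (B : ℝ) ^ 6) ≤ P := by
      linarith [H.a8, H.a12, H.a18, H.xR, pow_nonneg (show (0 : ℝ) ≤ B by linarith) 6]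
    exact_mod_cast h2
  have hR1 : (1 : ℝ) ≤ r := by
    linarith [H.a6, H.a8, H.a12, H.a18, H.xR, H.a41]
  have hQ2 : 4.7 / (r : ℝ) ^ 2 ≤ 5 / (P : ℝ) ^ 2 := by
    have h1 : (1 : ℝ) / (r : ℝ) ^ 2 ≤ 1 / (P : ℝ) ^ 2 := one_div_le_one_div_of_le (by positivity)
      (pow_le_pow_left₀ hP0.le (by exact_mod_cast C.pr) 2)
    have h3 : 0 < 1 / (r : ℝ) ^ 2 := by positivity
    have h4 : 5 / (P : ℝ) ^ 2 = 5 * (1 / (P : ℝ) ^ 2) := by ring
    have h5 : 4.7 / (r : ℝ) ^ 2 = 4.7 * (1 / (r : ℝ) ^ 2) := by ring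
    rw [h4, h5]
    linarith
  have hpos39 : 0 < 3.9 / (r : ℝ) ^ 2 := by positivity
  have hT0b : |T0| ≤ 5 / (P : ℝ) ^ 2 := by
    refine le_trans ?_ hQ2
    rw [abs_le]
    constructor <;> linarith
  have hA1 := C.mv.to C.hP hp1 hm (q := p1 + 4 * i1) (by omega) (C.tbound' hT0b) h
    (by omega) (by omega)
  have hB1 := C.mv.E (p1 + 4 * i1) T0 β1 (by omega) (by omega) (by omega)
    (C.tbound' hT0b) b1' (by omega) hA1
  have hEpos : 0 ≤ Eb β1 ((p1 : ℝ) + 4 * i1) := by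
    have h1 := (Eb_bounds b1' (p := (p1 : ℝ) + 4 * i1) (by
      have : (0 : ℝ) < p1 := by
        have : (P : ℝ) ≤ p1 := by exact_mod_cast hp1
        linarith
      positivity)).1
    refine le_trans ?_ h1
    have hg := gb_nonneg (show (1 : ℝ) ≤ β1 by exact_mod_cast b1')
    positivity
  have ecast1 : ((p1 + 4 * i1 : ℕ) : ℝ) = (p1 : ℝ) + 4 * i1 := by push_cast; ring
  rw [ecast1] at hB1
  have hT1b : |T0 + Eb β1 ((p1 : ℝ) + 4 * i1)| ≤ 5 / (P : ℝ) ^ 2 := by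
    refine le_trans ?_ hQ2
    rw [abs_le]
    constructor <;> linarith
  have hA2 := C.mv.to C.hP (p := p1 + 4 * i1 + 8 * β1) (by omega) (by omega)
    (q := p2 + 4 * i2) (by omega) (C.tbound' hT1b) hB1 (by omega) (by omega)
  have hB2 := C.mv.E (p2 + 4 * i2) (T0 + Eb β1 ((p1 : ℝ) + 4 * i1)) β2 (by omega) (by omega) (by omega)
    (C.tbound' hT1b) b3' (by omega) hA2
  have ecast2 : ((p2 + 4 * i2 : ℕ) : ℝ) = (p2 : ℝ) + 4 * i2 := by push_cast; ring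
  rw [ecast2] at hB2
  obtain ⟨T4, hT4⟩ : ∃ T4, T4 = T0 + Eb β1 ((p1 : ℝ) + 4 * i1) + Eb β2 ((p2 : ℝ) + 4 * i2) :=
    ⟨_, rfl⟩
  rw [← hT4] at hB2 b6 b7
  have hV0 : 0 < (B : ℝ) ^ 12 * (1 / (r : ℝ) ^ 4) := by positivity
  have hT4b : |T4| ≤ 5 / (P : ℝ) ^ 2 := by
    refine le_trans ?_ hQ2
    rw [abs_of_pos (by linarith)]
    refine b7.trans ?_
    have h1 : 851 * (B : ℝ) ^ 12 ≤ r := by
      linarith [H.a18, H.xR, pow_nonneg (show (0 : ℝ) ≤ B by linarith) 12]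
    calc 851 * (B : ℝ) ^ 12 * (1 / (r : ℝ) ^ 4) ≤ r * (1 / (r : ℝ) ^ 4) :=
          mul_le_mul_of_nonneg_right h1 (by positivity)
      _ = 1 / (r : ℝ) ^ 2 * (1 / r) := by field_simp
      _ ≤ 1 / (r : ℝ) ^ 2 * 1 := mul_le_mul_of_nonneg_left (by
          rw [div_le_one hr0]
          exact hR1) (by positivity)
      _ ≤ 4.7 / (r : ℝ) ^ 2 := by
          rw [mul_one]
          exact div_le_div_of_nonneg_right (by norm_num) (by positivity)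
  have hC := C.mv.to C.hP (p := p2 + 4 * i2 + 8 * β2) (by omega) (by omega)
    (q := p1 + 32 * B ^ 8) (by omega) (C.tbound' hT4b) hB2 (by omega) hr
  refine ⟨T4, hC, ?_, ?_⟩
  · rw [div_eq_mul_one_div]
    exact b6
  · rw [div_eq_mul_one_div]
    exact b7


/-- The first list stage. -/
theorem secondS {S : ℕ → ℝ → Prop} {bd : ℝ} {r P E B : ℕ} (C : CtxS S bd r P E) (hE : 2 ≤ E) (hB : 1000 ≤ B) (hBr : B ^ 18 ≤ r)
    (hPr : 100 * (r : ℝ) ^ 4 ≤ 101 * (P : ℝ) ^ 4) (hhalf : (r : ℝ) ≤ 2 * P) {p q : ℕ} (hp : P ≤ p)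
    (hm : p % 4 = r % 4) (hmq : q % 4 = r % 4) (hpq : p + 16 * B ^ 8 ≤ q) (hq : q ≤ r)
    {T : ℝ} (hT1 : (B : ℝ) ^ 12 / (r : ℝ) ^ 4 ≤ T)
    (hT2 : T ≤ 851 * (B : ℝ) ^ 12 / (r : ℝ) ^ 4) (h : S p T) :
    StS S P ((4 * B ^ 4 + 2) :: CL 0) q := by
  have hP0 := C.P0
  have hr0 := C.r0
  have hB4 : B ≤ B ^ 4 := by
    calc B = B ^ 1 := (pow_one _).symm
      _ ≤ B ^ 4 := Nat.pow_le_pow_right (by omega) (by norm_num)
  have hB48 : 20 * B ^ 4 ≤ B ^ 8 := by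
    have e : B ^ 8 = B ^ 4 * B ^ 4 := by ring
    rw [e]
    exact Nat.mul_le_mul_right _ (by omega)
  have hB18 : B ^ 8 ≤ B ^ 18 := Nat.pow_le_pow_right (by omega) (by norm_num)
  have hPR : (P : ℝ) ≤ r := by exact_mod_cast C.pr
  have hnL : nL ((4 * B ^ 4 + 2) :: CL 0) = 24 * (4 * B ^ 4 + 2) := by
    rw [nL_cons]
    simp [CL, Nat.factorial]
    ring
  have hlen : ((4 * B ^ 4 + 2) :: CL 0).length = 1 := rfl
  have hsum : ((4 * B ^ 4 + 2) :: CL 0).sum = 4 * B ^ 4 + 2 := by simp [CL]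
  have hadm : Adm ((4 * B ^ 4 + 2) :: CL 0) := by
    refine ⟨by omega, ?_, trivial⟩
    have : (CL 0).sum = 0 := rfl
    omega
  obtain ⟨x, hx⟩ : ∃ x : ℝ, x = B := ⟨_, rfl⟩
  have hnLR : ((nL ((4 * B ^ 4 + 2) :: CL 0) : ℕ) : ℝ) = 24 * (4 * x ^ 4 + 2) := by
    rw [hnL, hx]
    push_cast
    ring
  have hxB : 1000 ≤ x := by
    rw [hx]
    exact_mod_cast hB
  have hx18 : x ^ 18 ≤ r := by rw [hx]; exact_mod_cast hBr
  rw [← hx] at hT1 hT2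
  have hx0 : 0 < x := by linarith
  have hx4 : 1000000 ≤ x ^ 4 := by
    have e : x ^ 4 = x ^ 2 * x ^ 2 := by ring
    have h2 : 1000 * 1000 ≤ x ^ 2 := by
      rw [pow_two]
      exact mul_le_mul hxB hxB (by norm_num) hx0.le
    have h1 : 1 ≤ x ^ 2 := by linarith
    rw [e]
    calc (1000000 : ℝ) = 1 * (1000 * 1000) := by norm_num
      _ ≤ x ^ 2 * x ^ 2 := mul_le_mul h1 h2 (by norm_num) (by positivity)
  have hx14 : 1000000 ≤ x ^ 14 := hx4.trans (pow_le_pow_right₀ (by linarith) (by norm_num))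
  have hx6 : 1 ≤ x ^ 6 := one_le_pow₀ (by linarith)
  have h418 : 1000000 * x ^ 4 ≤ r := by
    calc 1000000 * x ^ 4 ≤ x ^ 14 * x ^ 4 := mul_le_mul_of_nonneg_right hx14 (by positivity)
      _ = x ^ 18 := by ring
      _ ≤ r := hx18
  have hr1 : (1 : ℝ) ≤ r := by linarith
  have h1218 : 851 * x ^ 12 ≤ r := by
    have h1 : 851 ≤ x ^ 6 := by
      calc (851 : ℝ) ≤ x ^ 4 := by linarith
        _ ≤ x ^ 6 := pow_le_pow_right₀ (by linarith) (by norm_num)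
    calc 851 * x ^ 12 ≤ x ^ 6 * x ^ 12 := mul_le_mul_of_nonneg_right h1 (by positivity)
      _ = x ^ 18 := by ring
      _ ≤ r := hx18
  have hsm : 851 * x ^ 12 / (r : ℝ) ^ 4 ≤ 5 / (P : ℝ) ^ 2 := by
    have h1 : 851 * x ^ 12 ≤ (r : ℝ) ^ 2 := by
      calc 851 * x ^ 12 ≤ r := h1218
        _ = 1 * r := (one_mul _).symm
        _ ≤ r * r := mul_le_mul_of_nonneg_right hr1 hr0.le
        _ = (r : ℝ) ^ 2 := by ring
    calc 851 * x ^ 12 / (r : ℝ) ^ 4 ≤ (r : ℝ) ^ 2 / (r : ℝ) ^ 4 :=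
          div_le_div_of_nonneg_right h1 (by positivity)
      _ = 1 / (r : ℝ) ^ 2 := by field_simp
      _ ≤ 1 / (P : ℝ) ^ 2 := one_div_le_one_div_of_le (by positivity)
          (pow_le_pow_left₀ hP0.le hPR 2)
      _ ≤ 5 / (P : ℝ) ^ 2 := div_le_div_of_nonneg_right (by norm_num) (by positivity)
  refine ⟨?_, ?_⟩
  · unfold qL
    rw [hnLR, hlen, mul_div_assoc', div_le_div_iff₀ (by positivity) (by positivity)]
    have h1 : 2 * (4 * (24 * (4 * x ^ 4 + 2))) ≤ 5 * (P : ℝ) ^ 2 := by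
      have h2 : (r : ℝ) / 2 ≤ P := by linarith
      have h3 : (r / 2 : ℝ) ^ 2 ≤ (P : ℝ) ^ 2 := pow_le_pow_left₀ (by positivity) h2 2
      have h9 : (r / 2 : ℝ) ^ 2 = r / 4 * r := by ring
      have h10 : 250 * (r : ℝ) ≤ r / 4 * r := mul_le_mul_of_nonneg_right (by linarith) hr0.le
      linarith
    calc 2 * (4 * (24 * (4 * x ^ 4 + 2))) * (P : ℝ) ^ 2
        ≤ 5 * (P : ℝ) ^ 2 * (P : ℝ) ^ 2 := mul_le_mul_of_nonneg_right h1 (sq_nonneg _)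
      _ = 5 * (P : ℝ) ^ (1 + 3) := by ring
  · refine stageLS C (s0 := 8 * B ^ 4 + 2) (I := 3 * B ^ 8) hadm (by rw [hlen]; omega)
      (by omega) (by rw [hsum]; omega) hp hm hmq (by rw [hsum]; omega) hq
      (A := x ^ 12 / (r : ℝ) ^ 4) (B := 851 * x ^ 12 / (r : ℝ) ^ 4) ?_ ?_ hsm hT1 hT2 h
    · rw [hnLR, hlen]
      have e : (1 : ℕ) + 3 = 4 := rfl
      rw [e, div_le_div_iff₀ (by positivity) (by positivity)]
      push_cast
      rw [← hx]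
      have h1 : 24 * (4 * x ^ 4 + 2) * (8 * x ^ 4 + 2 + 8) ≤ 0.9 * x ^ 12 := by
        have h2 : 24 * (4 * x ^ 4 + 2) * (8 * x ^ 4 + 2 + 8) ≤
            24 * (5 * x ^ 4) * (9 * x ^ 4) := by
          refine mul_le_mul (by linarith) (by linarith) (by positivity) (by positivity)
        have h3 : 24 * (5 * x ^ 4) * (9 * x ^ 4) = 1080 * x ^ 8 := by ring
        have h4 : x ^ 12 = x ^ 4 * x ^ 8 := by ring
        have h7 : 1000000 * x ^ 8 ≤ x ^ 4 * x ^ 8 :=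
          mul_le_mul_of_nonneg_right hx4 (by positivity)
        have h8 : 0 < x ^ 8 := by positivity
        rw [h4]
        linarith
      have h2 : (0 : ℝ) < (r : ℝ) ^ 4 := by positivity
      calc 24 * (4 * x ^ 4 + 2) * (8 * x ^ 4 + 2 + 8) * (r : ℝ) ^ 4
          ≤ 0.9 * x ^ 12 * (r : ℝ) ^ 4 := mul_le_mul_of_nonneg_right h1 h2.le
        _ ≤ x ^ 12 * (P : ℝ) ^ 4 := by
            have h3 : 0 < x ^ 12 := by positivity
            have h4 : 0.9 * (r : ℝ) ^ 4 ≤ (P : ℝ) ^ 4 := by linarith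
            calc 0.9 * x ^ 12 * (r : ℝ) ^ 4 = x ^ 12 * (0.9 * (r : ℝ) ^ 4) := by ring
              _ ≤ _ := mul_le_mul_of_nonneg_left h4 h3.le
    · rw [hnLR, hlen]
      have e : (1 : ℕ) + 3 = 4 := rfl
      rw [e]
      refine div_le_div_of_nonneg_right ?_ (by positivity)
      push_cast
      rw [← hx]
      calc 851 * x ^ 12 ≤ 1152 * x ^ 12 := by
            have : 0 < x ^ 12 := by positivity
            linarith
        _ = 24 * (4 * x ^ 4) * (4 * (3 * x ^ 8)) := by ring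
        _ ≤ 24 * (4 * x ^ 4 + 2) * (8 * x ^ 4 + 2 + 4 * (3 * x ^ 8)) :=
            mul_le_mul (by linarith) (by
              have : 0 < x ^ 4 := by positivity
              linarith) (by positivity) (by positivity)

end Pool.Agent.W610
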