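import Mathlib

set_option autoImplicit false

/-!
# Polynomials which are large at `1` and small on `[0, 1)`
-/

namespace Pool.Agent.W610

open Polynomial

/-- The polynomials with `V M (cos² θ) sin θ = sin ((2 M + 1) θ)`. -/
noncomputable def VV : ℕ → ℝ[X]
  | 0 => 1
  | 1 => 4 * X - 1
  | (M + 2) => (4 * X - 2) * VV (M + 1) - VV M

theorem VV_zero : VV 0 = 1 := by rw [VV]

theorem VV_first : VV 1 = 4 * X - 1 := by rw [VV]

theorem VV_rec (M : ℕ) : VV (M + 2) = (4 * X - 2) * VV (M + 1) - VV M := by rw [VV]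

theorem VV_eval_rec (M : ℕ) (y : ℝ) :
    (VV (M + 2)).eval y = (4 * y - 2) * (VV (M + 1)).eval y - (VV M).eval y := by
  rw [VV_rec]
  simp

theorem VV_at_one (M : ℕ) :
    (VV M).eval 1 = 2 * (M : ℝ) + 1 ∧ (VV (M + 1)).eval 1 = 2 * (M : ℝ) + 3 := by
  induction M with
  | zero =>
    constructor
    · rw [VV_zero]
      simp
    · rw [zero_add, VV_first]
      simp
      norm_num
  | succ M ih =>
    obtain ⟨h1, h2⟩ := ih
    refine ⟨?_, ?_⟩
    · rw [h2]
      push_cast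
      ring
    · rw [VV_eval_rec, h1, h2]
      push_cast
      ring

theorem VV_deg (M : ℕ) : (VV M).natDegree ≤ M ∧ (VV (M + 1)).natDegree ≤ M + 1 := by
  have h4 : (4 * X - 2 : ℝ[X]).natDegree ≤ 1 := by
    have e : (4 * X - 2 : ℝ[X]) = C 4 * X + C (-2) := by
      rw [C_neg, ← sub_eq_add_neg]
      rfl
    rw [e]
    exact natDegree_linear_le
  induction M with
  | zero =>
    constructor
    · rw [VV_zero]
      simp
    · rw [zero_add, VV_first]
      have e : (4 * X - 1 : ℝ[X]) = C 4 * X + C (-1) := by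
        rw [C_neg, ← sub_eq_add_neg]
        rfl
      rw [e]
      exact natDegree_linear_le
  | succ M ih =>
    obtain ⟨h1, h2⟩ := ih
    refine ⟨h2, ?_⟩
    rw [VV_rec]
    refine (natDegree_sub_le _ _).trans (max_le ?_ (by omega))
    refine natDegree_mul_le.trans ?_
    omega

theorem VV_cos (M : ℕ) (θ : ℝ) :
    (VV M).eval (Real.cos θ ^ 2) * Real.sin θ = Real.sin ((2 * (M : ℝ) + 1) * θ) ∧
    (VV (M + 1)).eval (Real.cos θ ^ 2) * Real.sin θ = Real.sin ((2 * (M : ℝ) + 3) * θ) := by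
  have key : ∀ a : ℝ, Real.sin (a + 2 * θ) + Real.sin (a - 2 * θ) =
      (4 * Real.cos θ ^ 2 - 2) * Real.sin a := by
    intro a
    rw [Real.sin_add, Real.sin_sub, Real.cos_two_mul]
    ring
  induction M with
  | zero =>
    constructor
    · rw [VV_zero]
      simp
    · rw [zero_add, VV_first]
      have h := key θ
      have e1 : θ + 2 * θ = (2 * ((0 : ℕ) : ℝ) + 3) * θ := by
        push_cast
        ring
      have e2 : θ - 2 * θ = -θ := by ring
      rw [e2, Real.sin_neg, e1] at h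
      have e3 : (4 * X - 1 : ℝ[X]).eval (Real.cos θ ^ 2) = 4 * Real.cos θ ^ 2 - 1 := by simp
      rw [e3]
      linarith
  | succ M ih =>
    obtain ⟨h1, h2⟩ := ih
    refine ⟨?_, ?_⟩
    · rw [h2]
      congr 1
      push_cast
      ring
    · rw [VV_eval_rec, sub_mul, mul_assoc, h2, h1]
      have h := key ((2 * (M : ℝ) + 3) * θ)
      have e1 : (2 * (M : ℝ) + 3) * θ + 2 * θ = (2 * ((M + 1 : ℕ) : ℝ) + 3) * θ := by
        push_cast
        ring
      have e2 : (2 * (M : ℝ) + 3) * θ - 2 * θ = (2 * (M : ℝ) + 1) * θ := by ring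
      rw [e1, e2] at h
      linarith

theorem VV_bound (M : ℕ) {y : ℝ} (h0 : 0 ≤ y) (h1 : y ≤ 1) :
    ((VV M).eval y) ^ 2 * (1 - y) ≤ 1 := by
  obtain ⟨θ, hθ⟩ : ∃ θ, θ = Real.arccos (Real.sqrt y) := ⟨_, rfl⟩
  have hs0 : 0 ≤ Real.sqrt y := Real.sqrt_nonneg _
  have hs1 : Real.sqrt y ≤ 1 := (Real.sqrt_le_sqrt h1).trans (by simp)
  have hc : Real.cos θ = Real.sqrt y := by
    rw [hθ]
    exact Real.cos_arccos (by linarith) hs1
  have hc2 : Real.cos θ ^ 2 = y := by rw [hc, Real.sq_sqrt h0]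
  have hs2 : Real.sin θ ^ 2 = 1 - y := by
    have := Real.sin_sq_add_cos_sq θ
    linarith
  have h2 := (VV_cos M θ).1
  rw [hc2] at h2
  rw [← hs2, ← mul_pow, h2]
  exact Real.sin_sq_le_one _

end Pool.Agent.W610
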