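import Mathlib
import Pool.Agent.W610.Kern

set_option autoImplicit false

/-!
# A grid with geometrically growing steps, and patterns on it
-/

namespace Pool.Agent.W610

open Finset

/-- The grid. -/
def grd (D : ℕ) : ℕ → ℕ
  | 0 => 0
  | (i + 1) => grd D i + grd D i / D + 1

theorem grd_zero (D : ℕ) : grd D 0 = 0 := rfl

theorem grd_succ (D i : ℕ) : grd D (i + 1) = grd D i + grd D i / D + 1 := rfl

theorem grd_strictMono (D : ℕ) : StrictMono (grd D) := by
  refine strictMono_nat_of_lt_succ fun i => ?_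
  rw [grd_succ]
  have := Nat.zero_le (grd D i / D)
  omega

theorem grd_step {D : ℕ} (hD : 0 < D) (i : ℕ) : (D + 1) * grd D i ≤ D * grd D (i + 1) := by
  rw [grd_succ]
  have h := Nat.lt_mul_div_succ (grd D i) hD
  have e1 : (D + 1) * grd D i = D * grd D i + grd D i := by ring
  have e2 : D * (grd D i + grd D i / D + 1) = D * grd D i + D * (grd D i / D + 1) := by ring
  rw [e1, e2]
  omega

theorem grd_ratio {D : ℕ} (hD : 0 < D) (i j : ℕ) : (D + j) * grd D i ≤ D * grd D (i + j) := by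
  induction j with
  | zero => simp
  | succ j ih =>
    have h1 := grd_step hD (i + j)
    have e0 : i + (j + 1) = i + j + 1 := rfl
    rw [e0]
    refine Nat.le_of_mul_le_mul_left ?_ hD
    calc D * ((D + (j + 1)) * grd D i) ≤ ((D + 1) * (D + j)) * grd D i := by
          rw [← mul_assoc]
          refine Nat.mul_le_mul_right _ ?_
          nlinarith
      _ = (D + 1) * ((D + j) * grd D i) := by ring
      _ ≤ (D + 1) * (D * grd D (i + j)) := Nat.mul_le_mul_left _ ih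
      _ = D * ((D + 1) * grd D (i + j)) := by ring
      _ ≤ D * (D * grd D (i + j + 1)) := Nat.mul_le_mul_left _ h1

theorem grd_upper {D : ℕ} (hD : 0 < D) (i : ℕ) :
    (grd D i : ℝ) + D ≤ D * (1 + 1 / (D : ℝ)) ^ i := by
  have hDR : (0 : ℝ) < D := by exact_mod_cast hD
  induction i with
  | zero => simp [grd_zero]
  | succ i ih =>
    rw [grd_succ]
    push_cast
    have h1 : ((grd D i / D : ℕ) : ℝ) ≤ (grd D i : ℝ) / D := Nat.cast_div_le
    calc (grd D i : ℝ) + ((grd D i / D : ℕ) : ℝ) + 1 + D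
        ≤ (grd D i : ℝ) + (grd D i : ℝ) / D + 1 + D := by linarith
      _ = ((grd D i : ℝ) + D) * (1 + 1 / (D : ℝ)) := by
          field_simp
          ring
      _ ≤ (D * (1 + 1 / (D : ℝ)) ^ i) * (1 + 1 / (D : ℝ)) :=
          mul_le_mul_of_nonneg_right ih (by positivity)
      _ = D * (1 + 1 / (D : ℝ)) ^ (i + 1) := by ring

theorem grd_bound {D : ℕ} (hD : 0 < D) (t : ℕ) : grd D (2 * D * t) ≤ D * 8 ^ t := by
  have hDR : (0 : ℝ) < D := by exact_mod_cast hD
  have h1 : (1 + 1 / (D : ℝ)) ^ D ≤ 2.7182818286 := by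
    have h2 : 1 + 1 / (D : ℝ) ≤ Real.exp (1 / D) := by
      have := Real.add_one_le_exp (1 / (D : ℝ))
      linarith
    have h3 : (1 + 1 / (D : ℝ)) ^ D ≤ Real.exp (1 / D) ^ D :=
      pow_le_pow_left₀ (by positivity) h2 D
    have h4 : Real.exp (1 / D) ^ D = Real.exp 1 := by
      rw [← Real.exp_nat_mul]
      congr 1
      field_simp
    rw [h4] at h3
    linarith [Real.exp_one_lt_d9]
  have h2 : (1 + 1 / (D : ℝ)) ^ (2 * D) ≤ 8 := by
    rw [mul_comm, pow_mul]
    have h3 : 0 ≤ (1 + 1 / (D : ℝ)) ^ D := by positivity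
    nlinarith
  have h3 := grd_upper hD (2 * D * t)
  have h4 : (1 + 1 / (D : ℝ)) ^ (2 * D * t) ≤ 8 ^ t := by
    rw [pow_mul]
    exact pow_le_pow_left₀ (by positivity) h2 t
  have h5 : (grd D (2 * D * t) : ℝ) ≤ D * 8 ^ t := by
    have h6 : (D : ℝ) * (1 + 1 / (D : ℝ)) ^ (2 * D * t) ≤ D * 8 ^ t :=
      mul_le_mul_of_nonneg_left h4 hDR.le
    linarith
  exact_mod_cast h5

/-- By the pigeonhole principle there is a nonzero pattern on the grid whose moments of order less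
than `k` vanish. -/
theorem grd_pigeon {D n k G : ℕ} (hG : ∀ i < n, grd D i ≤ G) (hG1 : 1 ≤ G)
    (hcount : ∏ j ∈ range k, ((n + 1) * G ^ j) < 2 ^ n) :
    ∃ f : ℕ → ℤ, (∀ i, |f i| ≤ 1) ∧ (∃ i < n, f i ≠ 0) ∧
      ∀ j < k, ∑ i ∈ range n, f i * (grd D i : ℤ) ^ j = 0 := by
  classical
  have hB : ∀ j : Fin k, 0 < (n + 1) * G ^ (j : ℕ) := fun j => by positivity
  have hmom : ∀ S ∈ (range n).powerset, ∀ j : Fin k,
      ∑ i ∈ S, grd D i ^ (j : ℕ) < (n + 1) * G ^ (j : ℕ) := by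
    intro S hS j
    rw [mem_powerset] at hS
    have h1 : ∑ i ∈ S, grd D i ^ (j : ℕ) ≤ ∑ i ∈ range n, grd D i ^ (j : ℕ) :=
      sum_le_sum_of_subset hS
    have h2 : ∑ i ∈ range n, grd D i ^ (j : ℕ) ≤ ∑ _i ∈ range n, G ^ (j : ℕ) :=
      sum_le_sum fun i hi => Nat.pow_le_pow_left (hG i (mem_range.1 hi)) _
    rw [sum_const, card_range, smul_eq_mul] at h2
    have h3 : 0 < G ^ (j : ℕ) := by positivity
    have e : (n + 1) * G ^ (j : ℕ) = n * G ^ (j : ℕ) + G ^ (j : ℕ) := by ring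
    rw [e]
    omega
  let g : Finset ℕ → ((j : Fin k) → Fin ((n + 1) * G ^ (j : ℕ))) := fun S j =>
    ⟨(∑ i ∈ S, grd D i ^ (j : ℕ)) % ((n + 1) * G ^ (j : ℕ)), Nat.mod_lt _ (hB j)⟩
  have hcard : (univ : Finset ((j : Fin k) → Fin ((n + 1) * G ^ (j : ℕ)))).card <
      ((range n).powerset).card := by
    rw [card_univ, Fintype.card_pi, card_powerset, card_range]
    simp only [Fintype.card_fin]
    rw [← Fin.prod_univ_eq_prod_range (fun j => (n + 1) * G ^ j)] at hcount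
    exact hcount
  obtain ⟨S, hS, S', hS', hne, hg⟩ := exists_ne_map_eq_of_card_lt_of_maps_to hcard
    (f := g) (fun S _ => mem_univ _)
  have hmomeq : ∀ j < k, ∑ i ∈ S, grd D i ^ j = ∑ i ∈ S', grd D i ^ j := by
    intro j hj
    have h1 := congrArg Fin.val (congrFun hg ⟨j, hj⟩)
    simp only [g] at h1
    rwa [Nat.mod_eq_of_lt (hmom S hS ⟨j, hj⟩), Nat.mod_eq_of_lt (hmom S' hS' ⟨j, hj⟩)] at h1
  rw [mem_powerset] at hS hS'
  obtain ⟨f, hf⟩ : ∃ f : ℕ → ℤ, ∀ i, f i = (if i ∈ S then 1 else 0) - (if i ∈ S' then 1 else 0) :=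
    ⟨_, fun _ => rfl⟩
  refine ⟨f, fun i => ?_, ?_, fun j hj => ?_⟩
  · rw [hf]
    split_ifs <;> simp
  · by_contra hcon
    push Not at hcon
    refine hne (Finset.ext fun i => ?_)
    by_cases hi : i < n
    · have h1 := hcon i hi
      rw [hf] at h1
      by_cases h2 : i ∈ S <;> by_cases h3 : i ∈ S' <;> simp [h2, h3] at h1 ⊢
    · constructor
      · intro h
        exact absurd (mem_range.1 (hS h)) hi
      · intro h
        exact absurd (mem_range.1 (hS' h)) hi
  · have h1 := hmomeq j hj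
    have e : ∀ A : Finset ℕ, A ⊆ range n → ∑ i ∈ A, (grd D i : ℤ) ^ j =
        ∑ i ∈ range n, (if i ∈ A then (grd D i : ℤ) ^ j else 0) := by
      intro A hA
      rw [← sum_filter]
      congr 1
      ext i
      rw [mem_filter]
      exact ⟨fun h => ⟨hA h, h⟩, fun h => h.2⟩
    have h2 : ∑ i ∈ range n, f i * (grd D i : ℤ) ^ j =
        (∑ i ∈ S, (grd D i : ℤ) ^ j) - ∑ i ∈ S', (grd D i : ℤ) ^ j := by
      rw [e S hS, e S' hS', ← sum_sub_distrib]
      refine sum_congr rfl fun i _ => ?_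
      rw [hf]
      split_ifs <;> ring
    rw [h2, sub_eq_zero]
    exact_mod_cast h1

end Pool.Agent.W610
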