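import Mathlib
import Pool.Agent.W610.Grid

set_option autoImplicit false

/-!
# A nonzero pattern on the grid has a nonzero moment of small order
-/

namespace Pool.Agent.W610

open Finset Polynomial

theorem sum_inv_sq (J : ℕ) : ∑ j ∈ range J, 1 / ((j : ℝ) + 1) ^ 2 ≤ 2 := by
  have key : ∀ J : ℕ, ∑ j ∈ range (J + 1), 1 / ((j : ℝ) + 1) ^ 2 ≤ 2 - 1 / ((J : ℝ) + 1) := by
    intro J
    induction J with
    | zero => norm_num
    | succ J ih =>
      rw [sum_range_succ]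
      have h0 : (0 : ℝ) ≤ J := Nat.cast_nonneg J
      have h2 : 1 / (((J + 1 : ℕ) : ℝ) + 1) ^ 2 ≤ 1 / ((J : ℝ) + 1) - 1 / (((J + 1 : ℕ) : ℝ) + 1) := by
        push_cast
        have h3 : 1 / ((J : ℝ) + 1) - 1 / ((J : ℝ) + 1 + 1) =
            1 / (((J : ℝ) + 1) * ((J : ℝ) + 1 + 1)) := by
          field_simp
          ring
        rw [h3]
        refine one_div_le_one_div_of_le (by positivity) ?_
        nlinarith
      linarith
  rcases Nat.eq_zero_or_pos J with rfl | hJ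
  · simp
  · obtain ⟨K, rfl⟩ : ∃ K, J = K + 1 := ⟨J - 1, by omega⟩
    have h1 := key K
    have : 0 ≤ 1 / ((K : ℝ) + 1) := by positivity
    linarith

/-- Vanishing moments and polynomials. -/
theorem sum_poly_zero {f : ℕ → ℤ} {x : ℕ → ℤ} {n N : ℕ}
    (hmom : ∀ j ≤ N, ∑ i ∈ range n, f i * (x i) ^ j = 0) {Q : ℝ[X]} (hQ : Q.natDegree ≤ N) :
    ∑ i ∈ range n, (f i : ℝ) * Q.eval (x i : ℝ) = 0 := by
  have h1 : ∀ i, (f i : ℝ) * Q.eval (x i : ℝ) =
      ∑ j ∈ range (N + 1), Q.coeff j * ((f i : ℝ) * (x i : ℝ) ^ j) := by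
    intro i
    rw [eval_eq_sum_range' (Nat.lt_succ_of_le hQ), mul_sum]
    refine sum_congr rfl fun j _ => by ring
  simp only [h1]
  rw [sum_comm]
  refine sum_eq_zero fun j hj => ?_
  rw [← mul_sum]
  have h2 := hmom j (by have := mem_range.1 hj; omega)
  have h3 : ∑ i ∈ range n, (f i : ℝ) * (x i : ℝ) ^ j = 0 := by
    have h4 : ((∑ i ∈ range n, f i * (x i) ^ j : ℤ) : ℝ) = 0 := by rw [h2]; simp
    push_cast at h4
    exact h4
  rw [h3, mul_zero]

theorem grd_unique {D n M : ℕ} (hD : 0 < D) (hM : 4 * D ^ 2 + 2 * n < (2 * M + 1) ^ 4)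
    {f : ℕ → ℤ} (hf : ∀ i, |f i| ≤ 1) (hne : ∃ i < n, f i ≠ 0) :
    ∃ j ≤ 4 * M, ∑ i ∈ range n, f i * (grd D i : ℤ) ^ j ≠ 0 := by
  classical
  obtain ⟨J, hJn, hJ0, hmax⟩ : ∃ J < n, f J ≠ 0 ∧ ∀ i < n, J < i → f i = 0 := by
    obtain ⟨i0, hi0, hi0'⟩ := hne
    have hS : ((range n).filter fun i => f i ≠ 0).Nonempty :=
      ⟨i0, mem_filter.2 ⟨mem_range.2 hi0, hi0'⟩⟩
    obtain ⟨J, hJ, hJmax⟩ := exists_max_image _ (fun i => i) hS
    rw [mem_filter, mem_range] at hJ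
    refine ⟨J, hJ.1, hJ.2, fun i hi hJi => ?_⟩
    by_contra h
    have h2 : i ≤ J := hJmax i (mem_filter.2 ⟨mem_range.2 hi, h⟩)
    omega
  by_contra hcon
  push Not at hcon
  have hsum : ∀ w : ℕ → ℝ, ∑ i ∈ range n, (f i : ℝ) * w i =
      ∑ i ∈ range J, (f i : ℝ) * w i + (f J : ℝ) * w J := by
    intro w
    rw [← sum_range_succ]
    symm
    refine sum_subset (range_subset_range.2 (by omega)) fun i hi hi' => ?_
    rw [mem_range] at hi hi'
    rw [hmax i hi (by omega)]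
    simp
  have hfR : ∀ i, |(f i : ℝ)| ≤ 1 := fun i => by
    have := hf i
    exact_mod_cast this
  have hfJ : |(f J : ℝ)| = 1 := by
    have h1 : |f J| = 1 := by
      have h2 : 0 < |f J| := abs_pos.2 hJ0
      have h3 := hf J
      omega
    exact_mod_cast h1
  rcases Nat.eq_zero_or_pos J with hJz | hJpos
  · have h1 := hcon 0 (Nat.zero_le _)
    have h2 := hsum (fun _ => 1)
    have h3 : ∑ i ∈ range n, (f i : ℝ) * 1 = 0 := by
      have h4 : ((∑ i ∈ range n, f i * (grd D i : ℤ) ^ 0 : ℤ) : ℝ) = 0 := by rw [h1]; simp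
      push_cast at h4
      simpa using h4
    rw [h3, hJz] at h2
    simp at h2
    rw [hJz] at hJ0
    exact hJ0 (by exact_mod_cast h2.symm)
  · have hR0 : 0 < grd D J := by
      have := grd_strictMono D hJpos
      rw [grd_zero] at this
      exact this
    obtain ⟨R, hR⟩ : ∃ R : ℝ, R = grd D J := ⟨_, rfl⟩
    have hRpos : 0 < R := by rw [hR]; exact_mod_cast hR0
    have hDR : (0 : ℝ) < D := by exact_mod_cast hD
    obtain ⟨Q, hQ⟩ : ∃ Q : ℝ[X], Q = ((VV M).comp (C (1 / R) * X)) ^ 4 := ⟨_, rfl⟩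
    have hQd : Q.natDegree ≤ 4 * M := by
      rw [hQ]
      refine natDegree_pow_le.trans ?_
      refine Nat.mul_le_mul_left 4 ?_
      refine natDegree_comp_le.trans ?_
      have h1 : (C (1 / R) * X : ℝ[X]).natDegree ≤ 1 := (natDegree_C_mul_le _ _).trans natDegree_X_le
      calc (VV M).natDegree * (C (1 / R) * X : ℝ[X]).natDegree ≤ M * 1 :=
            Nat.mul_le_mul (VV_deg M).1 h1
        _ = M := Nat.mul_one M
    have hQe : ∀ z : ℝ, Q.eval z = ((VV M).eval (z / R)) ^ 4 := by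
      intro z
      rw [hQ, eval_pow, eval_comp]
      congr 2
      simp
      ring
    have h0 := sum_poly_zero (f := f) (x := fun i => (grd D i : ℤ)) hcon hQd
    have h0' : ∑ i ∈ range n, (f i : ℝ) * Q.eval ((grd D i : ℕ) : ℝ) = 0 := by
      rw [← h0]
      refine sum_congr rfl fun i _ => ?_
      push_cast
      rfl
    rw [hsum] at h0'
    have htop : Q.eval ((grd D J : ℕ) : ℝ) = (2 * (M : ℝ) + 1) ^ 4 := by
      rw [hQe, ← hR, div_self hRpos.ne', (VV_at_one M).1]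
    have hterm : ∀ i ∈ range J, |(f i : ℝ) * Q.eval ((grd D i : ℕ) : ℝ)| ≤
        2 + 2 * (D : ℝ) ^ 2 * (1 / (((J - 1 - i : ℕ) : ℝ) + 1) ^ 2) := by
      intro i hi
      have hiJ := mem_range.1 hi
      obtain ⟨j, hj⟩ : ∃ j, j = J - 1 - i := ⟨_, rfl⟩
      have hJ' : J = i + (j + 1) := by omega
      rw [← hj]
      have h1 := grd_ratio hD i (j + 1)
      rw [← hJ'] at h1
      have h1R : ((D : ℝ) + (j + 1)) * grd D i ≤ D * R := by
        rw [hR]
        exact_mod_cast h1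
      obtain ⟨y, hy⟩ : ∃ y : ℝ, y = (grd D i : ℝ) / R := ⟨_, rfl⟩
      have hj0 : (0 : ℝ) ≤ j := Nat.cast_nonneg j
      have hy0 : 0 ≤ y := by rw [hy]; positivity
      have hy1 : y ≤ D / (D + (j + 1)) := by
        rw [hy, div_le_div_iff₀ hRpos (by positivity)]
        linarith
      have h1y : ((j : ℝ) + 1) / (D + (j + 1)) ≤ 1 - y := by
        have e : ((j : ℝ) + 1) / (D + (j + 1)) = 1 - D / (D + (j + 1)) := by
          field_simp
          ring
        rw [e]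
        linarith
      have hpos : 0 < 1 - y := lt_of_lt_of_le (by positivity) h1y
      have h2 := VV_bound M hy0 (by linarith)
      have h3 : ((VV M).eval y) ^ 2 ≤ (D + (j + 1)) / ((j : ℝ) + 1) := by
        rw [le_div_iff₀ (by positivity)]
        have h4 : ((VV M).eval y) ^ 2 * (((j : ℝ) + 1) / (D + (j + 1))) ≤ 1 := by
          refine le_trans ?_ h2
          exact mul_le_mul_of_nonneg_left h1y (sq_nonneg _)
        rw [mul_div_assoc', div_le_one (by positivity)] at h4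
        exact h4
      rw [abs_mul, hQe, ← hy]
      have h5 : |((VV M).eval y) ^ 4| = (((VV M).eval y) ^ 2) ^ 2 := by
        rw [abs_of_nonneg (by positivity)]
        ring
      rw [h5]
      have h6 : (((VV M).eval y) ^ 2) ^ 2 ≤ ((D + (j + 1)) / ((j : ℝ) + 1)) ^ 2 :=
        pow_le_pow_left₀ (sq_nonneg _) h3 2
      have h7 : ((D + (j + 1)) / ((j : ℝ) + 1)) ^ 2 ≤ 2 + 2 * (D : ℝ) ^ 2 * (1 / ((j : ℝ) + 1) ^ 2) := by
        rw [div_pow, div_le_iff₀ (by positivity)]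
        have e : (2 + 2 * (D : ℝ) ^ 2 * (1 / ((j : ℝ) + 1) ^ 2)) * ((j : ℝ) + 1) ^ 2 =
            2 * ((j : ℝ) + 1) ^ 2 + 2 * (D : ℝ) ^ 2 := by
          field_simp
        rw [e]
        nlinarith [sq_nonneg ((D : ℝ) - (j + 1))]
      calc |(f i : ℝ)| * (((VV M).eval y) ^ 2) ^ 2 ≤ 1 * (((VV M).eval y) ^ 2) ^ 2 :=
            mul_le_mul_of_nonneg_right (hfR i) (sq_nonneg _)
        _ ≤ _ := by rw [one_mul]; exact h6.trans h7
    have hup : |∑ i ∈ range J, (f i : ℝ) * Q.eval ((grd D i : ℕ) : ℝ)| ≤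
        2 * (J : ℝ) + 4 * (D : ℝ) ^ 2 := by
      refine (abs_sum_le_sum_abs _ _).trans ((sum_le_sum hterm).trans ?_)
      rw [sum_add_distrib, sum_const, card_range, nsmul_eq_mul, ← mul_sum]
      have h8 := sum_range_reflect (fun j : ℕ => 1 / ((j : ℝ) + 1) ^ 2) J
      rw [h8]
      have h9 := sum_inv_sq J
      have h10 : 2 * (D : ℝ) ^ 2 * ∑ j ∈ range J, 1 / ((j : ℝ) + 1) ^ 2 ≤ 2 * (D : ℝ) ^ 2 * 2 :=
        mul_le_mul_of_nonneg_left h9 (by positivity)
      linarith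
    have h11 : |(f J : ℝ) * Q.eval ((grd D J : ℕ) : ℝ)| ≤ 2 * (J : ℝ) + 4 * (D : ℝ) ^ 2 := by
      have e : (f J : ℝ) * Q.eval ((grd D J : ℕ) : ℝ) =
          -∑ i ∈ range J, (f i : ℝ) * Q.eval ((grd D i : ℕ) : ℝ) := by linarith
      rw [e, abs_neg]
      exact hup
    rw [abs_mul, hfJ, one_mul, htop, abs_of_nonneg (by positivity)] at h11
    have h12 : (4 * (D : ℝ) ^ 2 + 2 * n) < (2 * (M : ℝ) + 1) ^ 4 := by exact_mod_cast hM
    have h13 : (J : ℝ) ≤ n := by exact_mod_cast hJn.le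
    linarith

end Pool.Agent.W610
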