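import Mathlib
import Pool.Agent.W610.Uniq

set_option autoImplicit false

/-!
# Patterns with coefficients `-1, 0, 1` and a moment order which is known up to the factor `3 / 2`
-/

namespace Pool.Agent.W610

open Finset

/-- `F` has coefficients `-1, 0, 1` and its first nonzero moment on `range L` is the one of
order `o`. -/
structure Pat (F : ℕ → ℤ) (L o : ℕ) : Prop where
  abs : ∀ w, |F w| ≤ 1
  mom : ∀ j < o, ∑ w ∈ range L, F w * (w : ℤ) ^ j = 0
  top : ∑ w ∈ range L, F w * (w : ℤ) ^ o ≠ 0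

theorem Pat.pos {F : ℕ → ℤ} {L o : ℕ} (h : Pat F L o) : 0 < L := by
  rcases Nat.eq_zero_or_pos L with rfl | h0
  · exact absurd (by simp) h.top
  · exact h0

theorem Pat.pad {F : ℕ → ℤ} {L o L' : ℕ} (h : Pat F L o) (hL : L ≤ L') :
    ∃ F', Pat F' L' o := by
  have key : ∀ j : ℕ, ∑ w ∈ range L', (if w < L then F w else 0) * (w : ℤ) ^ j =
      ∑ w ∈ range L, F w * (w : ℤ) ^ j := by
    intro j
    symm
    have h1 : ∑ w ∈ range L, F w * (w : ℤ) ^ j =
        ∑ w ∈ range L, (if w < L then F w else 0) * (w : ℤ) ^ j := by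
      refine sum_congr rfl fun w hw => ?_
      rw [if_pos (mem_range.1 hw)]
    rw [h1]
    refine sum_subset (range_subset_range.2 hL) fun w _ hw => ?_
    rw [mem_range] at hw
    rw [if_neg hw, zero_mul]
  refine ⟨fun w => if w < L then F w else 0, fun w => ?_, fun j hj => ?_, ?_⟩
  · show |if w < L then F w else 0| ≤ 1
    split_ifs
    · exact h.abs w
    · simp
  · rw [key]
    exact h.mom j hj
  · rw [key]
    exact h.top

theorem sum_digits (h : ℕ → ℤ) (L L' : ℕ) :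
    ∑ w ∈ range (L * L'), h w = ∑ b ∈ range L', ∑ a ∈ range L, h (a + L * b) := by
  induction L' with
  | zero => simp
  | succ L' ih =>
    rw [Nat.mul_succ, sum_range_add, ih, sum_range_succ]
    congr 1
    refine sum_congr rfl fun a _ => ?_
    rw [Nat.add_comm]

theorem Pat.mul {F F' : ℕ → ℤ} {L L' o o' : ℕ} (h : Pat F L o) (h' : Pat F' L' o') :
    Pat (fun w => F (w % L) * F' (w / L)) (L * L') (o + o') := by
  have hL := h.pos
  have key : ∀ j : ℕ, ∑ w ∈ range (L * L'), (F (w % L) * F' (w / L)) * (w : ℤ) ^ j =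
      ∑ i ∈ range (j + 1), ((j.choose i : ℤ) * (L : ℤ) ^ (j - i)) *
        ((∑ a ∈ range L, F a * (a : ℤ) ^ i) * ∑ b ∈ range L', F' b * (b : ℤ) ^ (j - i)) := by
    intro j
    rw [sum_digits (fun w => (F (w % L) * F' (w / L)) * (w : ℤ) ^ j)]
    have h1 : ∀ b ∈ range L', ∀ a ∈ range L,
        (F ((a + L * b) % L) * F' ((a + L * b) / L)) * (((a + L * b : ℕ) : ℤ)) ^ j =
        ∑ i ∈ range (j + 1), ((j.choose i : ℤ) * (L : ℤ) ^ (j - i)) *
          ((F a * (a : ℤ) ^ i) * (F' b * (b : ℤ) ^ (j - i))) := by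
      intro b _ a ha
      have haL := mem_range.1 ha
      have e1 : (a + L * b) % L = a := by
        rw [Nat.add_mul_mod_self_left, Nat.mod_eq_of_lt haL]
      have e2 : (a + L * b) / L = b := by
        rw [Nat.add_mul_div_left _ _ hL, Nat.div_eq_of_lt haL, zero_add]
      rw [e1, e2]
      push_cast
      rw [add_pow, mul_sum]
      refine sum_congr rfl fun i _ => ?_
      rw [mul_pow]
      ring
    have h2 : ∑ b ∈ range L', ∑ a ∈ range L,
        (F ((a + L * b) % L) * F' ((a + L * b) / L)) * (((a + L * b : ℕ) : ℤ)) ^ j =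
        ∑ b ∈ range L', ∑ a ∈ range L, ∑ i ∈ range (j + 1),
          ((j.choose i : ℤ) * (L : ℤ) ^ (j - i)) *
            ((F a * (a : ℤ) ^ i) * (F' b * (b : ℤ) ^ (j - i))) :=
      sum_congr rfl fun b hb => sum_congr rfl fun a ha => h1 b hb a ha
    rw [h2]
    have h3 : ∀ i : ℕ, ((j.choose i : ℤ) * (L : ℤ) ^ (j - i)) *
        ((∑ a ∈ range L, F a * (a : ℤ) ^ i) * ∑ b ∈ range L', F' b * (b : ℤ) ^ (j - i)) =
        ∑ b ∈ range L', ∑ a ∈ range L, ((j.choose i : ℤ) * (L : ℤ) ^ (j - i)) *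
            ((F a * (a : ℤ) ^ i) * (F' b * (b : ℤ) ^ (j - i))) := by
      intro i
      rw [sum_mul_sum, sum_comm, mul_sum]
      refine sum_congr rfl fun b _ => ?_
      rw [mul_sum]
    simp only [h3]
    rw [sum_comm' (s := range (j + 1)) (t := fun _ => range L') (t' := range L')
      (s' := fun _ => range (j + 1)) (by intro x y; simp)]
    refine sum_congr rfl fun b _ => ?_
    rw [sum_comm]
  refine ⟨fun w => ?_, fun j hj => ?_, ?_⟩
  · show |F (w % L) * F' (w / L)| ≤ 1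
    rw [abs_mul]
    have h1 := h.abs (w % L)
    have h2 := h'.abs (w / L)
    have h3 := abs_nonneg (F (w % L))
    have h4 := abs_nonneg (F' (w / L))
    nlinarith
  · rw [key]
    refine sum_eq_zero fun i hi => ?_
    have hi' := mem_range.1 hi
    by_cases hio : i < o
    · rw [h.mom i hio]
      ring
    · rw [h'.mom (j - i) (by omega)]
      ring
  · rw [key, sum_eq_single o]
    · have e : o + o' - o = o' := by omega
      rw [e]
      have h1 : ((o + o').choose o : ℤ) ≠ 0 := by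
        have := Nat.choose_pos (show o ≤ o + o' by omega)
        exact_mod_cast this.ne'
      have h2 : ((L : ℤ)) ^ o' ≠ 0 := by
        have : (L : ℤ) ≠ 0 := by exact_mod_cast hL.ne'
        exact pow_ne_zero _ this
      exact mul_ne_zero (mul_ne_zero h1 h2) (mul_ne_zero h.top h'.top)
    · intro i hi hio
      have hi' := mem_range.1 hi
      by_cases hlt : i < o
      · rw [h.mom i hlt]
        ring
      · rw [h'.mom (o + o' - i) (by omega)]
        ring
    · intro hcon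
      exact absurd (mem_range.2 (by omega)) hcon

theorem Pat.pow {F : ℕ → ℤ} {L o : ℕ} (h : Pat F L o) (i : ℕ) :
    ∃ F', Pat F' (L ^ (i + 1)) ((i + 1) * o) := by
  induction i with
  | zero => exact ⟨F, by simpa using h⟩
  | succ i ih =>
    obtain ⟨F', hF'⟩ := ih
    have h1 := h.mul hF'
    have e1 : L * L ^ (i + 1) = L ^ (i + 1 + 1) := (pow_succ' L (i + 1)).symm
    have e2 : o + (i + 1) * o = (i + 1 + 1) * o := by ring
    rw [e1, e2] at h1
    exact ⟨_, h1⟩

theorem two_pow_ge (v : ℕ) : v + 1 ≤ 2 ^ v := Nat.lt_two_pow_self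

/-- The patterns on the grid. -/
theorem exists_base (u : ℕ) (hu : 1 ≤ u) :
    ∃ (F : ℕ → ℤ) (o : ℕ), Pat F (2 ^ 28 * u ^ 8) o ∧ 4 * u ≤ o ∧ o ≤ 12 * u + 4 := by
  classical
  obtain ⟨v, hv1, hv2⟩ : ∃ v, u ≤ 2 ^ v ∧ 2 ^ v ≤ 2 * u := by
    refine ⟨Nat.log 2 u + 1, (Nat.lt_pow_succ_log_self (by norm_num) u).le, ?_⟩
    have := Nat.pow_log_le_self 2 (show u ≠ 0 by omega)
    rw [pow_succ]
    omega
  obtain ⟨l, hl⟩ : ∃ l, l = 2 * v + 5 := ⟨_, rfl⟩
  obtain ⟨D, hD⟩ : ∃ D, D = 4 * u * (4 * u + 1) := ⟨_, rfl⟩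
  obtain ⟨n, hn⟩ : ∃ n, n = 2 * D * l := ⟨_, rfl⟩
  have hD0 : 0 < D := by rw [hD]; positivity
  have hDl : D ≤ 2 ^ l := by
    have h1 : D ≤ 20 * u ^ 2 := by
      rw [hD]
      nlinarith
    have h2 : u ^ 2 ≤ (2 ^ v) ^ 2 := Nat.pow_le_pow_left hv1 2
    have h3 : 2 ^ l = 32 * (2 ^ v) ^ 2 := by
      rw [hl, pow_add, mul_comm 2 v, pow_mul]
      norm_num
      ring
    rw [h3]
    omega
  have hvu : l ≤ 4 * u + 3 := by
    have := two_pow_ge v
    omega
  have hgn : grd D n ≤ 2 ^ (4 * l) := by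
    rw [hn]
    refine (grd_bound hD0 l).trans ?_
    have e : 2 ^ (4 * l) = 2 ^ l * 8 ^ l := by
      have : (8 : ℕ) = 2 ^ 3 := by norm_num
      rw [this, ← pow_mul, ← pow_add]
      congr 1
      ring
    rw [e]
    exact Nat.mul_le_mul_right _ hDl
  have hgi : ∀ i < n, grd D i < 2 ^ (4 * l) := fun i hi =>
    lt_of_lt_of_le (grd_strictMono D hi) hgn
  have hcount : ∏ j ∈ range (4 * u), ((n + 1) * (2 ^ (4 * l)) ^ j) < 2 ^ n := by
    have h1 : n + 1 ≤ 2 ^ (2 * l + 1) := by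
      have h2 : n ≤ 2 ^ (2 * l) := by
        have h3 : 2 * l ≤ 2 ^ l := by
          obtain ⟨m, hm⟩ : ∃ m, l = m + 1 := ⟨l - 1, by omega⟩
          have := two_pow_ge m
          rw [hm, pow_succ]
          omega
        calc n = D * (2 * l) := by rw [hn]; ring
          _ ≤ 2 ^ l * 2 ^ l := Nat.mul_le_mul hDl h3
          _ = 2 ^ (2 * l) := by rw [← pow_add]; congr 1; ring
      have h4 : 1 ≤ 2 ^ (2 * l) := Nat.one_le_two_pow
      rw [pow_succ]
      omega
    have h2 : ∏ j ∈ range (4 * u), ((n + 1) * (2 ^ (4 * l)) ^ j) ≤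
        ∏ j ∈ range (4 * u), 2 ^ (2 * l + 1 + 4 * l * j) := by
      refine prod_le_prod' fun j _ => ?_
      rw [pow_add, pow_mul 2 (4 * l) j]
      exact Nat.mul_le_mul_right _ h1
    refine lt_of_le_of_lt h2 ?_
    rw [prod_pow_eq_pow_sum]
    refine Nat.pow_lt_pow_right (by norm_num) ?_
    rw [sum_add_distrib, sum_const, card_range, smul_eq_mul, ← mul_sum]
    have h3 := Finset.sum_range_id_mul_two (4 * u)
    obtain ⟨Sg, hSg⟩ : ∃ Sg, Sg = ∑ i ∈ range (4 * u), i := ⟨_, rfl⟩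
    rw [← hSg] at h3 ⊢
    obtain ⟨k, hk⟩ : ∃ k, 4 * u = k + 1 := ⟨4 * u - 1, by omega⟩
    rw [hk] at h3 hD ⊢
    rw [Nat.add_sub_cancel] at h3
    have h4 : 4 * l * Sg = 2 * l * ((k + 1) * k) := by
      rw [← h3]
      ring
    rw [h4, hn, hD]
    have h5 : 5 ≤ l := by omega
    nlinarith
  obtain ⟨f, hf, hne, hmom⟩ := grd_pigeon (k := 4 * u) (fun i hi => (hgi i hi).le)
    Nat.one_le_two_pow hcount
  obtain ⟨j0, hj0, hj0'⟩ := grd_unique (M := 3 * u + 1) hD0 (by
    have h1 : 4 * D ^ 2 + 2 * n ≤ 4 * D * (D + (4 * u + 3)) := by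
      have : D * l ≤ D * (4 * u + 3) := Nat.mul_le_mul_left _ hvu
      rw [hn]
      nlinarith
    refine lt_of_le_of_lt h1 ?_
    rw [hD]
    ring_nf
    nlinarith [pow_pos (show 0 < u by omega) 4, pow_pos (show 0 < u by omega) 3,
      pow_pos (show 0 < u by omega) 2]) hf hne
  obtain ⟨o, ho, homin⟩ : ∃ o, (∑ i ∈ range n, f i * (grd D i : ℤ) ^ o ≠ 0) ∧
      ∀ j < o, ∑ i ∈ range n, f i * (grd D i : ℤ) ^ j = 0 := by
    have hex : ∃ o, ∑ i ∈ range n, f i * (grd D i : ℤ) ^ o ≠ 0 := ⟨j0, hj0'⟩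
    refine ⟨Nat.find hex, Nat.find_spec hex, fun j hj => ?_⟩
    have := Nat.find_min hex hj
    push Not at this
    exact this
  have ho1 : 4 * u ≤ o := by
    by_contra hcon
    exact ho (hmom o (by omega))
  have ho2 : o ≤ 12 * u + 4 := by
    by_contra hcon
    exact hj0' (homin j0 (by omega))
  -- the pattern on positions
  obtain ⟨F, hF⟩ : ∃ F : ℕ → ℤ, ∀ w, F w = ∑ i ∈ range n, if grd D i = w then f i else 0 :=
    ⟨_, fun _ => rfl⟩
  have hFsum : ∀ j : ℕ, ∑ w ∈ range (2 ^ (4 * l)), F w * (w : ℤ) ^ j =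
      ∑ i ∈ range n, f i * (grd D i : ℤ) ^ j := by
    intro j
    simp only [hF, sum_mul]
    rw [sum_comm]
    refine sum_congr rfl fun i hi => ?_
    rw [sum_eq_single (grd D i)]
    · rw [if_pos rfl]
    · intro w _ hw
      rw [if_neg (Ne.symm hw), zero_mul]
    · intro h
      exact absurd (mem_range.2 (hgi i (mem_range.1 hi))) h
  have hpat : Pat F (2 ^ (4 * l)) o := by
    refine ⟨fun w => ?_, fun j hj => ?_, ?_⟩
    · by_cases hw : ∃ i < n, grd D i = w
      · obtain ⟨i, hi, rfl⟩ := hw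
        rw [hF, sum_eq_single i]
        · rw [if_pos rfl]
          exact hf i
        · intro i' _ hii
          rw [if_neg]
          intro h
          exact hii ((grd_strictMono D).injective h)
        · intro h
          exact absurd (mem_range.2 hi) h
      · rw [hF, sum_eq_zero]
        · simp
        · intro i hi
          rw [if_neg]
          intro h
          exact hw ⟨i, mem_range.1 hi, h⟩
    · rw [hFsum]
      exact homin j hj
    · rw [hFsum]
      exact ho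
  have hlen : 2 ^ (4 * l) ≤ 2 ^ 28 * u ^ 8 := by
    have e : 2 ^ (4 * l) = 2 ^ 20 * (2 ^ v) ^ 8 := by
      rw [hl, ← pow_mul, ← pow_add]
      congr 1
      ring
    rw [e]
    calc 2 ^ 20 * (2 ^ v) ^ 8 ≤ 2 ^ 20 * (2 * u) ^ 8 :=
          Nat.mul_le_mul_left _ (Nat.pow_le_pow_left hv2 8)
      _ = 2 ^ 28 * u ^ 8 := by ring
  obtain ⟨F', hF'⟩ := hpat.pad hlen
  exact ⟨F', o, hF', ho1, ho2⟩

/-- Patterns whose order is known up to the factor `3 / 2`. -/
theorem exists_order (q : ℕ) (hq : 110 ≤ q) :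
    ∃ (F : ℕ → ℤ) (o : ℕ), Pat F (q ^ 40) o ∧ q ≤ o ∧ 2 * o ≤ 3 * q := by
  classical
  obtain ⟨u, hu⟩ : ∃ u, u = (q - 6) / 16 := ⟨_, rfl⟩
  have hu1 : 16 * u ≤ q - 6 := by rw [hu]; exact Nat.mul_div_le _ _
  have hu2 : q - 6 < 16 * u + 16 := by
    rw [hu]
    exact Nat.lt_mul_div_succ (q - 6) (by norm_num)
  obtain ⟨F, o, hF, ho1, ho2⟩ := exists_base u (by omega)
  have hex : ∃ i, q ≤ (i + 1) * o := ⟨4, by omega⟩
  obtain ⟨i, hi1, hi2, hi4⟩ : ∃ i, q ≤ (i + 1) * o ∧ (∀ j < i, (j + 1) * o < q) ∧ i ≤ 4 := by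
    refine ⟨Nat.find hex, Nat.find_spec hex, fun j hj => ?_, Nat.find_min' hex (by omega)⟩
    have := Nat.find_min hex hj
    omega
  have hi0 : i ≠ 0 := by
    rintro rfl
    omega
  obtain ⟨m, rfl⟩ : ∃ m, i = m + 1 := ⟨i - 1, by omega⟩
  have h3 := hi2 m (by omega)
  have h4 : 2 * ((m + 1 + 1) * o) ≤ 3 * q := by
    rcases Nat.eq_zero_or_pos m with rfl | hm
    · omega
    · have h5 : 2 * o ≤ (m + 1) * o := Nat.mul_le_mul_right _ (by omega)
      have e : (m + 1 + 1) * o = (m + 1) * o + o := by ring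
      rw [e]
      omega
  obtain ⟨F', hF'⟩ := hF.pow (m + 1)
  have hlen : (2 ^ 28 * u ^ 8) ^ (m + 1 + 1) ≤ q ^ 40 := by
    have h5 : 1 ≤ 2 ^ 28 * u ^ 8 := by
      have : 0 < u := by omega
      exact Nat.one_le_iff_ne_zero.2 (by positivity)
    calc (2 ^ 28 * u ^ 8) ^ (m + 1 + 1) ≤ (2 ^ 28 * u ^ 8) ^ 5 :=
          Nat.pow_le_pow_right h5 (by omega)
      _ = 2 ^ 140 * u ^ 40 := by ring
      _ ≤ 2 ^ 160 * u ^ 40 := Nat.mul_le_mul_right _ (Nat.pow_le_pow_right (by norm_num) (by norm_num))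
      _ = (16 * u) ^ 40 := by rw [mul_pow]; norm_num
      _ ≤ q ^ 40 := Nat.pow_le_pow_left (by omega) 40
  obtain ⟨F'', hF''⟩ := hF'.pad hlen
  exact ⟨F'', _, hF'', hi1, h4⟩

end Pool.Agent.W610
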