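import Mathlib
import Pool.Agent.W610.Pat
import Pool.Agent.W610.Smooth

set_option autoImplicit false

/-!
# A lower bound for the values of a pattern at a prescribed position
-/

namespace Pool.Agent.W610

open Finset Pool.Agent.H932R3

/-- The second geometric expansion with remainder. -/
theorem geo2_expand {z c : ℝ} (hz : 0 < z) (hc : 0 ≤ c) (k : ℕ) :
    1 / (z + c) ^ 2 = (∑ j ∈ range k, ((j : ℝ) + 1) * (-c) ^ j / z ^ (j + 2)) +
      (-c) ^ k * (((k : ℝ) + 1) * z + k * c) / (z ^ (k + 1) * (z + c) ^ 2) := by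
  have hzc : 0 < z + c := by linarith
  induction k with
  | zero =>
    simp
    field_simp
  | succ k ih =>
    rw [sum_range_succ, ih, add_assoc]
    congr 1
    rw [pow_succ (-c) k]
    push_cast
    field_simp
    ring

theorem geo2_rem {z c : ℝ} (hz : 0 < z) (hc : 0 ≤ c) (k : ℕ) :
    |(-c) ^ k * (((k : ℝ) + 1) * z + k * c) / (z ^ (k + 1) * (z + c) ^ 2)| ≤
      ((k : ℝ) + 1) * c ^ k / z ^ (k + 2) := by
  have hzc : 0 < z + c := by linarith
  have hk : (0 : ℝ) ≤ k := Nat.cast_nonneg k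
  rw [abs_div, abs_mul, abs_pow, abs_neg, abs_of_nonneg hc,
    abs_of_nonneg (show 0 ≤ ((k : ℝ) + 1) * z + k * c by positivity),
    abs_of_pos (show 0 < z ^ (k + 1) * (z + c) ^ 2 by positivity),
    div_le_div_iff₀ (by positivity) (by positivity)]
  have h1 : (((k : ℝ) + 1) * z + k * c) * z ≤ ((k : ℝ) + 1) * (z + c) ^ 2 := by
    nlinarith [mul_nonneg hk (mul_nonneg hc hz.le), mul_nonneg hc hz.le, mul_nonneg hk (sq_nonneg c),
      sq_nonneg c]
  have h2 : 0 ≤ c ^ k * z ^ (k + 1) := by positivity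
  calc c ^ k * (((k : ℝ) + 1) * z + k * c) * z ^ (k + 2)
      = (c ^ k * z ^ (k + 1)) * ((((k : ℝ) + 1) * z + k * c) * z) := by ring
    _ ≤ (c ^ k * z ^ (k + 1)) * (((k : ℝ) + 1) * (z + c) ^ 2) := mul_le_mul_of_nonneg_left h1 h2
    _ = ((k : ℝ) + 1) * c ^ k * (z ^ (k + 1) * (z + c) ^ 2) := by ring

/-- The weights of the functional. -/
noncomputable def lam (o i : ℕ) : ℝ := (-1) ^ (o - (i + 1)) * (o.choose (i + 1)) / ((i : ℝ) + 1) ^ o

theorem alt_sum {o d : ℕ} (hd : d < o) :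
    ∑ i ∈ range o, (-1 : ℝ) ^ (o - (i + 1)) * (o.choose (i + 1)) * ((i : ℝ) + 1) ^ d =
      if d = 0 then -(-1) ^ o else 0 := by
  have h1 := fwdDiff_iter_pow_eq_zero_of_lt (R := ℝ) hd
  have h2 := fwdDiff_iter_eq_sum_shift (h := (1 : ℝ)) (fun r : ℝ => r ^ d) o 0
  rw [h1] at h2
  rw [sum_range_succ'] at h2
  simp only [Pi.zero_apply, zero_add, nsmul_eq_mul, mul_one, zsmul_eq_mul, Nat.sub_zero,
    Nat.choose_zero_right, Nat.cast_zero, Nat.cast_one] at h2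
  push_cast at h2
  have h3 : ∑ i ∈ range o, (-1 : ℝ) ^ (o - (i + 1)) * (o.choose (i + 1)) * ((i : ℝ) + 1) ^ d =
      -((-1) ^ o * 1 * (0 : ℝ) ^ d) := by linarith
  rw [h3]
  split_ifs with h
  · rw [h]
    simp
  · rw [zero_pow h]
    ring

theorem lam_pow {o j : ℕ} (h1 : o ≤ j) (h2 : j < 2 * o) :
    ∑ i ∈ range o, lam o i * ((i : ℝ) + 1) ^ j = if j = o then -(-1) ^ o else 0 := by
  obtain ⟨d, rfl⟩ : ∃ d, j = o + d := ⟨j - o, by omega⟩
  have h3 := alt_sum (o := o) (d := d) (by omega)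
  have h4 : ∀ i ∈ range o, lam o i * ((i : ℝ) + 1) ^ (o + d) =
      (-1 : ℝ) ^ (o - (i + 1)) * (o.choose (i + 1)) * ((i : ℝ) + 1) ^ d := by
    intro i _
    unfold lam
    have : (0 : ℝ) < (i : ℝ) + 1 := by positivity
    rw [pow_add]
    field_simp
  rw [sum_congr rfl h4, h3]
  by_cases hd : d = 0
  · rw [if_pos hd, if_pos (by omega)]
  · rw [if_neg hd, if_neg (by omega)]

theorem lam_abs (o i : ℕ) : |lam o i| ≤ o.choose (i + 1) := by
  unfold lam
  have h1 : (1 : ℝ) ≤ ((i : ℝ) + 1) ^ o := one_le_pow₀ (by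
    have : (0 : ℝ) ≤ i := Nat.cast_nonneg i
    linarith)
  rw [abs_div, abs_mul, abs_pow, abs_neg, abs_one, one_pow, one_mul,
    abs_of_nonneg (Nat.cast_nonneg _), abs_of_pos (by linarith)]
  exact div_le_self (Nat.cast_nonneg _) h1

theorem lam_sum (o : ℕ) : ∑ i ∈ range o, |lam o i| ≤ 2 ^ o := by
  refine (sum_le_sum fun i _ => lam_abs o i).trans ?_
  have h1 := Nat.sum_range_choose o
  have h2 : ∑ i ∈ range o, ((o.choose (i + 1) : ℕ) : ℝ) ≤ ((2 ^ o : ℕ) : ℝ) := by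
    rw [← h1, sum_range_succ']
    push_cast
    have : (0 : ℝ) ≤ (o.choose 0 : ℕ) := Nat.cast_nonneg _
    linarith
  push_cast at h2
  exact h2

/-- The functional applied to the pattern of `1 / (y + c) ^ 2`. -/
noncomputable def tht (F : ℕ → ℤ) (L o : ℕ) (s y : ℝ) : ℝ :=
  ∑ i ∈ range o, lam o i * ∑ w ∈ range L, (F w : ℝ) * (1 / (y + s * ((i : ℝ) + 1) * w) ^ 2)

theorem tht_lower {F : ℕ → ℤ} {L o : ℕ} (h : Pat F L o) (ho : 1 ≤ o) {s y : ℝ} (hs : 0 < s)
    (hy : 0 < y) :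
    ((o : ℝ) + 1) * s ^ o / y ^ (o + 2) -
      2 ^ o * (L * ((2 * (o : ℝ) + 1) * (s * o * L) ^ (2 * o) / y ^ (2 * o + 2))) ≤
      |tht F L o s y| := by
  have hFR : ∀ w, |(F w : ℝ)| ≤ 1 := fun w => by
    have := h.abs w
    exact_mod_cast this
  have hmomR : ∀ j < o, ∑ w ∈ range L, (F w : ℝ) * (w : ℝ) ^ j = 0 := by
    intro j hj
    have h6 : ((∑ w ∈ range L, F w * (w : ℤ) ^ j : ℤ) : ℝ) = 0 := by rw [h.mom j hj]; simp
    push_cast at h6
    exact h6
  obtain ⟨m, hm⟩ : ∃ m : ℝ, m = ∑ w ∈ range L, (F w : ℝ) * (w : ℝ) ^ o := ⟨_, rfl⟩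
  have hm1 : 1 ≤ |m| := by
    have h6 : ((∑ w ∈ range L, F w * (w : ℤ) ^ o : ℤ) : ℝ) = m := by
      rw [hm]
      push_cast
      rfl
    rw [← h6]
    have h7 := Int.one_le_abs h.top
    exact_mod_cast h7
  -- the remainder
  obtain ⟨E, hE⟩ : ∃ E : ℝ, E = ∑ i ∈ range o, lam o i * ∑ w ∈ range L, (F w : ℝ) *
      ((-(s * ((i : ℝ) + 1) * w)) ^ (2 * o) * ((((2 * o : ℕ) : ℝ) + 1) * y +
        ((2 * o : ℕ) : ℝ) * (s * ((i : ℝ) + 1) * w)) /
        (y ^ (2 * o + 1) * (y + s * ((i : ℝ) + 1) * w) ^ 2)) := ⟨_, rfl⟩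
  have hmain : tht F L o s y = ((o : ℝ) + 1) * (-s) ^ o / y ^ (o + 2) * (-(-1) ^ o * m) + E := by
    unfold tht
    have h1 : ∀ i w : ℕ, (F w : ℝ) * (1 / (y + s * ((i : ℝ) + 1) * w) ^ 2) =
        (∑ j ∈ range (2 * o), (((j : ℝ) + 1) * (-s) ^ j / y ^ (j + 2) * ((i : ℝ) + 1) ^ j) *
          ((F w : ℝ) * (w : ℝ) ^ j)) +
        (F w : ℝ) * ((-(s * ((i : ℝ) + 1) * w)) ^ (2 * o) * ((((2 * o : ℕ) : ℝ) + 1) * y +
        ((2 * o : ℕ) : ℝ) * (s * ((i : ℝ) + 1) * w)) /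
        (y ^ (2 * o + 1) * (y + s * ((i : ℝ) + 1) * w) ^ 2)) := by
      intro i w
      rw [geo2_expand hy (by positivity) (2 * o), mul_add, mul_sum]
      congr 1
      refine sum_congr rfl fun j _ => ?_
      have e : (-(s * ((i : ℝ) + 1) * w)) ^ j = (-s) ^ j * ((i : ℝ) + 1) ^ j * (w : ℝ) ^ j := by
        rw [← mul_pow, ← mul_pow]
        congr 1
        ring
      rw [e]
      ring
    have h1' : ∀ i : ℕ, lam o i * ∑ w ∈ range L, (F w : ℝ) *
        (1 / (y + s * ((i : ℝ) + 1) * w) ^ 2) =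
        lam o i * (∑ w ∈ range L, ∑ j ∈ range (2 * o),
          (((j : ℝ) + 1) * (-s) ^ j / y ^ (j + 2) * ((i : ℝ) + 1) ^ j) *
            ((F w : ℝ) * (w : ℝ) ^ j)) +
        lam o i * ∑ w ∈ range L, (F w : ℝ) *
          ((-(s * ((i : ℝ) + 1) * w)) ^ (2 * o) * ((((2 * o : ℕ) : ℝ) + 1) * y +
          ((2 * o : ℕ) : ℝ) * (s * ((i : ℝ) + 1) * w)) /
          (y ^ (2 * o + 1) * (y + s * ((i : ℝ) + 1) * w) ^ 2)) := by
      intro i
      rw [sum_congr rfl (fun w _ => h1 i w), sum_add_distrib, mul_add]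
    rw [sum_congr rfl (fun i _ => h1' i), sum_add_distrib, ← hE]
    congr 1
    have h2 : ∀ i : ℕ, ∑ w ∈ range L, ∑ j ∈ range (2 * o),
        (((j : ℝ) + 1) * (-s) ^ j / y ^ (j + 2) * ((i : ℝ) + 1) ^ j) * ((F w : ℝ) * (w : ℝ) ^ j) =
        ∑ j ∈ range (2 * o), (((j : ℝ) + 1) * (-s) ^ j / y ^ (j + 2) * ((i : ℝ) + 1) ^ j) *
          ∑ w ∈ range L, (F w : ℝ) * (w : ℝ) ^ j := by
      intro i
      rw [sum_comm]
      refine sum_congr rfl fun j _ => ?_
      rw [mul_sum]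
    simp only [h2, mul_sum (s := range (2 * o))]
    rw [sum_comm]
    rw [sum_eq_single o]
    · have h3 := lam_pow (o := o) (j := o) le_rfl (by omega)
      rw [if_pos rfl] at h3
      rw [← hm, ← h3, sum_mul, mul_sum]
      refine sum_congr rfl fun i _ => ?_
      ring
    · intro j hj hjo
      have hj' := mem_range.1 hj
      rcases lt_or_gt_of_ne hjo with hlt | hgt
      · rw [hmomR j hlt]
        simp
      · have h3 := lam_pow (o := o) (j := j) hgt.le hj'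
        rw [if_neg hjo] at h3
        have h4 : ∑ i ∈ range o, lam o i * ((((j : ℝ) + 1) * (-s) ^ j / y ^ (j + 2) *
            ((i : ℝ) + 1) ^ j) * ∑ w ∈ range L, (F w : ℝ) * (w : ℝ) ^ j) =
            (((j : ℝ) + 1) * (-s) ^ j / y ^ (j + 2) * ∑ w ∈ range L, (F w : ℝ) * (w : ℝ) ^ j) *
              ∑ i ∈ range o, lam o i * ((i : ℝ) + 1) ^ j := by
          rw [mul_sum]
          refine sum_congr rfl fun i _ => ?_
          ring
        rw [h4, h3, mul_zero]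
    · intro hcon
      exact absurd (mem_range.2 (by omega)) hcon
  have hEb : |E| ≤ 2 ^ o * (L * ((2 * (o : ℝ) + 1) * (s * o * L) ^ (2 * o) / y ^ (2 * o + 2))) := by
    rw [hE]
    refine (abs_sum_le_sum_abs _ _).trans ?_
    have h1 : ∀ i ∈ range o, |lam o i * ∑ w ∈ range L, (F w : ℝ) *
        ((-(s * ((i : ℝ) + 1) * w)) ^ (2 * o) * ((((2 * o : ℕ) : ℝ) + 1) * y +
        ((2 * o : ℕ) : ℝ) * (s * ((i : ℝ) + 1) * w)) /
        (y ^ (2 * o + 1) * (y + s * ((i : ℝ) + 1) * w) ^ 2))| ≤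
        |lam o i| * (L * ((2 * (o : ℝ) + 1) * (s * o * L) ^ (2 * o) / y ^ (2 * o + 2))) := by
      intro i hi
      have hio : ((i : ℝ) + 1) ≤ o := by
        have := mem_range.1 hi
        exact_mod_cast this
      rw [abs_mul]
      refine mul_le_mul_of_nonneg_left ?_ (abs_nonneg _)
      refine (abs_sum_le_sum_abs _ _).trans ?_
      have h2 : ∀ w ∈ range L, |(F w : ℝ) *
          ((-(s * ((i : ℝ) + 1) * w)) ^ (2 * o) * ((((2 * o : ℕ) : ℝ) + 1) * y +
          ((2 * o : ℕ) : ℝ) * (s * ((i : ℝ) + 1) * w)) /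
          (y ^ (2 * o + 1) * (y + s * ((i : ℝ) + 1) * w) ^ 2))| ≤
          (2 * (o : ℝ) + 1) * (s * o * L) ^ (2 * o) / y ^ (2 * o + 2) := by
        intro w hw
        have hwL : (w : ℝ) ≤ L := by exact_mod_cast (mem_range.1 hw).le
        rw [abs_mul]
        have h3 := geo2_rem hy (show 0 ≤ s * ((i : ℝ) + 1) * w by positivity) (2 * o)
        have h4 : (((2 * o : ℕ) : ℝ) + 1) * (s * ((i : ℝ) + 1) * w) ^ (2 * o) / y ^ (2 * o + 2) ≤
            (2 * (o : ℝ) + 1) * (s * o * L) ^ (2 * o) / y ^ (2 * o + 2) := by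
          refine div_le_div_of_nonneg_right ?_ (by positivity)
          push_cast
          refine mul_le_mul_of_nonneg_left ?_ (by positivity)
          refine pow_le_pow_left₀ (by positivity) ?_ _
          exact mul_le_mul (mul_le_mul_of_nonneg_left hio hs.le) hwL (Nat.cast_nonneg w)
            (by positivity)
        calc |(F w : ℝ)| * |(-(s * ((i : ℝ) + 1) * w)) ^ (2 * o) * ((((2 * o : ℕ) : ℝ) + 1) * y +
            ((2 * o : ℕ) : ℝ) * (s * ((i : ℝ) + 1) * w)) /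
            (y ^ (2 * o + 1) * (y + s * ((i : ℝ) + 1) * w) ^ 2)|
            ≤ 1 * |(-(s * ((i : ℝ) + 1) * w)) ^ (2 * o) * ((((2 * o : ℕ) : ℝ) + 1) * y +
            ((2 * o : ℕ) : ℝ) * (s * ((i : ℝ) + 1) * w)) /
            (y ^ (2 * o + 1) * (y + s * ((i : ℝ) + 1) * w) ^ 2)| :=
              mul_le_mul_of_nonneg_right (hFR w) (abs_nonneg _)
          _ ≤ _ := by rw [one_mul]; exact h3.trans h4
      refine (sum_le_sum h2).trans ?_
      rw [sum_const, card_range, nsmul_eq_mul]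
    refine (sum_le_sum h1).trans ?_
    rw [← sum_mul]
    exact mul_le_mul_of_nonneg_right (lam_sum o) (by positivity)
  have hmain2 : ((o : ℝ) + 1) * s ^ o / y ^ (o + 2) ≤
      |((o : ℝ) + 1) * (-s) ^ o / y ^ (o + 2) * (-(-1) ^ o * m)| := by
    have e1 : |((o : ℝ) + 1) * (-s) ^ o / y ^ (o + 2)| = ((o : ℝ) + 1) * s ^ o / y ^ (o + 2) := by
      rw [abs_div, abs_mul, abs_pow (-s), abs_neg, abs_of_pos hs,
        abs_of_pos (show (0 : ℝ) < (o : ℝ) + 1 by positivity),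
        abs_of_pos (show 0 < y ^ (o + 2) by positivity)]
    have e2 : |-(-1) ^ o * m| = |m| := by
      rw [abs_mul, abs_neg, abs_pow, abs_neg, abs_one, one_pow, one_mul]
    rw [abs_mul, e1, e2]
    exact le_mul_of_one_le_right (by positivity) hm1
  rw [hmain]
  obtain ⟨A, hA⟩ : ∃ A, A = ((o : ℝ) + 1) * (-s) ^ o / y ^ (o + 2) * (-(-1) ^ o * m) := ⟨_, rfl⟩
  rw [← hA] at hmain2 ⊢
  have h8 : |A| ≤ |A + E| + |E| := by
    have e : A = (A + E) - E := by ring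
    calc |A| = |(A + E) - E| := by rw [← e]
      _ ≤ |A + E| + |E| := abs_sub _ _
  linarith

/-- The functional applied to the values of the pattern. -/
theorem lam_DD {F : ℕ → ℤ} {L o : ℕ} {s x : ℝ} (hs : 0 < s) (hx : 0 < x) :
    ∃ y : ℝ, x + 1 < y ∧ y < x + 7 ∧
      ∑ i ∈ range o, lam o i * DD F L (s * ((i : ℝ) + 1)) x = 8 * tht F L o s y := by
  obtain ⟨Θ, hΘ⟩ : ∃ Θ : ℝ → ℝ, ∀ y, Θ y = ∑ i ∈ range o, lam o i *
    ∑ w ∈ range L, (F w : ℝ) * Real.log (y + s * ((i : ℝ) + 1) * w) := ⟨_, fun _ => rfl⟩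
  obtain ⟨Θ1, hΘ1⟩ : ∃ Θ1 : ℝ → ℝ, ∀ y, Θ1 y = ∑ i ∈ range o, lam o i *
    ∑ w ∈ range L, (F w : ℝ) * (y + s * ((i : ℝ) + 1) * w)⁻¹ := ⟨_, fun _ => rfl⟩
  have hd : ∀ y, 0 < y → HasDerivAt Θ (Θ1 y) y := by
    intro y hy
    have h1 : HasDerivAt (fun y => ∑ i ∈ range o, lam o i *
        ∑ w ∈ range L, (F w : ℝ) * Real.log (y + s * ((i : ℝ) + 1) * w))
        (∑ i ∈ range o, lam o i * ∑ w ∈ range L, (F w : ℝ) * (1 / (y + s * ((i : ℝ) + 1) * w)))
        y := by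
      refine HasDerivAt.fun_sum fun i _ => ?_
      refine HasDerivAt.const_mul _ ?_
      refine HasDerivAt.fun_sum fun w _ => ?_
      refine HasDerivAt.const_mul _ ?_
      have h2 : HasDerivAt (fun y : ℝ => y + s * ((i : ℝ) + 1) * w) 1 y :=
        (hasDerivAt_id y).add_const _
      exact h2.log (by positivity)
    have h2 : Θ = fun y => ∑ i ∈ range o, lam o i *
        ∑ w ∈ range L, (F w : ℝ) * Real.log (y + s * ((i : ℝ) + 1) * w) := funext hΘ
    rw [h2, hΘ1]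
    simp only [one_div] at h1
    exact h1
  have hd1 : ∀ y, 0 < y → HasDerivAt Θ1 (-tht F L o s y) y := by
    intro y hy
    have h1 : HasDerivAt (fun y => ∑ i ∈ range o, lam o i *
        ∑ w ∈ range L, (F w : ℝ) * (y + s * ((i : ℝ) + 1) * w)⁻¹)
        (∑ i ∈ range o, lam o i * ∑ w ∈ range L, (F w : ℝ) *
          (-1 / (y + s * ((i : ℝ) + 1) * w) ^ 2)) y := by
      refine HasDerivAt.fun_sum fun i _ => ?_
      refine HasDerivAt.const_mul _ ?_
      refine HasDerivAt.fun_sum fun w _ => ?_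
      refine HasDerivAt.const_mul _ ?_
      have h2 : HasDerivAt (fun y : ℝ => y + s * ((i : ℝ) + 1) * w) 1 y :=
        (hasDerivAt_id y).add_const _
      exact h2.fun_inv (by positivity)
    have h2 : Θ1 = fun y => ∑ i ∈ range o, lam o i *
        ∑ w ∈ range L, (F w : ℝ) * (y + s * ((i : ℝ) + 1) * w)⁻¹ := funext hΘ1
    have h3 : -tht F L o s y = ∑ i ∈ range o, lam o i * ∑ w ∈ range L, (F w : ℝ) *
          (-1 / (y + s * ((i : ℝ) + 1) * w) ^ 2) := by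
      unfold tht
      rw [← sum_neg_distrib]
      refine sum_congr rfl fun i _ => ?_
      rw [← mul_neg, ← sum_neg_distrib]
      congr 1
      refine sum_congr rfl fun w _ => ?_
      ring
    rw [h2, h3]
    exact h1
  have hC : ∑ i ∈ range o, lam o i * DD F L (s * ((i : ℝ) + 1)) x =
      (Θ (x + 1 + 2) - Θ (x + 1)) - (Θ (x + 5 + 2) - Θ (x + 5)) := by
    unfold DD
    simp only [hΘ]
    rw [← sum_sub_distrib, ← sum_sub_distrib, ← sum_sub_distrib]
    refine sum_congr rfl fun i _ => ?_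
    rw [← mul_sub, ← mul_sub, ← mul_sub, ← sum_sub_distrib, ← sum_sub_distrib, ← sum_sub_distrib]
    congr 1
    refine sum_congr rfl fun w _ => ?_
    rw [hh_eq]
    have e1 : x + s * ((i : ℝ) + 1) * w + 3 = x + 1 + 2 + s * ((i : ℝ) + 1) * w := by ring
    have e2 : x + s * ((i : ℝ) + 1) * w + 1 = x + 1 + s * ((i : ℝ) + 1) * w := by ring
    have e3 : x + s * ((i : ℝ) + 1) * w + 7 = x + 5 + 2 + s * ((i : ℝ) + 1) * w := by ring
    have e4 : x + s * ((i : ℝ) + 1) * w + 5 = x + 5 + s * ((i : ℝ) + 1) * w := by ring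
    rw [e1, e2, e3, e4]
    ring
  have hdp : ∀ y, 0 < y → HasDerivAt (fun y => Θ (y + 2) - Θ y) (Θ1 (y + 2) - Θ1 y) y := by
    intro y hy
    have h1 : HasDerivAt (fun y => Θ (y + 2)) (Θ1 (y + 2)) y := (hd (y + 2) (by linarith)).comp_add_const y 2
    exact h1.sub (hd y hy)
  obtain ⟨ξ, hξ, hξ'⟩ := exists_hasDerivAt_eq_slope (fun y => Θ (y + 2) - Θ y)
    (fun y => Θ1 (y + 2) - Θ1 y) (show x + 1 < x + 5 by linarith)
    (fun z hz => (hdp z (by linarith [hz.1])).continuousAt.continuousWithinAt)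
    (fun z hz => hdp z (by linarith [hz.1]))
  obtain ⟨y, hy, hy'⟩ := exists_hasDerivAt_eq_slope Θ1
    (fun y => -tht F L o s y) (show ξ < ξ + 2 by linarith)
    (fun z hz => (hd1 z (by linarith [hz.1, hξ.1])).continuousAt.continuousWithinAt)
    (fun z hz => hd1 z (by linarith [hz.1, hξ.1]))
  refine ⟨y, by linarith [hy.1, hξ.1], by linarith [hy.2, hξ.2], ?_⟩
  have e1 : x + 5 - (x + 1) = 4 := by ring
  have e2 : ξ + 2 - ξ = 2 := by ring
  rw [e1] at hξ'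
  rw [e2] at hy'
  rw [hC]
  have h3 : (Θ (x + 5 + 2) - Θ (x + 5)) - (Θ (x + 1 + 2) - Θ (x + 1)) =
      4 * (Θ1 (ξ + 2) - Θ1 ξ) := by
    rw [hξ']
    ring
  have h4 : Θ1 (ξ + 2) - Θ1 ξ = 2 * (-tht F L o s y) := by
    rw [hy']
    ring
  rw [h4] at h3
  linarith

/-- At a prescribed position, one of the first `o` multiples of the step gives a value which is not
too small. -/
theorem low {F : ℕ → ℤ} {L o : ℕ} (h : Pat F L o) (ho : 1 ≤ o) {s x : ℝ} (hs : 0 < s)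
    (hx : 0 < x)
    (hc : 2 ^ (o + 1) * (L * ((2 * (o : ℝ) + 1) * (s * o * L) ^ (2 * o))) ≤
      ((o : ℝ) + 1) * (s ^ o * x ^ o)) :
    ∃ i < o, s ^ o / (2 ^ o * (x + 7) ^ (o + 2)) ≤ |DD F L (s * ((i : ℝ) + 1)) x| := by
  obtain ⟨y, hy1, hy2, hy3⟩ := lam_DD (F := F) (L := L) (o := o) hs hx
  have hy0 : 0 < y := by linarith
  have h1 := tht_lower h ho (s := s) hs hy0
  have h2 : 2 ^ o * (L * ((2 * (o : ℝ) + 1) * (s * o * L) ^ (2 * o) / y ^ (2 * o + 2))) ≤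
      1 / 2 * (((o : ℝ) + 1) * s ^ o / y ^ (o + 2)) := by
    have e1 : 2 ^ o * (L * ((2 * (o : ℝ) + 1) * (s * o * L) ^ (2 * o) / y ^ (2 * o + 2))) =
        (2 ^ (o + 1) * (L * ((2 * (o : ℝ) + 1) * (s * o * L) ^ (2 * o)))) /
          (2 * y ^ (2 * o + 2)) := by
      rw [pow_succ 2 o]
      have h5 : y ^ (2 * o + 2) ≠ 0 := by positivity
      field_simp
    have e2 : 1 / 2 * (((o : ℝ) + 1) * s ^ o / y ^ (o + 2)) =
        (((o : ℝ) + 1) * (s ^ o * y ^ o)) / (2 * y ^ (2 * o + 2)) := by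
      have : y ^ (2 * o + 2) = y ^ (o + 2) * y ^ o := by ring
      rw [this]
      have h5 : y ^ o ≠ 0 := by positivity
      field_simp
    rw [e1, e2]
    refine div_le_div_of_nonneg_right (hc.trans ?_) (by positivity)
    refine mul_le_mul_of_nonneg_left ?_ (by positivity)
    refine mul_le_mul_of_nonneg_left ?_ (by positivity)
    exact pow_le_pow_left₀ hx.le (by linarith) o
  have h3 : s ^ o / (x + 7) ^ (o + 2) ≤ 8 * |tht F L o s y| := by
    have h4 : s ^ o / (x + 7) ^ (o + 2) ≤ ((o : ℝ) + 1) * s ^ o / y ^ (o + 2) := by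
      refine div_le_div₀ (by positivity) ?_ (by positivity) ?_
      · have : (0 : ℝ) ≤ o := Nat.cast_nonneg o
        have h6 : 0 < s ^ o := by positivity
        nlinarith
      · exact pow_le_pow_left₀ hy0.le hy2.le _
    have h5 : 0 ≤ s ^ o / (x + 7) ^ (o + 2) := by positivity
    linarith
  by_contra hcon
  push Not at hcon
  have h4 : |∑ i ∈ range o, lam o i * DD F L (s * ((i : ℝ) + 1)) x| <
      s ^ o / (x + 7) ^ (o + 2) := by
    refine lt_of_le_of_lt (abs_sum_le_sum_abs _ _) ?_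
    have h5 : ∀ i ∈ range o, |lam o i * DD F L (s * ((i : ℝ) + 1)) x| ≤
        |lam o i| * (s ^ o / (2 ^ o * (x + 7) ^ (o + 2))) := by
      intro i hi
      rw [abs_mul]
      exact mul_le_mul_of_nonneg_left (hcon i (mem_range.1 hi)).le (abs_nonneg _)
    have h6 : ∑ i ∈ range o, |lam o i * DD F L (s * ((i : ℝ) + 1)) x| <
        (∑ i ∈ range o, |lam o i|) * (s ^ o / (2 ^ o * (x + 7) ^ (o + 2))) := by
      rw [sum_mul]
      refine sum_lt_sum h5 ⟨o - 1, mem_range.2 (by omega), ?_⟩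
      rw [abs_mul]
      refine mul_lt_mul_of_pos_left (hcon (o - 1) (by omega)) ?_
      refine abs_pos.2 ?_
      unfold lam
      have h7 : (o.choose (o - 1 + 1) : ℝ) ≠ 0 := by
        have : o - 1 + 1 = o := by omega
        rw [this, Nat.choose_self]
        norm_num
      have h8 : (((o - 1 : ℕ) : ℝ) + 1) ^ o ≠ 0 := by positivity
      exact div_ne_zero (mul_ne_zero (pow_ne_zero _ (by norm_num)) h7) h8
    refine h6.trans_le ?_
    calc (∑ i ∈ range o, |lam o i|) * (s ^ o / (2 ^ o * (x + 7) ^ (o + 2)))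
        ≤ 2 ^ o * (s ^ o / (2 ^ o * (x + 7) ^ (o + 2))) :=
          mul_le_mul_of_nonneg_right (lam_sum o) (by positivity)
      _ = s ^ o / (x + 7) ^ (o + 2) := by
          field_simp
  rw [hy3, abs_mul, abs_of_pos (show (0 : ℝ) < 8 by norm_num)] at h4
  linarith

end Pool.Agent.W610
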