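import Mathlib
import Pool.Agent.W610.LowB

set_option autoImplicit false

/-!
# The step of a pattern at a prescribed position
-/

namespace Pool.Agent.W610

open Finset Pool.Agent.H932R3

/-- The extrapolation in the step. -/
theorem DD_extrapB {F : ℕ → ℤ} {L k : ℕ} (hF : ∀ w, |F w| ≤ 1)
    (hmom : ∀ j < k, ∑ w ∈ range L, F w * (w : ℤ) ^ j = 0) {x b s : ℝ} (hx : 0 < x) (hb : 0 ≤ b)
    (hs : 0 ≤ s) :
    |∑ i ∈ range L, (F i : ℝ) * DD F L (b + s * i) x| ≤
      L * (4 * (L * ((s * L * L) ^ k / x ^ (k + 1)))) := by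
  have hFR : ∀ w, |(F w : ℝ)| ≤ 1 := fun w => by
    have := hF w
    exact_mod_cast this
  have h1 : ∑ i ∈ range L, (F i : ℝ) * DD F L (b + s * i) x =
      ∑ w ∈ range L, (F w : ℝ) * DD F L (s * w) (x + b * w) := by
    unfold DD
    simp only [mul_sum]
    rw [sum_comm]
    refine sum_congr rfl fun w _ => sum_congr rfl fun i _ => ?_
    have e : x + (b + s * i) * w = x + b * w + s * w * i := by ring
    rw [e]
    ring
  rw [h1]
  refine (abs_sum_le_sum_abs _ _).trans ?_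
  have h2 : ∀ w ∈ range L, |(F w : ℝ) * DD F L (s * w) (x + b * w)| ≤
      4 * (L * ((s * L * L) ^ k / x ^ (k + 1))) := by
    intro w hw
    have hwL : (w : ℝ) ≤ L := by exact_mod_cast (mem_range.1 hw).le
    have hbw : 0 ≤ b * w := by positivity
    have hsw : 0 ≤ s * w := by positivity
    have h3 := DD_small hF hmom (x := x + b * w) (b := s * w) (by linarith) hsw
    have h4 : (s * w * L) ^ k / (x + b * w) ^ (k + 1) ≤ (s * L * L) ^ k / x ^ (k + 1) := by
      refine div_le_div₀ (by positivity) ?_ (by positivity) ?_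
      · refine pow_le_pow_left₀ (by positivity) ?_ _
        exact mul_le_mul_of_nonneg_right (mul_le_mul_of_nonneg_left hwL hs) (Nat.cast_nonneg L)
      · exact pow_le_pow_left₀ hx.le (by linarith) _
    rw [abs_mul]
    calc |(F w : ℝ)| * |DD F L (s * w) (x + b * w)| ≤ 1 * |DD F L (s * w) (x + b * w)| :=
          mul_le_mul_of_nonneg_right (hFR w) (abs_nonneg _)
      _ = |DD F L (s * w) (x + b * w)| := one_mul _
      _ ≤ 4 * (L * ((s * w * L) ^ k / (x + b * w) ^ (k + 1))) := h3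
      _ ≤ 4 * (L * ((s * L * L) ^ k / x ^ (k + 1))) := by
          refine mul_le_mul_of_nonneg_left ?_ (by norm_num)
          exact mul_le_mul_of_nonneg_left h4 (Nat.cast_nonneg L)
  refine (sum_le_sum h2).trans ?_
  rw [sum_const, card_range, nsmul_eq_mul]

/-- A step at which the value of the pattern at a prescribed position is on a prescribed scale, up
to the length of the pattern. -/
theorem scaleB {F : ℕ → ℤ} {L o : ℕ} (h : Pat F L o) {s x ε : ℝ} (hs : 0 < s) (hx : 0 < x)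
    (hε : 4 * (L : ℝ) ^ 2 * ((s * L * L) ^ o / x ^ (o + 1)) < ε) {β0 : ℕ} (hβ0 : 1 ≤ β0)
    (h0 : ε ≤ |DD F L (s * β0) x|) :
    ∃ β : ℕ, 1 ≤ β ∧ β ≤ β0 ∧ ε ≤ |DD F L (s * β) x| ∧ |DD F L (s * β) x| ≤ L * ε := by
  classical
  have hF := h.abs
  have hmom := h.mom
  have hL := h.pos
  have hLR : (1 : ℝ) ≤ L := by exact_mod_cast hL
  have hLR0 : (0 : ℝ) < L := by linarith
  have hex : ∃ β : ℕ, 1 ≤ β ∧ ε ≤ |DD F L (s * β) x| := ⟨β0, hβ0, h0⟩
  obtain ⟨β, hβ⟩ : ∃ β, β = Nat.find hex := ⟨_, rfl⟩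
  have hβ1 : 1 ≤ β ∧ ε ≤ |DD F L (s * β) x| := by
    rw [hβ]
    exact Nat.find_spec hex
  have hβ2 : β ≤ β0 := by
    rw [hβ]
    exact Nat.find_min' hex ⟨hβ0, h0⟩
  have hβ3 : ∀ m : ℕ, 1 ≤ m → m < β → |DD F L (s * m) x| < ε := by
    intro m hm1 hm2
    by_contra hcon
    rw [not_lt] at hcon
    rw [hβ] at hm2
    exact Nat.find_min hex hm2 ⟨hm1, hcon⟩
  have hβL : L < β := by
    by_contra hcon
    rw [not_lt] at hcon
    have h1 := DD_small hF hmom (x := x) (b := s * β) hx (by positivity)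
    have h2 : (s * β * L) ^ o / x ^ (o + 1) ≤ (s * L * L) ^ o / x ^ (o + 1) := by
      refine div_le_div_of_nonneg_right ?_ (by positivity)
      refine pow_le_pow_left₀ (by positivity) ?_ _
      refine mul_le_mul_of_nonneg_right ?_ (Nat.cast_nonneg L)
      refine mul_le_mul_of_nonneg_left ?_ hs.le
      exact_mod_cast hcon
    have h3 : 4 * ((L : ℝ) * ((s * β * L) ^ o / x ^ (o + 1))) ≤
        4 * (L : ℝ) ^ 2 * ((s * L * L) ^ o / x ^ (o + 1)) := by
      have h4 : 0 ≤ (s * L * L) ^ o / x ^ (o + 1) := by positivity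
      calc 4 * ((L : ℝ) * ((s * β * L) ^ o / x ^ (o + 1)))
          ≤ 4 * ((L : ℝ) * ((s * L * L) ^ o / x ^ (o + 1))) := by
            refine mul_le_mul_of_nonneg_left ?_ (by norm_num)
            exact mul_le_mul_of_nonneg_left h2 (Nat.cast_nonneg L)
        _ ≤ 4 * (L : ℝ) ^ 2 * ((s * L * L) ^ o / x ^ (o + 1)) := by
            have h5 : (L : ℝ) ≤ (L : ℝ) ^ 2 := by nlinarith
            have h6 := mul_le_mul_of_nonneg_right h5 h4
            linarith
    linarith [hβ1.2]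
  -- the top index of the support
  have hne : ∃ w1, w1 < L ∧ F w1 ≠ 0 ∧ ∀ w, w1 < w → w < L → F w = 0 := by
    by_contra hcon
    push Not at hcon
    have h1 : ∀ j : ℕ, ∀ w, w + j + 1 = L → F w = 0 := by
      intro j
      induction j using Nat.strong_induction_on with
      | _ j ih =>
        intro w hw
        by_contra hne
        obtain ⟨w', hw1, hw2, hw3⟩ := hcon w (by omega) hne
        refine hw3 (ih (L - 1 - w') (by omega) w' (by omega))
    refine h.top (sum_eq_zero fun w hw => ?_)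
    have := mem_range.1 hw
    rw [h1 (L - 1 - w) w (by omega), zero_mul]
  obtain ⟨w1, hw1, hw2, hw3⟩ := hne
  have hb0 : 0 ≤ s * ((β - w1 : ℕ) : ℝ) := by positivity
  have h1 := DD_extrapB hF hmom (x := x) (b := s * ((β - w1 : ℕ) : ℝ)) (s := s) hx hb0 hs.le
  have h2 : (L : ℝ) * (4 * (L * ((s * L * L) ^ o / x ^ (o + 1)))) < ε := by
    refine lt_of_eq_of_lt ?_ hε
    ring
  have hterm : ∀ i : ℕ, s * ((β - w1 : ℕ) : ℝ) + s * i = s * ((β - w1 + i : ℕ) : ℝ) := by
    intro i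
    push_cast
    ring
  have hsplit : ∑ i ∈ range L, (F i : ℝ) * DD F L (s * ((β - w1 : ℕ) : ℝ) + s * i) x =
      (∑ i ∈ range w1, (F i : ℝ) * DD F L (s * ((β - w1 + i : ℕ) : ℝ)) x) +
        (F w1 : ℝ) * DD F L (s * β) x := by
    have e1 : L = w1 + 1 + (L - (w1 + 1)) := by omega
    have e2 : ∑ i ∈ range L, (F i : ℝ) * DD F L (s * ((β - w1 : ℕ) : ℝ) + s * i) x =
        ∑ i ∈ range (w1 + 1), (F i : ℝ) * DD F L (s * ((β - w1 : ℕ) : ℝ) + s * i) x := by
      symm
      refine sum_subset (range_subset_range.2 (by omega)) fun i hi hi' => ?_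
      rw [mem_range] at hi hi'
      rw [hw3 i (by omega) hi]
      simp
    rw [e2, sum_range_succ]
    congr 1
    · refine sum_congr rfl fun i _ => ?_
      rw [hterm]
    · rw [hterm]
      have e3 : β - w1 + w1 = β := by omega
      rw [e3]
  rw [hsplit] at h1
  have h5 : |∑ i ∈ range w1, (F i : ℝ) * DD F L (s * ((β - w1 + i : ℕ) : ℝ)) x| ≤ w1 * ε := by
    refine (abs_sum_le_sum_abs _ _).trans ?_
    have h6 : ∀ i ∈ range w1, |(F i : ℝ) * DD F L (s * ((β - w1 + i : ℕ) : ℝ)) x| ≤ ε := by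
      intro i hi
      have hi' := mem_range.1 hi
      have h7 := hβ3 (β - w1 + i) (by omega) (by omega)
      have h8 : |(F i : ℝ)| ≤ 1 := by
        have := hF i
        exact_mod_cast this
      rw [abs_mul]
      calc |(F i : ℝ)| * |DD F L (s * ((β - w1 + i : ℕ) : ℝ)) x| ≤
            1 * |DD F L (s * ((β - w1 + i : ℕ) : ℝ)) x| :=
            mul_le_mul_of_nonneg_right h8 (abs_nonneg _)
        _ ≤ ε := by rw [one_mul]; exact h7.le
    refine (sum_le_sum h6).trans ?_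
    rw [sum_const, card_range, nsmul_eq_mul]
  have h6 : |(F w1 : ℝ)| = 1 := by
    have h7 : |F w1| = 1 := by
      have h2 : 0 < |F w1| := abs_pos.2 hw2
      have h3 := hF w1
      omega
    exact_mod_cast h7
  have h7 : |(F w1 : ℝ) * DD F L (s * β) x| = |DD F L (s * β) x| := by
    rw [abs_mul, h6, one_mul]
  refine ⟨β, hβ1.1, hβ2, hβ1.2, ?_⟩
  rw [← h7]
  obtain ⟨A, hA⟩ : ∃ A, A = ∑ i ∈ range w1,
    (F i : ℝ) * DD F L (s * ((β - w1 + i : ℕ) : ℝ)) x := ⟨_, rfl⟩
  obtain ⟨B, hB⟩ : ∃ B, B = (F w1 : ℝ) * DD F L (s * β) x := ⟨_, rfl⟩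
  rw [← hA, ← hB] at h1
  rw [← hA] at h5
  rw [← hB]
  have h8 : |B| ≤ |A + B| + |A| := by
    have e : B = (A + B) - A := by ring
    calc |B| = |(A + B) - A| := by rw [← e]
      _ ≤ |A + B| + |A| := abs_sub _ _
  have hε0 : 0 < ε := by
    refine lt_of_le_of_lt ?_ hε
    positivity
  have h9 : (w1 : ℝ) + 1 ≤ L := by exact_mod_cast hw1
  have h10 : ((w1 : ℝ) + 1) * ε ≤ L * ε := mul_le_mul_of_nonneg_right h9 hε0.le
  linarith

end Pool.Agent.W610
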