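import Mathlib
import Pool.Agent.W610.ScaleB

set_option autoImplicit false

/-!
# A pattern and a step for a prescribed position and a prescribed scale
-/

namespace Pool.Agent.W610

open Finset Pool.Agent.H932R3

/-- The numerical condition of the lower bound. -/
theorem low_cond {s x Q : ℝ} {o : ℕ} (hs : 0 < s) (hQ : 200 ≤ Q) (ho : 1 ≤ o)
    (hoQ : (o : ℝ) ≤ 2 * Q) (hx : 32 * (s * Q ^ 122) ≤ x) :
    2 ^ (o + 1) * (Q ^ 40 * ((2 * (o : ℝ) + 1) * (s * o * Q ^ 40) ^ (2 * o))) ≤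
      ((o : ℝ) + 1) * (s ^ o * x ^ o) := by
  have hQ0 : 0 < Q := by linarith
  have ho0 : (0 : ℝ) < o := by exact_mod_cast ho
  have h1 : (8 * (s * (o : ℝ) ^ 2 * (Q ^ 40) ^ 3)) ^ o ≤ x ^ o := by
    refine pow_le_pow_left₀ (by positivity) (le_trans ?_ hx) o
    have h2 : (o : ℝ) ^ 2 ≤ (2 * Q) ^ 2 := pow_le_pow_left₀ ho0.le hoQ 2
    calc 8 * (s * (o : ℝ) ^ 2 * (Q ^ 40) ^ 3) ≤ 8 * (s * (2 * Q) ^ 2 * (Q ^ 40) ^ 3) := by
          refine mul_le_mul_of_nonneg_left ?_ (by norm_num)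
          refine mul_le_mul_of_nonneg_right ?_ (by positivity)
          exact mul_le_mul_of_nonneg_left h2 hs.le
      _ = 32 * (s * Q ^ 122) := by ring
  have hL : 4 * Q ^ 40 ≤ (4 * Q ^ 40) ^ o := by
    refine le_self_pow₀ ?_ (by omega)
    have : 1 ≤ Q ^ 40 := one_le_pow₀ (by linarith)
    linarith
  have h3 : (s * o * Q ^ 40) ^ (2 * o) = s ^ o * (s * (o : ℝ) ^ 2 * (Q ^ 40) ^ 2) ^ o := by
    rw [pow_mul, ← mul_pow]
    congr 1
    ring
  rw [h3]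
  calc 2 ^ (o + 1) * (Q ^ 40 * ((2 * (o : ℝ) + 1) *
        (s ^ o * (s * (o : ℝ) ^ 2 * (Q ^ 40) ^ 2) ^ o)))
      = (2 * (2 * (o : ℝ) + 1) * Q ^ 40) * (s ^ o * (2 ^ o * (s * (o : ℝ) ^ 2 * (Q ^ 40) ^ 2) ^ o)) := by
        rw [pow_succ]
        ring
    _ ≤ (4 * ((o : ℝ) + 1) * Q ^ 40) * (s ^ o * (2 ^ o * (s * (o : ℝ) ^ 2 * (Q ^ 40) ^ 2) ^ o)) := by
        refine mul_le_mul_of_nonneg_right ?_ (by positivity)
        exact mul_le_mul_of_nonneg_right (by linarith) (by positivity)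
    _ = ((o : ℝ) + 1) * (s ^ o * ((4 * Q ^ 40) * (2 * (s * (o : ℝ) ^ 2 * (Q ^ 40) ^ 2)) ^ o)) := by
        rw [mul_pow 2]
        ring
    _ ≤ ((o : ℝ) + 1) * (s ^ o * ((4 * Q ^ 40) ^ o * (2 * (s * (o : ℝ) ^ 2 * (Q ^ 40) ^ 2)) ^ o)) := by
        refine mul_le_mul_of_nonneg_left ?_ (by positivity)
        refine mul_le_mul_of_nonneg_left ?_ (by positivity)
        exact mul_le_mul_of_nonneg_right hL (by positivity)
    _ = ((o : ℝ) + 1) * (s ^ o * (8 * (s * (o : ℝ) ^ 2 * (Q ^ 40) ^ 3)) ^ o) := by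
        rw [← mul_pow (4 * Q ^ 40)]
        congr 3
        ring
    _ ≤ ((o : ℝ) + 1) * (s ^ o * x ^ o) := by
        refine mul_le_mul_of_nonneg_left ?_ (by positivity)
        exact mul_le_mul_of_nonneg_left h1 (by positivity)

/-- The comparison of the two scales. -/
theorem scales {Q r : ℝ} {a : ℕ} (hQ : 200 ≤ Q) (hr : Q ^ 1000 ≤ r) (hq : 110 ≤ a) :
    (Q ^ 122 / r) ^ (4 * a) ≤ (1 / (r * Q ^ 87)) ^ (3 * (a + 1)) / (256 * r ^ 8) := by
  have hQ0 : 0 < Q := by linarith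
  have hQ1 : 1 ≤ Q := by linarith
  have hr0 : 0 < r := lt_of_lt_of_le (by positivity) hr
  obtain ⟨b, hb⟩ : ∃ b, a = b + 11 := ⟨a - 11, by omega⟩
  have h1 : 256 * Q ^ (749 * a + 261) ≤ r ^ b := by
    calc 256 * Q ^ (749 * a + 261) ≤ Q ^ 2 * Q ^ (749 * a + 261) := by
          refine mul_le_mul_of_nonneg_right ?_ (by positivity)
          nlinarith
      _ = Q ^ (2 + (749 * a + 261)) := by rw [← pow_add]
      _ ≤ Q ^ (1000 * b) := pow_le_pow_right₀ hQ1 (by omega)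
      _ = (Q ^ 1000) ^ b := by rw [pow_mul]
      _ ≤ r ^ b := pow_le_pow_left₀ (by positivity) hr _
  rw [div_pow, div_pow, one_pow, div_div, div_le_div_iff₀ (by positivity) (by positivity), one_mul]
  have e1 : (Q ^ 122) ^ (4 * a) = Q ^ (488 * a) := by
    rw [← pow_mul]
    congr 1
    ring
  have e2 : (r * Q ^ 87) ^ (3 * (a + 1)) = r ^ (3 * (a + 1)) * Q ^ (261 * (a + 1)) := by
    rw [mul_pow, ← pow_mul]
    congr 2
    ring
  rw [e1, e2]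
  calc Q ^ (488 * a) * (r ^ (3 * (a + 1)) * Q ^ (261 * (a + 1)) * (256 * r ^ 8))
      = (256 * (Q ^ (488 * a) * Q ^ (261 * (a + 1)))) * (r ^ (3 * (a + 1)) * r ^ 8) := by ring
    _ = (256 * Q ^ (749 * a + 261)) * r ^ (3 * a + 11) := by
        have e3 : 488 * a + 261 * (a + 1) = 749 * a + 261 := by omega
        have e4 : 3 * (a + 1) + 8 = 3 * a + 11 := by omega
        rw [← pow_add, ← pow_add, e3, e4]
    _ ≤ r ^ b * r ^ (3 * a + 11) := mul_le_mul_of_nonneg_right h1 (by positivity)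
    _ = r ^ (4 * a) := by
        rw [← pow_add]
        congr 1
        omega

/-- The least order whose scale is below `ε`. -/
theorem exists_q {Q r ε : ℝ} {k : ℕ} (hk : Q = k) (hQ : 200 ≤ Q) (hr : Q ^ 1000 ≤ r)
    (hε : 1 / (r ^ 110 * (Q ^ 40 * 2 ^ k)) ≤ ε) (hε' : ε ≤ 1 / r ^ 110) :
    ∃ q' : ℕ, 110 ≤ q' ∧ q' + 1 ≤ k ∧ (Q ^ 122 / r) ^ (q' + 1) < ε ∧ ε ≤ (Q ^ 122 / r) ^ q' := by
  classical
  have hQ0 : 0 < Q := by linarith
  have hQ1 : 1 ≤ Q := by linarith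
  have hr0 : 0 < r := lt_of_lt_of_le (by positivity) hr
  have hk200 : 200 ≤ k := by
    have : (200 : ℝ) ≤ k := by rw [← hk]; exact hQ
    exact_mod_cast this
  have h1 : (Q ^ 122 / r) ^ k < ε := by
    refine lt_of_lt_of_le ?_ hε
    obtain ⟨d, hd⟩ : ∃ d, k = d + 110 := ⟨k - 110, by omega⟩
    rw [div_pow, div_lt_div_iff₀ (by positivity) (by positivity), one_mul]
    have h2 : Q ^ (122 * k + 40) * 2 ^ k < r ^ d := by
      calc Q ^ (122 * k + 40) * 2 ^ k ≤ Q ^ (122 * k + 40) * Q ^ k := by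
            refine mul_le_mul_of_nonneg_left ?_ (by positivity)
            exact pow_le_pow_left₀ (by norm_num) (by linarith) k
        _ = Q ^ (123 * k + 40) := by ring
        _ < Q ^ (1000 * d) := pow_lt_pow_right₀ (by linarith) (by omega)
        _ = (Q ^ 1000) ^ d := by rw [pow_mul]
        _ ≤ r ^ d := pow_le_pow_left₀ (by positivity) hr _
    calc (Q ^ 122) ^ k * (r ^ 110 * (Q ^ 40 * 2 ^ k))
        = (Q ^ (122 * k + 40) * 2 ^ k) * r ^ 110 := by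
          rw [← pow_mul, pow_add]
          ring
      _ < r ^ d * r ^ 110 := mul_lt_mul_of_pos_right h2 (by positivity)
      _ = r ^ k := by rw [hd, pow_add]
  have hex : ∃ q, (Q ^ 122 / r) ^ q < ε := ⟨k, h1⟩
  obtain ⟨q, hq⟩ : ∃ q, q = Nat.find hex := ⟨_, rfl⟩
  have hq1 : (Q ^ 122 / r) ^ q < ε := by
    rw [hq]
    exact Nat.find_spec hex
  have hqk : q ≤ k := by
    rw [hq]
    exact Nat.find_min' hex h1
  have hq111 : 111 ≤ q := by
    by_contra hcon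
    have h2 : q ≤ 110 := by omega
    have h3 : (1 / r) ^ 110 ≤ (1 / r) ^ q := by
      refine pow_le_pow_of_le_one (by positivity) ?_ h2
      rw [div_le_one hr0]
      have : 1 ≤ Q ^ 1000 := one_le_pow₀ hQ1
      linarith
    have h4 : (1 / r) ^ q ≤ (Q ^ 122 / r) ^ q := by
      refine pow_le_pow_left₀ (by positivity) ?_ q
      refine div_le_div_of_nonneg_right ?_ hr0.le
      exact one_le_pow₀ hQ1
    have h5 : (1 / r) ^ 110 = 1 / r ^ 110 := by rw [div_pow, one_pow]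
    linarith
  obtain ⟨q', rfl⟩ : ∃ q', q = q' + 1 := ⟨q - 1, by omega⟩
  refine ⟨q', by omega, hqk, hq1, ?_⟩
  by_contra hcon
  rw [not_le] at hcon
  have h2 := Nat.find_min' hex hcon
  omega

/-- A pattern and a step for a prescribed position and a prescribed scale. -/
theorem pick {r Q β1 : ℕ} (hQ : 200 ≤ Q) (hr : Q ^ 1000 ≤ r)
    (H3 : r ≤ (8 * Q ^ 41 * β1) ^ 2 * Q ^ 86) (H5 : (8 * Q ^ 41 * β1) ^ 2 ≤ r) {x ε : ℝ}
    (hx : (r : ℝ) ≤ 2 * x) (hx' : x ≤ r)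
    (hε : 1 / ((r : ℝ) ^ 110 * ((Q : ℝ) ^ 40 * 2 ^ Q)) ≤ ε) (hε' : ε ≤ 1 / (r : ℝ) ^ 110) :
    ∃ (F : ℕ → ℤ) (o β : ℕ), Pat F (Q ^ 40) o ∧ 1 ≤ β ∧ 2 * β ≤ 3 * Q * β1 ∧
      ε ≤ |DD F (Q ^ 40) (8 * (Q : ℝ) ^ 41 * β) x| ∧
      |DD F (Q ^ 40) (8 * (Q : ℝ) ^ 41 * β) x| ≤ (Q : ℝ) ^ 40 * ε := by
  have hQR : (200 : ℝ) ≤ Q := by exact_mod_cast hQ
  have hrR : (Q : ℝ) ^ 1000 ≤ r := by exact_mod_cast hr
  obtain ⟨q', hq1, hq2, hq3, hq4⟩ := exists_q (Q := (Q : ℝ)) (r := (r : ℝ)) rfl hQR hrR hε hε'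
  obtain ⟨F0, o, hF0, ho1, ho2⟩ := exists_order (q' + 1) (by omega)
  obtain ⟨F, hF⟩ := hF0.pad (Nat.pow_le_pow_left hq2 40)
  have hQ0 : (0 : ℝ) < Q := by linarith
  have hQ1 : (1 : ℝ) ≤ Q := by linarith
  have hQ1000 : (0 : ℝ) < (Q : ℝ) ^ 1000 := by positivity
  have hr0 : (0 : ℝ) < r := lt_of_lt_of_le hQ1000 hrR
  have hx0 : 0 < x := by linarith
  have hβ1 : 1 ≤ β1 := by
    by_contra hcon
    have h0 : β1 = 0 := by omega
    rw [h0] at H3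
    simp at H3
    rw [H3] at hr0
    simp at hr0
  have hβ1R : (1 : ℝ) ≤ β1 := by exact_mod_cast hβ1
  have H3R : (r : ℝ) ≤ (8 * (Q : ℝ) ^ 41 * β1) ^ 2 * (Q : ℝ) ^ 86 := by exact_mod_cast H3
  have H5R : (8 * (Q : ℝ) ^ 41 * β1) ^ 2 ≤ (r : ℝ) := by exact_mod_cast H5
  obtain ⟨s, hs⟩ : ∃ s : ℝ, s = 8 * (Q : ℝ) ^ 41 * β1 := ⟨_, rfl⟩
  rw [← hs] at H3R H5R
  have hs0 : 0 < s := by rw [hs]; positivity
  have hoQ : (o : ℝ) ≤ 2 * Q := by
    have : o ≤ 2 * Q := by omega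
    exact_mod_cast this
  -- the size of `s`
  have hsx : 64 * (s * (Q : ℝ) ^ 122) ≤ r := by
    have h1 : (64 * (s * (Q : ℝ) ^ 122)) ^ 2 ≤ (r : ℝ) ^ 2 := by
      have h2 : 4096 * (Q : ℝ) ^ 244 ≤ r := by
        calc 4096 * (Q : ℝ) ^ 244 ≤ (Q : ℝ) ^ 2 * (Q : ℝ) ^ 244 := by
              refine mul_le_mul_of_nonneg_right ?_ (by positivity)
              nlinarith
          _ = (Q : ℝ) ^ 246 := by ring
          _ ≤ (Q : ℝ) ^ 1000 := pow_le_pow_right₀ hQ1 (by norm_num)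
          _ ≤ r := hrR
      calc (64 * (s * (Q : ℝ) ^ 122)) ^ 2 = (4096 * (Q : ℝ) ^ 244) * s ^ 2 := by ring
        _ ≤ (r : ℝ) * r := mul_le_mul h2 H5R (by positivity) hr0.le
        _ = (r : ℝ) ^ 2 := by ring
    exact le_of_sq_le_sq h1 hr0.le
  have hcond := low_cond (o := o) hs0 hQR (by omega) hoQ (x := x) (by linarith)
  obtain ⟨i, hi, hlow⟩ := low hF (by omega) (s := s) (x := x) hs0 hx0 (by
    push_cast
    exact hcond)
  -- the scale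
  have hεlow : ε ≤ s ^ o / (2 ^ o * (x + 7) ^ (o + 2)) := by
    obtain ⟨y, hy⟩ : ∃ y : ℝ, y = s / (4 * r) := ⟨_, rfl⟩
    have hy0 : 0 < y := by rw [hy]; positivity
    have hrQ : (1000 : ℝ) ≤ r := by
      calc (1000 : ℝ) ≤ (Q : ℝ) ^ 2 := by nlinarith
        _ ≤ (Q : ℝ) ^ 1000 := pow_le_pow_right₀ hQ1 (by norm_num)
        _ ≤ r := hrR
    have hy1 : y ≤ 1 := by
      rw [hy, div_le_one (by positivity)]
      have h1 : s ≤ r := by
        have h2 : s ^ 2 ≤ (r : ℝ) ^ 2 := by nlinarith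
        exact le_of_sq_le_sq h2 hr0.le
      linarith
    have hlb : y ^ o / (4 * (r : ℝ) ^ 2) ≤ s ^ o / (2 ^ o * (x + 7) ^ (o + 2)) := by
      rw [hy, div_pow, div_div]
      refine div_le_div_of_nonneg_left (by positivity) (by positivity) ?_
      have h1 : (x + 7) ^ (o + 2) ≤ (2 * (r : ℝ)) ^ (o + 2) :=
        pow_le_pow_left₀ (by positivity) (by linarith) _
      calc 2 ^ o * (x + 7) ^ (o + 2) ≤ 2 ^ o * (2 * (r : ℝ)) ^ (o + 2) :=
            mul_le_mul_of_nonneg_left h1 (by positivity)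
        _ = (4 * (r : ℝ)) ^ o * (4 * (r : ℝ) ^ 2) := by
            have e : (4 * (r : ℝ)) = 2 * (2 * r) := by ring
            rw [e, mul_pow 2 (2 * (r : ℝ)), pow_add]
            ring
    refine le_trans ?_ hlb
    by_contra hcon
    rw [not_le] at hcon
    have hlb0 : 0 < y ^ o / (4 * (r : ℝ) ^ 2) := by positivity
    have h1 : (y ^ o / (4 * (r : ℝ) ^ 2)) ^ 4 < (((Q : ℝ) ^ 122 / r) ^ q') ^ 4 :=
      pow_lt_pow_left₀ (hcon.trans_le hq4) hlb0.le (by norm_num)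
    have h2 := scales hQR hrR hq1
    have h3 : (1 / ((r : ℝ) * (Q : ℝ) ^ 87)) ^ (3 * (q' + 1)) ≤ y ^ (4 * o) := by
      have h4 : 1 / ((r : ℝ) * (Q : ℝ) ^ 87) ≤ y ^ 2 := by
        rw [hy, div_pow, div_le_div_iff₀ (by positivity) (by positivity), one_mul]
        calc (4 * (r : ℝ)) ^ 2 = (16 * r) * r := by ring
          _ ≤ (16 * r) * (s ^ 2 * (Q : ℝ) ^ 86) := mul_le_mul_of_nonneg_left H3R (by positivity)
          _ ≤ ((Q : ℝ) * r) * (s ^ 2 * (Q : ℝ) ^ 86) := by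
              refine mul_le_mul_of_nonneg_right ?_ (by positivity)
              exact mul_le_mul_of_nonneg_right (by linarith) hr0.le
          _ = s ^ 2 * (r * (Q : ℝ) ^ 87) := by ring
      calc (1 / ((r : ℝ) * (Q : ℝ) ^ 87)) ^ (3 * (q' + 1)) ≤ (y ^ 2) ^ (3 * (q' + 1)) :=
            pow_le_pow_left₀ (by positivity) h4 _
        _ = y ^ (6 * (q' + 1)) := by rw [← pow_mul]; congr 1; ring
        _ ≤ y ^ (4 * o) := pow_le_pow_of_le_one hy0.le hy1 (by omega)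
    have h5 : (y ^ o / (4 * (r : ℝ) ^ 2)) ^ 4 = y ^ (4 * o) / (256 * (r : ℝ) ^ 8) := by
      rw [div_pow, ← pow_mul, mul_comm o 4]
      congr 1
      ring
    have h6 : (((Q : ℝ) ^ 122 / r) ^ q') ^ 4 = ((Q : ℝ) ^ 122 / r) ^ (4 * q') := by
      rw [← pow_mul, mul_comm q' 4]
    rw [h5, h6] at h1
    have h7 : (1 / ((r : ℝ) * (Q : ℝ) ^ 87)) ^ (3 * (q' + 1)) / (256 * (r : ℝ) ^ 8) ≤
        y ^ (4 * o) / (256 * (r : ℝ) ^ 8) := div_le_div_of_nonneg_right h3 (by positivity)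
    linarith
  have hβ0 : 8 * (Q : ℝ) ^ 41 * ((β1 * (i + 1) : ℕ) : ℝ) = s * ((i : ℝ) + 1) := by
    rw [hs]
    push_cast
    ring
  obtain ⟨β, hb1, hb2, hb3, hb4⟩ := scaleB hF (s := 8 * (Q : ℝ) ^ 41) (x := x) (ε := ε)
    (by positivity) hx0 (by
      refine lt_of_le_of_lt ?_ hq3
      push_cast
      have h1 : 4 * ((Q : ℝ) ^ 40) ^ 2 ≤ x := by
        have h2 : 8 * (Q : ℝ) ^ 80 ≤ r := by
          calc 8 * (Q : ℝ) ^ 80 ≤ Q * (Q : ℝ) ^ 80 := by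
                refine mul_le_mul_of_nonneg_right ?_ (by positivity)
                linarith
            _ = (Q : ℝ) ^ 81 := by ring
            _ ≤ (Q : ℝ) ^ 1000 := pow_le_pow_right₀ hQ1 (by norm_num)
            _ ≤ r := hrR
        have e : ((Q : ℝ) ^ 40) ^ 2 = (Q : ℝ) ^ 80 := by rw [← pow_mul]
        rw [e]
        linarith
      have h2 : 8 * (Q : ℝ) ^ 41 * (Q : ℝ) ^ 40 * (Q : ℝ) ^ 40 / x ≤ (Q : ℝ) ^ 122 / r := by
        rw [div_le_div_iff₀ hx0 hr0]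
        calc 8 * (Q : ℝ) ^ 41 * (Q : ℝ) ^ 40 * (Q : ℝ) ^ 40 * r
            = 8 * (Q : ℝ) ^ 121 * r := by ring
          _ ≤ 8 * (Q : ℝ) ^ 121 * (2 * x) := mul_le_mul_of_nonneg_left hx (by positivity)
          _ = 16 * ((Q : ℝ) ^ 121 * x) := by ring
          _ ≤ Q * ((Q : ℝ) ^ 121 * x) := mul_le_mul_of_nonneg_right (by linarith) (by positivity)
          _ = (Q : ℝ) ^ 122 * x := by ring
      have h3 : (Q : ℝ) ^ 122 / r ≤ 1 := by
        rw [div_le_one hr0]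
        exact le_trans (pow_le_pow_right₀ hQ1 (by norm_num)) hrR
      calc 4 * ((Q : ℝ) ^ 40) ^ 2 *
            ((8 * (Q : ℝ) ^ 41 * (Q : ℝ) ^ 40 * (Q : ℝ) ^ 40) ^ o / x ^ (o + 1))
          = (4 * ((Q : ℝ) ^ 40) ^ 2 / x) *
            (8 * (Q : ℝ) ^ 41 * (Q : ℝ) ^ 40 * (Q : ℝ) ^ 40 / x) ^ o := by
            have e : x ^ (o + 1) = x ^ o * x := pow_succ _ _
            rw [div_pow, e]
            field_simp
        _ ≤ 1 * ((Q : ℝ) ^ 122 / r) ^ o := by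
            refine mul_le_mul ?_ (pow_le_pow_left₀ (by positivity) h2 o) (by positivity) (by norm_num)
            rw [div_le_one hx0]
            exact h1
        _ ≤ ((Q : ℝ) ^ 122 / r) ^ (q' + 1) := by
            rw [one_mul]
            exact pow_le_pow_of_le_one (by positivity) h3 ho1)
    (β0 := β1 * (i + 1)) (Nat.mul_pos hβ1 (Nat.succ_pos i)) (by
      rw [hβ0]
      exact hεlow.trans hlow)
  refine ⟨F, o, β, hF, hb1, ?_, hb3, ?_⟩
  · have h1 : β1 * (i + 1) ≤ β1 * o := Nat.mul_le_mul_left _ hi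
    have h2 : 2 * o ≤ 3 * Q := by omega
    calc 2 * β ≤ 2 * (β1 * o) := Nat.mul_le_mul_left _ (hb2.trans h1)
      _ = (2 * o) * β1 := by ring
      _ ≤ 3 * Q * β1 := Nat.mul_le_mul_right _ h2
  · push_cast at hb4
    exact hb4

end Pool.Agent.W610
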