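import Mathlib
import Pool.Agent.W610.Pick
import Pool.Agent.W610.Slots

set_option autoImplicit false

/-!
# The fine phase: in a short range the deviation can be made exponentially small
-/

namespace Pool.Agent.W610

open Finset Pool.Agent.H932R3

/-- Patterns with different steps placed in different residue classes can be superposed. -/
theorem sum_reorgE {R L V : ℕ} {β : ℕ → ℕ} (hβ : ∀ ρ < R, 0 < β ρ)
    (hV : ∀ ρ < R, ∀ w < L, ρ + R * (β ρ * w) < V) {e : ℕ → ℤ} {F : ℕ → ℕ → ℤ}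
    (he : ∀ i, |e i| ≤ 1) (hF : ∀ ρ < R, ∀ i, |F ρ i| ≤ 1) :
    ∃ c : ℕ → ℤ, (∀ v, |c v| ≤ 1) ∧ ∀ g : ℤ → ℕ → ℝ, (∀ v, g 0 v = 0) →
      ∑ v ∈ range V, g (c v) v =
        ∑ ρ ∈ range R, ∑ w ∈ range L, g (e ρ * F ρ w) (ρ + R * (β ρ * w)) := by
  classical
  obtain ⟨φ, hφ⟩ : ∃ φ : ℕ × ℕ → ℕ, ∀ x, φ x = x.1 + R * (β x.1 * x.2) := ⟨_, fun _ => rfl⟩
  have hinj : ∀ x ∈ range R ×ˢ range L, ∀ y ∈ range R ×ˢ range L, φ x = φ y → x = y := by
    intro x hx y hy hxy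
    rw [mem_product, mem_range, mem_range] at hx hy
    rw [hφ, hφ] at hxy
    have hR : 0 < R := by omega
    have h1 : x.1 = y.1 := by
      have h2 := congrArg (· % R) hxy
      simp only [Nat.add_mul_mod_self_left] at h2
      rwa [Nat.mod_eq_of_lt hx.1, Nat.mod_eq_of_lt hy.1] at h2
    rw [h1] at hxy
    have h2 : R * (β y.1 * x.2) = R * (β y.1 * y.2) := by omega
    have h3 := Nat.eq_of_mul_eq_mul_left hR h2
    have h5 := Nat.eq_of_mul_eq_mul_left (hβ y.1 hy.1) h3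
    exact Prod.ext h1 h5
  obtain ⟨c, hc⟩ : ∃ c : ℕ → ℤ, ∀ v, c v =
      ∑ x ∈ range R ×ˢ range L, if φ x = v then e x.1 * F x.1 x.2 else 0 := ⟨_, fun _ => rfl⟩
  have hcφ : ∀ x ∈ range R ×ˢ range L, c (φ x) = e x.1 * F x.1 x.2 := by
    intro x hx
    rw [hc, sum_eq_single x]
    · rw [if_pos rfl]
    · intro y hy hyx
      rw [if_neg]
      intro h
      exact hyx (hinj y hy x hx h)
    · intro h
      exact absurd hx h
  have hc0 : ∀ v, v ∉ (range R ×ˢ range L).image φ → c v = 0 := by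
    intro v hv
    rw [hc]
    refine sum_eq_zero fun x hx => ?_
    rw [if_neg]
    intro h
    exact hv (mem_image.2 ⟨x, hx, h⟩)
  refine ⟨c, fun v => ?_, fun g hg => ?_⟩
  · by_cases hv : v ∈ (range R ×ˢ range L).image φ
    · obtain ⟨x, hx, rfl⟩ := mem_image.1 hv
      rw [hcφ x hx, abs_mul]
      have hx1 : x.1 < R := by
        rw [mem_product, mem_range] at hx
        exact hx.1
      have h1 := he x.1
      have h2 := hF x.1 hx1 x.2
      have h3 := abs_nonneg (e x.1)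
      have h4 := abs_nonneg (F x.1 x.2)
      nlinarith
    · rw [hc0 v hv]
      norm_num
  · have h1 : (range R ×ˢ range L).image φ ⊆ range V := by
      intro v hv
      obtain ⟨x, hx, rfl⟩ := mem_image.1 hv
      rw [mem_product, mem_range, mem_range] at hx
      rw [mem_range, hφ]
      exact hV x.1 hx.1 x.2 hx.2
    rw [← sum_subset h1 (fun v _ hv => by rw [hc0 v hv, hg]), sum_image hinj, sum_product]
    refine sum_congr rfl fun ρ hρ => sum_congr rfl fun w hw => ?_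
    rw [hcφ (ρ, w) (mem_product.2 ⟨hρ, hw⟩), hφ]

/-- The fine phase. -/
theorem fine {r P Q β1 : ℕ} (hQ : 200 ≤ Q) (hr : Q ^ 1000 ≤ r)
    (H3 : r ≤ (8 * Q ^ 41 * β1) ^ 2 * Q ^ 86) (H5 : (8 * Q ^ 41 * β1) ^ 2 ≤ r)
    (hmod : P % 4 = r % 4) (hPr : r ≤ 2 * P) (H4 : P + 8 * Q ^ 41 + 12 * (Q ^ 82 * β1) + 8 ≤ r) :
    ∃ Ω : ℝ, 0 ≤ Ω ∧ Ω ≤ 0.05 / (r : ℝ) ^ 2 ∧ Ω ≤ 1 / (64 * (r : ℝ)) ∧
      ∀ S : ℕ → ℝ → Prop, Walkable S r P → ∀ Tc : ℝ, 0 ≤ Tc → Tc ≤ 1 / (r : ℝ) ^ 110 →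
        S P (Tc - Ω) → ∃ T, S r T ∧ 0 < T ∧ T ≤ 3 / ((r : ℝ) ^ 110 * 2 ^ Q) := by
  classical
  have hQR : (200 : ℝ) ≤ Q := by exact_mod_cast hQ
  have hQ0 : (0 : ℝ) < Q := by linarith
  have hQ1 : (1 : ℝ) ≤ Q := by linarith
  have hrR : (Q : ℝ) ^ 1000 ≤ r := by exact_mod_cast hr
  have hr0 : (0 : ℝ) < r := lt_of_lt_of_le (by positivity) hrR
  obtain ⟨L, hL⟩ : ∃ L, L = Q ^ 40 := ⟨_, rfl⟩
  obtain ⟨R, hR⟩ : ∃ R, R = Q ^ 41 := ⟨_, rfl⟩
  have hRJ : R = Q * L := by rw [hR, hL]; ring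
  have hL1 : 1 ≤ L := by rw [hL]; exact Nat.one_le_pow _ _ (by omega)
  have hLR : (L : ℝ) = (Q : ℝ) ^ 40 := by rw [hL]; push_cast; ring
  have hRR : (R : ℝ) = (Q : ℝ) ^ 41 := by rw [hR]; push_cast; ring
  have hL0 : (0 : ℝ) < L := by rw [hLR]; positivity
  have hR0 : (0 : ℝ) < R := by rw [hRR]; positivity
  have hPrR : (r : ℝ) ≤ 2 * P := by exact_mod_cast hPr
  have hP0 : (0 : ℝ) < P := by linarith
  obtain ⟨M, hM⟩ : ∃ M : ℝ, M = 1 / (r : ℝ) ^ 110 := ⟨_, rfl⟩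
  have hM0 : 0 < M := by rw [hM]; positivity
  have hr81 : 1000000 * ((R : ℝ) * L) ≤ r := by
    rw [hLR, hRR]
    calc 1000000 * ((Q : ℝ) ^ 41 * (Q : ℝ) ^ 40) ≤ (Q : ℝ) ^ 3 * ((Q : ℝ) ^ 41 * (Q : ℝ) ^ 40) := by
          refine mul_le_mul_of_nonneg_right ?_ (by positivity)
          have h1 : (200 : ℝ) ^ 3 ≤ (Q : ℝ) ^ 3 := pow_le_pow_left₀ (by norm_num) hQR 3
          linarith
      _ = (Q : ℝ) ^ 84 := by ring
      _ ≤ (Q : ℝ) ^ 1000 := pow_le_pow_right₀ hQ1 (by norm_num)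
      _ ≤ r := hrR
  have hRL1 : (1 : ℝ) ≤ R * L := by
    rw [hLR, hRR]
    have h1 : (1 : ℝ) ≤ (Q : ℝ) ^ 41 := one_le_pow₀ hQ1
    have h2 : (1 : ℝ) ≤ (Q : ℝ) ^ 40 := one_le_pow₀ hQ1
    nlinarith
  -- the patterns
  have hpat : ∀ ρ : ℕ, ∃ (F : ℕ → ℤ) (β : ℕ), ρ < R → (∀ w, |F w| ≤ 1) ∧ 1 ≤ β ∧
      2 * β ≤ 3 * Q * β1 ∧
      M / L / 2 ^ (ρ / L) ≤ |DD F L (8 * R * β) ((P : ℝ) + 8 * ρ)| ∧
      |DD F L (8 * R * β) ((P : ℝ) + 8 * ρ)| ≤ L * (M / L / 2 ^ (ρ / L)) := by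
    intro ρ
    by_cases hρ : ρ < R
    · have hj : ρ / L < Q := by
        rw [Nat.div_lt_iff_lt_mul (by omega)]
        omega
      have h2j : (0 : ℝ) < 2 ^ (ρ / L) := by positivity
      have hjp : (2 : ℝ) ^ (ρ / L) ≤ 2 ^ Q := pow_le_pow_right₀ (by norm_num) hj.le
      have hx' : P + 8 * ρ ≤ r := by
        rw [hR] at hρ
        omega
      obtain ⟨F, o, β, h1, h2, h3, h4, h5⟩ := pick (x := (P : ℝ) + 8 * ρ)
        (ε := M / L / 2 ^ (ρ / L)) hQ hr H3 H5 (by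
          have : (0 : ℝ) ≤ ρ := Nat.cast_nonneg ρ
          linarith) (by exact_mod_cast hx') (by
          rw [hM, hLR, div_div, div_div]
          refine one_div_le_one_div_of_le (by positivity) ?_
          refine mul_le_mul_of_nonneg_left ?_ (by positivity)
          exact mul_le_mul_of_nonneg_left hjp (by positivity)) (by
          rw [← hM, div_div]
          refine div_le_self hM0.le ?_
          rw [hLR]
          have h6 : (1 : ℝ) ≤ (Q : ℝ) ^ 40 := one_le_pow₀ hQ1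
          have h7 : (1 : ℝ) ≤ 2 ^ (ρ / L) := one_le_pow₀ (by norm_num)
          nlinarith)
      rw [← hL, ← hRR] at h4 h5
      rw [← hLR] at h5
      exact ⟨F, β, fun _ => ⟨h1.abs, h2, h3, h4, h5⟩⟩
    · exact ⟨fun _ => 0, 0, fun h => absurd h hρ⟩
  choose F β hFβ using hpat
  obtain ⟨V, hV⟩ : ∃ V, V = (r - P) / 8 := ⟨_, rfl⟩
  have hPr' : P ≤ r := by omega
  have hV1 : P + 8 * V ≤ r := by omega
  have hV2 : r < P + 8 * V + 8 := by omega
  have hVlt : ∀ ρ < R, ∀ w < L, ρ + R * (β ρ * w) < V := by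
    intro ρ hρ w hw
    obtain ⟨_, _, h3, _, _⟩ := hFβ ρ hρ
    have h4 : 8 * (R * (β ρ * w)) ≤ 12 * (Q ^ 82 * β1) := by
      calc 8 * (R * (β ρ * w)) = 4 * (R * ((2 * β ρ) * w)) := by ring
        _ ≤ 4 * (R * ((3 * Q * β1) * L)) := by
            refine Nat.mul_le_mul_left _ (Nat.mul_le_mul_left _ (Nat.mul_le_mul h3 hw.le))
        _ = 12 * (Q ^ 82 * β1) := by rw [hR, hL]; ring
    rw [← hR] at H4
    omega
  -- the values
  obtain ⟨D, hD⟩ : ∃ D : ℕ → ℝ, ∀ ρ, D ρ =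
    DD (F ρ) L (8 * R * β ρ) ((P : ℝ) + 8 * ρ) := ⟨_, fun _ => rfl⟩
  obtain ⟨E, hE⟩ : ∃ E : ℕ → ℝ, ∀ ρ, E ρ = ∑ w ∈ range L,
    ((|F ρ w| : ℤ) : ℝ) * gg ((P : ℝ) + 8 * ρ + 8 * R * β ρ * w) / 2 :=
    ⟨_, fun _ => rfl⟩
  have hxpos : ∀ ρ w : ℕ, (P : ℝ) ≤ (P : ℝ) + 8 * ρ + 8 * R * β ρ * w := by
    intro ρ w
    have h4 : (0 : ℝ) ≤ 8 * ρ := by positivity
    have h6 : (0 : ℝ) ≤ 8 * R * β ρ * w := by positivity
    linarith
  have hE0 : ∀ ρ, 0 ≤ E ρ := by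
    intro ρ
    rw [hE]
    refine sum_nonneg fun w _ => ?_
    have h4 : 0 ≤ gg ((P : ℝ) + 8 * ρ + 8 * R * β ρ * w) :=
      gg_nonneg (lt_of_lt_of_le hP0 (hxpos ρ w))
    have h5 : (0 : ℝ) ≤ ((|F ρ w| : ℤ) : ℝ) := by exact_mod_cast abs_nonneg (F ρ w)
    positivity
  have hE1 : ∀ ρ ∈ range R, E ρ ≤ L * (8 / (P : ℝ) ^ 3) := by
    intro ρ hρ
    rw [hE]
    have hF1 := (hFβ ρ (mem_range.1 hρ)).1
    have h4 : ∀ w ∈ range L,
        ((|F ρ w| : ℤ) : ℝ) * gg ((P : ℝ) + 8 * ρ + 8 * R * β ρ * w) / 2 ≤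
        8 / (P : ℝ) ^ 3 := by
      intro w _
      have h5 : ((|F ρ w| : ℤ) : ℝ) ≤ 1 := by exact_mod_cast hF1 w
      have h6 := gg_le (lt_of_lt_of_le hP0 (hxpos ρ w))
      have h7 := gg_nonneg (lt_of_lt_of_le hP0 (hxpos ρ w))
      have h8 : 16 / ((P : ℝ) + 8 * ρ + 8 * R * β ρ * w) ^ 3 ≤ 16 / (P : ℝ) ^ 3 :=
        div_le_div_of_nonneg_left (by norm_num) (by positivity)
          (pow_le_pow_left₀ hP0.le (hxpos ρ w) 3)
      have h9 := mul_le_mul_of_nonneg_right h5 h7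
      have e : (8 : ℝ) / (P : ℝ) ^ 3 = 16 / (P : ℝ) ^ 3 / 2 := by ring
      rw [e]
      linarith
    refine (sum_le_sum h4).trans ?_
    rw [sum_const, card_range, nsmul_eq_mul]
  have hEs0 : 0 ≤ ∑ ρ ∈ range R, E ρ := sum_nonneg fun ρ _ => hE0 ρ
  have hP3 : (r : ℝ) ^ 3 ≤ 8 * (P : ℝ) ^ 3 := by
    calc (r : ℝ) ^ 3 ≤ (2 * (P : ℝ)) ^ 3 := pow_le_pow_left₀ hr0.le hPrR 3
      _ = 8 * (P : ℝ) ^ 3 := by ring
  have hEs1 : ∑ ρ ∈ range R, E ρ ≤ 0.001 / (r : ℝ) ^ 2 := by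
    refine (sum_le_sum hE1).trans ?_
    rw [sum_const, card_range, nsmul_eq_mul]
    have e : (R : ℝ) * (L * (8 / (P : ℝ) ^ 3)) = (8 * (R * L)) / (P : ℝ) ^ 3 := by
      field_simp
    rw [e, div_le_div_iff₀ (by positivity) (by positivity)]
    calc 8 * ((R : ℝ) * L) * (r : ℝ) ^ 2 ≤ 0.000008 * r * (r : ℝ) ^ 2 := by
          refine mul_le_mul_of_nonneg_right ?_ (by positivity)
          linarith
      _ = 0.000008 * (r : ℝ) ^ 3 := by ring
      _ ≤ 0.001 * (P : ℝ) ^ 3 := by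
          have : 0 < (P : ℝ) ^ 3 := by positivity
          linarith
  have hr1 : (1000000 : ℝ) ≤ r := by linarith
  have hEs2 : ∑ ρ ∈ range R, E ρ ≤ 1 / (1000 * (r : ℝ)) := by
    refine hEs1.trans ?_
    rw [div_le_div_iff₀ (by positivity) (by positivity)]
    nlinarith
  have hr2 : (0 : ℝ) < 1 / (r : ℝ) ^ 2 := by positivity
  refine ⟨∑ ρ ∈ range R, E ρ, hEs0, ?_, ?_, ?_⟩
  · refine hEs1.trans ?_
    exact div_le_div_of_nonneg_right (by norm_num) (by positivity)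
  · refine hEs2.trans ?_
    exact one_div_le_one_div_of_le (by positivity) (by linarith)
  intro S hW Tc hTc0 hTc1 h0
  rw [← hM] at hTc1
  obtain ⟨Ω, hΩ⟩ : ∃ Ω, Ω = ∑ ρ ∈ range R, E ρ := ⟨_, rfl⟩
  rw [← hΩ] at h0 hEs0 hEs1 hEs2
  obtain ⟨η, hη⟩ : ∃ η : ℝ, η = M / 2 ^ Q := ⟨_, rfl⟩
  have h2Q : (2 : ℝ) ≤ 2 ^ Q := le_self_pow₀ (by norm_num) (by omega)
  have hη0 : 0 < η := by rw [hη]; positivity
  have hη1 : 2 * η ≤ M := by
    rw [hη, mul_div_assoc', div_le_iff₀ (by positivity)]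
    nlinarith
  -- the signs
  obtain ⟨e, he, hsum⟩ := all_signs (M := M) (L := L) (by omega) (fun ρ => D ρ / 2)
    (ζ := Tc - 2 * η) (by
      rw [abs_le]
      constructor <;> linarith) Q (by
      intro j hj i hi
      have h4 : j * L + i < R := by
        have h5 : (j + 1) * L ≤ Q * L := Nat.mul_le_mul_right L (by omega)
        rw [Nat.add_mul, Nat.one_mul] at h5
        omega
      have h5 : (j * L + i) / L = j := by
        rw [Nat.div_eq_iff (by omega)]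
        constructor
        · omega
        · have : j * L + L = (j + 1) * L := by ring
          omega
      obtain ⟨_, _, _, h6, h7⟩ := hFβ (j * L + i) h4
      rw [h5, ← hD] at h6 h7
      have h8 : |D (j * L + i) / 2| = |D (j * L + i)| / 2 := by
        rw [abs_div, abs_two]
      show M / 2 ^ j / (2 * L) ≤ |D (j * L + i) / 2| ∧ |D (j * L + i) / 2| ≤ M / 2 ^ j / 2
      rw [h8]
      have h2j : (0 : ℝ) < 2 ^ j := by positivity
      have e1 : M / 2 ^ j / (2 * L) = (M / L / 2 ^ j) / 2 := by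
        field_simp
      have e2 : M / 2 ^ j / 2 = (L * (M / L / 2 ^ j)) / 2 := by
        field_simp
      rw [e1, e2]
      constructor <;> linarith)
  rw [← hRJ] at hsum
  -- the superposition
  obtain ⟨c, hc, hcs⟩ := sum_reorgE (V := V) (fun ρ hρ => (hFβ ρ hρ).2.1) hVlt (e := e) (F := F)
    (fun i => (he i).le) (fun ρ hρ => (hFβ ρ hρ).1)
  have habs : ∑ v ∈ range V, ((|c v| : ℤ) : ℝ) ≤ R * L := by
    rw [hcs (fun z _ => ((|z| : ℤ) : ℝ)) (fun v => by simp)]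
    have h4 : ∀ ρ ∈ range R, ∑ w ∈ range L, ((|e ρ * F ρ w| : ℤ) : ℝ) ≤ L := by
      intro ρ hρ
      have h5 : ∀ w ∈ range L, ((|e ρ * F ρ w| : ℤ) : ℝ) ≤ 1 := by
        intro w _
        rw [abs_mul, he, one_mul]
        exact_mod_cast (hFβ ρ (mem_range.1 hρ)).1 w
      refine (sum_le_sum h5).trans ?_
      rw [sum_const, card_range, nsmul_eq_mul, mul_one]
    refine (sum_le_sum h4).trans ?_
    rw [sum_const, card_range, nsmul_eq_mul]
  have htot : ∑ v ∈ range V, tau (c v) ((P : ℝ) + 8 * v) =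
      ∑ ρ ∈ range R, (-((e ρ : ℝ) * (D ρ / 2)) + E ρ) := by
    rw [hcs (fun z v => tau z ((P : ℝ) + 8 * v)) (fun v => tau_zero _)]
    refine sum_congr rfl fun ρ _ => ?_
    rw [hD, hE]
    unfold DD
    rw [sum_div, mul_sum, ← sum_neg_distrib, ← sum_add_distrib]
    refine sum_congr rfl fun w _ => ?_
    have e1 : (P : ℝ) + 8 * ((ρ + R * (β ρ * w) : ℕ) : ℝ) =
        P + 8 * ρ + 8 * R * β ρ * w := by
      push_cast
      ring
    rw [e1]
    unfold tau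
    rw [abs_mul, he, one_mul]
    push_cast
    ring
  have hbound : ∀ v ≤ V, |(Tc - Ω) + ∑ i ∈ range v, tau (c i) ((P : ℝ) + 8 * i)| ≤
      1 / (32 * (r : ℝ)) := by
    intro v hv
    have h4 : |∑ i ∈ range v, tau (c i) ((P : ℝ) + 8 * i)| ≤ (R * L) * (4 / (P : ℝ) ^ 2) := by
      refine (abs_sum_le_sum_abs _ _).trans ?_
      have h5 : ∀ i ∈ range v, |tau (c i) ((P : ℝ) + 8 * i)| ≤
          ((|c i| : ℤ) : ℝ) * (4 / (P : ℝ) ^ 2) := by
        intro i _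
        refine tau_abs (hc i) hP0 ?_
        have : (0 : ℝ) ≤ 8 * i := by positivity
        linarith
      refine (sum_le_sum h5).trans ?_
      rw [← sum_mul]
      refine mul_le_mul_of_nonneg_right ?_ (by positivity)
      refine le_trans ?_ habs
      refine sum_le_sum_of_subset_of_nonneg ?_ ?_
      · intro x hx
        rw [mem_range] at hx ⊢
        omega
      · intro i _ _
        exact_mod_cast abs_nonneg (c i)
    refine (abs_add_le _ _).trans ?_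
    have hb1 : |Tc - Ω| ≤ 1 / (64 * (r : ℝ)) := by
      have hM1 : M ≤ 1 / (64 * (r : ℝ)) := by
        rw [hM]
        refine one_div_le_one_div_of_le (by positivity) ?_
        calc 64 * (r : ℝ) ≤ r * r := mul_le_mul_of_nonneg_right (by linarith) hr0.le
          _ = (r : ℝ) ^ 2 := by ring
          _ ≤ (r : ℝ) ^ 110 := pow_le_pow_right₀ (by linarith) (by norm_num)
      have h6 : 1 / (1000 * (r : ℝ)) ≤ 1 / (64 * (r : ℝ)) :=
        one_div_le_one_div_of_le (by positivity) (by linarith)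
      rw [abs_le]
      constructor <;> linarith
    have hb2 : (R * L) * (4 / (P : ℝ) ^ 2) ≤ 1 / (64 * (r : ℝ)) := by
      rw [mul_div_assoc', div_le_div_iff₀ (by positivity) (by positivity)]
      have h6 : (r : ℝ) ^ 2 ≤ 4 * (P : ℝ) ^ 2 := by
        calc (r : ℝ) ^ 2 ≤ (2 * (P : ℝ)) ^ 2 := pow_le_pow_left₀ hr0.le hPrR 2
          _ = 4 * (P : ℝ) ^ 2 := by ring
      calc ((R : ℝ) * L) * 4 * (64 * r) = 256 * ((R * L) * r) := by ring
        _ ≤ 256 * ((0.000001 * r) * r) := by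
            refine mul_le_mul_of_nonneg_left ?_ (by norm_num)
            refine mul_le_mul_of_nonneg_right ?_ hr0.le
            linarith
        _ = 0.000256 * (r : ℝ) ^ 2 := by ring
        _ ≤ 1 * (P : ℝ) ^ 2 := by
            have : 0 < (P : ℝ) ^ 2 := by positivity
            linarith
    have e64 : 1 / (32 * (r : ℝ)) = 1 / (64 * (r : ℝ)) + 1 / (64 * (r : ℝ)) := by
      rw [← add_div, one_add_one_eq_two, div_eq_div_iff (by positivity) (by positivity)]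
      ring
    rw [e64]
    linarith
  have hwalk := walk hW hmod hc h0 V hV1 hbound
  obtain ⟨T, hTdef⟩ : ∃ T, T = (Tc - Ω) + ∑ i ∈ range V, tau (c i) ((P : ℝ) + 8 * i) := ⟨_, rfl⟩
  have hTb := hbound V le_rfl
  rw [← hTdef] at hwalk hTb
  have hfin := walk_to hW (p := P + 8 * V) (by omega) (by omega) hTb hwalk hV1
  have hTval : T = 2 * η + (Tc - 2 * η - ∑ ρ ∈ range R, (e ρ : ℝ) * (D ρ / 2)) := by
    rw [hTdef, htot, sum_add_distrib, sum_neg_distrib, ← hΩ]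
    ring
  rw [← hη] at hsum
  rw [abs_le] at hsum
  refine ⟨T, hfin, ?_, ?_⟩
  · rw [hTval]
    linarith [hsum.1]
  · have h4 : 3 / ((r : ℝ) ^ 110 * 2 ^ Q) = 3 * η := by
      rw [hη, hM, div_div, mul_one_div]
    rw [h4, hTval]
    linarith [hsum.2]

end Pool.Agent.W610
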