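import Mathlib
import Pool.Agent.H932R6.FinalR
import Pool.Agent.H852.QP.Short
import Pool.Agent.W610.AbsC
import Pool.Agent.W610.Fine

set_option autoImplicit false

/-!
# The coarse phase
-/

namespace Pool.Agent.W610

open Finset Pool.Agent.H932R3 Pool.Agent.H932R4 Pool.Agent.H932R6

/-- The context of the shifted relation. -/
theorem ctxS_of {δ : ℝ} {r P E : ℕ} (C : CtxR δ r P (2 * E + 3)) {Ω : ℝ} (h0 : 0 ≤ Ω)
    (h1 : Ω ≤ 1 / (64 * (r : ℝ))) :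
    CtxS (fun p T => RS δ r p (T - Ω)) (1 / (64 * (r : ℝ))) r P E := by
  have hP0 := C.P0
  have hr0 := C.r0
  have e64 : 1 / (32 * (r : ℝ)) = 1 / (64 * (r : ℝ)) + 1 / (64 * (r : ℝ)) := by
    rw [← add_div, one_add_one_eq_two, div_eq_div_iff (by positivity) (by positivity)]
    ring
  have hT : ∀ T : ℝ, |T| ≤ 1 / (64 * (r : ℝ)) → |T - Ω| ≤ 1 / (32 * (r : ℝ)) := by
    intro T hT
    rw [e64]
    rw [abs_le] at hT ⊢
    constructor <;> linarith [hT.1, hT.2]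
  refine ⟨⟨?_, ?_, ?_, ?_⟩, C.hP, C.pr, fun e he => C.pow e (by omega), ?_⟩
  · intro p T hp hpr hmod hTb h
    exact RS.stepU C.hδ C.hP C.sm hp hpr hmod (hT T hTb) h
  · intro p T hp hpr hmod hTb h
    have h2 := RS.stepA C.hδ C.hP C.sm hp hpr hmod (hT T hTb) h
    show RS δ r (p + 8) (T - Gk 0 ((p : ℝ) + 3) - Ω)
    have e : T - Gk 0 ((p : ℝ) + 3) - Ω = T - Ω - Gk 0 ((p : ℝ) + 3) := by ring
    rw [e]
    exact h2
  · intro p T hp hpr hmod hTb h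
    have h2 := RS.stepB C.hδ C.hP C.sm hp hpr hmod (hT T hTb) h
    show RS δ r (p + 8) (T + Gk 0 ((p : ℝ) + 1) - Ω)
    have e : T + Gk 0 ((p : ℝ) + 1) - Ω = T - Ω + Gk 0 ((p : ℝ) + 1) := by ring
    rw [e]
    exact h2
  · intro p T β hp hpr hmod hTb hβ hβp h
    have h2 := RS.stepE C.hδ C.hP C.sm hp hpr hmod (hT T hTb) hβ hβp h
    show RS δ r (p + 8 * β) (T + Eb β p - Ω)
    have e : T + Eb β p - Ω = T - Ω + Eb β p := by ring
    rw [e]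
    exact h2
  · have h2 := C.bud
    push_cast at h2
    rw [e64] at h2
    have h3 : 2 * ((5 + 4 * ((E : ℝ) + 1)) / (P : ℝ) ^ 2) ≤
        (5 + 4 * (2 * (E : ℝ) + 3 + 1)) / (P : ℝ) ^ 2 := by
      rw [mul_div_assoc']
      exact div_le_div_of_nonneg_right (by linarith) (by positivity)
    linarith

/-- The walk of the relation. -/
theorem walkable_RS {δ : ℝ} {r a P E : ℕ} (C : CtxR δ r a E) (haP : a ≤ P) :
    Walkable (RS δ r) r P := by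
  intro p T hp hpr hmod hT h
  exact ⟨RS.stepU C.hδ C.hP C.sm (by omega) hpr hmod hT h,
    RS.stepA C.hδ C.hP C.sm (by omega) hpr hmod hT h,
    RS.stepB C.hδ C.hP C.sm (by omega) hpr hmod hT h⟩

/-- The third block, with a slightly smaller range. -/
theorem pick3 {B : ℕ} {x R Q U V p T : ℝ} (H : Num x R Q U V) (hx : x = B) (hp : Q ≤ p)
    (hpr : p + 8 * x ^ 6 ≤ R) (hT1 : -(6.9 * (R * U)) ≤ T) (hT2 : T ≤ -(4.7 * (R * U))) :
    ∃ β : ℕ, β ≤ B ^ 6 ∧ 1 ≤ β ∧ -(4.7 * (R * U)) ≤ T + Eb β p ∧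
      T + Eb β p ≤ -(3.95 * (R * U)) := by
  obtain ⟨x1, xR, Rx, Q0, QR, QR2, U0, V0, UV, a6, a8, a12, a18, a41, up3, up4, lo3, lo4⟩ := H
  clear up4 lo4
  have hx0 : 0 < x := by linarith
  have hp0 : 0 < p := by linarith
  have hp1 : 1 ≤ p := by linarith
  have hRU : 0 < R * U := by
    have : 0 < R := by linarith
    positivity
  have h12U : x ^ 12 * U ≤ 0.000001 * (R * U) := by
    calc x ^ 12 * U ≤ (0.000001 * R) * U := mul_le_mul_of_nonneg_right (by linarith) U0.le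
      _ = 0.000001 * (R * U) := by ring
  have h12U0 : 0 < x ^ 12 * U := by positivity
  have hB1 : 1 ≤ B := by
    have : (1 : ℝ) ≤ B := by rw [← hx]; linarith
    exact_mod_cast this
  obtain ⟨β1, hβ1, h1a, h1b⟩ := greedy_le (f := fun β : ℕ => Eb β p)
    (q := 50 * x ^ 12 * U) (L := -T - 3.95 * (R * U)) (by positivity) (B ^ 6) (by
      show Eb 0 p ≤ _
      rw [Eb_zero]
      linarith) (by
      have h1 := (Eb_bounds (β := B ^ 6) (Nat.one_le_pow _ _ (by omega)) hp0).1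
      refine le_trans ?_ h1
      push_cast
      rw [← hx]
      have h2 : gb (x ^ 6) = 16 * x ^ 18 - 4 * x ^ 6 := by rw [gb_eq]; ring
      rw [h2]
      refine le_trans ?_ (lo3 _ _ (by linarith) (by positivity) (by linarith))
      have h3 : (4.7 * R) * U ≤ (16 * x ^ 18 - 4 * x ^ 6) * U :=
        mul_le_mul_of_nonneg_right (by linarith) U0.le
      linarith) (by
      intro i hi
      refine (Eb_step (N := B ^ 6) (by omega) hp1).trans ?_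
      push_cast
      rw [← hx]
      refine (up3 _ _ (by positivity) hp).trans ?_
      have h1 : 384 * (x ^ 6) ^ 4 / p ≤ 768 * x ^ 6 := by
        rw [div_le_iff₀ hp0]
        have : x ^ 18 ≤ 2 * p := by linarith
        calc 384 * (x ^ 6) ^ 4 = 384 * x ^ 6 * x ^ 18 := by ring
          _ ≤ 384 * x ^ 6 * (2 * p) := mul_le_mul_of_nonneg_left this (by positivity)
          _ = 768 * x ^ 6 * p := by ring
      have h2 : (x ^ 6) ^ 2 = x ^ 12 := by ring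
      rw [h2]
      exact mul_le_mul_of_nonneg_right (by linarith) U0.le)
  have hβ1pos : 1 ≤ β1 := by
    by_contra hcon
    have : β1 = 0 := by omega
    rw [this, Eb_zero] at h1a
    linarith
  exact ⟨β1, hβ1, hβ1pos, by linarith, by linarith⟩

theorem block3 {δ : ℝ} {r P E B p : ℕ} {T : ℝ} (C : CtxR δ r P E) (hB : 1000 ≤ B)
    (hBr : B ^ 18 ≤ r) (hrB : r ≤ 2 * B ^ 18)
    (hPr : 100 * (r : ℝ) ^ 4 ≤ 101 * (P : ℝ) ^ 4) (hp : P ≤ p) (hm : p % 4 = r % 4)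
    (hr : p + 8 * B ^ 6 ≤ r) (h : RS δ r p T) (hT1 : -(6.9 / (r : ℝ) ^ 2) ≤ T)
    (hT2 : T ≤ -(4.7 / (r : ℝ) ^ 2)) :
    ∃ (p' : ℕ) (T' : ℝ), p ≤ p' ∧ p' ≤ p + 8 * B ^ 6 ∧ p' % 4 = r % 4 ∧ RS δ r p' T' ∧
      -(4.7 / (r : ℝ) ^ 2) ≤ T' ∧ T' ≤ -(3.95 / (r : ℝ) ^ 2) := by
  have hP0 := C.P0
  have hr0 := C.r0
  have hBR : (1000 : ℝ) ≤ B := by exact_mod_cast hB
  have H := num_of (x := (B : ℝ)) (R := (r : ℝ)) (Q := (P : ℝ)) hBR (by exact_mod_cast hBr)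
    (by exact_mod_cast hrB) hP0 (by exact_mod_cast C.pr) hPr
  have hR2 : ∀ c : ℝ, c / (r : ℝ) ^ 2 = c * (r * (1 / (r : ℝ) ^ 3)) := by
    intro c
    field_simp
  obtain ⟨β, hb, hb1, h1, h2⟩ := pick3 (p := (p : ℝ)) (T := T) H rfl (by exact_mod_cast hp)
    (by exact_mod_cast hr) (by rw [← hR2]; exact hT1) (by rw [← hR2]; exact hT2)
  rw [← hR2] at h1 h2
  have n18 : 4 * B ^ 6 ≤ P := by
    have h1 := H.QR2
    have h2 : (4 * (B : ℝ) ^ 6) ≤ P := by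
      linarith [H.a8, H.a12, H.a18, H.xR, pow_nonneg (show (0 : ℝ) ≤ B by linarith) 6]
    exact_mod_cast h2
  have hr221 : (221 : ℝ) ≤ r := by
    linarith [H.a6, H.a8, H.a12, H.a18, H.xR, H.a41]
  have hTb : |T| ≤ 1 / (32 * (r : ℝ)) := by
    have h3 : 6.9 / (r : ℝ) ^ 2 ≤ 1 / (32 * (r : ℝ)) := by
      rw [div_le_div_iff₀ (by positivity) (by positivity)]
      nlinarith
    have h4 : 0 < 4.7 / (r : ℝ) ^ 2 := by positivity
    rw [abs_le]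
    constructor <;> linarith
  refine ⟨p + 8 * β, T + Eb β p, by omega, by omega, by omega, ?_, h1, h2⟩
  exact RS.stepE C.hδ C.hP C.sm hp (by omega) hm hTb hb1 (by omega) h

/-- The coarse phase. -/
theorem coarse {K E B r a N P : ℕ} {δ Ω : ℝ} (hK : K + 5 ≤ E) (hE : 2 ≤ E)
    (hB1 : B ^ 18 ≤ r) (hrB : r ≤ 2 * B ^ 18)
    (hB1000 : 1000 ≤ B) (hshi : shi (K + 1) + 10 ≤ B) (hKB : K + 4 ≤ B)
    (C : CtxR δ r a (2 * E + 3))
    (hPr : 100 * (r : ℝ) ^ 4 ≤ 101 * (a : ℝ) ^ 4)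
    (hhalf : (r : ℝ) ≤ 2 * (a : ℝ)) (hmod : a % 4 = r % 4) (hy1 : δ ^ 2 ≤ a)
    (hy2 : (a : ℝ) - δ ^ 2 ≤ 1 / 1000) (hyN : (a : ℝ) * (a - δ ^ 2) ≤ (N : ℝ) ^ 2)
    (hN : 1000000 * N ^ 2 ≤ a) (hN1 : 1 ≤ N) (hPmod : P % 4 = r % 4)
    (hgap : a + 16 * N + 100 + 8 * B ^ 6 + (lenL K + 70) * B ^ 8 ≤ P) (hP : P ≤ r)
    (hΩ0 : 0 ≤ Ω) (hΩ1 : Ω ≤ 0.05 / (r : ℝ) ^ 2) (hΩ2 : Ω ≤ 1 / (64 * (r : ℝ))) :
    ∃ Tc : ℝ, RS δ r P (Tc - Ω) ∧ 0 ≤ Tc ∧ Tc ≤ 2 * qL a (CL (K + 1)) := by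
  have hr0 := C.r0
  have hB8 : 1 ≤ B ^ 8 := Nat.one_le_pow _ _ (by omega)
  have hB8' : B ≤ B ^ 8 := by
    calc B = B ^ 1 := (pow_one _).symm
      _ ≤ B ^ 8 := Nat.pow_le_pow_right (by omega) (by norm_num)
  have e1 : (lenL K + 70) * B ^ 8 = lenL K * B ^ 8 + 70 * B ^ 8 := by ring
  rw [e1] at hgap
  have hrP : r ≤ 2 * a := by
    have h1 : (r : ℝ) ≤ ((2 * a : ℕ) : ℝ) := by
      push_cast
      exact hhalf
    exact_mod_cast h1
  obtain ⟨p0, Ts, hp0, hp0', hm0, hRR0, hTl, hTu⟩ := A_BL12 δ r a (2 * E + 3) N C hmod hPr hy1 hy2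
    hyN hN hN1 (by omega)
  obtain ⟨p1, T0, hp1, hp1', hm1, hRR, hT0l, hT0u⟩ := block3 C hB1000 hB1 hrB hPr hp0
    hm0 (by omega) hRR0 hTl hTu
  have hm2 : (lenL K * B ^ 8) % 4 = 0 := by
    rw [Nat.mul_mod, lenL_mod K]
    simp
  have hshi1 : shi 1 ≤ shi (K + 1) := shi_mono (by omega)
  obtain ⟨b, hb⟩ : ∃ b, b = B ^ 8 := ⟨_, rfl⟩
  obtain ⟨l, hl⟩ : ∃ l, l = lenL K * B ^ 8 := ⟨_, rfl⟩
  rw [← hl] at hgap hm2
  rw [← hb] at hgap hB8 hB8'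
  have CS := ctxS_of C hΩ0 hΩ2
  obtain ⟨S, hS⟩ : ∃ S : ℕ → ℝ → Prop, S = fun p T => RS δ r p (T - Ω) := ⟨_, rfl⟩
  rw [← hS] at CS
  have hSS : S p1 (T0 + Ω) := by
    rw [hS]
    show RS δ r p1 (T0 + Ω - Ω)
    rw [add_sub_cancel_right]
    exact hRR
  have hdiv : 3.95 / (r : ℝ) ^ 2 = 3.9 / (r : ℝ) ^ 2 + 0.05 / (r : ℝ) ^ 2 := by ring
  obtain ⟨T1, hRR1, hT1l, hT1u⟩ := initialS CS (B := B) (by omega) hB1 hrB hPr
    (p1 := p1) (by omega) hm1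
    (by rw [← hb]; omega) (T0 := T0 + Ω) (by linarith) (by linarith) hSS
  rw [← hb] at hRR1
  have hst := secondS CS (q := p1 + 48 * b) (by omega) hB1000 hB1 hPr hhalf (p := p1 + 32 * b)
    (by omega) (by omega) (by omega) (by rw [← hb]; omega) (by omega) hT1l hT1u hRR1
  have hst1 := StS.lvl23 CS (k := 0) (B := B) (p := p1 + 48 * b) (q := p1 + 56 * b)
    (by omega) (by show shi 1 + 10 ≤ B; omega) (by omega) (by omega) (by omega)
    (by rw [← hb]; omega) (by omega) hst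
  have hst2 := StS.levels CS (B := B) (by omega) (by omega) (p := p1 + 56 * b) (by omega)
    (by omega) hst1 K (by omega) (by omega) (by omega) (by rw [← hl]; omega)
  rw [← hl] at hst2
  obtain ⟨hq5, T, hT, hTl', hTu'⟩ := hst2
  have hqpos : 0 < qL a (CL (K + 1)) := by
    have hP0 := C.P0
    unfold qL
    have : (0 : ℝ) < nL (CL (K + 1)) := by exact_mod_cast nL_pos (CL_adm (K + 1))
    positivity
  have hT0 : 0 < T := by linarith
  have hT5 : |T| ≤ 5 / (a : ℝ) ^ 2 := by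
    rw [abs_of_pos hT0]
    linarith
  have hfin := CS.mv.to CS.hP (p := p1 + 56 * b + l) (q := P) (by omega) (by omega) hPmod
    (CS.tbound' hT5) hT (by omega) hP
  rw [hS] at hfin
  exact ⟨T, hfin, hT0.le, hTu'⟩

end Pool.Agent.W610
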