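import Mathlib
import Pool.Agent.W610.Coarse

set_option autoImplicit false

/-!
# Reachable slopes exponentially close to an integer, in a short range
-/

namespace Pool.Agent.W610

open Finset Pool.Agent.H932R3 Pool.Agent.H932R4 Pool.Agent.H932R6

/-- A hypothesis hidden from the arithmetic tactics. -/
def Hid (p : Prop) : Prop := p

theorem exists_mod4 {g r : ℕ} (h : g + 8 ≤ r) : ∃ P, g ≤ P ∧ P ≤ g + 4 ∧ P % 4 = r % 4 :=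
  ⟨r - 4 * ((r - g) / 4), by omega, by omega, by omega⟩

theorem exists_rootk {k : ℕ} (hk : k ≠ 0) (r : ℕ) : ∃ B : ℕ, B ^ k ≤ r ∧ r < (B + 1) ^ k := by
  obtain ⟨B, hB⟩ : ∃ B, B = Nat.findGreatest (fun b => b ^ k ≤ r) r := ⟨_, rfl⟩
  have h1 : B ^ k ≤ r := by
    rw [hB]
    exact Nat.findGreatest_spec (P := fun b => b ^ k ≤ r) (Nat.zero_le r) (by
      show 0 ^ k ≤ r
      rw [zero_pow hk]
      exact Nat.zero_le r)
  refine ⟨B, h1, ?_⟩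
  by_contra hcon
  have h2 : (B + 1) ^ k ≤ r := not_lt.1 hcon
  have h3 : B + 1 ≤ r := by
    refine le_trans ?_ h2
    exact Nat.le_self_pow hk _
  have h4 := Nat.le_findGreatest (P := fun b => b ^ k ≤ r) h3 h2
  rw [← hB] at h4
  omega

/-- The end: from the deviation to the slope. -/
theorem slope_of {δ : ℝ} {r Q k : ℕ} (hδ : 0 < δ) (hr : 6 ≤ r) (hk : r ^ k ≤ 2 ^ Q) {T : ℝ}
    (hT0 : 0 < T) (hT1 : T ≤ 3 / ((r : ℝ) ^ 110 * 2 ^ Q)) (h : RS δ r r T) :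
    ∃ σ, ReachR δ σ ∧ 0 < (r : ℝ) - σ ∧ (r : ℝ) - σ ≤ 1 / (r : ℝ) ^ k := by
  obtain ⟨σ, hσ, hlog⟩ := h
  have hr6 : (6 : ℝ) ≤ r := by exact_mod_cast hr
  have hr0 : (0 : ℝ) < r := by linarith
  have hlog' : Real.log σ = Real.log r - 2 * T := by
    rw [hlog]
    unfold gam
    ring
  have hσ0 : 0 < σ := hσ.pos hδ
  have hσe : σ = r * Real.exp (-(2 * T)) := by
    rw [← Real.exp_log hσ0, hlog', sub_eq_add_neg, Real.exp_add, Real.exp_log hr0]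
  have hexp1 : Real.exp (-(2 * T)) < 1 := by
    rw [Real.exp_lt_one_iff]
    linarith
  have hexp2 : 1 - 2 * T ≤ Real.exp (-(2 * T)) := by
    have := Real.add_one_le_exp (-(2 * T))
    linarith
  refine ⟨σ, hσ, ?_, ?_⟩
  · rw [hσe]
    have : (r : ℝ) * Real.exp (-(2 * T)) < r * 1 := mul_lt_mul_of_pos_left hexp1 hr0
    linarith
  · have h1 : (r : ℝ) - σ ≤ 2 * r * T := by
      rw [hσe]
      have : (r : ℝ) * (1 - 2 * T) ≤ r * Real.exp (-(2 * T)) :=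
        mul_le_mul_of_nonneg_left hexp2 hr0.le
      linarith
    refine h1.trans ?_
    have h2 : 2 * (r : ℝ) * T ≤ 1 / 2 ^ Q := by
      have h3 : 2 * (r : ℝ) * T ≤ 2 * r * (3 / ((r : ℝ) ^ 110 * 2 ^ Q)) :=
        mul_le_mul_of_nonneg_left hT1 (by positivity)
      refine h3.trans ?_
      rw [mul_div_assoc', div_le_div_iff₀ (by positivity) (by positivity), one_mul]
      refine mul_le_mul_of_nonneg_right ?_ (by positivity)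
      calc 2 * (r : ℝ) * 3 = 6 * r := by ring
        _ ≤ r * r := mul_le_mul_of_nonneg_right hr6 hr0.le
        _ = (r : ℝ) ^ 2 := by ring
        _ ≤ (r : ℝ) ^ 110 := pow_le_pow_right₀ (by linarith) (by norm_num)
    refine h2.trans ?_
    refine one_div_le_one_div_of_le (by positivity) ?_
    exact_mod_cast hk

/-- The gap. -/
theorem gapE {a r B N l G : ℕ} {c : ℝ} (hc : 0 < c) (hB1 : 1 ≤ B)
    (hCc : 4 * ((l : ℝ) + 400) ≤ B * c) (hG : (G : ℝ) ≤ c / 8 * (B : ℝ) ^ 9)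
    (hB : B ^ 18 ≤ r) (hN : 16 * (N : ℝ) ≤ c / 2 * Real.sqrt r + 16)
    (hroom : (a : ℝ) + c * Real.sqrt r ≤ r) :
    a + 16 * N + 100 + 8 * B ^ 6 + (l + 70) * B ^ 8 + 8 + G ≤ r := by
  have hB9 : (B : ℝ) ^ 9 ≤ Real.sqrt r := by
    apply Real.le_sqrt_of_sq_le
    have h1 : ((B : ℝ) ^ 9) ^ 2 = ((B ^ 18 : ℕ) : ℝ) := by push_cast; ring
    rw [h1]
    exact Nat.cast_le.2 hB
  have hB1R : (1 : ℝ) ≤ B := by exact_mod_cast hB1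
  obtain ⟨y, hy⟩ : ∃ y, y = (B : ℝ) ^ 8 := ⟨_, rfl⟩
  have h7 : (1 : ℝ) ≤ y := by rw [hy]; exact one_le_pow₀ hB1R
  have h1 : ((l : ℝ) + 400) * y ≤ c / 4 * (B : ℝ) ^ 9 := by
    have h5 : ((l : ℝ) + 400) * y ≤ (B * c / 4) * y :=
      mul_le_mul_of_nonneg_right (by linarith) (by linarith)
    calc ((l : ℝ) + 400) * y ≤ (B * c / 4) * y := h5
      _ = c / 4 * (B : ℝ) ^ 9 := by rw [hy]; ring
  have h6 : (B : ℝ) ^ 6 ≤ y := by rw [hy]; exact pow_le_pow_right₀ hB1R (by norm_num)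
  have h8 : (a : ℝ) + 16 * N + 100 + 8 * (B : ℝ) ^ 6 + ((l : ℝ) + 70) * y + 8 + G ≤ r := by
    have e1 : ((l : ℝ) + 400) * y = ((l : ℝ) + 70) * y + 330 * y := by ring
    have e2 : c * Real.sqrt r = c / 2 * Real.sqrt r + c / 2 * Real.sqrt r := by ring
    have e3 : c / 2 * (B : ℝ) ^ 9 ≤ c / 2 * Real.sqrt r :=
      mul_le_mul_of_nonneg_left hB9 (by linarith)
    have e4 : 0 ≤ c * (B : ℝ) ^ 9 := by positivity
    linarith
  rw [hy] at h8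
  exact_mod_cast h8

/-- The step of the fine phase. -/
theorem step_fine {r Q B : ℕ} (hQ : 200 ≤ Q) (hQr : Q ^ 1000 ≤ r) (hB1 : B ^ 18 ≤ r)
    (hrB : r ≤ 2 * B ^ 18) : ∃ β1 : ℕ, r ≤ (8 * Q ^ 41 * β1) ^ 2 * Q ^ 86 ∧
      (8 * Q ^ 41 * β1) ^ 2 ≤ r ∧ Q ^ 2 * (8 * Q ^ 41 + 12 * (Q ^ 82 * β1) + 8) ≤ 14 * B ^ 9 := by
  have hQ0 : 0 < Q := by omega
  have hQB : 2 * Q ^ 84 ≤ B ^ 9 := by
    have h1 : (2 * Q ^ 84) ^ 2 ≤ (B ^ 9) ^ 2 := by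
      have h2 : 8 * Q ^ 168 ≤ 2 * B ^ 18 := by
        calc 8 * Q ^ 168 ≤ Q * Q ^ 168 := Nat.mul_le_mul_right _ (by omega)
          _ = Q ^ 169 := by ring
          _ ≤ Q ^ 1000 := Nat.pow_le_pow_right hQ0 (by norm_num)
          _ ≤ 2 * B ^ 18 := hQr.trans hrB
      have e1 : (2 * Q ^ 84) ^ 2 = 4 * Q ^ 168 := by ring
      have e2 : (B ^ 9) ^ 2 = B ^ 18 := by ring
      rw [e1, e2]
      omega
    exact (Nat.pow_le_pow_iff_left (by norm_num)).1 h1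
  have hQ84 : 0 < Q ^ 84 := by positivity
  obtain ⟨β1, hβ⟩ : ∃ β1, β1 = B ^ 9 / Q ^ 84 := ⟨_, rfl⟩
  have h1 : Q ^ 84 * β1 ≤ B ^ 9 := by rw [hβ]; exact Nat.mul_div_le _ _
  have h2 : B ^ 9 ≤ 2 * (Q ^ 84 * β1) := by
    have h3 : B ^ 9 < Q ^ 84 * β1 + Q ^ 84 := by
      rw [hβ]
      exact Nat.lt_mul_div_succ _ hQ84
    omega
  have hQ43 : 8 ≤ Q ^ 43 := by
    calc 8 ≤ Q ^ 1 := by rw [pow_one]; omega
      _ ≤ Q ^ 43 := Nat.pow_le_pow_right hQ0 (by norm_num)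
  refine ⟨β1, ?_, ?_, ?_⟩
  · calc r ≤ 2 * B ^ 18 := hrB
      _ = 2 * (B ^ 9) ^ 2 := by ring
      _ ≤ 2 * (2 * (Q ^ 84 * β1)) ^ 2 := Nat.mul_le_mul_left _ (Nat.pow_le_pow_left h2 2)
      _ = 8 * (Q ^ 84 * β1) ^ 2 := by ring
      _ ≤ 64 * (Q ^ 84 * β1) ^ 2 := Nat.mul_le_mul_right _ (by norm_num)
      _ = (8 * Q ^ 41 * β1) ^ 2 * Q ^ 86 := by ring
  · have h3 : 8 * Q ^ 41 * β1 ≤ B ^ 9 := by
      refine le_trans ?_ h1
      calc 8 * Q ^ 41 * β1 = 8 * (Q ^ 41 * β1) := by ring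
        _ ≤ Q ^ 43 * (Q ^ 41 * β1) := Nat.mul_le_mul_right _ hQ43
        _ = Q ^ 84 * β1 := by ring
    calc (8 * Q ^ 41 * β1) ^ 2 ≤ (B ^ 9) ^ 2 := Nat.pow_le_pow_left h3 2
      _ = B ^ 18 := by ring
      _ ≤ r := hB1
  · have h4 : 8 * Q ^ 43 ≤ B ^ 9 := by
      refine le_trans ?_ hQB
      calc 8 * Q ^ 43 ≤ Q * Q ^ 43 := Nat.mul_le_mul_right _ (by omega)
        _ = Q ^ 44 := by ring
        _ ≤ Q ^ 84 := Nat.pow_le_pow_right hQ0 (by norm_num)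
        _ ≤ 2 * Q ^ 84 := by omega
    have h5 : 8 * Q ^ 2 ≤ B ^ 9 := by
      refine le_trans ?_ h4
      exact Nat.mul_le_mul_left _ (Nat.pow_le_pow_right hQ0 (by norm_num))
    calc Q ^ 2 * (8 * Q ^ 41 + 12 * (Q ^ 82 * β1) + 8)
        = 8 * Q ^ 43 + 12 * (Q ^ 84 * β1) + 8 * Q ^ 2 := by ring
      _ ≤ B ^ 9 + 12 * B ^ 9 + B ^ 9 := by omega
      _ = 14 * B ^ 9 := by ring

theorem room_G {Q G B C2 : ℕ} {c : ℝ} (hc : 0 < c) (hC2 : 112 / c ≤ C2) (hQC : C2 + 200 ≤ Q)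
    (HG : Q ^ 2 * G ≤ 14 * B ^ 9) : (G : ℝ) ≤ c / 8 * (B : ℝ) ^ 9 := by
  have h1 : (Q : ℝ) ^ 2 * G ≤ 14 * (B : ℝ) ^ 9 := by exact_mod_cast HG
  have h2 : (C2 : ℝ) + 200 ≤ Q := by exact_mod_cast hQC
  have h20 : (0 : ℝ) ≤ C2 := Nat.cast_nonneg C2
  have h3 : 112 / c ≤ (Q : ℝ) ^ 2 := by
    have h4 : (Q : ℝ) ≤ (Q : ℝ) ^ 2 := le_self_pow₀ (by linarith) (by norm_num)
    linarith
  rw [div_le_iff₀ hc] at h3
  have h5 : (0 : ℝ) ≤ G := Nat.cast_nonneg G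
  have h6 : 112 * (G : ℝ) ≤ (Q : ℝ) ^ 2 * c * G := mul_le_mul_of_nonneg_right h3 h5
  have h7 : (Q : ℝ) ^ 2 * c * G ≤ c * (14 * (B : ℝ) ^ 9) := by
    calc (Q : ℝ) ^ 2 * c * G = c * ((Q : ℝ) ^ 2 * G) := by ring
      _ ≤ c * (14 * (B : ℝ) ^ 9) := mul_le_mul_of_nonneg_left h1 hc.le
  linarith

/-- **Reachable slopes exponentially close to every large integer, started at a real number whose
square is just below an integer.** -/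
theorem exists_shortX {c η : ℝ} (hc : 0 < c) (hη : 0 < η)
    (hη1 : η ≤ 1 / 10000000) (hηc : 1024 * η ≤ c ^ 2) :
    ∃ N : ℕ, ∀ (k Q r a : ℕ) (δ : ℝ), N ≤ r → Q ^ 1000 ≤ r → r ^ k ≤ 2 ^ Q → 0 < δ →
      a % 4 = r % 4 → (r - a) ^ 2 ≤ 81 * r →
      δ ^ 2 ≤ a → (a : ℝ) - δ ^ 2 ≤ η → (a : ℝ) + c * Real.sqrt r ≤ r →
      ∃ σ, ReachR δ σ ∧ 0 < (r : ℝ) - σ ∧ (r : ℝ) - σ ≤ 1 / (r : ℝ) ^ k := by
  obtain ⟨K, hK⟩ : ∃ K, K = 112 := ⟨_, rfl⟩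
  obtain ⟨E, hE⟩ : ∃ E, E = 130 := ⟨_, rfl⟩
  obtain ⟨C1, hC1⟩ : ∃ C1 : ℕ, 4 * ((lenL K : ℝ) + 400) / c ≤ C1 := exists_nat_ge _
  obtain ⟨C2, hC2⟩ : ∃ C2 : ℕ, 112 / c ≤ C2 := exists_nat_ge _
  obtain ⟨Z, hZ⟩ : ∃ Z, Z = 16 * nL (CL (K + 1)) := ⟨_, rfl⟩
  obtain ⟨W, hW⟩ : ∃ W, W = 2000000000 + (18 * (2 * E + 3)) ^ 2 + 4096 * (2 * E + 3 + 3) :=
    ⟨_, rfl⟩
  have hW0 : 2000000000 ≤ W := by
    rw [hW, add_assoc]
    exact Nat.le_add_right _ _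
  obtain ⟨B0, hB0⟩ : ∃ B0, B0 = C1 + shi (K + 1) + K + Z + W := ⟨_, rfl⟩
  refine ⟨(B0 + 1) ^ 18 + (C2 + 200) ^ 1000, fun k Q r a δ hr hQr hk hδ0 hmod ha hy1 hy2 hroom => ?_⟩
  obtain ⟨B, hB1, hB2⟩ := exists_root r
  have hr1 : (B0 + 1) ^ 18 ≤ r := le_trans (Nat.le_add_right _ _) hr
  have hr2 : (C2 + 200) ^ 1000 ≤ r := le_trans (Nat.le_add_left _ _) hr
  have hBB0 : B0 ≤ B := by
    by_contra hcon
    have h0 : B + 1 ≤ B0 + 1 := Nat.succ_le_succ (not_le.1 hcon).le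
    have h1 : (B + 1) ^ 18 ≤ (B0 + 1) ^ 18 := Nat.pow_le_pow_left h0 18
    exact absurd (lt_of_lt_of_le hB2 (h1.trans hr1)) (lt_irrefl _)
  obtain ⟨Q', hQ1, hQ2⟩ := exists_rootk (k := 1000) (by norm_num) r
  have hQC : C2 + 200 ≤ Q' := by
    by_contra hcon
    have h0 : Q' + 1 ≤ C2 + 200 := not_le.1 hcon
    have h1 : (Q' + 1) ^ 1000 ≤ (C2 + 200) ^ 1000 := Nat.pow_le_pow_left h0 1000
    exact absurd (lt_of_lt_of_le hQ2 (h1.trans hr2)) (lt_irrefl _)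
  have hQQ' : Q ≤ Q' := by
    by_contra hcon
    have h0 : Q' + 1 ≤ Q := not_le.1 hcon
    have h1 : (Q' + 1) ^ 1000 ≤ Q ^ 1000 := Nat.pow_le_pow_left h0 1000
    exact absurd (lt_of_lt_of_le hQ2 (h1.trans hQr)) (lt_irrefl _)
  have hk' : Hid (r ^ k ≤ 2 ^ Q') := hk.trans (Nat.pow_le_pow_right (by norm_num) hQQ')
  have hQ1' : Hid (Q' ^ 1000 ≤ r) := hQ1
  clear hr hQr hk hr1 hr2 hQ2 hQQ' hQ1
  have hQ200 : 200 ≤ Q' := by omega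
  have hWB0 : W ≤ B0 := by rw [hB0]; exact Nat.le_add_left _ _
  have hZB0 : Z ≤ B0 := by rw [hB0]; omega
  have hCB0 : C1 ≤ B0 := by rw [hB0]; omega
  have hsB0 : shi (K + 1) + 10 ≤ B0 := by rw [hB0]; omega
  have hKB0 : K + 4 ≤ B0 := by rw [hB0]; omega
  clear hB0
  have hBr : B ≤ r := by
    calc B = B ^ 1 := (pow_one _).symm
      _ ≤ B ^ 18 := Nat.pow_le_pow_right (le_trans (by norm_num) (hW0.trans (hWB0.trans hBB0)))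
        (by norm_num)
      _ ≤ r := hB1
  have h1000 : 1000 ≤ B := le_trans (by norm_num) (hW0.trans (hWB0.trans hBB0))
  have hWr : W ≤ r := (hWB0.trans hBB0).trans hBr
  have hs0 : 0 ≤ Real.sqrt r := Real.sqrt_nonneg _
  have harR : (a : ℝ) ≤ r := by
    have : 0 ≤ c * Real.sqrt r := mul_nonneg hc.le hs0
    linarith
  have har : a ≤ r := by exact_mod_cast harR
  obtain ⟨C, hPr, hhalf⟩ := ctx_ofR (r := r) (E := 2 * E + 3) hδ0 har ha (by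
    rw [← hW]
    exact hWr)
  have hrB : r ≤ 2 * B ^ 18 := hB2.le.trans (root_double (le_trans (by norm_num) h1000))
  have hrR : (2000000000 : ℝ) ≤ r := by
    have h1 : ((2000000000 : ℕ) : ℝ) ≤ (r : ℝ) := Nat.cast_le.2 (hW0.trans hWr)
    rwa [Nat.cast_ofNat] at h1
  obtain ⟨N, hNpos, hNsq1, hNsq2, hroomN⟩ := short_num hc hη hη1 hηc (a := a) (r := r)
    (by linarith) harR
  obtain ⟨β1, H3, H5, HG⟩ := step_fine hQ200 hQ1' hB1 hrB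
  have H3' : Hid (r ≤ (8 * Q' ^ 41 * β1) ^ 2 * Q' ^ 86) := H3
  have H5' : Hid ((8 * Q' ^ 41 * β1) ^ 2 ≤ r) := H5
  clear H3 H5
  obtain ⟨G, hG⟩ : ∃ G, G = 8 * Q' ^ 41 + 12 * (Q' ^ 82 * β1) + 8 := ⟨_, rfl⟩
  rw [← hG] at HG
  have hGR := room_G hc hC2 hQC HG
  have hC1B : 4 * ((lenL K : ℝ) + 400) ≤ B * c := by
    rw [div_le_iff₀ hc] at hC1
    have h1 : (C1 : ℝ) ≤ B := Nat.cast_le.2 (hCB0.trans hBB0)
    exact hC1.trans (mul_le_mul_of_nonneg_right h1 hc.le)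
  have hgap := gapE (l := lenL K) (N := N) (G := G) hc (le_trans (by norm_num) h1000) hC1B hGR
    hB1 hroomN hroom
  obtain ⟨g, hg⟩ : ∃ g, g = a + 16 * N + 100 + 8 * B ^ 6 + (lenL K + 70) * B ^ 8 := ⟨_, rfl⟩
  rw [← hg] at hgap
  have hag : a ≤ g := by
    rw [hg]
    have e : a + 16 * N + 100 + 8 * B ^ 6 + (lenL K + 70) * B ^ 8 =
        a + (16 * N + 100 + 8 * B ^ 6 + (lenL K + 70) * B ^ 8) := by ring
    rw [e]
    exact Nat.le_add_right _ _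
  obtain ⟨P, hP1, hP2, hP3⟩ := exists_mod4 (g := g) (r := r)
    (le_trans (Nat.le_add_right _ G) hgap)
  have hGP : P + 8 * Q' ^ 41 + 12 * (Q' ^ 82 * β1) + 8 ≤ r := by
    have e : P + 8 * Q' ^ 41 + 12 * (Q' ^ 82 * β1) + 8 = P + G := by rw [hG]; ring
    rw [e]
    refine le_trans ?_ hgap
    exact Nat.add_le_add_right (hP2.trans (Nat.add_le_add_left (by norm_num) _)) _
  have haP : a ≤ P := hag.trans hP1
  have hPr' : P ≤ r := by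
    refine le_trans ?_ hgap
    exact hP2.trans ((Nat.add_le_add_left (by norm_num) _).trans (Nat.le_add_right _ _))
  have hhalfN : r ≤ 2 * a := by
    have h1 : (r : ℝ) ≤ ((2 * a : ℕ) : ℝ) := by
      push_cast
      exact hhalf
    exact_mod_cast h1
  obtain ⟨Ω, hΩ0, hΩ1, hΩ2, hfine⟩ := fine (r := r) (P := P) (Q := Q') (β1 := β1) hQ200 hQ1' H3'
    H5' hP3 (hhalfN.trans (Nat.mul_le_mul_left 2 haP)) hGP
  obtain ⟨Tc, hTc, hTc0, hTc1⟩ := coarse (K := K) (E := E) (B := B) (r := r) (a := a) (N := N)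
    (P := P) (δ := δ) (Ω := Ω) (by rw [hK, hE]; norm_num) (by rw [hE]; norm_num) hB1 hrB h1000 (hsB0.trans hBB0)
    (hKB0.trans hBB0) C hPr hhalf hmod hy1 (hy2.trans (hη1.trans (by norm_num)))
    (by
      calc (a : ℝ) * (a - δ ^ 2) ≤ a * η := mul_le_mul_of_nonneg_left hy2 (Nat.cast_nonneg _)
        _ = η * a := mul_comm _ _
        _ ≤ _ := hNsq1)
    (by exact_mod_cast hNsq2) hNpos hP3 (by rw [← hg]; exact hP1) hPr' hΩ0 hΩ1 hΩ2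
  have hTc2 : Tc ≤ 1 / (r : ℝ) ^ 110 := by
    refine hTc1.trans ?_
    have hP0 := C.P0
    have hr0 := C.r0
    have h116 := C.pow 116 (by rw [hE]; norm_num)
    unfold qL
    rw [CL_length]
    have e : K + 1 + 3 = 116 := by rw [hK]
    rw [e, mul_div_assoc', div_le_div_iff₀ (by positivity) (by positivity), one_mul]
    have h1 : (Z : ℝ) ≤ (r : ℝ) := Nat.cast_le.2 ((hZB0.trans hBB0).trans hBr)
    have h2 : (r : ℝ) ≤ (r : ℝ) ^ 6 := le_self_pow₀ (by linarith) (by norm_num)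
    have h3 : (Z : ℝ) = 16 * (nL (CL (K + 1)) : ℝ) := by rw [hZ]; push_cast; ring
    have h4 : 2 * (4 * (nL (CL (K + 1)) : ℝ)) * (r : ℝ) ^ 110 = Z * (r : ℝ) ^ 110 / 2 := by
      rw [h3]
      ring
    rw [h4]
    have h5 : (Z : ℝ) * (r : ℝ) ^ 110 ≤ (r : ℝ) ^ 116 := by
      calc (Z : ℝ) * (r : ℝ) ^ 110 ≤ (r : ℝ) ^ 6 * (r : ℝ) ^ 110 :=
            mul_le_mul_of_nonneg_right (h1.trans h2) (by positivity)
        _ = (r : ℝ) ^ 116 := by ring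
    linarith
  obtain ⟨T, hT, hT0, hT1⟩ := hfine (RS δ r) (walkable_RS C haP) Tc hTc0 hTc2 hTc
  exact slope_of hδ0 (le_trans (by norm_num) (hW0.trans hWr)) hk' hT0 hT1 hT

end Pool.Agent.W610
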