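import Mathlib
import Pool.Agent.W610.ShortX

set_option autoImplicit false

/-!
# The data for all degrees except at most one: exponential multiplicities
-/

namespace Pool.Agent.W610

open Pool.Agent.H932R2 Pool.Agent.H932R3 Pool.Agent.H932R4 Pool.Agent.H932R6

theorem exists_WDRX (hNT : P_NT) {ε : ℝ} (hε : 0 < ε)
    (hε1 : ε ≤ 1) : ∃ N : ℕ, 100 ≤ N ∧ ∀ n k Q : ℕ, N ≤ n → Q ^ 1000 ≤ n → n ^ (k + 1) ≤ 2 ^ Q →
      ∃ (u v : ℕ) (δ σ : ℝ), WDR n k ε u v δ σ := by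
  obtain ⟨e, he⟩ : ∃ e, e = ε / 8 := ⟨_, rfl⟩
  have he0 : 0 < e := by rw [he]; positivity
  have he8 : e ≤ 1 / 8 := by rw [he]; linarith
  have he2 : e ^ 2 ≤ 1 := by nlinarith
  obtain ⟨η, hη⟩ : ∃ η, η = e ^ 2 / 100000000 := ⟨_, rfl⟩
  have hη0 : 0 < η := by rw [hη]; positivity
  have hη1 : η ≤ 1 / 10000000 := by rw [hη]; linarith
  obtain ⟨N1, hN1⟩ := hNT e η he0 (by linarith) hη0 (by linarith)
  obtain ⟨N2, hN2⟩ := exists_shortX (c := e / 2) (η := η) (by positivity) hη0 hη1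
    (by rw [hη]; nlinarith)
  obtain ⟨N3, hN3⟩ : ∃ N3 : ℕ, (64 + 60 / e) ^ 2 ≤ N3 := exists_nat_ge _
  refine ⟨N1 + N2 + N3 + 100, by omega, fun n k Q hn hQn' hkQ' => ?_⟩
  have hQn : Hid (Q ^ 1000 ≤ n) := hQn'
  have hkQ : Hid (n ^ (k + 1) ≤ 2 ^ Q) := hkQ'
  clear hQn' hkQ'
  have hn3 : (N3 : ℝ) ≤ n := by exact_mod_cast (show N3 ≤ n by omega)
  have hn0 : (0 : ℝ) < n := by exact_mod_cast (show 0 < n by omega)
  obtain ⟨s, hs⟩ : ∃ s, s = Real.sqrt n := ⟨_, rfl⟩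
  have hss : s * s = n := by rw [hs]; exact Real.mul_self_sqrt hn0.le
  have h60 : 0 < 60 / e := by positivity
  have hs64 : 64 + 60 / e ≤ s := by
    rw [hs]
    apply Real.le_sqrt_of_sq_le
    exact hN3.trans hn3
  have hs0 : 0 < s := by linarith
  have hse : 60 ≤ e * s := by
    have h1 : 60 / e ≤ s := by linarith
    rw [div_le_iff₀ he0] at h1
    linarith
  obtain ⟨u, v, a, hv, hvv, hmod, hl, hu, hal, hau⟩ := hN1 n (by omega)
  rw [← hs] at hvv hl hu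
  obtain ⟨δ, hδ⟩ : ∃ δ : ℝ, δ = (u : ℝ) / v := ⟨_, rfl⟩
  rw [← hδ] at hl hu hal hau
  have hvR : (0 : ℝ) < v := by exact_mod_cast hv
  have hδ0 : 0 < δ := by linarith
  have hu0 : 0 < u := by
    rcases Nat.eq_zero_or_pos u with h | h
    · rw [h, Nat.cast_zero, zero_div] at hδ
      linarith
    · exact h
  obtain ⟨hroom', hgap'⟩ := num_room (η := η) he0 he8 (by rw [hη]; nlinarith) hse hs0 hδ0 hl hu hal
    (by linarith)
  have hroom : (a : ℝ) + e / 2 * s ≤ n := by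
    rw [← hss]
    exact hroom'
  have haR : (a : ℝ) ≤ n := by
    have : 0 < e / 2 * s := by positivity
    linarith
  have han : a ≤ n := by exact_mod_cast haR
  have hgap : (n - a) ^ 2 ≤ 81 * n := by
    have h1 : ((n - a : ℕ) : ℝ) ≤ 9 * s := by
      rw [Nat.cast_sub han, ← hss]
      exact hgap'
    have h2 : ((n - a : ℕ) : ℝ) ^ 2 ≤ 81 * n := by
      calc ((n - a : ℕ) : ℝ) ^ 2 ≤ (9 * s) ^ 2 := pow_le_pow_left₀ (Nat.cast_nonneg _) h1 2
        _ = 81 * n := by rw [← hss]; ring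
    exact_mod_cast h2
  obtain ⟨σ, hσ, hσ1, hσ2⟩ := hN2 (k + 1) Q n a δ (by omega) hQn hkQ hδ0 hmod hgap (by linarith) (by linarith)
    (by rw [← hs]; exact hroom)
  have hn100 : (100 : ℝ) ≤ n := by exact_mod_cast (show 100 ≤ n by omega)
  have hn1 : (1 : ℝ) ≤ n := by linarith
  have hpow1 : (1 : ℝ) ≤ (n : ℝ) ^ k := one_le_pow₀ hn1
  have hinv : 1 / (n : ℝ) ^ (k + 1) ≤ 1 / n := by
    refine one_div_le_one_div_of_le hn0 ?_
    calc (n : ℝ) = 1 * n := (one_mul _).symm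
      _ ≤ (n : ℝ) ^ k * n := mul_le_mul_of_nonneg_right hpow1 hn0.le
      _ = (n : ℝ) ^ (k + 1) := (pow_succ _ _).symm
  have hinv1 : 1 / (n : ℝ) ≤ 1 := by
    rw [div_le_one hn0]
    exact hn1
  have habs : |σ - n| = n - σ := by rw [abs_sub_comm, abs_of_pos hσ1]
  refine ⟨u, v, δ, σ, hv, hu0, by rw [← hs]; linarith, ?_, hδ, hσ, ?_, ?_, ?_, ?_, ?_⟩
  · rw [← hs]
    have : e * s ≤ 1 / 8 * s := mul_le_mul_of_nonneg_right he8 hs0.le
    linarith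
  · rw [habs]
    linarith
  · intro M hM
    have hMR : (M : ℝ) ≤ (n : ℝ) ^ k := by exact_mod_cast hM
    rw [habs]
    have h1 : (M : ℝ) * (n - σ) ≤ (n : ℝ) ^ k * (1 / (n : ℝ) ^ (k + 1)) :=
      mul_le_mul hMR hσ2 hσ1.le (by positivity)
    have h2 : (n : ℝ) ^ k * (1 / (n : ℝ) ^ (k + 1)) = 1 / n := by
      rw [pow_succ]
      field_simp
    have h3 : 1 ≤ Real.sqrt σ := by
      rw [Real.one_le_sqrt]
      have : 1 / (n : ℝ) ^ (k + 1) ≤ 1 := hinv.trans hinv1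
      linarith
    have h4 : 1 / (n : ℝ) ≤ Real.sqrt σ / (16 * δ) := by
      rw [div_le_div_iff₀ hn0 (by positivity), one_mul]
      calc 16 * δ ≤ s * s := mul_le_mul (by linarith) (by linarith) hδ0.le hs0.le
        _ = 1 * n := by rw [hss, one_mul]
        _ ≤ Real.sqrt σ * n := mul_le_mul_of_nonneg_right h3 hn0.le
    rw [h2] at h1
    exact h1.trans h4
  · rw [← hs]
    linarith
  · rw [← hs]
    linarith
  · rw [← hs]
    have h1 : (2 * (v : ℝ) ^ 2 + 15) / δ ≤ 5 * e := by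
      rw [div_le_iff₀ hδ0]
      have h5 : 5 * e * (s - e) ≤ 5 * e * δ := mul_le_mul_of_nonneg_left hl (by positivity)
      have h6 : 5 * e * (s - e) = 5 * (e * s) - 5 * e ^ 2 := by ring
      linarith
    have h2 : ε = 8 * e := by rw [he]; ring
    linarith


/-- The data exist. -/
theorem exists_dataX {ε : ℝ} (hε : 0 < ε) : ∃ N : ℕ, 100 ≤ N ∧ ∀ n k Q : ℕ, N ≤ n →
    Q ^ 1000 ≤ n → n ^ (k + 1) ≤ 2 ^ Q →
    ∃ (u v : ℕ) (δ σ : ℝ), WDR n k (min ε 1) u v δ σ :=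
  exists_WDRX A_NT (lt_min hε one_pos) (min_le_right _ _)

/-- Exponential multiplicities. -/
theorem exists_kX (N : ℕ) : ∃ N' : ℕ, N ≤ N' ∧ 100 ≤ N' ∧ ∀ n : ℕ, N' ≤ n →
    ∃ k Q : ℕ, Q ^ 1000 ≤ n ∧ n ^ (k + 1) ≤ 2 ^ Q ∧
      ∀ m : ℕ, (m : ℝ) ≤ Real.exp ((n : ℝ) ^ (1 / 1000 : ℝ) / 2) → m + 1 ≤ n ^ k := by
  obtain ⟨b, hb⟩ : ∃ b : ℝ, b = 0.19 := ⟨_, rfl⟩
  have hb0 : 0 < b := by rw [hb]; norm_num
  obtain ⟨q, hq⟩ : ∃ q, q = 1000 := ⟨_, rfl⟩
  have hq0 : q ≠ 0 := by omega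
  have ht := Real.tendsto_exp_div_pow_atTop (2 * q)
  obtain ⟨Y, hY⟩ := (ht.eventually_ge_atTop (4 / b ^ (2 * q))).exists_forall_of_atTop
  obtain ⟨X, hX⟩ : ∃ X : ℝ, X = max (Y / b) 100 := ⟨_, rfl⟩
  obtain ⟨N', hN'⟩ := exists_nat_ge (X ^ q)
  refine ⟨N' + N + 100, by omega, by omega, fun n hn => ?_⟩
  have hn100 : 100 ≤ n := by omega
  have hn1 : (N' : ℝ) ≤ n := by exact_mod_cast (show N' ≤ n by omega)
  have hn0 : (0 : ℝ) < n := by exact_mod_cast (show 0 < n by omega)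
  obtain ⟨Q, hQ1, hQ2⟩ := exists_rootk hq0 n
  obtain ⟨x, hx⟩ : ∃ x : ℝ, x = (n : ℝ) ^ (1 / 1000 : ℝ) := ⟨_, rfl⟩
  have hx0 : 0 < x := by rw [hx]; positivity
  have hxn : x ^ q = n := by
    rw [hx, ← Real.rpow_natCast, ← Real.rpow_mul hn0.le, hq]
    norm_num
  have hXx : X ≤ x := by
    have h1 : X ^ q ≤ x ^ q := by
      rw [hxn]
      exact hN'.trans hn1
    exact le_of_pow_le_pow_left₀ hq0 hx0.le h1
  have hx100 : 100 ≤ x := le_trans (by rw [hX]; exact le_max_right _ _) hXx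
  have hxY : Y ≤ b * x := by
    have h1 : Y / b ≤ x := le_trans (by rw [hX]; exact le_max_left _ _) hXx
    rw [div_le_iff₀ hb0] at h1
    linarith
  have hexp : 4 * x ^ (2 * q) ≤ Real.exp (b * x) := by
    have h1 := hY (b * x) hxY
    have hbx : 0 < (b * x) ^ (2 * q) := by positivity
    rw [div_le_div_iff₀ (by positivity) hbx, mul_pow] at h1
    have h2 : 0 < b ^ (2 * q) := by positivity
    have h3 : (4 * x ^ (2 * q)) * b ^ (2 * q) ≤ Real.exp (b * x) * b ^ (2 * q) := by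
      calc (4 * x ^ (2 * q)) * b ^ (2 * q) = 4 * (b ^ (2 * q) * x ^ (2 * q)) := by ring
        _ ≤ _ := h1
    exact le_of_mul_le_mul_right h3 h2
  have hQx : x < Q + 1 := by
    have h1 : x ^ q < ((Q : ℝ) + 1) ^ q := by
      rw [hxn]
      exact_mod_cast hQ2
    exact lt_of_pow_lt_pow_left₀ q (by positivity) h1
  -- the exponent
  have hex : ∃ j : ℕ, 2 ^ Q < n ^ j := ⟨Q + 1, by
    calc 2 ^ Q < 2 ^ (Q + 1) := Nat.pow_lt_pow_right (by norm_num) (Nat.lt_succ_self Q)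
      _ ≤ n ^ (Q + 1) := Nat.pow_le_pow_left (by omega) _⟩
  classical
  obtain ⟨j, hj⟩ : ∃ j, j = Nat.find hex := ⟨_, rfl⟩
  have hj1 : 2 ^ Q < n ^ j := by
    rw [hj]
    exact Nat.find_spec hex
  have hj2 : ∀ i < j, n ^ i ≤ 2 ^ Q := by
    intro i hi
    rw [hj] at hi
    exact not_lt.1 (Nat.find_min hex hi)
  -- the size
  have hlog2 : 0.69 < Real.log 2 := by
    have := Real.log_two_gt_d9
    linarith
  have h2Q : Real.exp (x / 2) * 2 * (n : ℝ) ^ 2 ≤ 2 ^ Q := by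
    have e1 : (n : ℝ) ^ 2 = x ^ (2 * q) := by
      rw [← hxn, ← pow_mul]
      congr 1
      ring
    have e2 : (2 : ℝ) ^ Q = Real.exp (Q * Real.log 2) := by
      rw [mul_comm, Real.exp_mul, Real.exp_log (by norm_num), Real.rpow_natCast]
    have e3 : Real.exp (x * Real.log 2) ≤ 2 * 2 ^ Q := by
      have e4 : (2 : ℝ) * 2 ^ Q = Real.exp ((Q + 1) * Real.log 2) := by
        rw [add_mul, one_mul, Real.exp_add, ← e2, Real.exp_log (by norm_num)]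
        ring
      rw [e4]
      refine Real.exp_le_exp.2 ?_
      exact mul_le_mul_of_nonneg_right hQx.le (by linarith)
    have e5 : Real.exp (x / 2) * Real.exp (b * x) ≤ Real.exp (x * Real.log 2) := by
      rw [← Real.exp_add]
      refine Real.exp_le_exp.2 ?_
      rw [hb]
      nlinarith
    have e6 : Real.exp (x / 2) * (4 * x ^ (2 * q)) ≤ Real.exp (x / 2) * Real.exp (b * x) :=
      mul_le_mul_of_nonneg_left hexp (Real.exp_pos _).le
    rw [e1]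
    have e7 : Real.exp (x / 2) * 2 * x ^ (2 * q) = Real.exp (x / 2) * (4 * x ^ (2 * q)) / 2 := by
      ring
    rw [e7]
    linarith
  have he1 : 1 ≤ Real.exp (x / 2) := Real.one_le_exp (by positivity)
  have hj3 : 3 ≤ j := by
    by_contra hcon
    have h1 : n ^ j ≤ n ^ 2 := Nat.pow_le_pow_right (by omega) (by omega)
    have h2 : (2 : ℝ) ^ Q < (n : ℝ) ^ 2 := by exact_mod_cast lt_of_lt_of_le hj1 h1
    have h3 : 0 < (n : ℝ) ^ 2 := by positivity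
    have h4 : (n : ℝ) ^ 2 ≤ Real.exp (x / 2) * 2 * (n : ℝ) ^ 2 := by
      refine le_mul_of_one_le_left h3.le ?_
      linarith
    linarith
  obtain ⟨k, rfl⟩ : ∃ k, j = k + 2 := ⟨j - 2, by omega⟩
  refine ⟨k, Q, by rw [← hq]; exact hQ1, hj2 (k + 1) (by omega), fun m hm => ?_⟩
  rw [← hx] at hm
  have h1 : (2 : ℝ) ^ Q < (n : ℝ) ^ k * (n : ℝ) ^ 2 := by
    rw [← pow_add]
    exact_mod_cast hj1
  have h2 : Real.exp (x / 2) * 2 < (n : ℝ) ^ k := by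
    have h3 : 0 < (n : ℝ) ^ 2 := by positivity
    exact lt_of_mul_lt_mul_right (lt_of_le_of_lt h2Q h1) h3.le
  have h3 : ((m + 1 : ℕ) : ℝ) ≤ ((n ^ k : ℕ) : ℝ) := by
    push_cast
    linarith
  exact_mod_cast h3

end Pool.Agent.W610
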