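import Mathlib
import Pool.Agent.H852.QP.Neg
import Pool.Agent.W610.DataX

set_option autoImplicit false

/-!
# Near-uniform multiplicities, exponential in a power of the number of points
-/

namespace Pool.Agent.W610

open MvPolynomial Pool.Agent.H932R5

/-- **All degrees but one, near-uniform multiplicities up to `exp (n ^ (1 / 1000) / 2)`.** -/
theorem near_uniformX {ε : ℝ} (hε : 0 < ε) : ∃ N : ℕ, 100 ≤ N ∧ ∀ (L : Type) [Field L] [CharZero L]
    (n : ℕ), N ≤ n → ∀ m : ℕ, 0 < m → (m : ℝ) ≤ Real.exp ((n : ℝ) ^ (1 / 1000 : ℝ) / 2) →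
    ∀ w : Fin n → ℕ, (∀ i, w i = m ∨ w i = m + 1) →
    ∃ F : MvPolynomial (Fin n × Fin 2) ℚ, F ≠ 0 ∧
      ∀ P : Fin n → Fin 2 → L,
        MvPolynomial.aeval (fun ij : Fin n × Fin 2 => P ij.1 ij.2) F ≠ 0 →
        ∀ d : ℕ, ε ≤ |2 * (d : ℝ) + 3 - Real.sqrt n - 2 * (∑ a, (w a : ℝ)) / Real.sqrt n| →
          H932R3.ExpDim L w P d := by
  obtain ⟨N, hN100, hN⟩ := exists_dataX hε
  obtain ⟨N', hNN', hN'100, hN'⟩ := exists_kX N
  refine ⟨N', hN'100, fun L _ _ n hn m hm hmX w hw => ?_⟩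
  obtain ⟨k, Q, hQn, hkQ, hk2⟩ := hN' n hn
  obtain ⟨u, v, δ, σ, hD⟩ := hN n k Q (hNN'.trans hn) hQn hkQ
  exact H932R6.win_expR (L := L) hD (hN'100.trans hn) hm (hk2 m hmX) hw

/-- **The strong form of Nagata's inequality for near-uniform multiplicities.** -/
theorem strong_nagataX : ∃ N : ℕ, ∀ (t : ℕ), N ≤ t → ∀ m : ℕ, 0 < m →
    (m : ℝ) ≤ Real.exp ((t : ℝ) ^ (1 / 1000 : ℝ) / 2) → ∀ P : Fin t → Fin 2 → ℂ,
    AlgebraicIndependent ℚ (fun ij : Fin t × Fin 2 => P ij.1 ij.2) →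
    ∀ w : Fin t → ℕ, (∀ i, w i = m ∨ w i = m + 1) → ∀ (d : ℕ) (F : MvPolynomial (Fin 3) ℂ),
      F.IsHomogeneous d → F ≠ 0 →
      (∀ i, F ∈ (Ideal.span ({X 0 - C (P i 0) * X 2, X 1 - C (P i 1) * X 2} :
        Set (MvPolynomial (Fin 3) ℂ))) ^ (w i)) →
      (∑ i, (w i : ℝ) ^ 2) + (∑ i, (w i : ℝ)) / 2 ≤ (d : ℝ) ^ 2 := by
  obtain ⟨N, _, hN⟩ := near_uniformX (ε := 1) one_pos
  refine ⟨N + 10000, fun t ht m hm hmX P hP w hw d F hFd hF0 hF => ?_⟩
  obtain ⟨G, hG, hG'⟩ := hN ℂ t (by omega) m hm hmX w hw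
  have hG2 : aeval (fun ij : Fin t × Fin 2 => P ij.1 ij.2) G ≠ (0 : ℂ) := by
    intro h0
    exact hG ((algebraicIndependent_iff.1 hP) G h0)
  have ht1 : (10000 : ℝ) ≤ t := by exact_mod_cast (show 10000 ≤ t by omega)
  have hmR : (1 : ℝ) ≤ m := by exact_mod_cast hm
  have hwm : ∀ i, (m : ℝ) ≤ w i ∧ (w i : ℝ) ≤ m + 1 ∧
      (w i : ℝ) ^ 2 = (2 * m + 1) * w i - m * (m + 1) := by
    intro i
    rcases hw i with h | h
    · rw [h]
      exact ⟨le_rfl, by linarith, by ring⟩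
    · rw [h]
      push_cast
      exact ⟨by linarith, le_rfl, by ring⟩
  refine H852.QP.neg_num (t := t) (m := m) (S := ∑ i, (w i : ℝ)) (Q := ∑ i, (w i : ℝ) ^ 2) (d := d)
    ht1 hmR ?_ ?_ ?_ (Nat.cast_nonneg d) fun habs => ?_
  · have : ∑ _i : Fin t, (m : ℝ) ≤ ∑ i, (w i : ℝ) := Finset.sum_le_sum fun i _ => (hwm i).1
    rwa [Finset.sum_const, Finset.card_univ, Fintype.card_fin, nsmul_eq_mul] at this
  · have : ∑ i, (w i : ℝ) ≤ ∑ _i : Fin t, ((m : ℝ) + 1) :=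
      Finset.sum_le_sum fun i _ => (hwm i).2.1
    rwa [Finset.sum_const, Finset.card_univ, Fintype.card_fin, nsmul_eq_mul] at this
  · have h1 : ∑ i, (w i : ℝ) ^ 2 = ∑ i, ((2 * (m : ℝ) + 1) * w i - m * (m + 1)) :=
      Finset.sum_congr rfl fun i _ => (hwm i).2.2
    rw [h1, Finset.sum_sub_distrib, ← Finset.mul_sum, Finset.sum_const, Finset.card_univ,
      Fintype.card_fin, nsmul_eq_mul]
  · have h1 := hG' P hG2 d habs
    unfold H932R3.ExpDim at h1
    have h2 : 0 < Module.finrank ℂ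
        ↥(MvPolynomial.homogeneousSubmodule (Fin 3) ℂ d ⊓
          Submodule.restrictScalars ℂ
            (⨅ i : Fin t,
              (Ideal.span
                ({MvPolynomial.X 0 - MvPolynomial.C (P i 0) * MvPolynomial.X 2,
                  MvPolynomial.X 1 - MvPolynomial.C (P i 1) * MvPolynomial.X 2} :
                  Set (MvPolynomial (Fin 3) ℂ))) ^ (w i))) := by
      have h3 : Module.Finite ℂ ↥(MvPolynomial.homogeneousSubmodule (Fin 3) ℂ d) :=
        Module.Finite.iff_fg.2 (MvPolynomial.homogeneousSubmodule_fg _ _ d)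
      have h4 := Submodule.finiteDimensional_of_le
        (S₁ := MvPolynomial.homogeneousSubmodule (Fin 3) ℂ d ⊓
          Submodule.restrictScalars ℂ
            (⨅ i : Fin t,
              (Ideal.span
                ({MvPolynomial.X 0 - MvPolynomial.C (P i 0) * MvPolynomial.X 2,
                  MvPolynomial.X 1 - MvPolynomial.C (P i 1) * MvPolynomial.X 2} :
                  Set (MvPolynomial (Fin 3) ℂ))) ^ (w i)))
        (S₂ := MvPolynomial.homogeneousSubmodule (Fin 3) ℂ d) inf_le_left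
      rw [Module.finrank_pos_iff]
      refine ⟨⟨⟨F, Submodule.mem_inf.2 ⟨hFd, ?_⟩⟩, 0, fun h5 => hF0 ?_⟩⟩
      · rw [Submodule.restrictScalars_mem, Ideal.mem_iInf]
        exact hF
      · exact congrArg Subtype.val h5
    rw [h1] at h2
    have h3 : ∑ i, (w i + 1).choose 2 + 1 ≤ (d + 2).choose 2 := by omega
    have h4 : (((∑ i, (w i + 1).choose 2 + 1 : ℕ)) : ℝ) ≤ (((d + 2).choose 2 : ℕ) : ℝ) := by
      exact_mod_cast h3
    push_cast at h4
    have e1 : (((d + 2).choose 2 : ℕ) : ℝ) = ((d : ℝ) + 2) * (d + 1) / 2 := by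
      rw [Nat.cast_choose_two]
      push_cast
      ring
    have e2 : ∀ i, (((w i + 1).choose 2 : ℕ) : ℝ) = ((w i : ℝ) ^ 2 + w i) / 2 := by
      intro i
      rw [Nat.cast_choose_two]
      push_cast
      ring
    have e3 : ∑ i, (((w i + 1).choose 2 : ℕ) : ℝ) =
        (∑ i, (w i : ℝ) ^ 2 + ∑ i, (w i : ℝ)) / 2 := by
      rw [Finset.sum_congr rfl fun i _ => e2 i, ← Finset.sum_div, Finset.sum_add_distrib]
    rw [e1, e3] at h4
    nlinarith

end Pool.Agent.W610
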