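import Mathlib
import Pool.Agent.H932R3.Nagata
import Pool.Agent.W610.UpExp

set_option autoImplicit false

/-!
# Numerical conditions for emptiness with exponential precision
-/

namespace Pool.Agent.W610

open Pool.Agent.H932R3 Pool.Agent.H932R5

theorem reach_of_up {δ : ℕ} {σ : ℝ} (h : Up ((δ : ℝ) ^ 2) σ) : Reach δ σ := by
  induction h with
  | base => exact Reach.base
  | step σ ρ _ h2 ih => exact Reach.step σ ρ ih h2

/-- Slopes reachable from `4`, strictly below `r` and exponentially close to it. -/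
theorem exists_reach_exp {r : ℕ} (hr : 2 ^ 1000 < r) : ∃ σ : ℝ, Reach 4 σ ∧ 0 < (r : ℝ) - σ ∧
    (r : ℝ) - σ ≤ 4 * Real.exp (-((r : ℝ) ^ (1 / 10 : ℝ))) := by
  have hrR : (2 : ℝ) ^ 1000 + 1 ≤ r := by
    obtain ⟨B, hB⟩ : ∃ B : ℕ, B = 2 ^ 1000 := ⟨_, rfl⟩
    rw [← hB] at hr
    have hBR : (B : ℝ) = (2 : ℝ) ^ 1000 := by
      rw [hB, Nat.cast_pow, Nat.cast_ofNat]
    clear hB
    rw [← hBR]
    exact_mod_cast hr
  clear hr
  obtain ⟨x, hx⟩ : ∃ x, x = Real.exp (-((r : ℝ) ^ (1 / 10 : ℝ))) := ⟨_, rfl⟩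
  have hr0 : (0 : ℝ) < r := lt_of_lt_of_le (by positivity) hrR
  have hX0 : 0 ≤ (r : ℝ) ^ (1 / 10 : ℝ) := Real.rpow_nonneg hr0.le _
  have hx0 : 0 < x := by rw [hx]; exact Real.exp_pos _
  have hx1 : x ≤ 1 := by
    rw [hx, Real.exp_le_one_iff]
    linarith only [hX0]
  obtain ⟨u, hu⟩ : ∃ u, u = (r : ℝ) - x := ⟨_, rfl⟩
  have hu1 : (2 : ℝ) ^ 1000 ≤ u := by
    rw [hu]
    have h1 : (2 : ℝ) ^ 1000 + 1 - x ≤ r - x := sub_le_sub_right hrR x
    refine le_trans ?_ h1
    rw [add_sub_assoc]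
    exact le_add_of_nonneg_right (by linarith only [hx1])
  have hu16 : (16 : ℝ) ^ 4 ≤ u := by
    refine le_trans ?_ hu1
    have e : (16 : ℝ) ^ 4 = 2 ^ 16 := by norm_num
    rw [e]
    exact pow_le_pow_right₀ (by norm_num) (by norm_num)
  obtain ⟨σ, hσ, hσ1, hσ2⟩ := exists_up_exp (s0 := ((4 : ℕ) : ℝ) ^ 2) (u := u) (by norm_num) hu1
    (by
      have e : (((4 : ℕ) : ℝ) ^ 2) ^ 4 = (16 : ℝ) ^ 4 := by norm_num
      rw [e]
      have h16 : (1 : ℝ) ≤ u := le_trans (by norm_num) hu16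
      calc (16 : ℝ) ^ 4 ≤ u := hu16
        _ ≤ u ^ 3 := le_self_pow₀ h16 (by norm_num))
  clear hu1 hrR
  refine ⟨σ, reach_of_up hσ, by linarith, ?_⟩
  have hu0 : 0 < u := by linarith
  -- the exponents differ by at most `1`
  have h1 : (r : ℝ) ^ (1 / 10 : ℝ) ≤ u ^ (1 / 10 : ℝ) + 1 := by
    have h2 : (r : ℝ) ≤ u + 1 := by linarith
    have h3 : (r : ℝ) ^ (1 / 10 : ℝ) ≤ (u + 1) ^ (1 / 10 : ℝ) :=
      Real.rpow_le_rpow hr0.le h2 (by norm_num)
    refine h3.trans ?_
    have h4 := Real.rpow_add_le_add_rpow (p := (1 / 10 : ℝ)) hu0.le zero_le_one (by norm_num)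
      (by norm_num)
    rwa [Real.one_rpow] at h4
  have h5 : Real.exp (-(u ^ (1 / 10 : ℝ))) ≤ 3 * x := by
    have h6 : Real.exp (-(u ^ (1 / 10 : ℝ))) ≤ Real.exp (-((r : ℝ) ^ (1 / 10 : ℝ)) + 1) :=
      Real.exp_le_exp.2 (by linarith)
    refine h6.trans ?_
    rw [Real.exp_add, ← hx]
    have h7 := Real.exp_one_lt_d9
    nlinarith
  rw [← hx]
  linarith

/-- Nagata's inequality for exponentially large multiplicities, and up to an exponentially small
error in general. -/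
theorem exists_emptE {r : ℕ} (hr : 2 ^ 1000 ≤ r) {m d : ℕ} (hd : 0 < d)
    (h : (d ^ 2 ≤ r * m ^ 2 ∧ (m : ℝ) ≤ Real.exp ((r : ℝ) ^ (1 / 10 : ℝ) / 2) / 2) ∨
      (1 + 4 * Real.exp (-((r : ℝ) ^ (1 / 10 : ℝ))) / r) * d ≤ m * Real.sqrt r) :
    Empt r m d := by
  have hbig : (2 : ℝ) ^ 200 ≤ r := by
    have h1 : ((2 ^ 1000 : ℕ) : ℝ) ≤ (r : ℝ) := Nat.cast_le.2 hr
    rw [Nat.cast_pow, Nat.cast_ofNat] at h1
    exact le_trans (pow_le_pow_right₀ (by norm_num) (by norm_num)) h1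
  have h16 : 4 * 4 ≤ r := by
    have h1 : ((4 * 4 : ℕ) : ℝ) ≤ r := by
      push_cast
      linarith
    exact_mod_cast h1
  rcases hr.eq_or_lt with heq | hlt
  · -- a perfect square
    have hsq : r = 2 ^ 500 * 2 ^ 500 := by
      rw [← heq, ← pow_add]
    obtain ⟨c, hc⟩ : ∃ c, c = 2 ^ 500 := ⟨_, rfl⟩
    rw [← hc] at hsq
    have hc4 : 4 ≤ c := by
      rw [hc]
      calc 4 = 2 ^ 2 := by norm_num
        _ ≤ 2 ^ 500 := Nat.pow_le_pow_right (by norm_num) (by norm_num)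
    clear hc heq hr
    have hdm : d ≤ m * c := by
      rcases h with ⟨h1, _⟩ | h1
      · rw [hsq] at h1
        have h2 : d ^ 2 ≤ (m * c) ^ 2 := by
          calc d ^ 2 ≤ c * c * m ^ 2 := h1
            _ = (m * c) ^ 2 := by ring
        exact (Nat.pow_le_pow_iff_left (by norm_num)).1 h2
      · have h2 : Real.sqrt r = c := by
          rw [hsq]
          push_cast
          exact Real.sqrt_mul_self (Nat.cast_nonneg c)
        rw [h2] at h1
        have h3 : (d : ℝ) ≤ (1 + 4 * Real.exp (-((r : ℝ) ^ (1 / 10 : ℝ))) / r) * d := by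
          refine le_mul_of_one_le_left (Nat.cast_nonneg d) ?_
          have : 0 ≤ 4 * Real.exp (-((r : ℝ) ^ (1 / 10 : ℝ))) / r := by positivity
          linarith
        have h4 : (d : ℝ) ≤ m * c := h3.trans h1
        exact_mod_cast h4
    rw [hsq]
    exact Empt.of_square hc4 hdm
  · obtain ⟨σ, hσ, h0, h1⟩ := exists_reach_exp hlt
    clear hlt hr
    obtain ⟨X, hX⟩ : ∃ X : ℝ, X = (r : ℝ) ^ (1 / 10 : ℝ) := ⟨_, rfl⟩
    rw [← hX] at h h1
    have hr1 : (1 : ℝ) ≤ r := by linarith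
    have hr0 : (0 : ℝ) < r := by linarith
    have hX0 : 0 ≤ X := by rw [hX]; exact Real.rpow_nonneg hr0.le _
    have hσ0 : 0 < σ := hσ.pos (by norm_num)
    rcases h with ⟨h2, h3⟩ | h2
    · rcases Nat.lt_or_ge (d ^ 2) (r * m ^ 2) with h4 | h4
      · refine Empt.of_close le_rfl h16 hσ h0 ?_
        have h5 : (d : ℝ) ^ 2 + 1 ≤ r * (m : ℝ) ^ 2 := by exact_mod_cast h4
        have h6 : (m : ℝ) ^ 2 * (r - σ) ≤ 1 := by
          have h8 : (m : ℝ) ^ 2 ≤ (Real.exp (X / 2) / 2) ^ 2 :=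
            pow_le_pow_left₀ (Nat.cast_nonneg m) h3 2
          have h9 : (Real.exp (X / 2) / 2) ^ 2 = Real.exp X / 4 := by
            rw [div_pow, ← Real.exp_nat_mul]
            have e : ((2 : ℕ) : ℝ) * (X / 2) = X := by push_cast; ring
            rw [e]
            norm_num
          rw [h9] at h8
          calc (m : ℝ) ^ 2 * (r - σ) ≤ (Real.exp X / 4) * (4 * Real.exp (-X)) :=
                mul_le_mul h8 h1 h0.le (by positivity)
            _ = Real.exp X * Real.exp (-X) := by ring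
            _ = 1 := by
                rw [← Real.exp_add]
                simp
        nlinarith
      · have h5 : r * m ^ 2 = d ^ 2 := le_antisymm h4 h2
        have hm : 0 < m := by
          rcases Nat.eq_zero_or_pos m with rfl | hm
          · have : d ^ 2 = 0 := by rw [← h5]; ring
            have := pow_pos hd 2
            omega
          · exact hm
        obtain ⟨c, rfl, hc⟩ := isSquare_of_mul_sq hm h5
        refine Empt.of_square ?_ (by rw [hc, mul_comm])
        by_contra hc4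
        have : c * c ≤ 3 * 3 := Nat.mul_le_mul (by omega) (by omega)
        omega
    · refine Empt.of_close le_rfl h16 hσ h0 ?_
      have hsr : Real.sqrt r * Real.sqrt r = r := Real.mul_self_sqrt hr0.le
      obtain ⟨ε, hε⟩ : ∃ ε, ε = 4 * Real.exp (-X) / r := ⟨_, rfl⟩
      have hε0 : 0 < ε := by rw [hε]; positivity
      rw [← hε] at h2
      have hεr : ε * r = 4 * Real.exp (-X) := by
        rw [hε]
        field_simp
      have hexp1 : Real.exp (-X) ≤ 1 := by
        rw [Real.exp_le_one_iff]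
        linarith
      have h3 : ((1 + ε) * d) ^ 2 ≤ m ^ 2 * r := by
        have h4 := pow_le_pow_left₀ (by positivity) h2 2
        rw [mul_pow (m : ℝ), pow_two (Real.sqrt r), hsr] at h4
        exact h4
      have h5 : (r : ℝ) ≤ (1 + ε) ^ 2 * σ := by
        have h4 : r * (1 - ε) ≤ σ := by
          have : r * (1 - ε) = r - ε * r := by ring
          rw [this, hεr]
          linarith
        have h5a : (1 + ε) ^ 2 * (r * (1 - ε)) ≤ (1 + ε) ^ 2 * σ :=
          mul_le_mul_of_nonneg_left h4 (by positivity)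
        refine le_trans ?_ h5a
        have h5b : (1 + ε) ^ 2 * (r * (1 - ε)) = r * (1 + ε * (1 - ε - ε ^ 2)) := by ring
        rw [h5b]
        refine le_mul_of_one_le_right hr0.le ?_
        have hεs : ε ≤ 1 / 4 := by
          rw [hε, div_le_iff₀ hr0]
          linarith
        have h5c : 0 ≤ ε * (1 - ε - ε ^ 2) := mul_nonneg hε0.le (by nlinarith)
        linarith
      have h6 : ((1 + ε) * d) ^ 2 ≤ (1 + ε) ^ 2 * (m ^ 2 * σ) := by
        calc ((1 + ε) * d) ^ 2 ≤ m ^ 2 * r := h3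
          _ ≤ m ^ 2 * ((1 + ε) ^ 2 * σ) := mul_le_mul_of_nonneg_left h5 (by positivity)
          _ = (1 + ε) ^ 2 * (m ^ 2 * σ) := by ring
      rw [mul_pow] at h6
      exact le_of_mul_le_mul_left h6 (by positivity)

end Pool.Agent.W610
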